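import Pool.Agent.SST.Seq

/-!
The S-unit theorem over the rationals, from the subspace theorem.
-/

set_option autoImplicit false

namespace Pool.Agent.SST

open Matrix

namespace SUnitThm

/-- The forms: all coordinates of kappa, except that the coordinate m is replaced by the
negative of the sum (if m is in kappa). -/
def form {ι : Type} [DecidableEq ι] (i₀ m : ι) : Matrix {i : ι // i ≠ i₀} {i : ι // i ≠ i₀} ℚ :=
  Matrix.of fun i j => if (i : ι) = m then -1 else if i = j then 1 else 0

lemma form_mulVec {ι : Type} [Fintype ι] [DecidableEq ι] (i₀ m : ι) (x : ι → ℚ)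
    (hx : ∑ i, x i = 0) (i : {i : ι // i ≠ i₀}) :
    (form i₀ m *ᵥ fun j => x j) i = if (i : ι) = m then x i₀ else x i := by
  rw [Matrix.mulVec, dotProduct]
  split_ifs with h
  · have h1 : ∑ j : {i : ι // i ≠ i₀}, form i₀ m i j * x j = -∑ j : {i : ι // i ≠ i₀}, x j := by
      rw [← Finset.sum_neg_distrib]
      refine Finset.sum_congr rfl fun j _ => ?_
      simp [form, h]
    rw [h1]
    have h2 := Fintype.sum_eq_add_sum_subtype_ne x i₀
    rw [hx] at h2
    linarith
  · have h1 : ∀ j : {i : ι // i ≠ i₀}, form i₀ m i j * x j = if i = j then x j else 0 := by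
      intro j
      simp [form, h]
    rw [Finset.sum_congr rfl fun j _ => h1 j]
    simp

lemma form_det {ι : Type} [Fintype ι] [DecidableEq ι] (i₀ m : ι) :
    IsUnit (form i₀ m).det := by
  rw [isUnit_iff_ne_zero]
  intro h0
  obtain ⟨z, hz, hz0⟩ := Matrix.exists_mulVec_eq_zero_iff.2 h0
  apply hz
  -- extend z to a vector with sum zero
  set x : ι → ℚ := fun i => if h : i = i₀ then -∑ j, z j else z ⟨i, h⟩ with hx
  have hxz : (fun j : {i : ι // i ≠ i₀} => x j) = z := by
    funext j
    simp only [hx, dif_neg j.2]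
  have hsum : ∑ i, x i = 0 := by
    rw [Fintype.sum_eq_add_sum_subtype_ne x i₀]
    have : ∑ i : {i : ι // i ≠ i₀}, x i = ∑ j, z j := by rw [← hxz]
    rw [this]
    simp [hx]
  have hform := form_mulVec i₀ m x hsum
  rw [hxz, hz0] at hform
  have h1 : ∀ i : {i : ι // i ≠ i₀}, (i : ι) ≠ m → z i = 0 := by
    intro i hi
    have := hform i
    rw [if_neg hi] at this
    rw [← hxz]
    simpa using this.symm
  have h2 : x i₀ = 0 ∨ i₀ = m := by
    by_cases hm : m = i₀
    · exact Or.inr hm.symm
    · have := hform ⟨m, hm⟩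
      rw [if_pos rfl] at this
      exact Or.inl (by simpa using this.symm)
  funext i
  by_cases hi : (i : ι) = m
  · rcases h2 with h2 | h2
    · have h3 : ∑ j, z j = z i := by
        rw [Finset.sum_eq_single i]
        · intro j _ hji
          exact h1 j fun h => hji (Subtype.ext (h.trans hi.symm))
        · intro h; exact absurd (Finset.mem_univ _) h
      have h4 : x i₀ = -∑ j, z j := by simp [hx]
      rw [h2, h3] at h4
      simpa using h4.symm
    · exact absurd (hi.trans h2.symm) i.2
  · exact h1 i hi

/-- Key step: all unit solutions of the unit equation satisfy one of finitely many further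
linear equations not involving the coordinate i₀. -/
lemma exists_relations {ι : Type} [Fintype ι] [DecidableEq ι] (hι : 3 ≤ Fintype.card ι)
    (S : Finset ℕ) (hS : ∀ p ∈ S, p.Prime) (i₀ : ι) :
    ∃ B : Set (ι → ℚ), B.Finite ∧ (∀ β ∈ B, β ≠ 0 ∧ β i₀ = 0) ∧
      ∀ x : ι → ℚ, (∀ i, SUnit S (x i)) → ∑ i, x i = 0 → ∃ β ∈ B, ∑ i, β i * x i = 0 := by
  classical
  have hcard : 2 ≤ Fintype.card {i : ι // i ≠ i₀} := by
    have := Fintype.card_subtype_compl (fun i : ι => i = i₀)
    have h1 : Fintype.card {i : ι // i ≠ i₀} = Fintype.card ι - 1 := by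
      rw [this, Fintype.card_subtype_eq]
    omega
  have key := fun m : Option S → ι =>
    subspace_theorem hcard S hS (fun v => form i₀ (m v)) (fun v => form_det i₀ (m v)) 1 one_pos
  choose T hTfin hTne hT using key
  have hfun : ∀ U : Submodule ℚ ({i : ι // i ≠ i₀} → ℚ), U ≠ ⊤ →
      ∃ β : ι → ℚ, β ≠ 0 ∧ β i₀ = 0 ∧ ∀ z : ι → ℚ, (fun j : {i : ι // i ≠ i₀} => z j) ∈ U →
        ∑ i, β i * z i = 0 := by
    intro U hU
    obtain ⟨f, hf0, hf⟩ := Submodule.exists_le_ker_of_lt_top U (lt_top_iff_ne_top.2 hU)
    refine ⟨fun i => if h : i = i₀ then 0 else f (Pi.single ⟨i, h⟩ 1), ?_, by simp, ?_⟩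
    · intro h0
      apply hf0
      refine LinearMap.pi_ext' fun i => ?_
      ext
      have := congrFun h0 i
      simp only [dif_neg i.2] at this
      simpa using this
    · intro z hz
      have h2 : f (fun j : {i : ι // i ≠ i₀} => z j) = 0 := hf hz
      rw [Fintype.sum_eq_add_sum_subtype_ne _ i₀]
      simp only [dite_true, zero_mul, zero_add]
      rw [← h2]
      conv_rhs => rw [LinearMap.pi_apply_eq_sum_univ f]
      refine Finset.sum_congr rfl fun i _ => ?_
      have h5 : (Pi.single i 1 : {i : ι // i ≠ i₀} → ℚ) = fun j => if i = j then 1 else 0 := by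
        funext j
        by_cases hij : j = i
        · subst hij; simp
        · simp [hij, Ne.symm hij]
      rw [dif_neg i.2, smul_eq_mul, mul_comm, ← h5]
  choose! b hb0 hb1 hb2 using hfun
  refine ⟨⋃ m : Option S → ι, b '' T m, Set.finite_iUnion fun m => (hTfin m).image b, ?_, ?_⟩
  · intro β hβ
    obtain ⟨m, hm⟩ := Set.mem_iUnion.1 hβ
    obtain ⟨U, hU, rfl⟩ := hm
    exact ⟨hb0 U (hTne m U hU), hb1 U (hTne m U hU)⟩
  · intro x hx hsum
    have hx0 : x ≠ 0 := fun h => (hx i₀).1 (congrFun h i₀)
    obtain ⟨u, y, hu, hy, hy1⟩ := Seq.exists_scale S hS x hx0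
      (fun i q hq hqS => ((hx i).2 q hq hqS).le)
    have hyS : ∀ i, SUnit S (y i : ℚ) := fun i => by rw [hy]; exact hu.mul (hx i)
    have hysum : ∑ i, (y i : ℚ) = 0 := by
      rw [Finset.sum_congr rfl fun i _ => hy i, ← Finset.mul_sum, hsum, mul_zero]
    have hmax : ∀ v : Option S, ∃ i, ∀ j, plc S hS v (y j : ℚ) ≤ plc S hS v (y i : ℚ) := by
      intro v
      obtain ⟨i, -, hi⟩ := Finset.exists_max_image Finset.univ
        (fun i => plc S hS v (y i : ℚ)) ⟨i₀, Finset.mem_univ _⟩
      exact ⟨i, fun j => hi j (Finset.mem_univ _)⟩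
    choose m hm using hmax
    set z : {i : ι // i ≠ i₀} → ℤ := fun j => y j with hz
    have hpos : ∀ v i, 0 < plc S hS v (y i : ℚ) := fun v i =>
      (plc S hS v).pos (hyS i).1
    have hprodv : ∀ v, (∏ i, plc S hS v ((form i₀ (m v) *ᵥ qv z) i)) * plc S hS v (y (m v) : ℚ)
        = ∏ i, plc S hS v (y i : ℚ) := by
      intro v
      have h1 : ∀ i : {i : ι // i ≠ i₀}, (form i₀ (m v) *ᵥ qv z) i =
          if (i : ι) = m v then (y i₀ : ℚ) else (y i : ℚ) := fun i =>
        form_mulVec i₀ (m v) (fun i => (y i : ℚ)) hysum i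
      rw [Finset.prod_congr rfl fun i _ => by rw [h1 i]]
      rw [Fintype.prod_eq_mul_prod_subtype_ne (fun i => plc S hS v (y i : ℚ)) i₀]
      by_cases hmv : m v = i₀
      · rw [hmv, mul_comm]
        congr 1
        refine Finset.prod_congr rfl fun i _ => ?_
        rw [if_neg i.2]
      · rw [← Finset.mul_prod_erase Finset.univ _ (Finset.mem_univ (⟨m v, hmv⟩ : {i // i ≠ i₀})),
          ← Finset.mul_prod_erase Finset.univ (fun i : {i // i ≠ i₀} => plc S hS v (y i : ℚ))
            (Finset.mem_univ (⟨m v, hmv⟩ : {i // i ≠ i₀}))]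
        have h2 : ∏ i ∈ Finset.univ.erase (⟨m v, hmv⟩ : {i // i ≠ i₀}),
            plc S hS v (if (i : ι) = m v then (y i₀ : ℚ) else (y i : ℚ)) =
            ∏ i ∈ Finset.univ.erase (⟨m v, hmv⟩ : {i // i ≠ i₀}), plc S hS v (y i : ℚ) := by
          refine Finset.prod_congr rfl fun i hi => ?_
          rw [if_neg fun h => (Finset.ne_of_mem_erase hi) (Subtype.ext h)]
        rw [h2, if_pos rfl]
        ring
    have hzne : z ≠ 0 := by
      intro h
      have hne : Nonempty {i : ι // i ≠ i₀} := Fintype.card_pos_iff.1 (by omega)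
      have := congrFun h hne.some
      exact (hyS (hne.some : ι)).1 (by rw [hz] at this; simpa using this)
    have hbig : ∏ v, plc S hS v (y (m v) : ℚ) = plc S hS none (y (m none) : ℚ) := by
      rw [Fintype.prod_option]
      have : ∀ p : S, plc S hS (some p) (y (m (some p)) : ℚ) = 1 := by
        intro p
        apply le_antisymm
        · rw [plc_some_apply]
          exact_mod_cast padicNorm.of_int (p := p) _ (hp := ⟨hS p p.2⟩)
        · obtain ⟨i, hi⟩ := hy1 p p.2
          have h3 := hm (some p) i
          rw [plc_some_apply (x := (y i : ℚ)), hi, Rat.cast_one] at h3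
          exact h3
      rw [Finset.prod_congr rfl fun p _ => this p, Finset.prod_const_one, mul_one]
    have hineq : ∏ v, ∏ i, plc S hS v ((form i₀ (m v) *ᵥ qv z) i) ≤ ‖z‖ ^ (-(1 : ℝ)) := by
      have h1 : (∏ v, ∏ i, plc S hS v ((form i₀ (m v) *ᵥ qv z) i)) *
          plc S hS none (y (m none) : ℚ) = 1 := by
        rw [← hbig, ← Finset.prod_mul_distrib, Finset.prod_congr rfl fun v _ => hprodv v,
          Finset.prod_comm, Finset.prod_congr rfl fun i _ => prod_plc_sunit hS (hyS i),
          Finset.prod_const_one]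
      have h2 : ‖z‖ ≤ plc S hS none (y (m none) : ℚ) := by
        refine (pi_norm_le_iff_of_nonneg (hpos _ _).le).2 fun i => ?_
        have h4 : ‖z i‖ = plc S hS none ((y i : ℚ)) := by
          rw [plc_none_apply, Int.norm_eq_abs]
          simp [hz]
        rw [h4]
        exact hm none _
      rw [Real.rpow_neg_one, eq_inv_of_mul_eq_one_left h1]
      exact inv_anti₀ (norm_pos_iff.2 hzne) h2
    obtain ⟨U, hU, hzU⟩ := hT m z hzne hineq
    refine ⟨b U, Set.mem_iUnion.2 ⟨m, U, hU, rfl⟩, ?_⟩
    have h1 := hb2 U (hTne m U hU) (fun i => (y i : ℚ)) hzU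
    have h2 : u * ∑ i, b U i * x i = 0 := by
      rw [← h1, Finset.mul_sum]
      refine Finset.sum_congr rfl fun i _ => ?_
      rw [hy i]
      ring
    rcases mul_eq_zero.1 h2 with h3 | h3
    · exact absurd h3 hu.1
    · exact h3

lemma exists_extend {α : Type} [Finite α] (S : Finset ℕ) (hS : ∀ p ∈ S, p.Prime) (c : α → ℚ)
    (hc : ∀ a, c a ≠ 0) :
    ∃ S' : Finset ℕ, S ⊆ S' ∧ (∀ p ∈ S', p.Prime) ∧ ∀ a, SUnit S' (c a) := by
  classical
  have := Fintype.ofFinite α
  refine ⟨S ∪ Finset.univ.biUnion fun a => (c a).num.natAbs.primeFactors ∪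
    (c a).den.primeFactors, Finset.subset_union_left, ?_, ?_⟩
  · intro p hp
    rcases Finset.mem_union.1 hp with h | h
    · exact hS p h
    · obtain ⟨a, -, ha⟩ := Finset.mem_biUnion.1 h
      rcases Finset.mem_union.1 ha with h | h <;> exact Nat.prime_of_mem_primeFactors h
  · intro a
    refine ⟨hc a, fun q hq hqS => ?_⟩
    have h1 := Fact.mk hq
    have h2 : q ∉ (c a).num.natAbs.primeFactors ∪ (c a).den.primeFactors := fun h =>
      hqS (Finset.mem_union_right _ (Finset.mem_biUnion.2 ⟨a, Finset.mem_univ _, h⟩))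
    rw [Finset.mem_union, not_or] at h2
    have h3 : ¬ q ∣ (c a).num.natAbs := fun h => h2.1 (Nat.mem_primeFactors.2
      ⟨hq, h, Int.natAbs_ne_zero.2 (Rat.num_ne_zero.2 (hc a))⟩)
    have h4 : ¬ q ∣ (c a).den := fun h => h2.2 (Nat.mem_primeFactors.2 ⟨hq, h, (c a).den_nz⟩)
    have h5 : padicNorm q ((c a).num : ℚ) = 1 := (padicNorm.int_eq_one_iff _).2 fun h =>
      h3 (Int.natCast_dvd.1 h)
    have h6 : padicNorm q ((c a).den : ℚ) = 1 := (padicNorm.nat_eq_one_iff _).2 h4
    rw [← Rat.num_div_den (c a), padicNorm.div, h5, h6, div_one]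

/-- No vanishing proper subsum. -/
def NonDeg {ι : Type} [Fintype ι] (x : ι → ℚ) : Prop :=
  ∀ T : Finset ι, T.Nonempty → T ≠ Finset.univ → ∑ i ∈ T, x i ≠ 0

/-- Finitely many ratios among the solutions with property P. -/
def Few {ι : Type} [Fintype ι] (S : Finset ℕ) (P : (ι → ℚ) → Prop) : Prop :=
  ∃ F : Set ℚ, F.Finite ∧ ∀ x : ι → ℚ, (∀ i, SUnit S (x i)) → ∑ i, x i = 0 → NonDeg x →
    P x → ∀ i j, x i / x j ∈ F

lemma Few.union {ι α : Type} [Fintype ι] {S : Finset ℕ} {P : (ι → ℚ) → Prop} (A : Set α)
    (hA : A.Finite) (Q : α → (ι → ℚ) → Prop) (hQ : ∀ a ∈ A, Few S (Q a))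
    (h : ∀ x : ι → ℚ, (∀ i, SUnit S (x i)) → ∑ i, x i = 0 → NonDeg x → P x → ∃ a ∈ A, Q a x) :
    Few S P := by
  choose! F hF hF' using hQ
  refine ⟨⋃ a ∈ A, F a, hA.biUnion hF, fun x hx hs hn hP i j => ?_⟩
  obtain ⟨a, ha, hax⟩ := h x hx hs hn hP
  exact Set.mem_biUnion ha (hF' a ha x hx hs hn hax i j)

lemma exists_minimal {ι : Type} [Fintype ι] [DecidableEq ι] (z : ι → ℚ) (J : Finset ι)
    (hJ : J.Nonempty) (hz : ∑ i ∈ J, z i = 0) :
    ∃ J' ⊆ J, J'.Nonempty ∧ ∑ i ∈ J', z i = 0 ∧
      ∀ T ⊆ J', T.Nonempty → T ≠ J' → ∑ i ∈ T, z i ≠ 0 := by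
  obtain ⟨J', hJ', hmin⟩ := Finset.exists_min_image
    (J.powerset.filter fun T => T.Nonempty ∧ ∑ i ∈ T, z i = 0) Finset.card
    ⟨J, by simp [hJ, hz]⟩
  rw [Finset.mem_filter, Finset.mem_powerset] at hJ'
  refine ⟨J', hJ'.1, hJ'.2.1, hJ'.2.2, fun T hT hTn hTne hT0 => ?_⟩
  have h1 := hmin T (by
    rw [Finset.mem_filter, Finset.mem_powerset]
    exact ⟨hT.trans hJ'.1, hTn, hT0⟩)
  exact hTne (Finset.eq_of_subset_of_card_le hT h1)

lemma few_all (n : ℕ) : ∀ (ι : Type) [Fintype ι], Fintype.card ι = n → ∀ S : Finset ℕ,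
    (∀ p ∈ S, p.Prime) → Few (ι := ι) S fun _ => True := by
  classical
  induction n using Nat.strong_induction_on with
  | _ n ih =>
  intro ι _ hn S hS
  by_cases hn3 : 3 ≤ n
  swap
  · -- at most two terms
    refine ⟨{1, -1}, by simp, fun x hx hs hnd _ i j => ?_⟩
    by_cases hij : i = j
    · subst hij
      rw [div_self (hx i).1]
      simp
    · have hu : (Finset.univ : Finset ι) = {i, j} := by
        symm
        apply Finset.eq_univ_of_card
        have h1 : Finset.card ({i, j} : Finset ι) = 2 := Finset.card_pair hij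
        have h2 := Finset.card_le_univ ({i, j} : Finset ι)
        omega
      rw [hu, Finset.sum_pair hij] at hs
      have h1 : x i = -x j := by linarith
      rw [h1, neg_div, div_self (hx j).1]
      simp
  · obtain ⟨i₀⟩ : Nonempty ι := Fintype.card_pos_iff.1 (by omega)
    obtain ⟨B, hBfin, hB0, hB⟩ := exists_relations (by omega) S hS i₀
    -- reduce to a fixed relation and a fixed minimal subset
    refine Few.union (B ×ˢ (Set.univ : Set (Finset ι)))
      (hBfin.prod Set.finite_univ)
      (fun a x => a.2.Nonempty ∧ (∀ i ∈ a.2, a.1 i ≠ 0) ∧ ∑ i ∈ a.2, a.1 i * x i = 0 ∧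
        ∀ T ⊆ a.2, T.Nonempty → T ≠ a.2 → ∑ i ∈ T, a.1 i * x i ≠ 0) ?_ ?_
    swap
    · intro x hx hs hnd _
      obtain ⟨β, hβ, hβx⟩ := hB x hx hs
      have hne : (Finset.univ.filter fun i => β i ≠ (0 : ℚ)).Nonempty := by
        by_contra h
        rw [Finset.not_nonempty_iff_eq_empty] at h
        apply (hB0 β hβ).1
        funext i
        by_contra h2
        have : i ∈ (Finset.univ.filter fun i => β i ≠ 0) := by simpa using h2
        rw [h] at this
        simp at this
      have hs' : ∑ i ∈ (Finset.univ.filter fun i => β i ≠ (0 : ℚ)), β i * x i = 0 := by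
        refine Eq.trans ?_ hβx
        refine Finset.sum_subset (Finset.subset_univ _) fun i _ hi => ?_
        have : β i = 0 := by
          by_contra h
          exact hi (Finset.mem_filter.2 ⟨Finset.mem_univ _, h⟩)
        rw [this, zero_mul]
      obtain ⟨J', hJ'1, hJ'2, hJ'3, hJ'4⟩ := exists_minimal (fun i => β i * x i) _ hne hs'
      exact ⟨(β, J'), ⟨hβ, Set.mem_univ _⟩, hJ'2, fun i hi => by simpa using hJ'1 hi, hJ'3, hJ'4⟩
    · rintro ⟨β, J⟩ ⟨hβ, -⟩
      simp only at hβ ⊢
      by_cases hJ : J.Nonempty ∧ ∀ i ∈ J, β i ≠ 0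
      swap
      · exact ⟨∅, Set.finite_empty, fun x _ _ _ hP => absurd ⟨hP.1, hP.2.1⟩ hJ⟩
      obtain ⟨⟨j₀, hj₀⟩, hJβ⟩ := hJ
      have hi₀J : i₀ ∉ J := fun h => hJβ i₀ h (hB0 β hβ).2
      have hJcard : Fintype.card J < n := by
        rw [Fintype.card_coe, ← hn]
        exact Finset.card_lt_univ_of_notMem hi₀J
      obtain ⟨S₁, hSS₁, hS₁, hβ₁⟩ := exists_extend S hS (fun i : J => β i) fun i => hJβ i i.2
      obtain ⟨F₁, hF₁, hF₁'⟩ := ih _ hJcard J rfl S₁ hS₁
      -- the possible ratios inside J
      set R : Set ℚ := ⋃ i : J, ⋃ j : J, (fun f => β j / β i * f) '' F₁ with hR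
      have hRfin : R.Finite :=
        Set.finite_iUnion fun i => Set.finite_iUnion fun j => hF₁.image _
      have hratio : ∀ x : ι → ℚ, (∀ i, SUnit S (x i)) → ∑ i ∈ J, β i * x i = 0 →
          (∀ T ⊆ J, T.Nonempty → T ≠ J → ∑ i ∈ T, β i * x i ≠ 0) →
          ∀ i j : J, x i / x j ∈ R := by
        intro x hx h1 h2 i j
        have h3 := hF₁' (fun i : J => β i * x i) (fun i => (hβ₁ i).mul ((hx i).mono hSS₁))
          (by rw [Finset.sum_coe_sort J fun i => β i * x i]; exact h1) ?_ trivial i j
        · refine Set.mem_iUnion.2 ⟨i, Set.mem_iUnion.2 ⟨j, _, h3, ?_⟩⟩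
          have hi := hJβ i i.2
          have hj := hJβ j j.2
          have hxj := (hx j).1
          field_simp
        · intro T hT hTne
          have h4 := h2 (T.map (Function.Embedding.subtype _)) ?_ ?_ ?_
          · rwa [Finset.sum_map] at h4
          · intro a ha
            obtain ⟨b, -, rfl⟩ := Finset.mem_map.1 ha
            exact b.2
          · exact (Finset.map_nonempty).2 hT
          · intro h5
            apply hTne
            rw [Finset.eq_univ_iff_forall]
            intro a
            have : (a : ι) ∈ T.map (Function.Embedding.subtype _) := by rw [h5]; exact a.2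
            obtain ⟨b, hb, hba⟩ := Finset.mem_map.1 this
            have : b = a := Subtype.ext hba
            rwa [← this]
      by_cases hJ1 : J.card = 1
      · refine ⟨∅, Set.finite_empty, fun x hx hs hnd hP => ?_⟩
        exfalso
        obtain ⟨a, ha⟩ := Finset.card_eq_one.1 hJ1
        have h1 := hP.2.2.1
        rw [ha, Finset.sum_singleton] at h1
        exact mul_ne_zero (hJβ a (by rw [ha]; simp)) (hx a).1 h1
      have hJ2 : 2 ≤ J.card := by
        have : 0 < J.card := Finset.card_pos.2 ⟨j₀, hj₀⟩
        omega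
      -- fix the ratios
      refine Few.union (Set.pi Set.univ fun _ : J => R) (Set.Finite.pi fun _ => hRfin)
        (fun ρ x => ∀ i : J, x i = ρ i * x j₀) ?_ ?_
      swap
      · intro x hx hs hnd hP
        refine ⟨fun i => x i / x j₀, fun i _ => hratio x hx hP.2.2.1 hP.2.2.2 i ⟨j₀, hj₀⟩,
          fun i => ?_⟩
        rw [div_mul_cancel₀ _ (hx j₀).1]
      · intro ρ _
        set c : ℚ := ∑ i, ρ i with hc
        by_cases hc0 : c = 0
        · refine ⟨∅, Set.finite_empty, fun x hx hs hnd hP => ?_⟩
          exfalso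
          refine hnd J ⟨j₀, hj₀⟩ (fun h => hi₀J (h ▸ Finset.mem_univ _)) ?_
          rw [← Finset.sum_coe_sort J x, Finset.sum_congr rfl fun i _ => hP i,
            ← Finset.sum_mul, ← hc, hc0, zero_mul]
        · obtain ⟨S₂, hSS₂, hS₂, hc₂⟩ := exists_extend S hS (fun _ : Unit => c) fun _ => hc0
          have hc₂ := hc₂ ()
          -- the smaller equation
          set K : Finset ι := insert j₀ (Finset.univ \ J) with hK
          have hj₀K : j₀ ∉ Finset.univ \ J := fun h => (Finset.mem_sdiff.1 h).2 hj₀
          have hKcard : Fintype.card K < n := by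
            rw [Fintype.card_coe, hK, Finset.card_insert_of_notMem hj₀K, Finset.card_univ_sdiff]
            have := Finset.card_le_univ J
            omega
          obtain ⟨F₂, hF₂, hF₂'⟩ := ih _ hKcard K rfl S₂ hS₂
          -- representatives
          set r : ι → K := fun i => if h : i ∈ J then ⟨j₀, Finset.mem_insert_self _ _⟩ else
            ⟨i, Finset.mem_insert_of_mem (Finset.mem_sdiff.2 ⟨Finset.mem_univ _, h⟩)⟩ with hr
          set a : ι → ℚ := fun i => if h : i ∈ J then ρ ⟨i, h⟩ / c else 1 with ha
          refine ⟨⋃ i : ι, ⋃ j : ι, (fun f => a i / a j * f) '' F₂,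
            Set.finite_iUnion fun i => Set.finite_iUnion fun j => hF₂.image _,
            fun x hx hs hnd hP i j => ?_⟩
          set y : K → ℚ := fun i => if (i : ι) = j₀ then c * x j₀ else x i with hy
          have hxy : ∀ i, x i = a i * y (r i) := by
            intro i
            by_cases hi : i ∈ J
            · simp only [ha, hr, hy, dif_pos hi, if_true]
              rw [hP ⟨i, hi⟩]
              field_simp
            · have hne : i ≠ j₀ := fun h => hi (h ▸ hj₀)
              simp only [ha, hr, hy, dif_neg hi, if_neg hne, one_mul]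
          have hsumJ : ∑ i ∈ J, x i = c * x j₀ := by
            rw [← Finset.sum_coe_sort J x, Finset.sum_congr rfl fun i _ => hP i,
              ← Finset.sum_mul, ← hc]
          -- sums over subsets of K
          have hsumK : ∀ T : Finset K, ∑ i ∈ T, y i = ∑ i ∈ Finset.univ.filter fun i => r i ∈ T, x i := by
            intro T
            have h1 : ∀ i : K, ∑ k ∈ Finset.univ.filter (fun k => r k = i), x k = y i := by
              intro i
              by_cases hi : (i : ι) = j₀
              · have h2 : (Finset.univ.filter fun k => r k = i) = J := by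
                  ext k
                  simp only [Finset.mem_filter, Finset.mem_univ, true_and]
                  constructor
                  · intro hk
                    by_contra hkJ
                    simp only [hr, dif_neg hkJ] at hk
                    have : k = j₀ := by rw [← hi, ← hk]
                    exact hkJ (this ▸ hj₀)
                  · intro hk
                    simp only [hr, dif_pos hk]
                    exact Subtype.ext hi.symm
                rw [h2, hsumJ]
                simp only [hy, if_pos hi]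
              · have hiJ : (i : ι) ∉ J := by
                  rcases Finset.mem_insert.1 i.2 with h | h
                  · exact absurd h hi
                  · exact (Finset.mem_sdiff.1 h).2
                have h2 : (Finset.univ.filter fun k => r k = i) = {(i : ι)} := by
                  ext k
                  simp only [Finset.mem_filter, Finset.mem_univ, true_and, Finset.mem_singleton]
                  constructor
                  · intro hk
                    by_cases hkJ : k ∈ J
                    · simp only [hr, dif_pos hkJ] at hk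
                      exact absurd (congrArg Subtype.val hk).symm hi
                    · simp only [hr, dif_neg hkJ] at hk
                      exact congrArg Subtype.val hk
                  · rintro rfl
                    simp only [hr, dif_neg hiJ]
                rw [h2, Finset.sum_singleton]
                simp only [hy, if_neg hi]
            rw [← Finset.sum_congr rfl fun i _ => h1 i]
            exact Finset.sum_fiberwise_eq_sum_filter _ _ _ _
          have hrself : ∀ k : K, r k = k := by
            intro k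
            by_cases hk : (k : ι) ∈ J
            · have h2 : (k : ι) = j₀ := by
                rcases Finset.mem_insert.1 k.2 with h | h
                · exact h
                · exact absurd hk (Finset.mem_sdiff.1 h).2
              simp only [hr, dif_pos hk]
              exact Subtype.ext h2.symm
            · simp only [hr, dif_neg hk]
          have hyS : ∀ k, SUnit S₂ (y k) := by
            intro k
            simp only [hy]
            split_ifs
            · exact hc₂.mul ((hx _).mono hSS₂)
            · exact (hx _).mono hSS₂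
          have hys : ∑ k, y k = 0 := by
            rw [hsumK, ← hs]
            refine Finset.sum_congr ?_ fun _ _ => rfl
            ext k
            simp
          have hyn : NonDeg y := by
            intro T hT hTne
            rw [hsumK]
            refine hnd _ ?_ ?_
            · obtain ⟨t, ht⟩ := hT
              exact ⟨t, by simpa [hrself t] using ht⟩
            · intro h
              apply hTne
              rw [Finset.eq_univ_iff_forall]
              intro t
              have h2 : (t : ι) ∈ Finset.univ.filter fun i => r i ∈ T := by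
                rw [h]; exact Finset.mem_univ _
              have h3 := (Finset.mem_filter.1 h2).2
              rwa [hrself t] at h3
          refine Set.mem_iUnion.2 ⟨i, Set.mem_iUnion.2 ⟨j, _,
            hF₂' y hyS hys hyn trivial (r i) (r j), ?_⟩⟩
          rw [hxy i, hxy j, mul_div_mul_comm]

end SUnitThm

/-- The S-unit theorem over the rationals: for given S and number of terms there are only
finitely many ratios of terms in nondegenerate vanishing sums of S-units. -/
theorem sunit_finite (ι : Type) [Fintype ι] (S : Finset ℕ) :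
    ∃ F : Set ℚ, F.Finite ∧ ∀ x : ι → ℚ, (∀ i, SUnit S (x i)) → ∑ i, x i = 0 →
      (∀ T : Finset ι, T.Nonempty → T ≠ Finset.univ → ∑ i ∈ T, x i ≠ 0) →
      ∀ i j, x i / x j ∈ F := by
  classical
  obtain ⟨F, hF, hF'⟩ := SUnitThm.few_all (Fintype.card ι) ι rfl (S.filter Nat.Prime)
    (fun p hp => (Finset.mem_filter.1 hp).2)
  refine ⟨F, hF, fun x hx hs hn i j => hF' x (fun i => ⟨(hx i).1, fun q hq hqS => ?_⟩) hs hn
    trivial i j⟩
  exact (hx i).2 q hq fun h => hqS (Finset.mem_filter.2 ⟨h, hq⟩)

end Pool.Agent.SST
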