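import Pool.Agent.SST.Defs

/-!
Units of the ring of S-integers of the rationals, product formula.
-/

set_option autoImplicit false

namespace Pool.Agent.SST

/-- Nonzero rational numbers which are units outside the primes of S (units with sign). -/
def SUnit (S : Finset ℕ) (x : ℚ) : Prop :=
  x ≠ 0 ∧ ∀ q : ℕ, q.Prime → q ∉ S → padicNorm q x = 1

namespace SUnit

variable {S : Finset ℕ} {x y : ℚ}

lemma one (S : Finset ℕ) : SUnit S 1 := ⟨one_ne_zero, fun _ _ _ => padicNorm.one⟩

lemma mul (hx : SUnit S x) (hy : SUnit S y) : SUnit S (x * y) := by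
  refine ⟨mul_ne_zero hx.1 hy.1, fun q hq hqS => ?_⟩
  have := Fact.mk hq
  rw [padicNorm.mul, hx.2 q hq hqS, hy.2 q hq hqS, one_mul]

lemma inv (hx : SUnit S x) : SUnit S x⁻¹ := by
  refine ⟨inv_ne_zero hx.1, fun q hq hqS => ?_⟩
  have := Fact.mk hq
  rw [← one_div, padicNorm.div, hx.2 q hq hqS, padicNorm.one, one_div_one]

lemma div (hx : SUnit S x) (hy : SUnit S y) : SUnit S (x / y) := by
  rw [div_eq_mul_inv]; exact hx.mul hy.inv

lemma neg (hx : SUnit S x) : SUnit S (-x) := by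
  refine ⟨neg_ne_zero.2 hx.1, fun q hq hqS => ?_⟩
  rw [padicNorm.neg, hx.2 q hq hqS]

lemma pow (hx : SUnit S x) (n : ℕ) : SUnit S (x ^ n) := by
  induction n with
  | zero => simpa using one S
  | succ n ih => rw [pow_succ]; exact ih.mul hx

lemma zpow (hx : SUnit S x) (n : ℤ) : SUnit S (x ^ n) := by
  cases n with
  | ofNat n => simpa using hx.pow n
  | negSucc n => rw [zpow_negSucc]; exact (hx.pow _).inv

lemma mono {S' : Finset ℕ} (h : S ⊆ S') (hx : SUnit S x) : SUnit S' x :=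
  ⟨hx.1, fun q hq hqS => hx.2 q hq fun h' => hqS (h h')⟩

lemma prime {p : ℕ} (hp : p.Prime) (hpS : p ∈ S) : SUnit S (p : ℚ) := by
  refine ⟨by exact_mod_cast hp.ne_zero, fun q hq hqS => ?_⟩
  have := Fact.mk hq
  have := Fact.mk hp
  exact padicNorm.padicNorm_of_prime_of_ne (fun h => hqS (h ▸ hpS))

lemma prod {α : Type} (s : Finset α) (f : α → ℚ) (h : ∀ a ∈ s, SUnit S (f a)) :
    SUnit S (∏ a ∈ s, f a) := by
  classical
  induction s using Finset.induction_on with
  | empty => simpa using one S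
  | insert a s ha ih =>
    rw [Finset.prod_insert ha]
    exact (h a (Finset.mem_insert_self _ _)).mul
      (ih fun b hb => h b (Finset.mem_insert_of_mem hb))

end SUnit

/-- A rational number which is integral at all primes is an integer. -/
lemma exists_int_of_padicNorm_le {x : ℚ} (h : ∀ q : ℕ, q.Prime → padicNorm q x ≤ 1) :
    ∃ z : ℤ, x = z := by
  have hden : x.den = 1 := by
    by_contra hne
    obtain ⟨q, hq, hqd⟩ := Nat.exists_prime_and_dvd hne
    have := Fact.mk hq
    have h1 := h q hq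
    have h2 : padicNorm q (x.den : ℚ) < 1 := (padicNorm.nat_lt_one_iff _).2 hqd
    have h3 : padicNorm q (x.num : ℚ) = 1 := by
      rw [padicNorm.int_eq_one_iff]
      intro h4
      have h5 : q ∣ x.num.natAbs := Int.natCast_dvd.1 h4
      exact hq.one_lt.ne' (Nat.dvd_one.1 (x.reduced ▸ Nat.dvd_gcd h5 hqd))
    have h4 : x * x.den = x.num := Rat.mul_den_eq_num x
    have h5 : padicNorm q x * padicNorm q (x.den : ℚ) = 1 := by
      rw [← padicNorm.mul, h4, h3]
    have h6 : 0 ≤ padicNorm q (x.den : ℚ) := padicNorm.nonneg _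
    nlinarith [padicNorm.nonneg (p := q) x]
  exact ⟨x.num, ((Rat.den_eq_one_iff x).1 hden).symm⟩

/-- A rational number which is a unit at all primes is 1 or -1. -/
lemma abs_eq_one_of_padicNorm_eq {x : ℚ} (h : ∀ q : ℕ, q.Prime → padicNorm q x = 1) :
    |x| = 1 := by
  have hx : x ≠ 0 := by
    rintro rfl
    have := h 2 Nat.prime_two
    simp at this
  obtain ⟨z, hz⟩ := exists_int_of_padicNorm_le fun q hq => (h q hq).le
  obtain ⟨z', hz'⟩ := exists_int_of_padicNorm_le (x := x⁻¹) fun q hq => by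
    have := Fact.mk hq
    rw [← one_div, padicNorm.div, h q hq, padicNorm.one, one_div_one]
  have h1 : (z : ℚ) * z' = 1 := by rw [← hz, ← hz', mul_inv_cancel₀ hx]
  have h2 : z * z' = 1 := by exact_mod_cast h1
  rcases Int.eq_one_or_neg_one_of_mul_eq_one h2 with h3 | h3 <;> rw [hz, h3] <;> simp

lemma padicNorm_prod_zpow {S : Finset ℕ} (hS : ∀ p ∈ S, p.Prime) (e : ℕ → ℤ) {q : ℕ}
    (hq : q.Prime) :
    padicNorm q (∏ p ∈ S, (p : ℚ) ^ e p) = if q ∈ S then (q : ℚ) ^ (-e q) else 1 := by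
  classical
  have := Fact.mk hq
  have hself : padicNorm q ((q : ℚ) ^ e q) = (q : ℚ) ^ (-e q) := by
    have := map_zpow₀ (Rat.AbsoluteValue.padic q) (q : ℚ) (e q)
    rw [Rat.AbsoluteValue.padic_eq_padicNorm, Rat.AbsoluteValue.padic_eq_padicNorm,
      padicNorm.padicNorm_p_of_prime] at this
    have h2 : padicNorm q ((q : ℚ) ^ e q) = ((q : ℚ)⁻¹) ^ e q := by exact_mod_cast this
    rw [h2, inv_zpow, zpow_neg]
  have hother : ∀ p ∈ S, p ≠ q → padicNorm q ((p : ℚ) ^ e p) = 1 := by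
    intro p hp hpq
    have h0 := Fact.mk (hS p hp)
    have h1 := map_zpow₀ (Rat.AbsoluteValue.padic q) (p : ℚ) (e p)
    rw [Rat.AbsoluteValue.padic_eq_padicNorm, Rat.AbsoluteValue.padic_eq_padicNorm,
      padicNorm.padicNorm_of_prime_of_ne (Ne.symm hpq)] at h1
    have h2 : ((padicNorm q ((p : ℚ) ^ e p) : ℚ) : ℝ) = 1 := by simpa using h1
    exact_mod_cast h2
  have hprod : padicNorm q (∏ p ∈ S, (p : ℚ) ^ e p) = ∏ p ∈ S, padicNorm q ((p : ℚ) ^ e p) := by
    clear hself hother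
    induction S using Finset.induction_on with
    | empty => simp
    | insert a s ha ih =>
      rw [Finset.prod_insert ha, Finset.prod_insert ha, padicNorm.mul,
        ih fun p hp => hS p (Finset.mem_insert_of_mem hp)]
  rw [hprod]
  by_cases hqS : q ∈ S
  · rw [if_pos hqS, ← Finset.mul_prod_erase S _ hqS, hself,
      Finset.prod_eq_one fun p hp => hother p (Finset.mem_of_mem_erase hp)
        (Finset.ne_of_mem_erase hp), mul_one]
  · rw [if_neg hqS]
    exact Finset.prod_eq_one fun p hp => hother p hp fun h => hqS (h ▸ hp)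

lemma sunit_prod_zpow {S : Finset ℕ} (hS : ∀ p ∈ S, p.Prime) (e : ℕ → ℤ) :
    SUnit S (∏ p ∈ S, (p : ℚ) ^ e p) :=
  SUnit.prod S _ fun p hp => (SUnit.prime (hS p hp) hp).zpow _

lemma plc_some_apply {S : Finset ℕ} (hS : ∀ p ∈ S, p.Prime) (p : S) (x : ℚ) :
    plc S hS (some p) x = (padicNorm p x : ℝ) := rfl

lemma plc_none_apply {S : Finset ℕ} (hS : ∀ p ∈ S, p.Prime) (x : ℚ) :
    plc S hS none x = |(x : ℝ)| := rfl

/-- The product formula for S-units. -/
lemma prod_plc_sunit {S : Finset ℕ} (hS : ∀ p ∈ S, p.Prime) {x : ℚ} (hx : SUnit S x) :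
    ∏ v, plc S hS v x = 1 := by
  classical
  set e : ℕ → ℤ := fun p => padicValRat p x with he
  set u : ℚ := ∏ p ∈ S, (p : ℚ) ^ e p with hu
  have hu0 : 0 < u := Finset.prod_pos fun p hp => zpow_pos (by exact_mod_cast (hS p hp).pos) _
  have hnx : ∀ q : ℕ, q.Prime → padicNorm q x = if q ∈ S then (q : ℚ) ^ (-e q) else 1 := by
    intro q hq
    split_ifs with h
    · rw [padicNorm, if_neg hx.1]
    · exact hx.2 q hq h
  have h1 : |x / u| = 1 := by
    apply abs_eq_one_of_padicNorm_eq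
    intro q hq
    have := Fact.mk hq
    rw [padicNorm.div, hnx q hq, hu, padicNorm_prod_zpow hS e hq]
    refine div_self ?_
    split_ifs
    · exact zpow_ne_zero _ (by exact_mod_cast hq.ne_zero)
    · exact one_ne_zero
  have h2 : |x| = u := by
    rw [abs_div, abs_of_pos hu0, div_eq_one_iff_eq hu0.ne'] at h1
    exact h1
  rw [Fintype.prod_option]
  have h3 : ∏ p : S, plc S hS (some p) x = ((u⁻¹ : ℚ) : ℝ) := by
    have : ∀ p : S, plc S hS (some p) x = (((p : ℕ) : ℝ) ^ (-e p)) := by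
      intro p
      rw [plc_some_apply, hnx p (hS p p.2), if_pos p.2]
      push_cast
      rfl
    rw [Finset.prod_congr rfl fun p _ => this p]
    rw [Finset.prod_coe_sort S (fun p : ℕ => ((p : ℝ)) ^ (-e p))]
    rw [hu, ← Finset.prod_inv_distrib]
    push_cast
    exact Finset.prod_congr rfl fun p _ => by rw [zpow_neg]
  rw [h3, plc_none_apply]
  have h4 : |(x : ℝ)| = ((u : ℚ) : ℝ) := by rw [← h2]; push_cast; rfl
  rw [h4, ← Rat.cast_mul, mul_inv_cancel₀ hu0.ne', Rat.cast_one]

end Pool.Agent.SST
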