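import Pool.Agent.SST.Main
import Pool.Agent.SST.Units

/-!
The subspace theorem for sequences of S-integral points.
-/

set_option autoImplicit false

namespace Pool.Agent.SST

open Matrix

namespace Seq

/-- Clearing denominators by an S-unit. -/
lemma exists_scale {ι : Type} [Fintype ι] (S : Finset ℕ) (hS : ∀ p ∈ S, p.Prime) (x : ι → ℚ)
    (hx0 : x ≠ 0) (hxS : ∀ i (q : ℕ), q.Prime → q ∉ S → padicNorm q (x i) ≤ 1) :
    ∃ (u : ℚ) (y : ι → ℤ), SUnit S u ∧ (∀ i, (y i : ℚ) = u * x i) ∧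
      ∀ p ∈ S, ∃ i, padicNorm p (y i : ℚ) = 1 := by
  classical
  obtain ⟨i₀, hi₀⟩ : ∃ i, x i ≠ 0 := by
    by_contra h
    push Not at h
    exact hx0 (funext h)
  have hne : (Finset.univ.filter fun i => x i ≠ 0).Nonempty := ⟨i₀, by simp [hi₀]⟩
  have hmin : ∀ p : ℕ, ∃ i, x i ≠ 0 ∧ ∀ j, x j ≠ 0 → padicValRat p (x i) ≤ padicValRat p (x j) := by
    intro p
    obtain ⟨i, hi, hi'⟩ := Finset.exists_min_image _ (fun i => padicValRat p (x i)) hne
    refine ⟨i, by simpa using hi, fun j hj => hi' j (by simp [hj])⟩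
  choose i hi hi' using hmin
  set e : ℕ → ℤ := fun p => -padicValRat p (x (i p)) with he
  set u : ℚ := ∏ p ∈ S, (p : ℚ) ^ e p with hu
  have huS : SUnit S u := sunit_prod_zpow hS e
  have hnorm : ∀ p ∈ S, ∀ j, x j ≠ 0 → padicNorm p (u * x j) =
      (p : ℚ) ^ (padicValRat p (x (i p)) - padicValRat p (x j)) := by
    intro p hp j hj
    have := Fact.mk (hS p hp)
    have hp0 : (p : ℚ) ≠ 0 := by exact_mod_cast (hS p hp).ne_zero
    rw [padicNorm.mul, hu, padicNorm_prod_zpow hS e (hS p hp), if_pos hp, padicNorm, if_neg hj,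
      ← zpow_add₀ hp0]
    congr 1
    simp only [he]
    ring
  have hint : ∀ j, ∃ z : ℤ, u * x j = z := by
    intro j
    apply exists_int_of_padicNorm_le
    intro q hq
    have := Fact.mk hq
    by_cases hqS : q ∈ S
    · by_cases hj : x j = 0
      · rw [hj, mul_zero, padicNorm.zero]; exact zero_le_one
      · rw [hnorm q hqS j hj]
        have h1 : (1 : ℚ) ≤ q := by exact_mod_cast hq.one_le
        have h2 := hi' q j hj
        exact zpow_le_one_of_nonpos₀ h1 (by linarith)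
    · rw [padicNorm.mul, huS.2 q hq hqS, one_mul]
      exact hxS j q hq hqS
  choose y hy using hint
  refine ⟨u, y, huS, fun j => (hy j).symm, fun p hp => ⟨i p, ?_⟩⟩
  rw [← hy, hnorm p hp _ (hi p), sub_self, zpow_zero]

end Seq

/-- The subspace theorem for sequences: if infinitely many S-integral points satisfy the
inequality, then infinitely many of them satisfy one fixed linear equation. -/
theorem subspace_seq {ι : Type} [Fintype ι] [DecidableEq ι] (hι : 2 ≤ Fintype.card ι)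
    (S : Finset ℕ) (hS : ∀ p ∈ S, p.Prime) (A : Option S → Matrix ι ι ℚ)
    (hA : ∀ v, IsUnit (A v).det) (ε : ℝ) (hε : 0 < ε) (x : ℕ → ι → ℚ) (hx0 : ∀ k, x k ≠ 0)
    (hxS : ∀ k i (q : ℕ), q.Prime → q ∉ S → padicNorm q (x k i) ≤ 1)
    (H : ℕ → ℝ) (hH : ∀ k, ∃ b : Option S → ℝ, (∀ v i, plc S hS v (x k i) ≤ b v) ∧ ∏ v, b v ≤ H k)
    (h : ∀ k, ∏ v, ∏ i, plc S hS v ((A v *ᵥ x k) i) ≤ H k ^ (-ε)) :
    ∃ β : ι → ℚ, β ≠ 0 ∧ ∃ᶠ k in Filter.atTop, ∑ i, β i * x k i = 0 := by
  classical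
  obtain ⟨T, hTfin, hTne, hT⟩ := subspace_theorem hι S hS A hA ε hε
  have hsc : ∀ k, ∃ (u : ℚ) (y : ι → ℤ), SUnit S u ∧ (∀ i, (y i : ℚ) = u * x k i) ∧
      ∀ p ∈ S, ∃ i, padicNorm p (y i : ℚ) = 1 := fun k =>
    Seq.exists_scale S hS (x k) (hx0 k) (hxS k)
  choose u y hu hy hy1 using hsc
  have hy0 : ∀ k, y k ≠ 0 := by
    intro k h0
    apply hx0 k
    funext i
    have h1 := hy k i
    rw [h0] at h1
    simp only [Pi.zero_apply, Int.cast_zero] at h1
    rcases mul_eq_zero.1 h1.symm with h2 | h2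
    · exact absurd h2 (hu k).1
    · exact h2
  have hqy : ∀ k, qv (y k) = u k • x k := by
    intro k
    funext i
    simp only [qv, Pi.smul_apply, smul_eq_mul]
    exact hy k i
  -- the norm of y is at most H
  have hnorm : ∀ k, ‖y k‖ ≤ H k := by
    intro k
    obtain ⟨b, hb, hbH⟩ := hH k
    refine le_trans ?_ hbH
    have hb0 : ∀ v, 0 ≤ b v := fun v => by
      have hne : Nonempty ι := Fintype.card_pos_iff.1 (by omega)
      exact le_trans ((plc S hS v).nonneg _) (hb v hne.some)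
    have h1 : ∏ v, plc S hS v (u k) * b v = ∏ v, b v := by
      rw [Finset.prod_mul_distrib, prod_plc_sunit hS (hu k), one_mul]
    rw [← h1, Fintype.prod_option]
    have h2 : 1 ≤ ∏ p : S, plc S hS (some p) (u k) * b (some p) := by
      have : ∀ p : S, 1 ≤ plc S hS (some p) (u k) * b (some p) := by
        intro p
        obtain ⟨i, hi⟩ := hy1 k p p.2
        have h3 : plc S hS (some p) ((y k i : ℚ)) = 1 := by
          rw [plc_some_apply, hi, Rat.cast_one]
        rw [hy k i, map_mul] at h3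
        rw [← h3]
        exact mul_le_mul_of_nonneg_left (hb _ i) ((plc S hS _).nonneg _)
      calc (1 : ℝ) = ∏ p : S, (1 : ℝ) := by simp
        _ ≤ _ := Finset.prod_le_prod (fun _ _ => zero_le_one) fun p _ => this p
    have h3 : ‖y k‖ ≤ plc S hS none (u k) * b none := by
      refine (pi_norm_le_iff_of_nonneg (mul_nonneg ((plc S hS _).nonneg _) (hb0 _))).2 ?_
      intro i
      have h4 : ‖y k i‖ = plc S hS none ((y k i : ℚ)) := by
        rw [plc_none_apply, Int.norm_eq_abs]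
        push_cast
        rfl
      rw [h4, hy k i, map_mul]
      exact mul_le_mul_of_nonneg_left (hb _ i) ((plc S hS _).nonneg _)
    calc ‖y k‖ ≤ plc S hS none (u k) * b none := h3
      _ = plc S hS none (u k) * b none * 1 := (mul_one _).symm
      _ ≤ _ := mul_le_mul_of_nonneg_left h2 (mul_nonneg ((plc S hS _).nonneg _) (hb0 _))
  have hprod : ∀ k, ∏ v, ∏ i, plc S hS v ((A v *ᵥ qv (y k)) i) ≤ ‖y k‖ ^ (-ε) := by
    intro k
    have h1 : ∏ v, ∏ i, plc S hS v ((A v *ᵥ qv (y k)) i) =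
        ∏ v, ∏ i, plc S hS v ((A v *ᵥ x k) i) := by
      have h2 : ∀ v, ∏ i, plc S hS v ((A v *ᵥ qv (y k)) i) =
          plc S hS v (u k) ^ Fintype.card ι * ∏ i, plc S hS v ((A v *ᵥ x k) i) := by
        intro v
        rw [hqy k, Matrix.mulVec_smul]
        simp only [Pi.smul_apply, smul_eq_mul, map_mul, Finset.prod_mul_distrib,
          Finset.prod_const, Finset.card_univ]
      rw [Finset.prod_congr rfl fun v _ => h2 v, Finset.prod_mul_distrib, Finset.prod_pow,
        prod_plc_sunit hS (hu k), one_pow, one_mul]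
    rw [h1]
    refine (h k).trans ?_
    have hpos : 0 < ‖y k‖ := norm_pos_iff.2 (hy0 k)
    exact Real.rpow_le_rpow_of_nonpos hpos (hnorm k) (by linarith)
  have hmem : ∀ k, ∃ U ∈ T, qv (y k) ∈ U := fun k => hT (y k) (hy0 k) (hprod k)
  choose W hWT hW using hmem
  -- pigeonhole
  have : Finite T := hTfin
  obtain ⟨U, hU⟩ : ∃ U : T, ∃ᶠ k in Filter.atTop, (⟨W k, hWT k⟩ : T) = U := by
    by_contra hcon
    push Not at hcon
    have h2 : ∀ᶠ k in Filter.atTop, ∀ U : T, (⟨W k, hWT k⟩ : T) ≠ U := Filter.eventually_all.2 hcon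
    obtain ⟨k, hk⟩ := h2.exists
    exact hk ⟨W k, hWT k⟩ rfl
  obtain ⟨f, hf0, hf⟩ := Submodule.exists_le_ker_of_lt_top U.1 (lt_top_iff_ne_top.2 (hTne _ U.2))
  refine ⟨fun i => f (Pi.single i 1), ?_, hU.mono fun k hk => ?_⟩
  · intro h0
    apply hf0
    refine LinearMap.pi_ext' fun i => ?_
    ext
    simpa using congrFun h0 i
  · have h1 : qv (y k) ∈ U.1 := by
      have := hW k
      rw [← hk]
      exact this
    have h2 : f (qv (y k)) = 0 := hf h1
    rw [hqy k, map_smul, smul_eq_mul] at h2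
    have h3 : f (x k) = 0 := by
      rcases mul_eq_zero.1 h2 with h4 | h4
      · exact absurd h4 (hu k).1
      · exact h4
    rw [← h3]
    conv_rhs => rw [LinearMap.pi_apply_eq_sum_univ f (x k)]
    refine Finset.sum_congr rfl fun i _ => ?_
    have h5 : (Pi.single i 1 : ι → ℚ) = fun j => if i = j then 1 else 0 := by
      funext j
      by_cases hij : j = i
      · subst hij; simp
      · simp [Pi.single_apply, hij, Ne.symm hij]
    rw [smul_eq_mul, mul_comm, ← h5]

end Pool.Agent.SST
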