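import Mathlib

/-!
Subspace theorem over the rationals with rational forms: common definitions.
-/

set_option autoImplicit false

namespace Pool.Agent.SST

open MvPolynomial Matrix

/-- The product inequality (substitute for the product formula) for a finite family of absolute
values of the rationals. -/
def ProdGe {V : Type} [Fintype V] (w : V → AbsoluteValue ℚ ℝ) : Prop :=
  ∀ y : ℤ, y ≠ 0 → 1 ≤ ∏ v, w v (y : ℚ)

/-- An integer vector seen as a rational vector. -/
def qv {ι : Type} (x : ι → ℤ) : ι → ℚ := fun i => (x i : ℚ)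

/-- Primitive integer vectors. -/
def Prim {ι : Type} (M : ι → ℤ) : Prop := ∀ k : ℤ, (∀ i, k ∣ M i) → IsUnit k

/-- Weighted l1 norm of a polynomial: sum over monomials b of w(coeff b) * prod tau^b. -/
noncomputable def nrm {σ : Type} (w : AbsoluteValue ℚ ℝ) (τ : σ → ℝ) (P : MvPolynomial σ ℚ) : ℝ :=
  ∑ b ∈ P.support, w (P.coeff b) * b.prod fun x e => τ x ^ e

/-- The polynomial with rational coefficients given by an integer polynomial. -/
noncomputable def qp {σ : Type} (P : MvPolynomial σ ℤ) : MvPolynomial σ ℚ :=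
  MvPolynomial.map (Int.castRingHom ℚ) P

/-- Linear substitution X_(h,i) := sum_j B i j X_(h,j), the same matrix in every block h. -/
noncomputable def lsub {m : ℕ} {ι : Type} [Fintype ι] (B : Matrix ι ι ℚ) :
    MvPolynomial (Fin m × ι) ℚ →ₐ[ℚ] MvPolynomial (Fin m × ι) ℚ :=
  aeval fun x => ∑ j, C (B x.2 j) * X (x.1, j)

/-- Substitution X_(h,i) := sum_j s_(h,j) * g_(h,j),i + t_h * e_(h,i); the variable t_h is
X (h, none), the variable s_(h,j) is X (h, some j). -/
noncomputable def bsub {m : ℕ} {ι κ : Type} [Fintype κ] (g : Fin m → κ → ι → ℤ)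
    (e : Fin m → ι → ℤ) :
    MvPolynomial (Fin m × ι) ℤ →ₐ[ℤ] MvPolynomial (Fin m × Option κ) ℤ :=
  aeval fun x => (∑ j, C (g x.1 j x.2) * X (x.1, some j)) + C (e x.1 x.2) * X (x.1, none)

/-- Multihomogeneous of multidegree d. -/
def MHom {R : Type} [CommSemiring R] {m : ℕ} {ι : Type} [Fintype ι] (d : Fin m → ℕ)
    (P : MvPolynomial (Fin m × ι) R) : Prop :=
  ∀ a ∈ P.support, ∀ h, ∑ i, a (h, i) = d h

/-- All coefficients are bounded by H in absolute value. -/
def CLe {σ : Type} (P : MvPolynomial σ ℤ) (H : ℝ) : Prop := ∀ a, |((P.coeff a : ℤ) : ℝ)| ≤ H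

/-- The places of S and infinity. -/
noncomputable def plc (S : Finset ℕ) (hS : ∀ p ∈ S, p.Prime) : Option S → AbsoluteValue ℚ ℝ
  | none => Rat.AbsoluteValue.real
  | some p => haveI := Fact.mk (hS p p.2); Rat.AbsoluteValue.padic p

end Pool.Agent.SST
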