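import Mathlib
import Pool.Agent.SST.Defs
import Pool.Agent.Helper25.SST.AuxPoly

/-!
Subspace theorem over the rationals: the auxiliary polynomial (block B2).
It is obtained from `Helper57.SST.aux_poly` (integer matrices, index type `Fin N`).
-/

set_option autoImplicit false

namespace Pool.Agent.SST

open MvPolynomial Matrix

lemma exists_den {ι : Type} [Fintype ι] (B : Matrix ι ι ℚ) :
    ∃ D : ℕ, 0 < D ∧ ∃ A : Matrix ι ι ℤ, ∀ i j, (A i j : ℚ) = D * B i j := by
  classical
  refine ⟨∏ i, ∏ j, (B i j).den, ?_, ?_⟩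
  · exact Finset.prod_pos fun i _ => Finset.prod_pos fun j _ => (B i j).den_pos
  · have h : ∀ i j, ∃ z : ℤ, (z : ℚ) = ((∏ i, ∏ j, (B i j).den : ℕ) : ℚ) * B i j := by
      intro i j
      have h1 : (B i j).den ∣ ∏ i, ∏ j, (B i j).den :=
        (Finset.dvd_prod_of_mem (fun j => (B i j).den) (Finset.mem_univ j)).trans
          (Finset.dvd_prod_of_mem (fun i => ∏ j, (B i j).den) (Finset.mem_univ i))
      obtain ⟨k, hk⟩ := h1
      refine ⟨k * (B i j).num, ?_⟩
      rw [hk]
      push_cast
      have h2 : (B i j) * ((B i j).den : ℚ) = (B i j).num := Rat.mul_den_eq_num _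
      rw [← h2]
      ring
    choose A hA using h
    exact ⟨Matrix.of A, hA⟩

lemma MHom.sum_eq {R : Type} [CommSemiring R] {m : ℕ} {ι : Type} [Fintype ι] {d : Fin m → ℕ}
    {P : MvPolynomial (Fin m × ι) R} (hP : MHom d P) {a : Fin m × ι →₀ ℕ} (ha : a ∈ P.support) :
    ∑ x, a x = ∑ h, d h := by
  rw [Fintype.sum_prod_type]
  exact Finset.sum_congr rfl fun h _ => hP a ha h

lemma aeval_scale {m : ℕ} {ι σ : Type} [Fintype ι] {d : Fin m → ℕ}
    {P : MvPolynomial (Fin m × ι) ℚ} (hP : MHom d P) (t : ℚ)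
    (Z : Fin m × ι → MvPolynomial σ ℚ) :
    aeval (fun x => C t * Z x) P = C (t ^ (∑ h, d h)) * aeval Z P := by
  classical
  rw [aeval_def, aeval_def, eval₂_eq', eval₂_eq', Finset.mul_sum]
  apply Finset.sum_congr rfl
  intro a ha
  simp_rw [mul_pow]
  rw [Finset.prod_mul_distrib, Finset.prod_pow_eq_pow_sum, hP.sum_eq ha, map_pow]
  ring

lemma mhom_rename {R : Type} [CommSemiring R] {m : ℕ} {ι κ : Type} [Fintype ι] [Fintype κ]
    (e : κ ≃ ι) {d : Fin m → ℕ} {F : MvPolynomial (Fin m × κ) R}
    (hF : ∀ a ∈ F.support, ∀ h, ∑ i, a (h, i) = d h) :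
    MHom d (rename (Prod.map id e) F) := by
  classical
  intro a ha h
  have hinj : Function.Injective (Prod.map (id : Fin m → Fin m) e) :=
    Function.injective_id.prodMap e.injective
  rw [support_rename_of_injective hinj, Finset.mem_image] at ha
  obtain ⟨b, hb, rfl⟩ := ha
  rw [← hF b hb h, ← e.sum_comp]
  apply Finset.sum_congr rfl
  intro i _
  have := Finsupp.mapDomain_apply hinj b (h, i)
  exact this

theorem aux_poly {V ι : Type} [Fintype V] [Fintype ι] [DecidableEq ι] [Nonempty ι]
    (B : V → Matrix ι ι ℚ) (c : V → ι → ℝ) (ε : ℝ) (hε : 0 < ε) :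
    ∃ m : ℕ, 0 < m ∧ ∃ K : ℝ, 1 ≤ K ∧ ∀ d : Fin m → ℕ, (∀ h, 0 < d h) →
      ∃ P : MvPolynomial (Fin m × ι) ℤ, P ≠ 0 ∧ MHom d P ∧
        CLe P (K ^ (∑ h, d h)) ∧
        ∀ v, ∀ a ∈ (lsub (B v) (qp P)).support,
          ∑ h, ∑ i, c v i * a (h, i) / d h ≤ ((∑ i, c v i) / Fintype.card ι + ε) * m := by
  classical
  have hden := fun v => exists_den (B v)
  choose D hD A hA using hden
  set N := Fintype.card ι with hN
  have hNpos : 0 < N := Fintype.card_pos
  let e₀ : Fin N ≃ ι := (Fintype.equivFin ι).symm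
  set S : ℝ := 1 + ∑ v, ∑ i, |c v i| with hS
  have hSpos : 0 < S := by positivity
  have hSv : ∀ v, ∑ i, |c v i| ≤ S := by
    intro v
    have h1 : ∑ i, |c v i| ≤ ∑ v, ∑ i, |c v i| :=
      Finset.single_le_sum (f := fun v => ∑ i, |c v i|)
        (fun _ _ => Finset.sum_nonneg fun _ _ => abs_nonneg _) (Finset.mem_univ v)
    linarith
  obtain ⟨m, hm⟩ := exists_nat_gt (2 * (Fintype.card V : ℝ) * N / (ε / S) ^ 2)
  have hmpos : 0 < m := by
    have h0 : (0 : ℝ) ≤ 2 * (Fintype.card V : ℝ) * N / (ε / S) ^ 2 := by positivity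
    have : (0 : ℝ) < m := lt_of_le_of_lt h0 hm
    exact_mod_cast this
  obtain ⟨K, hK1, hK⟩ := Helper57.SST.aux_poly N hNpos
    (fun v => Matrix.of fun i j => A v (e₀ i) (e₀ j)) (ε / S) (by positivity) m hm
  refine ⟨m, hmpos, K, hK1, ?_⟩
  intro d hd
  obtain ⟨F, hF0, hFhom, hFc, hFb⟩ := hK d hd
  have hinj : Function.Injective (Prod.map (id : Fin m → Fin m) e₀) :=
    Function.injective_id.prodMap e₀.injective
  refine ⟨rename (Prod.map id e₀) F, ?_, mhom_rename e₀ hFhom, ?_, ?_⟩
  · intro h0
    exact hF0 (rename_injective _ hinj (by rw [h0, map_zero]))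
  · intro a
    by_cases ha : a ∈ (rename (Prod.map id e₀) F).support
    · rw [support_rename_of_injective hinj, Finset.mem_image] at ha
      obtain ⟨b, hb, rfl⟩ := ha
      rw [coeff_rename_mapDomain _ hinj]
      exact hFc b
    · rw [MvPolynomial.notMem_support_iff] at ha
      rw [ha]
      simp only [Int.cast_zero, abs_zero]
      exact pow_nonneg (by linarith) _
  · intro v a ha
    -- the transformed polynomial
    have hqF : MHom d (qp F) := by
      intro b hb h
      refine hFhom b ?_ h
      exact MvPolynomial.support_map_subset _ _ hb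
    have hDq : (D v : ℚ) ≠ 0 := by
      have := hD v
      exact_mod_cast this.ne'
    have key : lsub (B v) (qp (rename (Prod.map id e₀) F)) =
        C (((D v : ℚ)⁻¹) ^ (∑ h, d h)) * rename (Prod.map id e₀)
          (MvPolynomial.map (Int.castRingHom ℚ) (Helper57.SST.subst
            (fun _ : Fin m => Matrix.of fun i j => A v (e₀ i) (e₀ j)) F)) := by
      have h1 : qp (rename (Prod.map id e₀) F) = rename (Prod.map id e₀) (qp F) := by
        unfold qp
        rw [MvPolynomial.map_rename]
      rw [h1]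
      have h2 : lsub (B v) (rename (Prod.map id e₀) (qp F)) =
          aeval (fun x : Fin m × Fin N => C ((D v : ℚ)⁻¹) *
            ∑ s : Fin N, C ((A v (e₀ x.2) (e₀ s) : ℤ) : ℚ) * X (x.1, e₀ s)) (qp F) := by
        unfold lsub
        rw [aeval_rename]
        congr 1
        congr 1
        funext x
        simp only [Function.comp_apply, Prod.map_fst, Prod.map_snd, id_eq]
        rw [Finset.mul_sum, ← e₀.sum_comp]
        apply Finset.sum_congr rfl
        intro s _
        rw [← mul_assoc, ← C_mul, hA, inv_mul_cancel_left₀ hDq]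
      rw [h2, aeval_scale hqF]
      congr 1
      -- compare two ring homomorphisms
      have h3 : (((aeval (fun x : Fin m × Fin N =>
            ∑ s : Fin N, C ((A v (e₀ x.2) (e₀ s) : ℤ) : ℚ) * X (x.1, e₀ s)) :
            MvPolynomial (Fin m × Fin N) ℚ →ₐ[ℚ] MvPolynomial (Fin m × ι) ℚ) :
              MvPolynomial (Fin m × Fin N) ℚ →+* MvPolynomial (Fin m × ι) ℚ).comp
            (MvPolynomial.map (Int.castRingHom ℚ))) =
          (((rename (Prod.map id e₀) :
            MvPolynomial (Fin m × Fin N) ℚ →ₐ[ℚ] MvPolynomial (Fin m × ι) ℚ) :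
              MvPolynomial (Fin m × Fin N) ℚ →+* MvPolynomial (Fin m × ι) ℚ).comp
            (MvPolynomial.map (Int.castRingHom ℚ))).comp
            ((Helper57.SST.subst
            (fun _ : Fin m => Matrix.of fun i j => A v (e₀ i) (e₀ j)) :
              MvPolynomial (Fin m × Fin N) ℤ →ₐ[ℤ] MvPolynomial (Fin m × Fin N) ℤ) :
              MvPolynomial (Fin m × Fin N) ℤ →+* MvPolynomial (Fin m × Fin N) ℤ) := by
        apply MvPolynomial.ringHom_ext
        · intro z
          simp
        · intro x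
          simp [Helper57.SST.subst]
      exact congrArg (fun f => f F) h3
    rw [key, MvPolynomial.mem_support_iff, coeff_C_mul] at ha
    have ha1 := right_ne_zero_of_mul ha
    rw [← MvPolynomial.mem_support_iff, support_rename_of_injective hinj,
      Finset.mem_image] at ha1
    obtain ⟨b, hb, rfl⟩ := ha1
    have hb' := MvPolynomial.support_map_subset _ _ hb
    have hbal := hFb v b hb'
    have hval : ∀ h (i : Fin N), (Finsupp.mapDomain (Prod.map id e₀) b) (h, e₀ i) = b (h, i) := by
      intro h i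
      exact Finsupp.mapDomain_apply hinj b (h, i)
    calc ∑ h, ∑ i, c v i * ((Finsupp.mapDomain (Prod.map id e₀) b) (h, i) : ℝ) / d h
        = ∑ i : Fin N, c v (e₀ i) * ∑ h, (b (h, i) : ℝ) / d h := by
          rw [Finset.sum_comm, ← e₀.sum_comp]
          apply Finset.sum_congr rfl
          intro i _
          rw [Finset.mul_sum]
          apply Finset.sum_congr rfl
          intro h _
          rw [hval, mul_div_assoc]
      _ ≤ ∑ i : Fin N, (c v (e₀ i) * ((m : ℝ) / N) + |c v (e₀ i)| * (ε / S * m)) := by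
          apply Finset.sum_le_sum
          intro i _
          have h1 : c v (e₀ i) * (∑ h, (b (h, i) : ℝ) / d h - (m : ℝ) / N) ≤
              |c v (e₀ i)| * (ε / S * m) :=
            (le_abs_self _).trans (by
              rw [abs_mul]
              exact mul_le_mul_of_nonneg_left (hbal i) (abs_nonneg _))
          linarith
      _ = (∑ i, c v i) * ((m : ℝ) / N) + (∑ i, |c v i|) * (ε / S * m) := by
          rw [Finset.sum_add_distrib, ← Finset.sum_mul, ← Finset.sum_mul]
          congr 2
          · rw [e₀.sum_comp (fun i => c v i)]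
          · rw [e₀.sum_comp (fun i => |c v i|)]
      _ ≤ (∑ i, c v i) * ((m : ℝ) / N) + S * (ε / S * m) := by
          gcongr
          exact hSv v
      _ = ((∑ i, c v i) / N + ε) * m := by
          field_simp

end Pool.Agent.SST
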