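import Pool.Agent.SST.Defs

/-!
Basic facts on the places of S and infinity.
-/

set_option autoImplicit false

namespace Pool.Agent.SST.RB

open Matrix

theorem plc_none (S : Finset ℕ) (hS : ∀ p ∈ S, p.Prime) (x : ℚ) :
    plc S hS none x = |(x : ℝ)| := by
  simp [plc, Rat.AbsoluteValue.real_eq_abs]

theorem plc_some (S : Finset ℕ) (hS : ∀ p ∈ S, p.Prime) (p : S) (x : ℚ) :
    plc S hS (some p) x = ((padicNorm p x : ℚ) : ℝ) := by
  have := Fact.mk (hS p p.2)
  simp [plc, Rat.AbsoluteValue.padic_eq_padicNorm]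

theorem plc_some_add_le (S : Finset ℕ) (hS : ∀ p ∈ S, p.Prime) (p : S) (x y : ℚ) :
    plc S hS (some p) (x + y) ≤ max (plc S hS (some p) x) (plc S hS (some p) y) := by
  have := Fact.mk (hS p p.2)
  rw [plc_some, plc_some, plc_some]
  have h := padicNorm.nonarchimedean (p := (p : ℕ)) (q := x) (r := y)
  exact_mod_cast h

theorem plc_some_int_le_one (S : Finset ℕ) (hS : ∀ p ∈ S, p.Prime) (p : S) (m : ℤ) :
    plc S hS (some p) (m : ℚ) ≤ 1 := by
  have := Fact.mk (hS p p.2)
  rw [plc_some]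
  exact_mod_cast padicNorm.of_int (p := (p : ℕ)) m

theorem plc_some_sum_le (S : Finset ℕ) (hS : ∀ p ∈ S, p.Prime) (p : S) {α : Type}
    (s : Finset α) (f : α → ℚ) (B : ℝ) (hB : 0 ≤ B)
    (h : ∀ a ∈ s, plc S hS (some p) (f a) ≤ B) : plc S hS (some p) (∑ a ∈ s, f a) ≤ B := by
  classical
  induction s using Finset.induction_on with
  | empty => simpa using hB
  | insert a s ha ih =>
    rw [Finset.sum_insert ha]
    refine (plc_some_add_le S hS p _ _).trans (max_le (h a (Finset.mem_insert_self a s)) ?_)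
    exact ih fun b hb => h b (Finset.mem_insert_of_mem hb)

theorem plc_some_pow_self (S : Finset ℕ) (hS : ∀ p ∈ S, p.Prime) (p : S) (k : ℕ) :
    plc S hS (some p) ((p : ℕ) ^ k : ℚ) = ((p : ℕ) : ℝ)⁻¹ ^ k := by
  have := Fact.mk (hS p p.2)
  rw [map_pow, plc_some]
  congr 1
  have := padicNorm.padicNorm_p_of_prime (p := (p : ℕ))
  rw [this]
  push_cast
  rfl

/-- The product inequality for the places of S and infinity. -/
theorem prodGe_plc (S : Finset ℕ) (hS : ∀ p ∈ S, p.Prime) : ProdGe (plc S hS) := by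
  intro y hy
  rw [Fintype.prod_option, plc_none]
  have h1 : ∀ p : S, plc S hS (some p) (y : ℚ) =
      (((p : ℕ) : ℝ) ^ (padicValInt p y))⁻¹ := by
    intro p
    have := Fact.mk (hS p p.2)
    rw [plc_some, padicNorm.eq_zpow_of_nonzero (by exact_mod_cast hy)]
    rw [padicValRat.of_int]
    push_cast
    rw [_root_.zpow_neg, _root_.zpow_natCast]
  have h2 : (∏ p ∈ S, (p : ℤ) ^ (padicValInt p y)) ∣ y := by
    apply Finset.prod_dvd_of_coprime
    · intro p hp q hq hpq
      simp only [Function.onFun]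
      apply IsCoprime.pow
      rw [Int.isCoprime_iff_gcd_eq_one, Int.gcd_natCast_natCast]
      exact (Nat.coprime_primes (hS p hp) (hS q hq)).2 hpq
    · intro p hp
      have := Fact.mk (hS p hp)
      exact_mod_cast padicValInt_dvd y
  have h3 : (∏ p ∈ S, (p : ℝ) ^ (padicValInt p y)) ≤ |(y : ℝ)| := by
    have h4 : |(∏ p ∈ S, (p : ℤ) ^ (padicValInt p y))| ≤ |y| :=
      Int.le_of_dvd (abs_pos.2 hy) ((abs_dvd_abs _ _).2 h2)
    have h5 : (∏ p ∈ S, (p : ℤ) ^ (padicValInt p y)) ≤ |y| := (le_abs_self _).trans h4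
    exact_mod_cast h5
  have h6 : ∏ p : S, plc S hS (some p) (y : ℚ) =
      (∏ p ∈ S, (p : ℝ) ^ (padicValInt p y))⁻¹ := by
    rw [Finset.prod_congr rfl fun p _ => h1 p, Finset.prod_inv_distrib]
    congr 1
    exact (Finset.prod_coe_sort S fun p => ((p : ℕ) : ℝ) ^ (padicValInt p y))
  rw [h6]
  have h7 : 0 < ∏ p ∈ S, (p : ℝ) ^ (padicValInt p y) :=
    Finset.prod_pos fun p hp => pow_pos (by exact_mod_cast (hS p hp).pos) _
  rw [← div_eq_mul_inv, le_div_iff₀ h7, one_mul]
  simpa using h3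

end Pool.Agent.SST.RB
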