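import Pool.Agent.SST.Defs

/-!
Minkowski's first theorem for lattices of integer vectors given by p-adic conditions.
-/

set_option autoImplicit false

namespace Pool.Agent.SST

open Matrix MeasureTheory

namespace MinkOne

variable {ι : Type} [Fintype ι] [DecidableEq ι]

/-- Minkowski's theorem for the lattice of integer vectors. -/
theorem mink_std (T : Matrix ι ι ℝ) (h0 : T.det ≠ 0) (h1 : |T.det| < 1) :
    ∃ x : ι → ℤ, x ≠ 0 ∧ ∀ i, |(T *ᵥ fun j => (x j : ℝ)) i| ≤ 1 := by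
  classical
  let f : (ι → ℝ) →ₗ[ℝ] (ι → ℝ) := Matrix.toLin' T
  have hf : LinearMap.det f = T.det := LinearMap.det_toLin' T
  let I : Set (ι → ℝ) := Set.Icc (fun _ => -1) (fun _ => 1)
  let s : Set (ι → ℝ) := f ⁻¹' I
  have hvol : volume s = ENNReal.ofReal |(LinearMap.det f)⁻¹| * volume I :=
    Measure.addHaar_preimage_linearMap _ (by rw [hf]; exact h0) _
  have hcube : volume I = 2 ^ Fintype.card ι := by
    rw [Real.volume_Icc_pi]
    have : ((1 : ℝ) - -1) = 2 := by norm_num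
    rw [this]
    simp
  have hfund := ZSpan.isAddFundamentalDomain' (Pi.basisFun ℝ ι) (volume : Measure (ι → ℝ))
  have hF : volume (ZSpan.fundamentalDomain (Pi.basisFun ℝ ι)) = 1 := by
    rw [ZSpan.volume_fundamentalDomain]
    have : Matrix.of (Pi.basisFun ℝ ι : ι → ι → ℝ) = 1 := by
      ext i j
      simp [Pi.basisFun_apply, Matrix.one_apply, Pi.single_apply, eq_comm]
    rw [this]
    simp
  have hlt : volume (ZSpan.fundamentalDomain (Pi.basisFun ℝ ι)) *
      2 ^ Module.finrank ℝ (ι → ℝ) < volume s := by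
    rw [hF, hvol, hcube, hf, one_mul, Module.finrank_fintype_fun_eq_card]
    have h2 : (1 : ENNReal) < ENNReal.ofReal |(T.det)⁻¹| := by
      rw [← ENNReal.ofReal_one, ENNReal.ofReal_lt_ofReal_iff_of_nonneg zero_le_one, abs_inv]
      exact (one_lt_inv₀ (abs_pos.2 h0)).2 h1
    calc (2 : ENNReal) ^ Fintype.card ι = 1 * 2 ^ Fintype.card ι := (one_mul _).symm
      _ < _ := by
        rw [ENNReal.mul_lt_mul_iff_left (by positivity) (by finiteness)]
        exact h2
  have hmem : ∀ x, x ∈ s ↔ ∀ i, |(T *ᵥ x) i| ≤ 1 := by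
    intro x
    simp only [s, f, I, Set.mem_preimage, Set.mem_Icc, Pi.le_def, Matrix.toLin'_apply, abs_le]
    exact ⟨fun h i => ⟨h.1 i, h.2 i⟩, fun h => ⟨fun i => (h i).1, fun i => (h i).2⟩⟩
  have : Countable (Submodule.span ℤ (Set.range (Pi.basisFun ℝ ι))).toAddSubgroup :=
    inferInstanceAs (Countable (Submodule.span ℤ (Set.range (Pi.basisFun ℝ ι))))
  obtain ⟨x, hx0, hx⟩ := exists_ne_zero_mem_lattice_of_measure_mul_two_pow_lt_measure hfund
    (s := s) (fun x hx => by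
      rw [hmem] at hx ⊢
      intro i
      rw [Matrix.mulVec_neg, Pi.neg_apply, abs_neg]
      exact hx i)
    ((convex_Icc _ _).linear_preimage f) hlt
  have hxL : (x : ι → ℝ) ∈ Submodule.span ℤ (Set.range (Pi.basisFun ℝ ι)) := x.2
  rw [(Pi.basisFun ℝ ι).mem_span_iff_repr_mem ℤ] at hxL
  choose y hy using hxL
  have hy' : (fun j => (y j : ℝ)) = (x : ι → ℝ) := by
    ext j
    have := hy j
    simpa using this
  refine ⟨y, ?_, ?_⟩
  · rintro rfl
    apply hx0
    ext j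
    rw [← hy']
    simp
  · rw [hy']
    exact (hmem _).1 hx

/-- A subgroup of finite index of the integer vectors has a basis matrix whose determinant is
the index. -/
theorem exists_matrix (N : AddSubgroup (ι → ℤ)) (hN : N.index ≠ 0) :
    ∃ B : Matrix ι ι ℤ, B.det.natAbs = N.index ∧ ∀ y : ι → ℤ, B *ᵥ y ∈ N := by
  classical
  let M : Submodule ℤ (ι → ℤ) := N.toIntSubmodule
  have hk : ∀ x : ι → ℤ, N.index • x ∈ M := fun x => N.nsmul_index_mem x
  let g : (ι → ℤ) →ₗ[ℤ] M :=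
    { toFun := fun x => ⟨N.index • x, hk x⟩
      map_add' := fun x y => by ext; simp [mul_add]
      map_smul' := fun c x => by ext; simp; ring }
  have hg : Function.Injective g := by
    intro x y hxy
    have h1 : N.index • x = N.index • y := congrArg Subtype.val hxy
    ext i
    have h2 := congrFun h1 i
    simpa [hN] using h2
  have hfr : Module.finrank ℤ M = Fintype.card ι := by
    apply le_antisymm
    · have := Submodule.finrank_le M
      rwa [Module.finrank_fintype_fun_eq_card] at this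
    · have := LinearMap.finrank_le_finrank_of_injective hg
      rwa [Module.finrank_fintype_fun_eq_card] at this
  let b : Module.Basis ι ℤ M :=
    (Module.finBasisOfFinrankEq ℤ M hfr).reindex (Fintype.equivFin ι).symm
  refine ⟨Matrix.of fun i j => (b j : ι → ℤ) i, ?_, ?_⟩
  · have h1 := AddSubgroup.index_eq_natAbs_det (Pi.basisFun ℤ ι) N b
    rw [h1, Pi.basisFun_det_apply, ← Matrix.det_transpose]
    rfl
  · intro y
    have h1 : (Matrix.of fun i j => (b j : ι → ℤ) i) *ᵥ y = ((∑ j, y j • b j : M) : ι → ℤ) := by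
      ext i
      simp [Matrix.mulVec, dotProduct, Finset.sum_apply, mul_comm]
    rw [h1]
    exact (∑ j, y j • b j : M).2

/-- Minkowski's theorem for subgroups of finite index. -/
theorem mink_index (N : AddSubgroup (ι → ℤ)) (hN : N.index ≠ 0) (T : Matrix ι ι ℝ)
    (h0 : T.det ≠ 0) (h1 : |T.det| * N.index < 1) :
    ∃ x ∈ N, x ≠ 0 ∧ ∀ i, |(T *ᵥ fun j => (x j : ℝ)) i| ≤ 1 := by
  obtain ⟨B, hB, hBN⟩ := exists_matrix N hN
  have hBr : |(B.map (Int.cast : ℤ → ℝ)).det| = N.index := by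
    have h2 : (B.map (Int.cast : ℤ → ℝ)).det = ((B.det : ℤ) : ℝ) := by
      have := (Int.castRingHom ℝ).map_det B
      simpa using this.symm
    rw [h2, ← hB, Nat.cast_natAbs, Int.cast_abs]
  have hdet : |(T * B.map (Int.cast : ℤ → ℝ)).det| = |T.det| * N.index := by
    rw [Matrix.det_mul, abs_mul, hBr]
  have hpos : (0 : ℝ) < N.index := by
    exact_mod_cast Nat.pos_of_ne_zero hN
  obtain ⟨y, hy0, hy⟩ := mink_std (T * B.map (Int.cast : ℤ → ℝ)) (by
    rw [← abs_pos, hdet]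
    exact mul_pos (abs_pos.2 h0) hpos) (by rw [hdet]; exact h1)
  have hcast : (fun j => ((B *ᵥ y) j : ℝ)) = B.map (Int.cast : ℤ → ℝ) *ᵥ fun j => (y j : ℝ) := by
    ext i
    simp [Matrix.mulVec, dotProduct]
  refine ⟨B *ᵥ y, hBN y, ?_, ?_⟩
  · intro h
    have h3 : (B.map (Int.cast : ℤ → ℝ) *ᵥ fun j => (y j : ℝ)) = 0 := by
      rw [← hcast, h]
      ext i
      simp
    have h4 : (fun j => (y j : ℝ)) = 0 := by
      by_contra hne
      have := Matrix.exists_mulVec_eq_zero_iff.1 ⟨_, hne, h3⟩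
      rw [this, abs_zero] at hBr
      exact hpos.ne hBr
    apply hy0
    ext j
    have := congrFun h4 j
    simpa using this
  · intro i
    rw [hcast, Matrix.mulVec_mulVec]
    exact hy i

omit [DecidableEq ι] in
/-- clearing denominators -/
theorem exists_int_matrix (A : Matrix ι ι ℚ) :
    ∃ D : ℕ, 0 < D ∧ ∃ A' : Matrix ι ι ℤ, ∀ i j, (A' i j : ℚ) = D * A i j := by
  let D : ℕ := ∏ i, ∏ j, (A i j).den
  have hD : ∀ i j, (A i j).den ∣ D := fun i j =>
    (Finset.dvd_prod_of_mem (fun j => (A i j).den) (Finset.mem_univ j)).trans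
      (Finset.dvd_prod_of_mem (fun i => ∏ j, (A i j).den) (Finset.mem_univ i))
  have h : ∀ i j, ∃ z : ℤ, (z : ℚ) = D * A i j := by
    intro i j
    obtain ⟨k, hk⟩ := hD i j
    refine ⟨k * (A i j).num, ?_⟩
    rw [hk]
    push_cast
    have := Rat.mul_den_eq_num (A i j)
    rw [← this]
    ring
  choose A' hA' using h
  exact ⟨D, Finset.prod_pos fun i _ => Finset.prod_pos fun j _ => (A i j).den_pos, A', hA'⟩

theorem exists_exponent {p t : ℝ} (hp : 1 < p) (ht : 0 < t) (ht1 : t ≤ 1) :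
    ∃ e : ℕ, (p ^ e)⁻¹ ≤ t ∧ p ^ e ≤ p / t := by
  have h1 : 1 ≤ t⁻¹ := (one_le_inv₀ ht).2 ht1
  obtain ⟨n, hn1, hn2⟩ := exists_nat_pow_near h1 hp
  have hp0 : 0 < p := by linarith
  refine ⟨n + 1, ?_, ?_⟩
  · rw [inv_le_comm₀ (by positivity) ht]
    exact hn2.le
  · rw [pow_succ, div_eq_mul_inv, mul_comm]
    exact mul_le_mul_of_nonneg_left hn1 hp0.le

end MinkOne

open MinkOne in
theorem mink_one {ι : Type} [Fintype ι] [DecidableEq ι] [Nonempty ι] (S : Finset ℕ)
    (hS : ∀ p ∈ S, p.Prime) (A : S → Matrix ι ι ℚ) :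
    ∃ C : ℝ, 1 ≤ C ∧ ∀ r : S → ι → ℝ, (∀ p i, 0 < r p i) → (∀ p i, r p i ≤ 1) →
      ∀ T : Matrix ι ι ℝ, T.det ≠ 0 → C * |T.det| ≤ ∏ p, ∏ i, r p i →
        ∃ x : ι → ℤ, x ≠ 0 ∧ (∀ p i, plc S hS (some p) ((A p *ᵥ qv x) i) ≤ r p i) ∧
          ∀ i, |(T *ᵥ fun j => (x j : ℝ)) i| ≤ 1 := by
  classical
  choose D hD0 A' hA' using fun p => exists_int_matrix (A p)
  let w : S → ℝ := fun p => plc S hS (some p) (D p : ℚ)
  have hplc : ∀ (p : S) (q : ℚ), plc S hS (some p) q = (padicNorm p q : ℝ) := by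
    intro p q
    have := Fact.mk (hS p p.2)
    rfl
  have hw0 : ∀ p, 0 < w p := fun p => (plc S hS (some p)).pos (by
    have := hD0 p
    positivity)
  have hw1 : ∀ p, w p ≤ 1 := by
    intro p
    have := Fact.mk (hS p p.2)
    simp only [w]
    rw [hplc]
    exact_mod_cast padicNorm.of_nat (p := (p : ℕ)) (D p)
  have hp1 : ∀ p : S, (1 : ℝ) < (p : ℕ) := fun p => by
    exact_mod_cast (hS p p.2).one_lt
  let C₀ : ℝ := ∏ p : S, ∏ _i : ι, ((p : ℕ) : ℝ) / w p
  have hC₀ : 1 ≤ C₀ := by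
    calc (1 : ℝ) = ∏ p : S, ∏ _i : ι, 1 := by simp
      _ ≤ C₀ := by
        refine Finset.prod_le_prod (fun p _ => Finset.prod_nonneg fun i _ => zero_le_one)
          fun p _ => Finset.prod_le_prod (fun i _ => zero_le_one) fun i _ => ?_
        rw [le_div_iff₀ (hw0 p), one_mul]
        exact (hw1 p).trans (hp1 p).le
  refine ⟨2 * C₀, by linarith, fun r hr0 hr1 T hT hle => ?_⟩
  have hex : ∀ (p : S) (i : ι), ∃ e : ℕ, (((p : ℕ) : ℝ) ^ e)⁻¹ ≤ w p * r p i ∧
      ((p : ℕ) : ℝ) ^ e ≤ ((p : ℕ) : ℝ) / (w p * r p i) := fun p i =>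
    exists_exponent (hp1 p) (mul_pos (hw0 p) (hr0 p i))
      (mul_le_one₀ (hw1 p) (hr0 p i).le (hr1 p i))
  choose e he1 he2 using hex
  have hne : ∀ q : S × ι, NeZero ((q.1 : ℕ) ^ e q.1 q.2) := fun q =>
    ⟨pow_ne_zero _ (hS q.1 q.1.2).ne_zero⟩
  let φ : (ι → ℤ) →+ (∀ q : S × ι, ZMod ((q.1 : ℕ) ^ e q.1 q.2)) :=
    { toFun := fun x q => (((A' q.1 *ᵥ x) q.2 : ℤ) : ZMod _)
      map_zero' := by ext q; simp
      map_add' := fun x y => by ext q; simp [Matrix.mulVec_add] }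
  have hindex : φ.ker.index = Nat.card φ.range := AddSubgroup.index_ker φ
  have hcard : Nat.card φ.range ≤ ∏ q : S × ι, (q.1 : ℕ) ^ e q.1 q.2 := by
    calc Nat.card φ.range ≤ Nat.card (∀ q : S × ι, ZMod ((q.1 : ℕ) ^ e q.1 q.2)) :=
          AddSubgroup.card_le_card_addGroup _
      _ = _ := by
          rw [Nat.card_pi]
          refine Finset.prod_congr rfl fun q _ => ?_
          rw [Nat.card_zmod]
  have hindex0 : φ.ker.index ≠ 0 := by
    rw [hindex]
    exact Nat.card_pos.ne'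
  have hprod : ((φ.ker.index : ℕ) : ℝ) * ∏ p, ∏ i, r p i ≤ C₀ := by
    rw [hindex]
    calc ((Nat.card φ.range : ℕ) : ℝ) * ∏ p, ∏ i, r p i
        ≤ ((∏ q : S × ι, (q.1 : ℕ) ^ e q.1 q.2 : ℕ) : ℝ) * ∏ p, ∏ i, r p i := by
          gcongr
          · exact Finset.prod_nonneg fun p _ => Finset.prod_nonneg fun i _ => (hr0 p i).le
      _ = ∏ p : S, ∏ i : ι, (((p : ℕ) : ℝ) ^ e p i * r p i) := by
          rw [Nat.cast_prod, Fintype.prod_prod_type, ← Finset.prod_mul_distrib]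
          refine Finset.prod_congr rfl fun p _ => ?_
          rw [← Finset.prod_mul_distrib]
          refine Finset.prod_congr rfl fun i _ => ?_
          push_cast
          rfl
      _ ≤ C₀ := by
          refine Finset.prod_le_prod (fun p _ => Finset.prod_nonneg fun i _ => ?_) fun p _ =>
            Finset.prod_le_prod (fun i _ => ?_) fun i _ => ?_
          · exact mul_nonneg (by positivity) (hr0 p i).le
          · exact mul_nonneg (by positivity) (hr0 p i).le
          · have h1 := he2 p i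
            rw [le_div_iff₀ (mul_pos (hw0 p) (hr0 p i))] at h1
            rw [le_div_iff₀ (hw0 p)]
            linarith
  have hr : 0 < ∏ p, ∏ i, r p i := Finset.prod_pos fun p _ => Finset.prod_pos fun i _ => hr0 p i
  obtain ⟨x, hxN, hx0, hxT⟩ := mink_index φ.ker hindex0 T hT (by
    have hC₀' : 0 < C₀ := by linarith
    have h1 : |T.det| * φ.ker.index * (∏ p, ∏ i, r p i) ≤ |T.det| * C₀ := by
      rw [mul_assoc]
      exact mul_le_mul_of_nonneg_left hprod (abs_nonneg _)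
    have h2 : |T.det| * φ.ker.index * (∏ p, ∏ i, r p i) ≤ (1 / 2) * ∏ p, ∏ i, r p i := by
      linarith
    have h3 := le_of_mul_le_mul_right h2 hr
    linarith)
  refine ⟨x, hx0, fun p i => ?_, hxT⟩
  have := Fact.mk (hS p p.2)
  have h1 : ((((A' p *ᵥ x) i : ℤ)) : ZMod ((p : ℕ) ^ e p i)) = 0 := congrFun hxN (p, i)
  rw [ZMod.intCast_zmod_eq_zero_iff_dvd] at h1
  have h2 : padicNorm p (((A' p *ᵥ x) i : ℤ) : ℚ) ≤ ((p : ℕ) : ℚ) ^ (-(e p i : ℤ)) :=
    padicNorm.dvd_iff_norm_le.1 (by exact_mod_cast h1)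
  have h3 : (((A' p *ᵥ x) i : ℤ) : ℚ) = (D p : ℚ) * (A p *ᵥ qv x) i := by
    simp only [Matrix.mulVec, dotProduct, qv, Finset.mul_sum]
    push_cast
    refine Finset.sum_congr rfl fun j _ => ?_
    rw [hA' p i j]
    ring
  have h4 : plc S hS (some p) (((A' p *ᵥ x) i : ℤ) : ℚ) ≤ (((p : ℕ) : ℝ) ^ e p i)⁻¹ := by
    rw [hplc]
    have h5 : ((padicNorm p (((A' p *ᵥ x) i : ℤ) : ℚ) : ℚ) : ℝ) ≤
        ((((p : ℕ) : ℚ) ^ (-(e p i : ℤ)) : ℚ) : ℝ) := by
      exact_mod_cast h2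
    refine h5.trans_eq ?_
    push_cast
    rw [_root_.zpow_neg, _root_.zpow_natCast]
  rw [h3, map_mul] at h4
  have h6 := h4.trans (he1 p i)
  exact le_of_mul_le_mul_left h6 (hw0 p)

end Pool.Agent.SST
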