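import Mathlib
import Pool.Agent.SST.Defs

/-!
Subspace theorem, block H2: successive minima and Minkowski's second theorem.
-/

set_option autoImplicit false

namespace Pool.Agent.SST

open Matrix

namespace MT

/-- The Euclidean vector of `L x`. -/
noncomputable def ev {n : ℕ} (L : Matrix (Fin n) (Fin n) ℝ) (x : Fin n → ℤ) :
    EuclideanSpace ℝ (Fin n) := WithLp.toLp 2 (L *ᵥ fun j => (x j : ℝ))

theorem ev_apply {n : ℕ} (L : Matrix (Fin n) (Fin n) ℝ) (x : Fin n → ℤ) (i : Fin n) :
    ev L x i = (L *ᵥ fun j => (x j : ℝ)) i := rfl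

theorem abs_le_norm {n : ℕ} (L : Matrix (Fin n) (Fin n) ℝ) (x : Fin n → ℤ) (i : Fin n) :
    |(L *ᵥ fun j => (x j : ℝ)) i| ≤ ‖ev L x‖ := by
  have h1 := EuclideanSpace.norm_eq (ev L x)
  rw [h1]
  refine Real.le_sqrt_of_sq_le ?_
  have h2 : |(L *ᵥ fun j => (x j : ℝ)) i| ^ 2 = ‖ev L x i‖ ^ 2 := by
    rw [ev_apply, Real.norm_eq_abs]
  rw [h2]
  exact Finset.single_le_sum (f := fun i => ‖ev L x i‖ ^ 2) (fun i _ => by positivity)
    (Finset.mem_univ i)

theorem finite_le {n : ℕ} (L : Matrix (Fin n) (Fin n) ℝ) (hL : L.det ≠ 0) (R : ℝ) :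
    {x : Fin n → ℤ | ‖ev L x‖ ≤ R}.Finite := by
  classical
  set K : ℝ := ∑ i, ∑ j, |L⁻¹ i j| with hK
  set m : ℤ := ⌈K * R⌉ with hm
  have hsub : {x : Fin n → ℤ | ‖ev L x‖ ≤ R} ⊆ Set.Icc (fun _ => -m) (fun _ => m) := by
    intro x hx
    have hx' : ‖ev L x‖ ≤ R := hx
    have hR : 0 ≤ R := (norm_nonneg _).trans hx'
    have hinv : L⁻¹ *ᵥ (L *ᵥ fun j => (x j : ℝ)) = fun j => (x j : ℝ) := by
      rw [Matrix.mulVec_mulVec, Matrix.nonsing_inv_mul _ (isUnit_iff_ne_zero.2 hL),
        Matrix.one_mulVec]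
    have hb : ∀ i, |(x i : ℝ)| ≤ K * R := by
      intro i
      have h1 : (x i : ℝ) = ∑ j, L⁻¹ i j * (L *ᵥ fun j => (x j : ℝ)) j := by
        have := congrFun hinv i
        rw [← this]
        rfl
      rw [h1]
      refine (Finset.abs_sum_le_sum_abs _ _).trans ?_
      have h2 : ∀ j ∈ Finset.univ, |L⁻¹ i j * (L *ᵥ fun j => (x j : ℝ)) j| ≤ |L⁻¹ i j| * R := by
        intro j _
        rw [abs_mul]
        exact mul_le_mul_of_nonneg_left ((abs_le_norm L x j).trans hx') (abs_nonneg _)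
      refine (Finset.sum_le_sum h2).trans ?_
      rw [← Finset.sum_mul]
      refine mul_le_mul_of_nonneg_right ?_ hR
      exact Finset.single_le_sum (f := fun i => ∑ j, |L⁻¹ i j|)
        (fun i _ => Finset.sum_nonneg fun j _ => abs_nonneg _) (Finset.mem_univ i)
    constructor
    · intro i
      have h3 := (abs_le.1 (hb i)).1
      have h4 : K * R ≤ (m : ℝ) := Int.le_ceil _
      have h5 : (-(m : ℝ)) ≤ (x i : ℝ) := by linarith
      exact_mod_cast h5
    · intro i
      have h3 := (abs_le.1 (hb i)).2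
      have h4 : K * R ≤ (m : ℝ) := Int.le_ceil _
      have h5 : (x i : ℝ) ≤ (m : ℝ) := by linarith
      exact_mod_cast h5
  exact (Set.finite_Icc _ _).subset hsub

theorem exists_min {n : ℕ} (L : Matrix (Fin n) (Fin n) ℝ) (hL : L.det ≠ 0)
    (X : Set (Fin n → ℤ)) (hX : X.Nonempty) :
    ∃ g ∈ X, ∀ x ∈ X, ‖ev L g‖ ≤ ‖ev L x‖ := by
  obtain ⟨x0, hx0⟩ := hX
  have hfin : (X ∩ {x : Fin n → ℤ | ‖ev L x‖ ≤ ‖ev L x0‖}).Finite :=
    (finite_le L hL _).subset Set.inter_subset_right
  obtain ⟨g, hg, hmin⟩ := Set.exists_min_image _ (fun x => ‖ev L x‖) hfin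
    ⟨x0, hx0, show ‖ev L x0‖ ≤ ‖ev L x0‖ from le_refl _⟩
  refine ⟨g, hg.1, fun x hx => ?_⟩
  by_cases h : ‖ev L x‖ ≤ ‖ev L x0‖
  · exact hmin x ⟨hx, h⟩
  · exact hg.2.trans (not_le.1 h).le

/-- The lattice has full rank. -/
theorem exists_not_mem {n : ℕ} (Lam : AddSubgroup (Fin n → ℤ))
    (hk : ∃ k : ℕ, 0 < k ∧ ∀ x : Fin n → ℤ, k • x ∈ Lam)
    (W : Submodule ℚ (Fin n → ℚ)) (hW : W ≠ ⊤) : ∃ x ∈ Lam, qv x ∉ W := by
  classical
  by_contra hcon
  push Not at hcon
  obtain ⟨k, hk0, hk⟩ := hk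
  apply hW
  rw [eq_top_iff]
  have hspan : (⊤ : Submodule ℚ (Fin n → ℚ)) = Submodule.span ℚ (Set.range (Pi.basisFun ℚ (Fin n))) :=
    (Pi.basisFun ℚ (Fin n)).span_eq.symm
  rw [hspan, Submodule.span_le]
  rintro _ ⟨i, rfl⟩
  have h1 := hcon (k • (Pi.single i (1 : ℤ))) (hk _)
  have h2 : qv (k • (Pi.single i (1 : ℤ) : Fin n → ℤ)) = (k : ℚ) • (Pi.basisFun ℚ (Fin n) i) := by
    ext j
    rw [Pi.basisFun_apply]
    by_cases hj : j = i
    · subst hj
      simp [qv]
    · simp [qv, hj]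
  rw [h2] at h1
  have h3 : (k : ℚ) ≠ 0 := by exact_mod_cast hk0.ne'
  have h4 := W.smul_mem ((k : ℚ)⁻¹) h1
  rwa [smul_smul, inv_mul_cancel₀ h3, one_smul] at h4

/-- Successive minima vectors. -/
theorem exists_flag {n : ℕ} (Lam : AddSubgroup (Fin n → ℤ))
    (hk : ∃ k : ℕ, 0 < k ∧ ∀ x : Fin n → ℤ, k • x ∈ Lam)
    (L : Matrix (Fin n) (Fin n) ℝ) (hL : L.det ≠ 0) (m : ℕ) (hm : m ≤ n) :
    ∃ g : Fin m → Fin n → ℤ, (∀ j, g j ∈ Lam) ∧ (LinearIndependent ℚ fun j => qv (g j)) ∧
      ∀ (k : Fin m) (x : Fin n → ℤ), x ∈ Lam →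
        qv x ∉ Submodule.span ℚ ((fun j => qv (g j)) '' {j | j < k}) →
        ‖ev L (g k)‖ ≤ ‖ev L x‖ := by
  classical
  induction m with
  | zero =>
    refine ⟨fun j => j.elim0, fun j => j.elim0, ?_, fun k => k.elim0⟩
    exact linearIndependent_empty_type
  | succ m ih =>
    obtain ⟨g, hg1, hg2, hg3⟩ := ih (by omega)
    set W := Submodule.span ℚ (Set.range fun j => qv (g j)) with hWdef
    have hWne : W ≠ ⊤ := by
      intro htop
      have h1 : Module.finrank ℚ W = m := by
        rw [hWdef, finrank_span_eq_card hg2, Fintype.card_fin]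
      rw [htop, finrank_top, Module.finrank_fin_fun] at h1
      omega
    obtain ⟨x0, hx0, hx0'⟩ := exists_not_mem Lam hk W hWne
    obtain ⟨y, hy, hmin⟩ := exists_min L hL {x | x ∈ Lam ∧ qv x ∉ W} ⟨x0, hx0, hx0'⟩
    refine ⟨Fin.snoc (α := fun _ => Fin n → ℤ) g y, ?_, ?_, ?_⟩
    · intro j
      refine Fin.lastCases ?_ (fun i => ?_) j
      · simpa using hy.1
      · simpa using hg1 i
    · have heq : (fun j => qv (Fin.snoc (α := fun _ => Fin n → ℤ) g y j)) =
          Fin.snoc (α := fun _ => Fin n → ℚ) (fun j => qv (g j)) (qv y) := by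
        funext j
        refine Fin.lastCases ?_ (fun i => ?_) j
        · simp
        · simp
      rw [heq, linearIndependent_finSnoc]
      exact ⟨hg2, hy.2⟩
    · intro k
      refine Fin.lastCases ?_ (fun i => ?_) k
      · intro x hx hxn
        rw [Fin.snoc_last]
        refine hmin x ⟨hx, ?_⟩
        convert! hxn using 3
        ext z
        simp only [Set.mem_range, Set.mem_image, Set.mem_ofPred_eq]
        constructor
        · rintro ⟨j, rfl⟩
          exact ⟨j.castSucc, Fin.castSucc_lt_last j, by simp⟩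
        · rintro ⟨j, hj, rfl⟩
          obtain ⟨j', rfl⟩ := Fin.exists_castSucc_eq.2 (ne_of_lt hj)
          exact ⟨j', by simp⟩
      · intro x hx hxn
        rw [Fin.snoc_castSucc]
        refine hg3 i x hx ?_
        convert! hxn using 3
        ext z
        simp only [Set.mem_image, Set.mem_ofPred_eq]
        constructor
        · rintro ⟨j, hj, rfl⟩
          exact ⟨j.castSucc, by simpa using hj, by simp⟩
        · rintro ⟨j, hj, rfl⟩
          have hjl : j ≠ Fin.last m := ne_of_lt (lt_of_lt_of_le hj (Fin.le_last _))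
          obtain ⟨j', rfl⟩ := Fin.exists_castSucc_eq.2 hjl
          exact ⟨j', Fin.castSucc_lt_castSucc_iff.1 hj, by simp⟩

theorem span_zero {n : ℕ} (L : Matrix (Fin n) (Fin n) ℝ) (u : EuclideanSpace ℝ (Fin n))
    (A : Set (Fin n)) (g : Fin n → Fin n → ℤ) (hu : ∀ j ∈ A, inner ℝ u (ev L (g j)) = 0)
    (x : Fin n → ℤ) (hx : qv x ∈ Submodule.span ℚ ((fun j => qv (g j)) '' A)) :
    inner ℝ u (ev L x) = 0 := by
  classical
  -- the functional on rational vectors
  let φ : (Fin n → ℚ) →ₗ[ℚ] ℝ :=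
    { toFun := fun y => inner ℝ u (WithLp.toLp 2 (L *ᵥ fun j => (y j : ℝ)))
      map_add' := by
        intro y z
        have : (fun j => (((y + z) j : ℚ) : ℝ)) = (fun j => (y j : ℝ)) + fun j => (z j : ℝ) := by
          funext j
          simp
        rw [this, Matrix.mulVec_add, WithLp.toLp_add, inner_add_right]
      map_smul' := by
        intro c y
        have : (fun j => (((c • y) j : ℚ) : ℝ)) = (c : ℝ) • (fun j => (y j : ℝ)) := by
          funext j
          simp
        rw [this, Matrix.mulVec_smul, WithLp.toLp_smul, inner_smul_right]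
        simp [Rat.smul_def] }
  have hφ : ∀ y : Fin n → ℤ, φ (qv y) = inner ℝ u (ev L y) := by
    intro y
    change inner ℝ u (WithLp.toLp 2 (L *ᵥ fun j => (((qv y) j : ℚ) : ℝ))) = _
    have : (fun j => (((qv y) j : ℚ) : ℝ)) = fun j => (y j : ℝ) := by
      funext j
      simp [qv]
    rw [this]
    rfl
  have hle : Submodule.span ℚ ((fun j => qv (g j)) '' A) ≤ LinearMap.ker φ := by
    rw [Submodule.span_le]
    rintro _ ⟨j, hj, rfl⟩
    rw [SetLike.mem_coe, LinearMap.mem_ker]
    change φ (qv (g j)) = 0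
    rw [hφ, hu j hj]
  have h1 := hle hx
  rw [LinearMap.mem_ker, hφ] at h1
  exact h1

end MT

open MT in
theorem mink_two (n : ℕ) : ∃ C : ℝ, 1 ≤ C ∧ ∀ (Lam : AddSubgroup (Fin n → ℤ)) (D : ℝ), 0 < D →
    (∀ T : Matrix (Fin n) (Fin n) ℝ, T.det ≠ 0 → |T.det| ≤ D →
      ∃ x ∈ Lam, x ≠ 0 ∧ ∀ i, |(T *ᵥ fun j => (x j : ℝ)) i| ≤ 1) →
    (∃ k : ℕ, 0 < k ∧ ∀ x : Fin n → ℤ, k • x ∈ Lam) →
    ∀ L : Matrix (Fin n) (Fin n) ℝ, L.det ≠ 0 →
      ∃ (g : Fin n → Fin n → ℤ) (μ : Fin n → ℝ), (∀ j, 0 < μ j) ∧ Monotone μ ∧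
        (∀ j, g j ∈ Lam) ∧ (LinearIndependent ℚ fun j => qv (g j)) ∧
        (∀ j i, |(L *ᵥ fun l => (g j l : ℝ)) i| ≤ μ j) ∧
        (∏ j, μ j) * D ≤ C * |L.det| ∧
        ∀ (k : Fin n) (x : Fin n → ℤ), x ∈ Lam →
          qv x ∉ Submodule.span ℚ ((fun j => qv (g j)) '' {j | j < k}) →
          ∃ i, μ k ≤ C * |(L *ᵥ fun l => (x l : ℝ)) i| := by
  classical
  set s : ℝ := n + 1 with hs
  have hs1 : 1 ≤ s := by
    rw [hs]
    have : (0 : ℝ) ≤ n := Nat.cast_nonneg _
    linarith
  have hs0 : 0 < s := lt_of_lt_of_le one_pos hs1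
  have hsn : (1 : ℝ) ≤ s ^ n := one_le_pow₀ hs1
  refine ⟨s ^ n + s, by linarith, ?_⟩
  intro Lam D hD hmink hk L hL
  obtain ⟨g, hg1, hg2, hg3⟩ := exists_flag Lam hk L hL n le_rfl
  set μ : Fin n → ℝ := fun j => ‖ev L (g j)‖ with hμ
  -- injectivity
  have hinj : ∀ x : Fin n → ℤ, ev L x = 0 → x = 0 := by
    intro x hx
    have h1 : (L *ᵥ fun j => (x j : ℝ)) = 0 := by
      funext i
      have := congrArg (fun v : EuclideanSpace ℝ (Fin n) => v i) hx
      simpa [ev_apply] using this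
    have h2 := Matrix.eq_zero_of_mulVec_eq_zero hL h1
    funext j
    have h3 : (x j : ℝ) = 0 := congrFun h2 j
    change x j = 0
    exact_mod_cast h3
  have hμ0 : ∀ j, 0 < μ j := by
    intro j
    have h1 : ev L (g j) ≠ 0 := by
      intro h0
      have h2 := hg2.ne_zero j
      apply h2
      rw [hinj _ h0]
      funext i
      simp [qv]
    exact norm_pos_iff.2 h1
  have hnotin : ∀ (k l : Fin n), k ≤ l →
      qv (g l) ∉ Submodule.span ℚ ((fun j => qv (g j)) '' {j | j < k}) := by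
    intro k l hkl
    exact hg2.notMem_span_image (by
      intro h
      exact absurd hkl (not_le.2 h))
  have hmono : Monotone μ := by
    intro k l hkl
    exact hg3 k (g l) (hg1 l) (hnotin k l hkl)
  refine ⟨g, μ, hμ0, hmono, hg1, hg2, fun j i => abs_le_norm L (g j) i, ?_, ?_⟩
  · -- the volume bound
    set b := InnerProductSpace.gramSchmidtOrthonormalBasis (𝕜 := ℝ) (E := EuclideanSpace ℝ (Fin n))
      (by rw [finrank_euclideanSpace, Fintype.card_fin] ) (fun j => ev L (g j)) with hb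
    have htri : ∀ i j : Fin n, i < j → inner ℝ (b j) (ev L (g i)) = 0 := by
      intro i j hij
      exact InnerProductSpace.gramSchmidtOrthonormalBasis_inv_triangular _ _ hij
    set O : Matrix (Fin n) (Fin n) ℝ := Matrix.of fun j i => b j i with hO
    have hOO : O * Oᵀ = 1 := by
      ext j k
      rw [Matrix.mul_apply]
      have h1 : (∑ i, O j i * Oᵀ i k) = inner ℝ (b k) (b j) := by
        rw [PiLp.inner_apply]
        refine Finset.sum_congr rfl fun i _ => ?_
        simp [hO, Matrix.transpose_apply]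
      rw [h1, orthonormal_iff_ite.1 b.orthonormal k j, Matrix.one_apply]
      simp [eq_comm]
    have hOdet : |O.det| = 1 := by
      have h1 := congrArg Matrix.det hOO
      rw [Matrix.det_mul, Matrix.det_transpose, Matrix.det_one] at h1
      have h2 : |O.det| * |O.det| = 1 := by rw [← abs_mul, h1, abs_one]
      nlinarith [abs_nonneg O.det]
    set T : Matrix (Fin n) (Fin n) ℝ := Matrix.diagonal (fun j => s / μ j) * (O * L) with hT
    have hTdet : |T.det| = s ^ n / (∏ j, μ j) * |L.det| := by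
      rw [hT, Matrix.det_mul, Matrix.det_mul, Matrix.det_diagonal, abs_mul, abs_mul, hOdet, one_mul,
        Finset.prod_div_distrib, Finset.prod_const, Finset.card_univ, Fintype.card_fin, abs_of_pos]
      exact div_pos (pow_pos hs0 _) (Finset.prod_pos fun j _ => hμ0 j)
    have hprod : 0 < ∏ j, μ j := Finset.prod_pos fun j _ => hμ0 j
    have hT0 : T.det ≠ 0 := by
      rw [← abs_pos, hTdet]
      exact mul_pos (div_pos (pow_pos hs0 _) hprod) (abs_pos.2 hL)
    have hTapp : ∀ (x : Fin n → ℤ) (j : Fin n),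
        (T *ᵥ fun l => (x l : ℝ)) j = s / μ j * inner ℝ (b j) (ev L x) := by
      intro x j
      rw [hT, ← Matrix.mulVec_mulVec, Matrix.mulVec_diagonal, ← Matrix.mulVec_mulVec]
      congr 1
      rw [PiLp.inner_apply]
      change (∑ i, O j i * (L *ᵥ fun l => (x l : ℝ)) i) = _
      refine Finset.sum_congr rfl fun i _ => ?_
      simp [hO, ev_apply, mul_comm]
    -- the key inequality
    have hkey : D < |T.det| := by
      by_contra hcon
      obtain ⟨x, hx, hx0, hxT⟩ := hmink T hT0 (not_lt.1 hcon)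
      -- the level of x
      have hex : ∃ m : ℕ, qv x ∈ Submodule.span ℚ ((fun j => qv (g j)) '' {j : Fin n | (j : ℕ) < m}) := by
        refine ⟨n, ?_⟩
        have h1 : ((fun j => qv (g j)) '' {j : Fin n | (j : ℕ) < n}) = Set.range fun j => qv (g j) := by
          rw [← Set.image_univ]
          congr 1
          ext j
          simp
        rw [h1]
        have h2 : Submodule.span ℚ (Set.range fun j => qv (g j)) = ⊤ :=
          hg2.span_eq_top_of_card_eq_finrank' (by simp)
        rw [h2]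
        exact Submodule.mem_top
      have hm := Nat.find_spec hex
      have hmin := fun m h => Nat.find_min hex (m := m) h
      set m := Nat.find hex with hmdef
      have hm0 : m ≠ 0 := by
        intro h0
        rw [h0] at hm
        have : {j : Fin n | (j : ℕ) < 0} = ∅ := by
          ext j
          simp
        rw [this, Set.image_empty, Submodule.span_empty, Submodule.mem_bot] at hm
        apply hx0
        funext j
        have := congrFun hm j
        simpa [qv] using this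
      have hmn : m ≤ n := by
        refine Nat.find_min' hex ?_
        have h1 : ((fun j => qv (g j)) '' {j : Fin n | (j : ℕ) < n}) = Set.range fun j => qv (g j) := by
          rw [← Set.image_univ]
          congr 1
          ext j
          simp
        rw [h1]
        have h2 : Submodule.span ℚ (Set.range fun j => qv (g j)) = ⊤ :=
          hg2.span_eq_top_of_card_eq_finrank' (by simp)
        rw [h2]
        exact Submodule.mem_top
      set k : Fin n := ⟨m - 1, by omega⟩ with hkdef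
      have hxk : qv x ∉ Submodule.span ℚ ((fun j => qv (g j)) '' {j | j < k}) := by
        exact hmin (m - 1) (by omega)
      have hle : μ k ≤ ‖ev L x‖ := hg3 k x hx hxk
      have hzero : ∀ j : Fin n, k < j → inner ℝ (b j) (ev L x) = 0 := by
        intro j hj
        refine span_zero L (b j) {i : Fin n | (i : ℕ) < m} g (fun i hi => htri i j ?_) x hm
        have hi' : (i : ℕ) < m := hi
        have hj' : m - 1 < (j : ℕ) := hj
        have : (i : ℕ) < (j : ℕ) := by omega
        exact this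
      have hpars := b.sum_sq_norm_inner_right (ev L x)
      have hsum : s ^ 2 ≤ ∑ j, ((T *ᵥ fun l => (x l : ℝ)) j) ^ 2 := by
        have h1 : ∀ j ∈ Finset.univ, (s / μ k) ^ 2 * ‖inner ℝ (b j) (ev L x)‖ ^ 2 ≤
            ((T *ᵥ fun l => (x l : ℝ)) j) ^ 2 := by
          intro j _
          rw [hTapp, mul_pow]
          by_cases hj : k < j
          · rw [hzero j hj]
            simp
          · rw [Real.norm_eq_abs, sq_abs]
            refine mul_le_mul_of_nonneg_right ?_ (sq_nonneg _)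
            refine pow_le_pow_left₀ (div_nonneg hs0.le (hμ0 k).le) ?_ 2
            exact div_le_div_of_nonneg_left hs0.le (hμ0 j) (hmono (not_lt.1 hj))
        refine le_trans ?_ (Finset.sum_le_sum h1)
        rw [← Finset.mul_sum, hpars, ← mul_pow]
        refine pow_le_pow_left₀ hs0.le ?_ 2
        rw [div_mul_eq_mul_div, le_div_iff₀ (hμ0 k)]
        exact mul_le_mul_of_nonneg_left hle hs0.le
      have hsum2 : ∑ j, ((T *ᵥ fun l => (x l : ℝ)) j) ^ 2 ≤ n := by
        have h1 : ∀ j ∈ Finset.univ, ((T *ᵥ fun l => (x l : ℝ)) j) ^ 2 ≤ (1 : ℝ) := by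
          intro j _
          rw [← sq_abs]
          exact pow_le_one₀ (abs_nonneg _) (hxT j)
        have h2 := Finset.sum_le_sum h1
        simpa using h2
      have h3 : s ^ 2 ≤ n := hsum.trans hsum2
      have h4 : (0 : ℝ) ≤ n := Nat.cast_nonneg _
      rw [hs] at h3
      nlinarith
    rw [hTdet, div_mul_eq_mul_div, lt_div_iff₀ hprod] at hkey
    calc (∏ j, μ j) * D = D * ∏ j, μ j := mul_comm _ _
      _ ≤ s ^ n * |L.det| := hkey.le
      _ ≤ (s ^ n + s) * |L.det| := by
        refine mul_le_mul_of_nonneg_right ?_ (abs_nonneg _)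
        linarith
  · intro k x hx hxk
    have hle : μ k ≤ ‖ev L x‖ := hg3 k x hx hxk
    by_contra hcon
    push Not at hcon
    have hn : 0 < n := lt_of_le_of_lt (Nat.zero_le _) k.isLt
    have h1 : ∀ i ∈ (Finset.univ : Finset (Fin n)), ‖ev L x i‖ ^ 2 ≤ (μ k / (s ^ n + s)) ^ 2 := by
      intro i _
      rw [ev_apply, Real.norm_eq_abs]
      refine pow_le_pow_left₀ (abs_nonneg _) ?_ 2
      rw [le_div_iff₀ (by positivity), mul_comm]
      exact (hcon i).le
    have h2 : ‖ev L x‖ ^ 2 ≤ n * (μ k / (s ^ n + s)) ^ 2 := by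
      rw [EuclideanSpace.norm_sq_eq]
      have := Finset.sum_le_sum h1
      simpa using this
    have h3 : (μ k) ^ 2 ≤ n * (μ k / (s ^ n + s)) ^ 2 :=
      (pow_le_pow_left₀ (hμ0 k).le hle 2).trans h2
    rw [div_pow, mul_div_assoc', le_div_iff₀ (by positivity)] at h3
    have h4 : (n : ℝ) < (s ^ n + s) ^ 2 := by
      have : (n : ℝ) < s := by rw [hs]; linarith
      nlinarith
    have h5 : 0 < (μ k) ^ 2 := pow_pos (hμ0 k) 2
    nlinarith

end Pool.Agent.SST
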