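import Pool.Agent.SST.Defs

set_option autoImplicit false

/-! Block H3: pivoting and size reduction (real matrices only). -/

namespace Pool.Agent.SST

open Matrix

namespace Reduce

/-- Bound of a determinant by column bounds. -/
lemma abs_det_le {n : ℕ} (A : Matrix (Fin n) (Fin n) ℝ) (c : Fin n → ℝ)
    (h : ∀ i j, |A i j| ≤ c j) : |A.det| ≤ n.factorial * ∏ j, c j := by
  rw [Matrix.det_apply]
  refine (Finset.abs_sum_le_sum_abs _ _).trans ?_
  have h1 : ∀ σ ∈ (Finset.univ : Finset (Equiv.Perm (Fin n))),
      |Equiv.Perm.sign σ • ∏ i, A (σ i) i| ≤ ∏ j, c j := by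
    intro σ _
    have h2 : |Equiv.Perm.sign σ • ∏ i, A (σ i) i| = |∏ i, A (σ i) i| := by
      rcases Int.units_eq_one_or (Equiv.Perm.sign σ) with h3 | h3
      · rw [h3, one_smul]
      · rw [h3, Units.neg_smul, one_smul, abs_neg]
    rw [h2, Finset.abs_prod]
    exact Finset.prod_le_prod (fun _ _ => abs_nonneg _) (fun i _ => h _ _)
  refine (Finset.sum_le_sum h1).trans ?_
  rw [Finset.sum_const, Finset.card_univ, Fintype.card_perm, Fintype.card_fin, nsmul_eq_mul]

/-- A good pivot row. -/
lemma exists_pivot {n : ℕ} (B : Matrix (Fin (n + 1)) (Fin (n + 1)) ℝ) (μ : ℝ)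
    (h : ∀ i, |B i (Fin.last n)| ≤ μ) :
    ∃ i₀ : Fin (n + 1), |B.det| ≤ (n + 1) * (μ * |(B.submatrix i₀.succAbove Fin.castSucc).det|) := by
  obtain ⟨i₀, -, hi₀⟩ := Finset.exists_max_image (Finset.univ : Finset (Fin (n + 1)))
    (fun i => |(B.submatrix i.succAbove Fin.castSucc).det|) Finset.univ_nonempty
  refine ⟨i₀, ?_⟩
  have hμ : 0 ≤ μ := (abs_nonneg _).trans (h i₀)
  rw [Matrix.det_succ_column B (Fin.last n)]
  refine (Finset.abs_sum_le_sum_abs _ _).trans ?_
  have h1 : ∀ i ∈ (Finset.univ : Finset (Fin (n + 1))),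
      |(-1) ^ (i + Fin.last n : ℕ) * B i (Fin.last n) *
        (B.submatrix i.succAbove (Fin.last n).succAbove).det| ≤
      μ * |(B.submatrix i₀.succAbove Fin.castSucc).det| := by
    intro i _
    rw [abs_mul, abs_mul, abs_pow, abs_neg, abs_one, one_pow, one_mul, Fin.succAbove_last]
    exact mul_le_mul (h i) (hi₀ i (Finset.mem_univ _)) (abs_nonneg _) hμ
  refine (Finset.sum_le_sum h1).trans ?_
  rw [Finset.sum_const, Finset.card_univ, Fintype.card_fin, nsmul_eq_mul]
  push_cast
  exact le_rfl

/-- Cramer bound for the solution of a linear system. -/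
lemma solve {n : ℕ} (M : Matrix (Fin n) (Fin n) ℝ) (v : Fin n → ℝ) (μ : Fin n → ℝ) (ν C D : ℝ)
    (hμ : ∀ j, 0 < μ j) (hC : 1 ≤ C) (hM : ∀ i j, |M i j| ≤ C * μ j) (hv : ∀ i, |v i| ≤ ν)
    (_hD : 0 ≤ D) (hν : 0 ≤ ν) (hdet : ∏ j, μ j ≤ D * |M.det|) :
    ∃ r : Fin n → ℝ, M *ᵥ r = v ∧ ∀ l, |r l| * μ l ≤ n.factorial * C ^ n * D * ν := by
  have hpos : 0 < ∏ j, μ j := Finset.prod_pos fun j _ => hμ j
  have hdet0 : M.det ≠ 0 := by
    intro h0
    rw [h0, abs_zero, mul_zero] at hdet
    linarith
  have hdp : 0 < |M.det| := abs_pos.mpr hdet0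
  refine ⟨M⁻¹ *ᵥ v, ?_, ?_⟩
  · rw [Matrix.mulVec_mulVec, Matrix.mul_nonsing_inv _ (isUnit_iff_ne_zero.mpr hdet0),
      Matrix.one_mulVec]
  · intro l
    have h1 : M.det • (M⁻¹ *ᵥ v) = M.cramer v :=
      Matrix.det_smul_inv_mulVec_eq_cramer M v (isUnit_iff_ne_zero.mpr hdet0)
    have h2 : M.det * (M⁻¹ *ᵥ v) l = (M.updateCol l v).det := by
      have := congrFun h1 l
      rw [Pi.smul_apply, smul_eq_mul, Matrix.cramer_apply] at this
      exact this
    have h3 : |(M.updateCol l v).det| ≤
        n.factorial * ∏ j, Function.update (fun j => C * μ j) l ν j := by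
      apply abs_det_le
      intro i j
      by_cases hj : j = l
      · subst hj
        rw [Matrix.updateCol_self, Function.update_self]
        exact hv i
      · rw [Matrix.updateCol_ne hj, Function.update_of_ne hj]
        exact hM i j
    have h4 : (∏ j, Function.update (fun j => C * μ j) l ν j) * (C * μ l) =
        ν * ∏ j, (C * μ j) := by
      rw [Finset.prod_update_of_mem (Finset.mem_univ l), mul_assoc]
      congr 1
      rw [Finset.sdiff_singleton_eq_erase, Finset.prod_erase_mul _ _ (Finset.mem_univ l)]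
    have h5 : ∏ j, (C * μ j) = C ^ n * ∏ j, μ j := by
      rw [Finset.prod_mul_distrib, Finset.prod_const, Finset.card_univ, Fintype.card_fin]
    have hμl := hμ l
    have hprod0 : 0 ≤ ∏ j, Function.update (fun j => C * μ j) l ν j := by
      apply Finset.prod_nonneg
      intro j _
      by_cases hj : j = l
      · subst hj; rw [Function.update_self]; exact hν
      · rw [Function.update_of_ne hj]
        have := hμ j
        positivity
    have h6 : |M.det| * (|(M⁻¹ *ᵥ v) l| * μ l) ≤ |M.det| * (n.factorial * C ^ n * D * ν) := by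
      calc |M.det| * (|(M⁻¹ *ᵥ v) l| * μ l) = |(M.updateCol l v).det| * μ l := by
            rw [← h2, abs_mul]; ring
        _ ≤ (n.factorial * ∏ j, Function.update (fun j => C * μ j) l ν j) * μ l :=
            mul_le_mul_of_nonneg_right h3 hμl.le
        _ ≤ (n.factorial * ∏ j, Function.update (fun j => C * μ j) l ν j) * (C * μ l) := by
            apply mul_le_mul_of_nonneg_left _ (by positivity)
            nlinarith
        _ = n.factorial * (ν * (C ^ n * ∏ j, μ j)) := by rw [mul_assoc, h4, h5]
        _ ≤ n.factorial * (ν * (C ^ n * (D * |M.det|))) := by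
            have hC0 : 0 ≤ C ^ n := by positivity
            gcongr
        _ = _ := by ring
    exact le_of_mul_le_mul_left h6 hdp

/-- Extension of a unipotent matrix by one column. -/
noncomputable def ext {n : ℕ} (U : Matrix (Fin n) (Fin n) ℤ) (z : Fin n → ℤ) :
    Matrix (Fin (n + 1)) (Fin (n + 1)) ℤ :=
  fun i => Fin.snoc (α := fun _ => Fin (n + 1) → ℤ)
    (fun l => Fin.snoc (α := fun _ => ℤ) (U l) (-(U *ᵥ z) l))
    (Fin.snoc (α := fun _ => ℤ) (0 : Fin n → ℤ) 1) i

lemma ext_cc {n : ℕ} (U : Matrix (Fin n) (Fin n) ℤ) (z : Fin n → ℤ) (i j : Fin n) :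
    ext U z i.castSucc j.castSucc = U i j := by
  simp [ext]

lemma ext_cl {n : ℕ} (U : Matrix (Fin n) (Fin n) ℤ) (z : Fin n → ℤ) (i : Fin n) :
    ext U z i.castSucc (Fin.last n) = -(U *ᵥ z) i := by
  simp [ext]

lemma ext_lc {n : ℕ} (U : Matrix (Fin n) (Fin n) ℤ) (z : Fin n → ℤ) (j : Fin n) :
    ext U z (Fin.last n) j.castSucc = 0 := by
  simp [ext]

lemma ext_ll {n : ℕ} (U : Matrix (Fin n) (Fin n) ℤ) (z : Fin n → ℤ) :
    ext U z (Fin.last n) (Fin.last n) = 1 := by
  simp [ext]

/-- The statement with the additional bound of the entries of `U`. -/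
theorem main (n : ℕ) : ∀ C₀ : ℝ, 1 ≤ C₀ → ∃ C : ℝ, 1 ≤ C ∧
    ∀ (B : Matrix (Fin n) (Fin n) ℝ) (μ : Fin n → ℝ), (∀ j, 0 < μ j) → Monotone μ →
      (∀ i j, |B i j| ≤ μ j) → ∏ j, μ j ≤ C₀ * |B.det| →
      ∃ (π : Equiv.Perm (Fin n)) (U : Matrix (Fin n) (Fin n) ℤ),
        (∀ j, U j j = 1) ∧ (∀ i j, j < i → U i j = 0) ∧
        (∀ i j, |(U i j : ℝ)| * μ i ≤ C * μ j) ∧
        ∀ i j, |(B * U.map (fun z : ℤ => (z : ℝ))) (π i) j| ≤ C * min (μ i) (μ j) := by
  induction n with
  | zero =>
    intro C₀ hC₀
    refine ⟨1, le_rfl, fun B μ _ _ _ _ => ⟨1, 1, fun j => j.elim0, fun i => i.elim0,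
      fun i => i.elim0, fun i => i.elim0⟩⟩
  | succ n ih =>
    intro C₀ hC₀
    obtain ⟨C', hC', H⟩ := ih (C₀ * (n + 1)) (by
      have : (0 : ℝ) ≤ n := Nat.cast_nonneg n
      nlinarith)
    set D : ℝ := C₀ * (n + 1) with hD
    have hn0 : (0 : ℝ) ≤ n := Nat.cast_nonneg n
    have hD1 : 1 ≤ D := by rw [hD]; nlinarith
    set C2 : ℝ := n.factorial * C' ^ n * D with hC2
    have hC20 : 0 ≤ C2 := by rw [hC2]; positivity
    set CU : ℝ := (n + 1) * (C' * (C2 + 1)) with hCU
    have hCU1 : C' ≤ CU := by
      rw [hCU]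
      have h1 : C' ≤ C' * (C2 + 1) := by nlinarith
      have h2 : 0 ≤ C' * (C2 + 1) := by positivity
      nlinarith
    have hCUone : 1 ≤ CU := hC'.trans hCU1
    refine ⟨(n + 1) * CU, by nlinarith, ?_⟩
    have hCle : CU ≤ (n + 1) * CU := by nlinarith
    intro B μ hμ hmono hB hdet
    obtain ⟨i₀, hi₀⟩ := exists_pivot B (μ (Fin.last n)) (fun i => hB i _)
    set B1 := B.submatrix i₀.succAbove Fin.castSucc with hB1
    set μ' : Fin n → ℝ := fun j => μ j.castSucc with hμ'
    have hμ'pos : ∀ j, 0 < μ' j := fun j => hμ _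
    have hlast := hμ (Fin.last n)
    have hdet1 : ∏ j, μ' j ≤ D * |B1.det| := by
      rw [Fin.prod_univ_castSucc] at hdet
      have h1 : (∏ j, μ' j) * μ (Fin.last n) ≤ (D * |B1.det|) * μ (Fin.last n) := by
        calc (∏ j, μ' j) * μ (Fin.last n) ≤ C₀ * |B.det| := hdet
          _ ≤ C₀ * ((n + 1) * (μ (Fin.last n) * |B1.det|)) := by gcongr
          _ = _ := by rw [hD]; ring
      exact le_of_mul_le_mul_right h1 hlast
    obtain ⟨π', U', hU1, hU2, hU3, hU4⟩ := H B1 μ' hμ'pos
      (fun a b hab => hmono (Fin.castSucc_le_castSucc_iff.mpr hab)) (fun i j => hB _ _) hdet1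
    -- the reduced minor
    set M : Matrix (Fin n) (Fin n) ℝ :=
      (B1 * U'.map (fun z : ℤ => (z : ℝ))).submatrix π' id with hM
    have hMdet : |M.det| = |B1.det| := by
      have h1 : (U'.map (fun z : ℤ => (z : ℝ))).det = 1 := by
        rw [Matrix.det_of_isUpperTriangular]
        · simp [hU1]
        · intro i j hij
          have hij' : j < i := hij
          simp [hU2 i j hij']
      rw [hM]
      have h2 : ((B1 * U'.map (fun z : ℤ => (z : ℝ))).submatrix π' id).det =
          ((Equiv.Perm.sign π' : ℤ) : ℝ) * (B1 * U'.map (fun z : ℤ => (z : ℝ))).det := by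
        exact Matrix.det_permute π' _
      rw [h2, Matrix.det_mul, h1, mul_one, abs_mul]
      have h3 : |((Equiv.Perm.sign π' : ℤ) : ℝ)| = 1 := by
        rcases Int.units_eq_one_or (Equiv.Perm.sign π') with h | h <;> rw [h] <;> simp
      rw [h3, one_mul]
    set v : Fin n → ℝ := fun i => B (i₀.succAbove (π' i)) (Fin.last n) with hv
    have hMb : ∀ i j, |M i j| ≤ C' * min (μ' i) (μ' j) := fun i j => hU4 i j
    obtain ⟨r, hr1, hr2⟩ := solve M v μ' (μ (Fin.last n)) C' D hμ'pos hC'
      (fun i j => (hMb i j).trans (mul_le_mul_of_nonneg_left (min_le_right _ _) (by linarith)))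
      (fun i => hB _ _) (by linarith) hlast.le (by rw [hMdet]; exact hdet1)
    set z : Fin n → ℤ := fun l => round (r l) with hz
    have hrz : ∀ l, |r l - z l| ≤ 1 / 2 := fun l => abs_sub_round (r l)
    have hle : ∀ l : Fin n, μ' l ≤ μ (Fin.last n) := fun l => hmono (Fin.le_last _)
    have hzb : ∀ l, |(z l : ℝ)| * μ' l ≤ (C2 + 1) * μ (Fin.last n) := by
      intro l
      have h1 : |(z l : ℝ)| ≤ |r l| + 1 / 2 := by
        have h2 : (z l : ℝ) = r l - (r l - z l) := by ring
        rw [h2]
        exact (abs_sub _ _).trans (add_le_add_right (hrz l) _)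
      have h3 := hr2 l
      have h4 := hμ'pos l
      calc |(z l : ℝ)| * μ' l ≤ (|r l| + 1 / 2) * μ' l := by gcongr
        _ = |r l| * μ' l + 1 / 2 * μ' l := by ring
        _ ≤ C2 * μ (Fin.last n) + 1 * μ (Fin.last n) := by
            apply add_le_add
            · rw [hC2]; exact h3
            · have := hle l
              nlinarith
        _ = _ := by ring
    -- the permutation
    have hinj : Function.Injective
        (Fin.snoc (α := fun _ => Fin (n + 1)) (fun i => i₀.succAbove (π' i)) i₀) := by
      intro a b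
      induction a using Fin.lastCases with
      | last =>
        induction b using Fin.lastCases with
        | last => intro _; rfl
        | cast b =>
          intro h
          rw [Fin.snoc_last, Fin.snoc_castSucc] at h
          exact absurd h.symm (Fin.succAbove_ne _ _)
      | cast a =>
        induction b using Fin.lastCases with
        | last =>
          intro h
          rw [Fin.snoc_last, Fin.snoc_castSucc] at h
          exact absurd h (Fin.succAbove_ne _ _)
        | cast b =>
          intro h
          rw [Fin.snoc_castSucc, Fin.snoc_castSucc] at h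
          rw [π'.injective (Fin.succAbove_right_injective h)]
    let π : Equiv.Perm (Fin (n + 1)) :=
      Equiv.ofBijective _ (Finite.injective_iff_bijective.mp hinj)
    have hπc : ∀ i : Fin n, π i.castSucc = i₀.succAbove (π' i) := by
      intro i
      show Fin.snoc (α := fun _ => Fin (n + 1)) (fun i => i₀.succAbove (π' i)) i₀ i.castSucc = _
      rw [Fin.snoc_castSucc]
    -- bounds of the entries of U
    have hUb : ∀ i j, |((ext U' z i j : ℤ) : ℝ)| * μ i ≤ CU * μ j := by
      intro i j
      induction j using Fin.lastCases with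
      | last =>
        induction i using Fin.lastCases with
        | last =>
          rw [ext_ll, Int.cast_one, abs_one, one_mul]
          nlinarith
        | cast i =>
          rw [ext_cl]
          have h1 : |(((-(U' *ᵥ z) i : ℤ)) : ℝ)| ≤ ∑ l, |(U' i l : ℝ)| * |(z l : ℝ)| := by
            rw [Int.cast_neg, abs_neg, Matrix.mulVec, dotProduct, Int.cast_sum]
            refine (Finset.abs_sum_le_sum_abs _ _).trans (le_of_eq ?_)
            refine Finset.sum_congr rfl fun l _ => ?_
            rw [Int.cast_mul, abs_mul]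
          have hμi := hμ'pos i
          calc |(((-(U' *ᵥ z) i : ℤ)) : ℝ)| * μ i.castSucc
              ≤ (∑ l, |(U' i l : ℝ)| * |(z l : ℝ)|) * μ' i :=
                mul_le_mul_of_nonneg_right h1 hμi.le
            _ = ∑ l, (|(U' i l : ℝ)| * μ' i) * |(z l : ℝ)| := by
                rw [Finset.sum_mul]
                exact Finset.sum_congr rfl fun l _ => by ring
            _ ≤ ∑ _l : Fin n, C' * ((C2 + 1) * μ (Fin.last n)) := by
                apply Finset.sum_le_sum
                intro l _
                calc (|(U' i l : ℝ)| * μ' i) * |(z l : ℝ)| ≤ (C' * μ' l) * |(z l : ℝ)| :=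
                      mul_le_mul_of_nonneg_right (hU3 i l) (abs_nonneg _)
                  _ = C' * (|(z l : ℝ)| * μ' l) := by ring
                  _ ≤ C' * ((C2 + 1) * μ (Fin.last n)) :=
                      mul_le_mul_of_nonneg_left (hzb l) (by linarith)
            _ = n * (C' * ((C2 + 1) * μ (Fin.last n))) := by
                rw [Finset.sum_const, Finset.card_univ, Fintype.card_fin, nsmul_eq_mul]
            _ ≤ CU * μ (Fin.last n) := by
                rw [hCU]
                have : 0 ≤ C' * (C2 + 1) * μ (Fin.last n) := by positivity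
                nlinarith
      | cast j =>
        induction i using Fin.lastCases with
        | last =>
          rw [ext_lc, Int.cast_zero, abs_zero, zero_mul]
          have := hμ j.castSucc
          positivity
        | cast i =>
          rw [ext_cc]
          have := hU3 i j
          have h2 := hμ j.castSucc
          exact this.trans (mul_le_mul_of_nonneg_right hCU1 h2.le)
    -- general bound of the entries of the product
    have hgen : ∀ i j, |(B * (ext U' z).map (fun z : ℤ => (z : ℝ))) i j| ≤
        (n + 1) * CU * μ j := by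
      intro i j
      rw [Matrix.mul_apply]
      refine (Finset.abs_sum_le_sum_abs _ _).trans ?_
      have h1 : ∀ k ∈ (Finset.univ : Finset (Fin (n + 1))),
          |B i k * (ext U' z).map (fun z : ℤ => (z : ℝ)) k j| ≤ CU * μ j := by
        intro k _
        rw [abs_mul, Matrix.map_apply]
        calc |B i k| * |((ext U' z k j : ℤ) : ℝ)| ≤ μ k * |((ext U' z k j : ℤ) : ℝ)| :=
              mul_le_mul_of_nonneg_right (hB i k) (abs_nonneg _)
          _ = |((ext U' z k j : ℤ) : ℝ)| * μ k := mul_comm _ _
          _ ≤ CU * μ j := hUb k j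
      refine (Finset.sum_le_sum h1).trans (le_of_eq ?_)
      rw [Finset.sum_const, Finset.card_univ, Fintype.card_fin, nsmul_eq_mul]
      push_cast
      ring
    refine ⟨π, ext U' z, ?_, ?_, ?_, ?_⟩
    · intro j
      induction j using Fin.lastCases with
      | last => exact ext_ll _ _
      | cast j => rw [ext_cc]; exact hU1 j
    · intro i j hij
      induction j using Fin.lastCases with
      | last => exact absurd hij (not_lt.mpr (Fin.le_last _))
      | cast j =>
        induction i using Fin.lastCases with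
        | last => exact ext_lc _ _ _
        | cast i => rw [ext_cc]; exact hU2 i j (Fin.castSucc_lt_castSucc_iff.mp hij)
    · intro i j
      have h2 := hμ j
      exact (hUb i j).trans (mul_le_mul_of_nonneg_right hCle h2.le)
    · intro i j
      induction i using Fin.lastCases with
      | last =>
        rw [min_eq_right (hmono (Fin.le_last j))]
        exact hgen _ j
      | cast i =>
        induction j using Fin.lastCases with
        | last =>
          rw [min_eq_left (hmono (Fin.le_last _)), hπc]
          have h1 : (B * (ext U' z).map (fun z : ℤ => (z : ℝ))) (i₀.succAbove (π' i))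
              (Fin.last n) = ∑ l, M i l * (r l - z l) := by
            have e1 : ∑ l, M i l * (r l - z l) = v i - ∑ l, M i l * z l := by
              rw [← congrFun hr1 i, Matrix.mulVec, dotProduct, ← Finset.sum_sub_distrib]
              exact Finset.sum_congr rfl fun l _ => by ring
            have e2 : ∑ l, M i l * (z l : ℝ) =
                ∑ k : Fin n, B (i₀.succAbove (π' i)) k.castSucc * ((U' *ᵥ z) k : ℝ) := by
              have e3 : ∀ l, M i l = ∑ k : Fin n, B (i₀.succAbove (π' i)) k.castSucc *
                  (U' k l : ℝ) := fun l => by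
                rw [hM, Matrix.submatrix_apply, Matrix.mul_apply]
                rfl
              simp_rw [e3, Finset.sum_mul]
              rw [Finset.sum_comm]
              refine Finset.sum_congr rfl fun k _ => ?_
              rw [Matrix.mulVec, dotProduct, Int.cast_sum, Finset.mul_sum]
              refine Finset.sum_congr rfl fun l _ => ?_
              push_cast
              ring
            rw [e1, e2, Matrix.mul_apply, Fin.sum_univ_castSucc]
            simp only [Matrix.map_apply, ext_cl, ext_ll, Int.cast_one, mul_one, Int.cast_neg,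
              mul_neg, Finset.sum_neg_distrib]
            rw [hv]
            ring
          rw [h1]
          refine (Finset.abs_sum_le_sum_abs _ _).trans ?_
          have h2 : ∀ l ∈ (Finset.univ : Finset (Fin n)), |M i l * (r l - z l)| ≤ CU * μ' i := by
            intro l _
            rw [abs_mul]
            have h3 := hMb i l
            have h4 : C' * min (μ' i) (μ' l) ≤ CU * μ' i :=
              mul_le_mul hCU1 (min_le_left _ _) (le_min (hμ'pos i).le (hμ'pos l).le) (by linarith)
            calc |M i l| * |r l - z l| ≤ (CU * μ' i) * 1 := by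
                  apply mul_le_mul (h3.trans h4) _ (abs_nonneg _)
                  · have := hμ'pos i
                    positivity
                  · have := hrz l
                    linarith
              _ = _ := mul_one _
          refine (Finset.sum_le_sum h2).trans ?_
          rw [Finset.sum_const, Finset.card_univ, Fintype.card_fin, nsmul_eq_mul]
          have h5 : 0 ≤ CU * μ' i := by
            have := hμ'pos i
            positivity
          show n * (CU * μ' i) ≤ (n + 1) * CU * μ' i
          nlinarith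
        | cast j =>
          rw [hπc]
          have h1 : (B * (ext U' z).map (fun z : ℤ => (z : ℝ))) (i₀.succAbove (π' i))
              j.castSucc = M i j := by
            rw [hM, Matrix.submatrix_apply, Matrix.mul_apply, Matrix.mul_apply,
              Fin.sum_univ_castSucc]
            simp only [Matrix.map_apply, ext_cc, ext_lc, Int.cast_zero, mul_zero, add_zero]
            rfl
          rw [h1]
          refine (hMb i j).trans ?_
          apply mul_le_mul_of_nonneg_right (hCU1.trans hCle)
          exact le_min (hμ'pos i).le (hμ'pos j).le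

end Reduce

theorem pivot_reduce (n : ℕ) (C₀ : ℝ) (hC₀ : 1 ≤ C₀) : ∃ C : ℝ, 1 ≤ C ∧
    ∀ (B : Matrix (Fin n) (Fin n) ℝ) (μ : Fin n → ℝ), (∀ j, 0 < μ j) → Monotone μ →
      (∀ i j, |B i j| ≤ μ j) → ∏ j, μ j ≤ C₀ * |B.det| →
      ∃ (π : Equiv.Perm (Fin n)) (U : Matrix (Fin n) (Fin n) ℤ),
        (∀ j, U j j = 1) ∧ (∀ i j, j < i → U i j = 0) ∧
        ∀ i j, |(B * U.map (fun z : ℤ => (z : ℝ))) (π i) j| ≤ C * min (μ i) (μ j) := by
  obtain ⟨C, hC, H⟩ := Reduce.main n C₀ hC₀
  refine ⟨C, hC, fun B μ h1 h2 h3 h4 => ?_⟩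
  obtain ⟨π, U, hU1, hU2, -, hU4⟩ := H B μ h1 h2 h3 h4
  exact ⟨π, U, hU1, hU2, hU4⟩

end Pool.Agent.SST
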