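import Pool.Agent.SST.Defs
import Pool.Agent.SST.BasisA
import Pool.Agent.SST.MinkTwo
import Pool.Agent.SST.MinkOne
import Pool.Agent.SST.Reduce

/-!
Block H4: the reduced system of lattice points.
-/

set_option autoImplicit false

namespace Pool.Agent.SST

open Matrix

namespace RB

/-- The lattice of the integer vectors satisfying the conditions at the finite places. -/
noncomputable def lam {n : ℕ} (S : Finset ℕ) (hS : ∀ p ∈ S, p.Prime)
    (A : Option S → Matrix (Fin n) (Fin n) ℚ) (r : Option S → Fin n → ℝ)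
    (hr : ∀ v i, 0 < r v i) : AddSubgroup (Fin n → ℤ) where
  carrier := {x | ∀ (p : S) i, plc S hS (some p) ((A (some p) *ᵥ qv x) i) ≤ r (some p) i}
  zero_mem' := by
    intro p i
    have : (A (some p) *ᵥ qv (0 : Fin n → ℤ)) i = 0 := by
      have h0 : qv (0 : Fin n → ℤ) = 0 := by
        funext j
        simp [qv]
      rw [h0, Matrix.mulVec_zero]
      rfl
    rw [this, map_zero]
    exact (hr _ _).le
  add_mem' := by
    intro x y hx hy p i
    have : (A (some p) *ᵥ qv (x + y)) i = (A (some p) *ᵥ qv x) i + (A (some p) *ᵥ qv y) i := by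
      have h0 : qv (x + y) = qv x + qv y := by
        funext j
        simp [qv]
      rw [h0, Matrix.mulVec_add]
      rfl
    rw [this]
    exact (plc_some_add_le S hS p _ _).trans (max_le (hx p i) (hy p i))
  neg_mem' := by
    intro x hx p i
    have : (A (some p) *ᵥ qv (-x)) i = -(A (some p) *ᵥ qv x) i := by
      have h0 : qv (-x) = -qv x := by
        funext j
        simp [qv]
      rw [h0, Matrix.mulVec_neg]
      rfl
    rw [this, AbsoluteValue.map_neg]
    exact hx p i

theorem mem_lam {n : ℕ} (S : Finset ℕ) (hS : ∀ p ∈ S, p.Prime)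
    (A : Option S → Matrix (Fin n) (Fin n) ℚ) (r : Option S → Fin n → ℝ)
    (hr : ∀ v i, 0 < r v i) (x : Fin n → ℤ) :
    x ∈ lam S hS A r hr ↔
      ∀ (p : S) i, plc S hS (some p) ((A (some p) *ᵥ qv x) i) ≤ r (some p) i := Iff.rfl

/-- Every finite family of rationals has a common denominator. -/
theorem exists_denom {α : Type} [Fintype α] (f : α → ℚ) :
    ∃ D : ℕ, 0 < D ∧ ∀ a, ∃ z : ℤ, (D : ℚ) * f a = z := by
  classical
  refine ⟨∏ a, (f a).den, Finset.prod_pos fun a _ => (f a).den_pos, fun a => ?_⟩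
  refine ⟨(∏ b ∈ Finset.univ.erase a, ((f b).den : ℤ)) * (f a).num, ?_⟩
  rw [← Finset.prod_erase_mul Finset.univ _ (Finset.mem_univ a)]
  push_cast
  rw [mul_assoc]
  congr 1
  have := Rat.mul_den_eq_num (f a)
  rw [mul_comm] at this
  exact this

theorem exists_mul_mem {n : ℕ} (S : Finset ℕ) (hS : ∀ p ∈ S, p.Prime)
    (A : Option S → Matrix (Fin n) (Fin n) ℚ) (r : Option S → Fin n → ℝ)
    (hr : ∀ v i, 0 < r v i) : ∃ k : ℕ, 0 < k ∧ ∀ x : Fin n → ℤ, k • x ∈ lam S hS A r hr := by
  classical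
  obtain ⟨D, hD, hDA⟩ := exists_denom (fun a : Option S × Fin n × Fin n => A a.1 a.2.1 a.2.2)
  -- the power
  have hM : ∀ p : S, ∃ M : ℕ, ∀ i, (((p : ℕ) : ℝ)⁻¹) ^ M ≤ r (some p) i := by
    intro p
    have hp : 1 < ((p : ℕ) : ℝ) := by exact_mod_cast (hS p p.2).one_lt
    have h1 : ∀ i, ∃ M : ℕ, (((p : ℕ) : ℝ)⁻¹) ^ M < r (some p) i := by
      intro i
      exact exists_pow_lt_of_lt_one (hr _ _) (inv_lt_one_of_one_lt₀ hp)
    choose M hM using h1
    refine ⟨∑ i, M i, fun i => ?_⟩
    refine le_trans ?_ (hM i).le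
    apply pow_le_pow_of_le_one (by positivity) (inv_le_one_of_one_le₀ hp.le)
    exact Finset.single_le_sum (f := M) (fun _ _ => Nat.zero_le _) (Finset.mem_univ i)
  choose M hM using hM
  refine ⟨D * ∏ p : S, (p : ℕ) ^ M p, ?_, ?_⟩
  · apply Nat.mul_pos hD
    exact Finset.prod_pos fun p _ => pow_pos (hS p p.2).pos _
  · intro x
    rw [mem_lam]
    intro p i
    have h1 : (A (some p) *ᵥ qv ((D * ∏ p : S, (p : ℕ) ^ M p) • x)) i =
        ((p : ℕ) ^ M p : ℚ) * ((∏ q ∈ Finset.univ.erase p, ((q : ℕ) : ℚ) ^ M q) *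
          ∑ j, ((D : ℚ) * A (some p) i j) * (x j : ℚ)) := by
      simp only [Matrix.mulVec, dotProduct, qv]
      rw [Finset.mul_sum, Finset.mul_sum]
      refine Finset.sum_congr rfl fun j _ => ?_
      have h2 : (((D * ∏ p : S, (p : ℕ) ^ M p) • x) j : ℤ) =
          (D : ℤ) * (((p : ℕ) : ℤ) ^ M p * ∏ q ∈ Finset.univ.erase p, ((q : ℕ) : ℤ) ^ M q) * x j := by
        rw [Finset.mul_prod_erase Finset.univ (fun q : S => ((q : ℕ) : ℤ) ^ M q)
          (Finset.mem_univ p)]
        simp [Pi.smul_apply]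
      rw [h2]
      push_cast
      ring
    rw [h1, map_mul, plc_some_pow_self]
    have hz : ∃ z : ℤ, (∏ q ∈ Finset.univ.erase p, ((q : ℕ) : ℚ) ^ M q) *
          ∑ j, ((D : ℚ) * A (some p) i j) * (x j : ℚ) = z := by
      have : ∀ j, ∃ z : ℤ, (D : ℚ) * A (some p) i j = z := fun j => hDA (some p, i, j)
      choose z hz using this
      refine ⟨(∏ q ∈ Finset.univ.erase p, ((q : ℕ) : ℤ) ^ M q) * ∑ j, z j * x j, ?_⟩
      push_cast
      congr 1
      exact Finset.sum_congr rfl fun j _ => by rw [hz j]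
    obtain ⟨z, hz⟩ := hz
    rw [hz]
    calc _ ≤ (((p : ℕ) : ℝ)⁻¹) ^ M p * 1 := by
          gcongr
          exact plc_some_int_le_one S hS p z
      _ ≤ r (some p) i := by
          rw [mul_one]
          exact hM p i

/-- bound of a determinant by the row bounds -/
theorem det_le_rows {n : ℕ} (w : AbsoluteValue ℚ ℝ) (M : Matrix (Fin n) (Fin n) ℚ)
    (b : Fin n → ℝ) (hM : ∀ i j, w (M i j) ≤ b i) :
    w M.det ≤ n.factorial * ∏ i, b i := by
  rw [Matrix.det_apply]
  refine (w.sum_le _ _).trans ?_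
  have h1 : ∀ σ : Equiv.Perm (Fin n),
      w (Equiv.Perm.sign σ • ∏ i, M (σ i) i) ≤ ∏ i, b i := by
    intro σ
    have h2 : w (Equiv.Perm.sign σ • ∏ i, M (σ i) i) = ∏ i, w (M (σ i) i) := by
      rcases Int.units_eq_one_or (Equiv.Perm.sign σ) with h | h
      · rw [h, one_smul, map_prod]
      · rw [h, Units.neg_smul, one_smul, AbsoluteValue.map_neg, map_prod]
    rw [h2]
    calc ∏ i, w (M (σ i) i) ≤ ∏ i, b (σ i) :=
          Finset.prod_le_prod (fun i _ => w.nonneg _) fun i _ => hM _ _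
      _ = ∏ i, b i := Equiv.prod_comp σ b
  calc _ ≤ ∑ _σ : Equiv.Perm (Fin n), ∏ i, b i := Finset.sum_le_sum fun σ _ => h1 σ
    _ = _ := by
        rw [Finset.sum_const, Finset.card_univ, Fintype.card_perm, Fintype.card_fin,
          nsmul_eq_mul]

theorem real_det_le_cols {n : ℕ} (M : Matrix (Fin n) (Fin n) ℝ)
    (b : Fin n → ℝ) (hM : ∀ i j, |M i j| ≤ b j) :
    |M.det| ≤ n.factorial * ∏ i, b i := by
  rw [Matrix.det_apply]
  refine (Finset.abs_sum_le_sum_abs _ _).trans ?_
  have h1 : ∀ σ : Equiv.Perm (Fin n),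
      |Equiv.Perm.sign σ • ∏ i, M (σ i) i| ≤ ∏ i, b i := by
    intro σ
    have h2 : |Equiv.Perm.sign σ • ∏ i, M (σ i) i| = ∏ i, |M (σ i) i| := by
      rcases Int.units_eq_one_or (Equiv.Perm.sign σ) with h | h
      · rw [h, one_smul, Finset.abs_prod]
      · rw [h, Units.neg_smul, one_smul, abs_neg, Finset.abs_prod]
    rw [h2]
    exact Finset.prod_le_prod (fun i _ => abs_nonneg _) fun i _ => hM _ _
  calc _ ≤ ∑ _σ : Equiv.Perm (Fin n), ∏ i, b i := Finset.sum_le_sum fun σ _ => h1 σ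
    _ = _ := by
        rw [Finset.sum_const, Finset.card_univ, Fintype.card_perm, Fintype.card_fin,
          nsmul_eq_mul]

theorem real_mulVec {n : ℕ} (A : Matrix (Fin n) (Fin n) ℚ) (x : Fin n → ℤ) (i : Fin n) :
    ((A.map (fun q : ℚ => (q : ℝ))) *ᵥ fun j => (x j : ℝ)) i = (((A *ᵥ qv x) i : ℚ) : ℝ) := by
  simp only [Matrix.mulVec, dotProduct, qv, Matrix.map_apply]
  push_cast
  rfl

theorem real_det {n : ℕ} (A : Matrix (Fin n) (Fin n) ℚ) :
    (A.map (fun q : ℚ => (q : ℝ))).det = ((A.det : ℚ) : ℝ) := by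
  have := RingHom.map_det (Rat.castHom ℝ) A
  simpa using this.symm

theorem qv_sum {n : ℕ} {α : Type} (s : Finset α) (u : α → ℤ) (g : α → Fin n → ℤ) :
    qv (∑ a ∈ s, u a • g a) = ∑ a ∈ s, (u a : ℚ) • qv (g a) := by
  funext i
  simp only [qv, Finset.sum_apply, Pi.smul_apply, smul_eq_mul]
  push_cast
  rfl

/-- unipotent change: the new flag contains the old one -/
theorem flag {n : ℕ} (g g' : Fin n → Fin n → ℤ) (U : Matrix (Fin n) (Fin n) ℤ)
    (hU1 : ∀ j, U j j = 1) (hU0 : ∀ i j, j < i → U i j = 0)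
    (hg' : ∀ j, g' j = ∑ l, U l j • g l) (k : Fin n) :
    Submodule.span ℚ ((fun j => qv (g j)) '' {j | j < k}) ≤
      Submodule.span ℚ ((fun j => qv (g' j)) '' {j | j < k}) := by
  have key : ∀ m : ℕ, ∀ j : Fin n, (j : ℕ) = m → j < k →
      qv (g j) ∈ Submodule.span ℚ ((fun j => qv (g' j)) '' {j | j < k}) := by
    intro m
    induction m using Nat.strong_induction_on with
    | _ m ih =>
      intro j hj hjk
      have h1 : g' j = (∑ l ∈ Finset.univ.erase j, U l j • g l) + g j := by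
        rw [hg' j, ← Finset.sum_erase_add Finset.univ _ (Finset.mem_univ j), hU1 j, one_smul]
      have h2 : qv (g j) = qv (g' j) - ∑ l ∈ Finset.univ.erase j, (U l j : ℚ) • qv (g l) := by
        rw [← qv_sum, h1]
        funext i
        simp [qv]
      rw [h2]
      apply Submodule.sub_mem
      · exact Submodule.subset_span ⟨j, hjk, rfl⟩
      · apply Submodule.sum_mem
        intro l hl
        rcases lt_trichotomy l j with h | h | h
        · apply Submodule.smul_mem
          exact ih l (by rw [← hj]; exact h) l rfl (h.trans hjk)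
        · exact absurd h (Finset.ne_of_mem_erase hl)
        · rw [hU0 l j h]
          simp
  rw [Submodule.span_le]
  rintro _ ⟨j, hj, rfl⟩
  exact key j j rfl hj

end RB

open RB

theorem reduced_basis (n : ℕ) (S : Finset ℕ) (hS : ∀ p ∈ S, p.Prime)
    (A : Option S → Matrix (Fin n) (Fin n) ℚ) (hA : ∀ v, IsUnit (A v).det) :
    ∃ C : ℝ, 1 ≤ C ∧ ∀ r : Option S → Fin n → ℝ, (∀ v i, 0 < r v i) →
      (∀ p : S, ∀ i, r (some p) i ≤ 1) →
      ∃ (g : Fin n → Fin n → ℤ) (π : Equiv.Perm (Fin n)) (μ : Fin n → ℝ),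
        (∀ j, 0 < μ j) ∧ Monotone μ ∧ (LinearIndependent ℚ fun j => qv (g j)) ∧
        (∀ (p : S) j i, plc S hS (some p) ((A (some p) *ᵥ qv (g j)) i) ≤ r (some p) i) ∧
        (∀ i j, plc S hS none ((A none *ᵥ qv (g j)) (π i)) ≤
          C * r none (π i) * min (μ i) (μ j)) ∧
        (∏ j, μ j) * ∏ v, ∏ i, r v i ≤ C ∧ 1 ≤ C * ((∏ j, μ j) * ∏ v, ∏ i, r v i) ∧
        ∀ (k : Fin n) (x : Fin n → ℤ),
          (∀ (p : S) i, plc S hS (some p) ((A (some p) *ᵥ qv x) i) ≤ r (some p) i) →
          qv x ∉ Submodule.span ℚ ((fun j => qv (g j)) '' {j | j < k}) →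
          ∃ i, μ k * r none i ≤ C * plc S hS none ((A none *ᵥ qv x) i) := by
  classical
  rcases Nat.eq_zero_or_pos n with hn | hn
  · subst hn
    refine ⟨1, le_refl 1, fun r hr hr1 => ⟨fun j => j.elim0, 1, fun j => j.elim0,
      fun j => j.elim0, fun j => j.elim0, linearIndependent_empty_type, fun p j => j.elim0,
      fun i => i.elim0, by simp, by simp, fun k => k.elim0⟩⟩
  have hne : Nonempty (Fin n) := ⟨⟨0, hn⟩⟩
  obtain ⟨C₁, hC₁, H1⟩ := mink_one (ι := Fin n) S hS (fun p => A (some p))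
  obtain ⟨C₂, hC₂, H2⟩ := mink_two n
  -- constants
  set dA : ℝ := |(((A none).det : ℚ) : ℝ)| with hdA
  have hdA0 : 0 < dA := by
    rw [hdA]
    exact abs_pos.2 (by exact_mod_cast (hA none).ne_zero)
  set K : ℝ := ∏ p : S, ((n.factorial : ℝ) / plc S hS (some p) (A (some p)).det) with hK
  have hwp : ∀ p : S, 0 < plc S hS (some p) (A (some p)).det := fun p =>
    (plc S hS (some p)).pos (hA (some p)).ne_zero
  have hK0 : 0 < K := by
    rw [hK]
    apply Finset.prod_pos
    intro p _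
    exact div_pos (by exact_mod_cast Nat.factorial_pos n) (hwp p)
  obtain ⟨C₃, hC₃, H3⟩ := pivot_reduce n (max 1 (C₁ * C₂ * K)) (le_max_left _ _)
  set C : ℝ := C₃ + C₂ + C₁ * C₂ * dA + n.factorial * K / dA with hC
  have hfac : (0 : ℝ) < n.factorial := by exact_mod_cast Nat.factorial_pos n
  have hpos1 : 0 < C₁ * C₂ * dA := by positivity
  have hpos2 : 0 < (n.factorial : ℝ) * K / dA := by positivity
  refine ⟨C, by linarith, fun r hr hr1 => ?_⟩
  -- products
  set R : ℝ := ∏ p : S, ∏ i, r (some p) i with hR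
  have hR0 : 0 < R := by
    rw [hR]
    exact Finset.prod_pos fun p _ => Finset.prod_pos fun i _ => hr _ _
  set Ri : ℝ := ∏ i, r none i with hRi
  have hRi0 : 0 < Ri := by
    rw [hRi]
    exact Finset.prod_pos fun i _ => hr _ _
  have hRall : ∏ v, ∏ i, r v i = Ri * R := by
    rw [Fintype.prod_option]
  set L : Matrix (Fin n) (Fin n) ℝ :=
    Matrix.diagonal (fun i => (r none i)⁻¹) * (A none).map (fun q : ℚ => (q : ℝ)) with hL
  have hLdet : |L.det| = dA / Ri := by
    rw [hL, Matrix.det_mul, Matrix.det_diagonal, real_det, abs_mul, ← hdA,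
      Finset.prod_inv_distrib, ← hRi, abs_of_pos (inv_pos.2 hRi0)]
    field_simp
  have hLdet0 : L.det ≠ 0 := by
    intro h
    rw [h, abs_zero] at hLdet
    have : 0 < dA / Ri := div_pos hdA0 hRi0
    linarith
  have hLx : ∀ (x : Fin n → ℤ) i, |(L *ᵥ fun l => (x l : ℝ)) i| =
      (r none i)⁻¹ * plc S hS none ((A none *ᵥ qv x) i) := by
    intro x i
    rw [hL, ← Matrix.mulVec_mulVec, Matrix.mulVec_diagonal, real_mulVec, plc_none, abs_mul,
      abs_of_pos (inv_pos.2 (hr none i))]
  obtain ⟨g, μ, hμ0, hμm, hgL, hgi, hgμ, hμD, hmin⟩ := H2 (lam S hS A r hr) (R / C₁)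
    (by positivity) (by
      intro T hT hTD
      obtain ⟨x, hx0, hxp, hxT⟩ := H1 (fun p i => r (some p) i) (fun p i => hr _ _)
        (fun p i => hr1 p i) T hT (by
          rw [le_div_iff₀ (by linarith)] at hTD
          linarith)
      exact ⟨x, hxp, hx0, hxT⟩) (exists_mul_mem S hS A r hr) L hLdet0
  -- the matrix G
  set G : Matrix (Fin n) (Fin n) ℤ := Matrix.of (fun i j => g j i) with hG
  have hGq : ∀ (M : Matrix (Fin n) (Fin n) ℚ) i j,
      (M * G.map (fun z : ℤ => (z : ℚ))) i j = (M *ᵥ qv (g j)) i := by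
    intro M i j
    simp [Matrix.mul_apply, Matrix.mulVec, dotProduct, qv, hG]
  have hGdetq : (G.map (fun z : ℤ => (z : ℚ))).det = (G.det : ℚ) := by
    have := RingHom.map_det (Int.castRingHom ℚ) G
    simpa using this.symm
  have hGdetr : (G.map (fun z : ℤ => (z : ℝ))).det = (G.det : ℝ) := by
    have := RingHom.map_det (Int.castRingHom ℝ) G
    simpa using this.symm
  have hGdet0 : G.det ≠ 0 := by
    intro h
    have h1 : (G.map (fun z : ℤ => (z : ℚ))).det = 0 := by
      rw [hGdetq, h]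
      simp
    have h2 : LinearIndependent ℚ (G.map (fun z : ℤ => (z : ℚ)))ᵀ.row := by
      have : (G.map (fun z : ℤ => (z : ℚ)))ᵀ.row = fun j => qv (g j) := by
        funext j i
        simp [Matrix.row, qv, hG]
      rw [this]
      exact hgi
    rw [Matrix.linearIndependent_rows_iff_isUnit, Matrix.isUnit_iff_isUnit_det,
      Matrix.det_transpose, h1] at h2
    exact absurd h2 (by simp)
  -- lower bound for the determinant of G
  have hdetG : 1 ≤ |(G.det : ℝ)| * (K * R) := by
    have h1 := prodGe_plc S hS G.det hGdet0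
    rw [Fintype.prod_option, plc_none] at h1
    have h2 : ∏ p : S, plc S hS (some p) (G.det : ℚ) ≤ K * R := by
      rw [hK, hR, ← Finset.prod_mul_distrib]
      apply Finset.prod_le_prod (fun p _ => (plc S hS (some p)).nonneg _)
      intro p _
      have h3 := det_le_rows (plc S hS (some p)) (A (some p) * G.map (fun z : ℤ => (z : ℚ)))
        (fun i => r (some p) i) (by
          intro i j
          rw [hGq]
          exact hgL j p i)
      rw [Matrix.det_mul, hGdetq, map_mul] at h3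
      rw [div_mul_eq_mul_div, le_div_iff₀ (hwp p), mul_comm]
      exact h3
    calc (1 : ℝ) ≤ _ := h1
      _ ≤ _ := by
          have h4 : |(((G.det : ℤ) : ℚ) : ℝ)| = |(G.det : ℝ)| := by
            push_cast
            rfl
          rw [h4]
          exact mul_le_mul_of_nonneg_left h2 (abs_nonneg _)
  set B : Matrix (Fin n) (Fin n) ℝ := L * G.map (fun z : ℤ => (z : ℝ)) with hB
  have hBe : ∀ i j, B i j = (L *ᵥ fun l => (g j l : ℝ)) i := by
    intro i j
    simp [hB, Matrix.mul_apply, Matrix.mulVec, dotProduct, hG]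
  have hBdet : |B.det| = |L.det| * |(G.det : ℝ)| := by
    rw [hB, Matrix.det_mul, hGdetr, abs_mul]
  have hLle : |L.det| ≤ K * R * |B.det| := by
    rw [hBdet]
    have h5 := mul_le_mul_of_nonneg_left hdetG (abs_nonneg L.det)
    nlinarith [h5]
  have hprodμ : 0 < ∏ j, μ j := Finset.prod_pos fun j _ => hμ0 j
  have hμle : (∏ j, μ j) * R ≤ C₁ * C₂ * |L.det| := by
    have h6 : (∏ j, μ j) * (R / C₁) * C₁ ≤ C₂ * |L.det| * C₁ :=
      mul_le_mul_of_nonneg_right hμD (by linarith)
    have h7 : (∏ j, μ j) * (R / C₁) * C₁ = (∏ j, μ j) * R := by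
      field_simp
    linarith
  obtain ⟨π, U, hU1, hU0, hπ⟩ := H3 B μ hμ0 hμm (fun i j => by rw [hBe]; exact hgμ j i) (by
    have h8 : (∏ j, μ j) * R ≤ (C₁ * C₂ * K * |B.det|) * R := by
      calc _ ≤ C₁ * C₂ * |L.det| := hμle
        _ ≤ C₁ * C₂ * (K * R * |B.det|) := by gcongr
        _ = _ := by ring
    have h9 : (∏ j, μ j) ≤ C₁ * C₂ * K * |B.det| := le_of_mul_le_mul_right h8 hR0
    refine h9.trans ?_
    gcongr
    exact le_max_right _ _)
  -- the new vectors
  set g' : Fin n → Fin n → ℤ := fun j => ∑ l, U l j • g l with hg'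
  have hflag : ∀ k, Submodule.span ℚ ((fun j => qv (g j)) '' {j | j < k}) ≤
      Submodule.span ℚ ((fun j => qv (g' j)) '' {j | j < k}) := fun k =>
    flag g g' U hU1 hU0 (fun j => rfl) k
  have hg'L : ∀ j, g' j ∈ lam S hS A r hr := by
    intro j
    rw [hg']
    exact AddSubgroup.sum_mem _ fun l _ => AddSubgroup.zsmul_mem _ (hgL l) _
  have hBU : ∀ i j, (B * U.map (fun z : ℤ => (z : ℝ))) i j =
      (L *ᵥ fun l => (g' j l : ℝ)) i := by
    intro i j
    have h1 : (fun l => (g' j l : ℝ)) = (G.map (fun z : ℤ => (z : ℝ))) *ᵥ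
        (fun m => (U m j : ℝ)) := by
      funext l
      simp only [hg', Finset.sum_apply, Pi.smul_apply, smul_eq_mul, Matrix.mulVec, dotProduct,
        Matrix.map_apply, hG, Matrix.of_apply]
      push_cast
      exact Finset.sum_congr rfl fun m _ => mul_comm _ _
    rw [h1, Matrix.mulVec_mulVec, ← hB]
    simp [Matrix.mul_apply, Matrix.mulVec, dotProduct]
  refine ⟨g', π, μ, hμ0, hμm, ?_, ?_, ?_, ?_, ?_, ?_⟩
  · -- independence
    have h1 : LinearIndependent ℚ (((G * U).map (fun z : ℤ => (z : ℚ)))ᵀ).row := by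
      rw [Matrix.linearIndependent_rows_iff_isUnit, Matrix.isUnit_iff_isUnit_det,
        Matrix.det_transpose]
      have h2 : ((G * U).map (fun z : ℤ => (z : ℚ))).det = ((G * U).det : ℚ) := by
        have := RingHom.map_det (Int.castRingHom ℚ) (G * U)
        simpa using this.symm
      rw [h2, Matrix.det_mul]
      have h3 : U.det = 1 := by
        rw [Matrix.det_of_isUpperTriangular]
        · exact Finset.prod_eq_one fun j _ => hU1 j
        · intro i j hij
          exact hU0 i j hij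
      rw [h3, mul_one]
      exact isUnit_iff_ne_zero.2 (by exact_mod_cast hGdet0)
    have h4 : (((G * U).map (fun z : ℤ => (z : ℚ)))ᵀ).row = fun j => qv (g' j) := by
      funext j i
      simp only [Matrix.row, Matrix.transpose_apply, Matrix.map_apply, qv, hg',
        Finset.sum_apply, Pi.smul_apply, smul_eq_mul, Matrix.mul_apply, hG, Matrix.of_apply]
      push_cast
      exact Finset.sum_congr rfl fun m _ => mul_comm _ _
    rw [h4] at h1
    exact h1
  · intro p j i
    exact hg'L j p i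
  · intro i j
    have h1 := hπ i j
    rw [hBU, hLx] at h1
    have h2 : 0 < r none (π i) := hr _ _
    rw [inv_mul_le_iff₀ h2] at h1
    have hm : 0 ≤ min (μ i) (μ j) := (lt_min (hμ0 i) (hμ0 j)).le
    calc _ ≤ r none (π i) * (C₃ * min (μ i) (μ j)) := h1
      _ = C₃ * r none (π i) * min (μ i) (μ j) := by ring
      _ ≤ C * r none (π i) * min (μ i) (μ j) := by
          gcongr
          linarith
  · rw [hRall]
    calc (∏ j, μ j) * (Ri * R) = ((∏ j, μ j) * R) * Ri := by ring
      _ ≤ (C₁ * C₂ * |L.det|) * Ri := by gcongr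
      _ = C₁ * C₂ * dA := by
          rw [hLdet]
          field_simp
      _ ≤ C := by linarith
  · rw [hRall]
    have h1 : |B.det| ≤ n.factorial * ∏ j, μ j :=
      real_det_le_cols B μ (fun i j => by rw [hBe]; exact hgμ j i)
    have h2 : dA / Ri ≤ K * R * (n.factorial * ∏ j, μ j) := by
      rw [← hLdet]
      refine hLle.trans ?_
      gcongr
    rw [div_le_iff₀ hRi0] at h2
    have h3 : 1 ≤ (n.factorial * K / dA) * ((∏ j, μ j) * (Ri * R)) := by
      rw [div_mul_eq_mul_div, le_div_iff₀ hdA0, one_mul]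
      calc dA ≤ _ := h2
        _ = _ := by ring
    refine h3.trans ?_
    gcongr
    linarith
  · intro k x hx hxk
    obtain ⟨i, hi⟩ := hmin k x hx (fun h => hxk (hflag k h))
    refine ⟨i, ?_⟩
    rw [hLx] at hi
    have h2 : 0 < r none i := hr _ _
    have h3 : 0 ≤ plc S hS none ((A none *ᵥ qv x) i) := (plc S hS none).nonneg _
    calc μ k * r none i ≤ (C₂ * ((r none i)⁻¹ * plc S hS none ((A none *ᵥ qv x) i))) *
          r none i := by gcongr
      _ = C₂ * plc S hS none ((A none *ᵥ qv x) i) := by field_simp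
      _ ≤ C * plc S hS none ((A none *ᵥ qv x) i) := by
          gcongr
          linarith

end Pool.Agent.SST
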