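import Pool.Agent.SST.Defs
import Pool.Agent.Helper34.SST.CauchyBinet

/-!
# Cauchy-Binet and compound matrices (block I)
-/

set_option autoImplicit false

namespace Pool.Agent.SST

open MvPolynomial Matrix

/-- r-element subsets of Fin n. -/
abbrev Sub (n r : ℕ) : Type := {s : Finset (Fin n) // s.card = r}

/-- The increasing enumeration. -/
noncomputable def Sub.emb {n r : ℕ} (I : Sub n r) : Fin r → Fin n := I.1.orderEmbOfFin I.2

namespace Aux

/-- Subsets and order embeddings. -/
noncomputable def subEquiv (n r : ℕ) : Sub n r ≃ (Fin r ↪o Fin n) where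
  toFun s := s.1.orderEmbOfFin s.2
  invFun I := ⟨Finset.univ.map I.toEmbedding, by simp⟩
  left_inv s := by
    apply Subtype.ext
    apply Finset.coe_injective
    simp
  right_inv I := by
    apply Pool.Agent.Helper34.CB.emb_eq_of_range
    rw [Finset.range_orderEmbOfFin]
    simp

end Aux

theorem cauchy_binet {R : Type} [CommRing R] (n r : ℕ) (A : Matrix (Fin r) (Fin n) R)
    (B : Matrix (Fin n) (Fin r) R) :
    (A * B).det = ∑ I : Sub n r, (A.submatrix id I.emb).det * (B.submatrix I.emb id).det := by
  rw [Pool.Agent.Helper34.CB.cauchy_binet]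
  symm
  refine Fintype.sum_equiv (Aux.subEquiv n r) _ _ fun I => ?_
  rfl

/-- Compound matrix. -/
noncomputable def cmp {R : Type} [CommRing R] {n : ℕ} (r : ℕ) (A : Matrix (Fin n) (Fin n) R) :
    Matrix (Sub n r) (Sub n r) R := fun I J => (A.submatrix I.emb J.emb).det

theorem cmp_mul {R : Type} [CommRing R] {n : ℕ} (r : ℕ) (A B : Matrix (Fin n) (Fin n) R) :
    cmp r (A * B) = cmp r A * cmp r B := by
  ext I K
  have h : (A * B).submatrix I.emb K.emb = (A.submatrix I.emb id) * (B.submatrix id K.emb) := by
    rw [Matrix.submatrix_mul A B I.emb id K.emb Function.bijective_id]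
  simp only [cmp, Matrix.mul_apply]
  rw [h, cauchy_binet]
  rfl

theorem Sub.emb_injective {n r : ℕ} (I : Sub n r) : Function.Injective I.emb :=
  (I.1.orderEmbOfFin I.2).injective

theorem Sub.range_emb {n r : ℕ} (I : Sub n r) : Set.range I.emb = (I.1 : Set (Fin n)) :=
  Finset.range_orderEmbOfFin I.1 I.2

theorem cmp_one {R : Type} [CommRing R] {n : ℕ} (r : ℕ) :
    cmp r (1 : Matrix (Fin n) (Fin n) R) = 1 := by
  classical
  ext I J
  rw [Matrix.one_apply]
  split_ifs with h
  · subst h
    simp only [cmp]
    rw [Matrix.submatrix_one _ I.emb_injective, Matrix.det_one]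
  · have : ∃ i, ∀ j, J.emb j ≠ I.emb i := by
      by_contra hcon
      push Not at hcon
      apply h
      apply Subtype.ext
      apply Finset.eq_of_subset_of_card_le
      · intro x hx
        have hx' : x ∈ Set.range I.emb := by
          rw [Sub.range_emb]
          exact hx
        obtain ⟨i, rfl⟩ := hx'
        obtain ⟨j, hj⟩ := hcon i
        have : J.emb j ∈ Set.range J.emb := ⟨j, rfl⟩
        rw [Sub.range_emb] at this
        rw [← hj]
        exact this
      · rw [I.2, J.2]
    obtain ⟨i, hi⟩ := this
    simp only [cmp]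
    apply Matrix.det_eq_zero_of_row_eq_zero i
    intro j
    rw [Matrix.submatrix_apply, Matrix.one_apply_ne]
    exact (hi j).symm

end Pool.Agent.SST
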