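import Pool.Agent.SST.Defs

set_option autoImplicit false

namespace Pool.Agent.SST.Height

open Matrix

section lin

variable {ι κ : Type} [Fintype ι] [DecidableEq ι] [Fintype κ]

/-- coordinates of the linear form M with respect to the rows of A -/
noncomputable def co (A : Matrix ι ι ℚ) (M : ι → ℤ) : ι → ℚ := qv M ᵥ* A⁻¹

theorem qv_dot (M g : ι → ℤ) : qv M ⬝ᵥ qv g = ((M ⬝ᵥ g : ℤ) : ℚ) := by
  simp [qv, dotProduct]

theorem dot_eq (A : Matrix ι ι ℚ) (hA : IsUnit A.det) (M g : ι → ℤ) :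
    ((M ⬝ᵥ g : ℤ) : ℚ) = ∑ i, co A M i * (A *ᵥ qv g) i := by
  have h : (qv M ᵥ* A⁻¹) ⬝ᵥ (A *ᵥ qv g) = qv M ⬝ᵥ qv g := by
    rw [← Matrix.dotProduct_mulVec, Matrix.mulVec_mulVec, Matrix.nonsing_inv_mul A hA,
      Matrix.one_mulVec]
  rw [← qv_dot, ← h]
  rfl

theorem co_ne_zero (A : Matrix ι ι ℚ) (hA : IsUnit A.det) (M : ι → ℤ) (hM : M ≠ 0) :
    ∃ i, co A M i ≠ 0 := by
  by_contra hcon
  push Not at hcon
  have h := dot_eq A hA M M
  simp only [hcon, zero_mul, Finset.sum_const_zero] at h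
  have h2 : M ⬝ᵥ M = 0 := by exact_mod_cast h
  exact hM (dotProduct_self_eq_zero.1 h2)

theorem prim_ne_zero {M : ι → ℤ} (hM : Prim M) : M ≠ 0 := by
  intro h
  have := hM 2 (fun i => by simp [h])
  have h2 : (2 : ℤ) = 1 ∨ (2 : ℤ) = -1 := Int.isUnit_iff.1 this
  omega

theorem prim_bezout {M : ι → ℤ} (hM : Prim M) : ∃ u : ι → ℤ, ∑ i, u i * M i = 1 := by
  have hp : (Ideal.span (Set.range M)).IsPrincipal := IsPrincipalIdealRing.principal _
  obtain ⟨k, hk⟩ := hp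
  have hk' : ∀ i, k ∣ M i := by
    intro i
    have : M i ∈ Ideal.span (Set.range M) := Ideal.subset_span ⟨i, rfl⟩
    rw [hk] at this
    exact Ideal.mem_span_singleton.1 this
  have hu := hM k hk'
  have h1 : (1 : ℤ) ∈ Ideal.span (Set.range M) := by
    rw [hk]
    exact Ideal.mem_span_singleton.2 hu.dvd
  exact Ideal.mem_span_range_iff_exists_fun.1 h1

/-- primitive vectors which are proportional to each other are equal up to sign -/
theorem prim_prop {M M' : ι → ℤ} (hM : Prim M) (hM' : Prim M')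
    (h : ∀ l l', M l * M' l' = M l' * M' l) : M' = M ∨ M' = -M := by
  obtain ⟨u, hu⟩ := prim_bezout hM
  have h1 : ∀ l, M' l = (∑ i, u i * M' i) * M l := by
    intro l
    calc M' l = (∑ i, u i * M i) * M' l := by rw [hu, one_mul]
      _ = ∑ i, u i * (M i * M' l) := by rw [Finset.sum_mul]; exact Finset.sum_congr rfl fun i _ => by ring
      _ = ∑ i, u i * (M l * M' i) := Finset.sum_congr rfl fun i _ => by rw [h i l]
      _ = _ := by rw [Finset.sum_mul]; exact Finset.sum_congr rfl fun i _ => by ring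
  have h2 : IsUnit (∑ i, u i * M' i) := hM' _ (fun i => ⟨M i, h1 i⟩)
  rcases Int.isUnit_iff.1 h2 with h3 | h3
  · left; funext l; rw [h1 l, h3, one_mul]
  · right; funext l; rw [h1 l, h3]; simp

/-- the square integer matrix with columns g and M -/
def mat (e : Option κ ≃ ι) (g : κ → ι → ℤ) (M : ι → ℤ) : Matrix ι ι ℤ := fun l k =>
  match e.symm k with
  | none => M l
  | some j => g j l

theorem mat_none (e : Option κ ≃ ι) (g : κ → ι → ℤ) (M : ι → ℤ) (l : ι) :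
    mat e g M l (e none) = M l := by
  simp [mat]

theorem mat_some (e : Option κ ≃ ι) (g : κ → ι → ℤ) (M : ι → ℤ) (l : ι) (j : κ) :
    mat e g M l (e (some j)) = g j l := by
  simp [mat]

theorem vecMul_mat (e : Option κ ≃ ι) (g : κ → ι → ℤ) (M M' : ι → ℤ)
    (h : ∀ j, M' ⬝ᵥ g j = 0) : M' ᵥ* mat e g M = Pi.single (e none) (M' ⬝ᵥ M) := by
  funext k
  obtain ⟨o, rfl⟩ := e.surjective k
  cases o with
  | none =>
    simp only [Matrix.vecMul, dotProduct, mat_none, Pi.single_eq_same]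
  | some j =>
    have hne : e (some j) ≠ e none := fun h => by simpa using e.injective h
    rw [Pi.single_eq_of_ne hne]
    have := h j
    simpa only [Matrix.vecMul, dotProduct, mat_some] using this

/-- the vector of cofactors -/
def cof (e : Option κ ≃ ι) (g : κ → ι → ℤ) (M : ι → ℤ) : ι → ℤ :=
  fun l => (mat e g M).adjugate (e none) l

theorem det_smul (e : Option κ ≃ ι) (g : κ → ι → ℤ) (M M' : ι → ℤ)
    (h : ∀ j, M' ⬝ᵥ g j = 0) (l : ι) :
    (mat e g M).det * M' l = (M' ⬝ᵥ M) * cof e g M l := by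
  have h1 : M' ᵥ* (mat e g M * (mat e g M).adjugate) =
      (Pi.single (e none) (M' ⬝ᵥ M)) ᵥ* (mat e g M).adjugate := by
    rw [← Matrix.vecMul_vecMul, vecMul_mat e g M M' h]
  rw [Matrix.mul_adjugate] at h1
  have h2 := congrFun h1 l
  rw [Matrix.single_vecMul] at h2
  simpa [cof, Matrix.vecMul_smul, Matrix.vecMul_one, mul_comm] using h2

theorem det_ne_zero (e : Option κ ≃ ι) (g : κ → ι → ℤ) (M : ι → ℤ)
    (hg : LinearIndependent ℚ fun j => qv (g j)) (hM : M ≠ 0)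
    (h : ∀ j, M ⬝ᵥ g j = 0) : (mat e g M).det ≠ 0 := by
  intro hdet
  obtain ⟨y, hy0, hy⟩ := Matrix.exists_mulVec_eq_zero_iff.2 hdet
  have hMM : M ⬝ᵥ M ≠ 0 := fun h0 => hM (dotProduct_self_eq_zero.1 h0)
  have h1 : M ⬝ᵥ (mat e g M *ᵥ y) = (M ⬝ᵥ M) * y (e none) := by
    rw [Matrix.dotProduct_mulVec, vecMul_mat e g M M h]
    simp
  rw [hy] at h1
  have hyn : y (e none) = 0 := by
    have : (M ⬝ᵥ M) * y (e none) = 0 := by rw [← h1]; simp
    exact (mul_eq_zero.1 this).resolve_left hMM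
  have h3 : ∑ j, ((y (e (some j)) : ℤ) : ℚ) • qv (g j) = 0 := by
    funext l
    have h4 := congrFun hy l
    simp only [Matrix.mulVec, dotProduct] at h4
    rw [← e.sum_comp, Fintype.sum_option] at h4
    simp only [mat_none, mat_some, hyn, mul_zero, zero_add] at h4
    have h5 : (∑ j, ((g j l : ℤ) : ℚ) * ((y (e (some j)) : ℤ) : ℚ)) = 0 := by
      have := congrArg (fun z : ℤ => (z : ℚ)) h4
      simpa using this
    simp only [Finset.sum_apply, Pi.smul_apply, qv, smul_eq_mul, Pi.zero_apply]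
    rw [← h5]
    exact Finset.sum_congr rfl fun j _ => mul_comm _ _
  have h6 := Fintype.linearIndependent_iff.1 hg _ h3
  apply hy0
  funext k
  obtain ⟨o, rfl⟩ := e.surjective k
  cases o with
  | none => simpa using hyn
  | some j => simpa using h6 j

/-- orthogonal vectors are proportional -/
theorem orth_prop (e : Option κ ≃ ι) (g : κ → ι → ℤ) (M M₁ M₂ : ι → ℤ)
    (hg : LinearIndependent ℚ fun j => qv (g j)) (hM : M ≠ 0)
    (h : ∀ j, M ⬝ᵥ g j = 0) (h₁ : ∀ j, M₁ ⬝ᵥ g j = 0) (h₂ : ∀ j, M₂ ⬝ᵥ g j = 0) :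
    ∀ l l', M₁ l * M₂ l' = M₁ l' * M₂ l := by
  intro l l'
  have hd := det_ne_zero e g M hg hM h
  have a1 := det_smul e g M M₁ h₁
  have a2 := det_smul e g M M₂ h₂
  have : ((mat e g M).det * (mat e g M).det) * (M₁ l * M₂ l') =
      ((mat e g M).det * (mat e g M).det) * (M₁ l' * M₂ l) := by
    calc _ = ((mat e g M).det * M₁ l) * ((mat e g M).det * M₂ l') := by ring
      _ = ((mat e g M).det * M₁ l') * ((mat e g M).det * M₂ l) := by
        rw [a1 l, a2 l', a1 l', a2 l]; ring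
      _ = _ := by ring
  exact mul_left_cancel₀ (mul_ne_zero hd hd) this

/-- the cofactor vector is an integral multiple of M -/
theorem cof_eq (e : Option κ ≃ ι) (g : κ → ι → ℤ) (M : ι → ℤ)
    (hg : LinearIndependent ℚ fun j => qv (g j)) (hM : Prim M)
    (h : ∀ j, M ⬝ᵥ g j = 0) : ∃ t : ℤ, t ≠ 0 ∧ ∀ l, cof e g M l = t * M l := by
  obtain ⟨u, hu⟩ := prim_bezout hM
  have hM0 := prim_ne_zero hM
  have hMM : M ⬝ᵥ M ≠ 0 := fun h0 => hM0 (dotProduct_self_eq_zero.1 h0)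
  have hd := det_ne_zero e g M hg hM0 h
  have a := det_smul e g M M h
  have h1 : (mat e g M).det = (M ⬝ᵥ M) * ∑ i, u i * cof e g M i := by
    calc (mat e g M).det = (mat e g M).det * ∑ i, u i * M i := by rw [hu, mul_one]
      _ = ∑ i, u i * ((mat e g M).det * M i) := by
          rw [Finset.mul_sum]
          exact Finset.sum_congr rfl fun i _ => by ring
      _ = ∑ i, u i * ((M ⬝ᵥ M) * cof e g M i) := Finset.sum_congr rfl fun i _ => by rw [a i]
      _ = _ := by rw [Finset.mul_sum]; exact Finset.sum_congr rfl fun i _ => by ring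
  refine ⟨∑ i, u i * cof e g M i, ?_, ?_⟩
  · intro h0
    rw [h0, mul_zero] at h1
    exact hd h1
  · intro l
    have h2 := a l
    rw [h1, mul_assoc] at h2
    exact (mul_left_cancel₀ hMM h2).symm

theorem cof_co (e : Option κ ≃ ι) (A : Matrix ι ι ℚ) (hA : IsUnit A.det) (g : κ → ι → ℤ)
    (M : ι → ℤ) (t : ℤ) (ht : ∀ l, cof e g M l = t * M l) (i : ι) :
    (t : ℚ) * co A M i * A.det =
      ((A * (mat e g M).map (Int.castRingHom ℚ)).updateCol (e none) (Pi.single i 1)).det := by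
  have h1 : A *ᵥ (A⁻¹ *ᵥ (Pi.single i 1)) = Pi.single i 1 := by
    rw [Matrix.mulVec_mulVec, Matrix.mul_nonsing_inv A hA, Matrix.one_mulVec]
  have h2 : ((mat e g M).map (Int.castRingHom ℚ)).adjugate =
      (mat e g M).adjugate.map (Int.castRingHom ℚ) := by
    have := RingHom.map_adjugate (Int.castRingHom ℚ) (mat e g M)
    rw [RingHom.mapMatrix_apply, RingHom.mapMatrix_apply] at this
    exact this.symm
  rw [← h1, ← Matrix.mul_updateCol, Matrix.det_mul, ← Matrix.cramer_apply,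
    Matrix.cramer_eq_adjugate_mulVec, h2, mul_comm]
  congr 1
  simp only [co, Matrix.mulVec, Matrix.vecMul, dotProduct, Matrix.map_apply, Pi.single_apply,
    mul_ite, mul_one, mul_zero, Finset.sum_ite_eq', Finset.mem_univ, if_true]
  rw [Finset.mul_sum]
  refine Finset.sum_congr rfl fun l _ => ?_
  have h3 : (mat e g M).adjugate (e none) l = t * M l := ht l
  rw [h3]
  simp [qv, mul_assoc]

theorem abv_sum_le {α : Type} (w : AbsoluteValue ℚ ℝ) (s : Finset α) (f : α → ℚ) :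
    w (∑ a ∈ s, f a) ≤ ∑ a ∈ s, w (f a) := by
  classical
  induction s using Finset.induction_on with
  | empty => simp
  | insert a s ha ih =>
    rw [Finset.sum_insert ha, Finset.sum_insert ha]
    exact (w.add_le _ _).trans (by gcongr)

/-- absolute value of a determinant with one standard column -/
theorem det_bound (w : AbsoluteValue ℚ ℝ) (Y : Matrix ι ι ℚ) (k i : ι) (r : ι → ℝ)
    (hr : ∀ l, 0 < r l) (hY : ∀ l j, j ≠ k → w (Y l j) ≤ r l) :
    w ((Y.updateCol k (Pi.single i 1)).det) * r i ≤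
      ((Fintype.card ι).factorial : ℝ) * ∏ l, r l := by
  set Z := Y.updateCol k (Pi.single i 1) with hZ
  have hterm : ∀ σ : Equiv.Perm ι,
      w (Equiv.Perm.sign σ • ∏ j, Z (σ j) j) * r i ≤ ∏ l, r l := by
    intro σ
    have h0 : w (Equiv.Perm.sign σ • ∏ j, Z (σ j) j) = ∏ j, w (Z (σ j) j) := by
      rw [← map_prod]
      rcases Int.units_eq_one_or (Equiv.Perm.sign σ) with h | h <;> rw [h]
      · simp
      · simp [Units.neg_smul]
    rw [h0, ← Finset.mul_prod_erase Finset.univ _ (Finset.mem_univ k)]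
    have hk : Z (σ k) k = if σ k = i then 1 else 0 := by
      simp [hZ, Pi.single_apply]
    by_cases hi : σ k = i
    · rw [hk, if_pos hi, map_one, one_mul]
      have h1 : ∏ j ∈ Finset.univ.erase k, w (Z (σ j) j) ≤
          ∏ j ∈ Finset.univ.erase k, r (σ j) := by
        apply Finset.prod_le_prod
        · intro j _
          exact w.nonneg _
        · intro j hj
          have hne : j ≠ k := Finset.ne_of_mem_erase hj
          have : Z (σ j) j = Y (σ j) j := by simp [hZ, Matrix.updateCol_ne hne]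
          rw [this]
          exact hY _ _ hne
      calc _ ≤ (∏ j ∈ Finset.univ.erase k, r (σ j)) * r i :=
            mul_le_mul_of_nonneg_right h1 (hr i).le
        _ = ∏ j, r (σ j) := by
            rw [← hi, mul_comm,
              Finset.mul_prod_erase Finset.univ (fun j => r (σ j)) (Finset.mem_univ k)]
        _ = ∏ l, r l := Equiv.prod_comp σ r
    · rw [hk, if_neg hi, map_zero, zero_mul, zero_mul]
      exact Finset.prod_nonneg fun l _ => (hr l).le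
  rw [Matrix.det_apply]
  calc _ ≤ (∑ σ : Equiv.Perm ι, w (Equiv.Perm.sign σ • ∏ j, Z (σ j) j)) * r i :=
        mul_le_mul_of_nonneg_right (abv_sum_le w _ _) (hr i).le
    _ = ∑ σ : Equiv.Perm ι, w (Equiv.Perm.sign σ • ∏ j, Z (σ j) j) * r i := Finset.sum_mul _ _ _
    _ ≤ ∑ _σ : Equiv.Perm ι, ∏ l, r l := Finset.sum_le_sum fun σ _ => hterm σ
    _ = _ := by rw [Finset.sum_const, Finset.card_univ, Fintype.card_perm, nsmul_eq_mul]

/-- the upper bound (1) of the blueprint -/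
theorem upper_one (e : Option κ ≃ ι) (w : AbsoluteValue ℚ ℝ) (A : Matrix ι ι ℚ)
    (hA : IsUnit A.det) (c : ι → ℝ) (Q : ℝ) (hQ : 0 < Q) (g : κ → ι → ℤ) (M : ι → ℤ) (t : ℤ)
    (hg : ∀ j i, w ((A *ᵥ qv (g j)) i) ≤ Q ^ c i)
    (ht : ∀ l, cof e g M l = t * M l) (i : ι) :
    w (t : ℚ) * w (co A M i) * w A.det * Q ^ c i ≤
      ((Fintype.card ι).factorial : ℝ) * ∏ l, Q ^ c l := by
  rw [← map_mul, ← map_mul, cof_co e A hA g M t ht i]
  apply det_bound w _ (e none) i (fun l => Q ^ c l)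
  · intro l
    exact Real.rpow_pos_of_pos hQ _
  · intro l j hj
    obtain ⟨o, rfl⟩ := e.surjective j
    cases o with
    | none => exact absurd rfl hj
    | some j =>
      have h1 : (A * (mat e g M).map (Int.castRingHom ℚ)) l (e (some j)) = (A *ᵥ qv (g j)) l := by
        simp [Matrix.mul_apply, Matrix.mulVec, dotProduct, mat_some, qv]
      rw [h1]
      exact hg j l

end lin

theorem w_nat_le (w : AbsoluteValue ℚ ℝ) (n : ℕ) : w (n : ℚ) ≤ n := by
  induction n with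
  | zero => simp
  | succ n ih =>
    push_cast
    refine (w.add_le _ _).trans ?_
    rw [map_one]
    linarith

theorem w_int_le (w : AbsoluteValue ℚ ℝ) (y : ℤ) : w (y : ℚ) ≤ |(y : ℝ)| := by
  obtain ⟨n, rfl | rfl⟩ := Int.eq_nat_or_neg y
  · have := w_nat_le w n
    simpa using this
  · have := w_nat_le w n
    simpa using this

section glob

variable {V ι κ : Type} [Fintype V] [Fintype ι] [DecidableEq ι] [Fintype κ]

theorem one_le_w_mul (w : V → AbsoluteValue ℚ ℝ) (hw : ProdGe w) (v : V) (y : ℤ) (hy : y ≠ 0) :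
    1 ≤ w v (y : ℚ) * |(y : ℝ)| ^ (Fintype.card V) := by
  classical
  have h1 := hw y hy
  rw [← Finset.mul_prod_erase Finset.univ _ (Finset.mem_univ v)] at h1
  have hy1 : (1 : ℝ) ≤ |(y : ℝ)| := by
    have := Int.one_le_abs hy
    exact_mod_cast this
  have h2 : ∏ x ∈ Finset.univ.erase v, w x (y : ℚ) ≤ |(y : ℝ)| ^ (Fintype.card V) := by
    calc _ ≤ ∏ _x ∈ Finset.univ.erase v, |(y : ℝ)| :=
          Finset.prod_le_prod (fun x _ => (w x).nonneg _) (fun x _ => w_int_le _ _)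
      _ = |(y : ℝ)| ^ (Finset.univ.erase v).card := by rw [Finset.prod_const]
      _ ≤ |(y : ℝ)| ^ (Fintype.card V) :=
          pow_le_pow_right₀ hy1 (Finset.card_le_univ _)
  exact h1.trans (mul_le_mul_of_nonneg_left h2 ((w v).nonneg _))

/-- the lower bound (2) of the blueprint, at one place -/
theorem lower_two (w : V → AbsoluteValue ℚ ℝ) (hw : ProdGe w) (v : V) (A : Matrix ι ι ℚ) :
    ∃ C : ℝ, 1 ≤ C ∧ ∀ (M : ι → ℤ) (i : ι), co A M i ≠ 0 →
      1 ≤ C * ‖M‖ ^ (Fintype.card V) * w v (co A M i) := by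
  obtain ⟨b, hb⟩ := IsLocalization.exist_integer_multiples (nonZeroDivisors ℤ)
    (Finset.univ : Finset (ι × ι)) (fun x => A⁻¹ x.1 x.2)
  have hb' : ∀ l i, ∃ z : ℤ, (z : ℚ) = ((b : ℤ) : ℚ) * A⁻¹ l i := by
    intro l i
    obtain ⟨z, hz⟩ := hb (l, i) (Finset.mem_univ _)
    refine ⟨z, ?_⟩
    simpa using hz
  choose z hz using hb'
  have hb0 : (b : ℤ) ≠ 0 := nonZeroDivisors.coe_ne_zero b
  set Z : ℝ := ∑ l, ∑ i, |(z l i : ℝ)| with hZ
  have hZ0 : 0 ≤ Z := Finset.sum_nonneg fun l _ => Finset.sum_nonneg fun i _ => abs_nonneg _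
  refine ⟨max 1 (|((b : ℤ) : ℝ)| * Z ^ (Fintype.card V)), le_max_left _ _, ?_⟩
  intro M i hi
  set y : ℤ := ∑ l, M l * z l i with hy
  have hyq : (y : ℚ) = ((b : ℤ) : ℚ) * co A M i := by
    rw [hy]
    push_cast
    simp only [co, Matrix.vecMul, dotProduct, hz, qv, Finset.mul_sum]
    exact Finset.sum_congr rfl fun l _ => by ring
  have hy0 : y ≠ 0 := by
    intro h0
    rw [h0] at hyq
    have hbq : ((b : ℤ) : ℚ) ≠ 0 := by exact_mod_cast hb0
    have : ((b : ℤ) : ℚ) * co A M i = 0 := by rw [← hyq]; simp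
    exact (mul_ne_zero hbq hi) this
  have hyM : |(y : ℝ)| ≤ ‖M‖ * Z := by
    rw [hy]
    push_cast
    calc |∑ l, (M l : ℝ) * (z l i : ℝ)| ≤ ∑ l, |(M l : ℝ) * (z l i : ℝ)| :=
          Finset.abs_sum_le_sum_abs _ _
      _ ≤ ∑ l, ‖M‖ * ∑ i, |(z l i : ℝ)| := by
          apply Finset.sum_le_sum
          intro l _
          rw [abs_mul]
          apply mul_le_mul _ _ (abs_nonneg _) (norm_nonneg _)
          · have := norm_le_pi_norm M l
            rwa [Int.norm_eq_abs] at this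
          · exact Finset.single_le_sum (f := fun i => |(z l i : ℝ)|)
              (fun i _ => abs_nonneg _) (Finset.mem_univ i)
      _ = ‖M‖ * Z := by rw [hZ, Finset.mul_sum]
  have h1 := one_le_w_mul w hw v y hy0
  rw [hyq, map_mul] at h1
  have h2 : w v ((b : ℤ) : ℚ) ≤ |((b : ℤ) : ℝ)| := w_int_le _ _
  have h3 : |(y : ℝ)| ^ (Fintype.card V) ≤ (‖M‖ * Z) ^ (Fintype.card V) :=
    pow_le_pow_left₀ (abs_nonneg _) hyM _
  have hn : 0 ≤ w v (co A M i) := (w v).nonneg _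
  calc 1 ≤ w v ((b : ℤ) : ℚ) * w v (co A M i) * |(y : ℝ)| ^ (Fintype.card V) := h1
    _ ≤ |((b : ℤ) : ℝ)| * w v (co A M i) * (‖M‖ * Z) ^ (Fintype.card V) := by
        apply mul_le_mul (mul_le_mul_of_nonneg_right h2 hn) h3 (by positivity)
        exact mul_nonneg (abs_nonneg _) hn
    _ = |((b : ℤ) : ℝ)| * Z ^ (Fintype.card V) * ‖M‖ ^ (Fintype.card V) * w v (co A M i) := by
        rw [mul_pow]; ring
    _ ≤ _ := by
        apply mul_le_mul_of_nonneg_right _ hn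
        exact mul_le_mul_of_nonneg_right (le_max_right _ _) (by positivity)

theorem height_ineq (e : Option κ ≃ ι)
    (w : V → AbsoluteValue ℚ ℝ) (hw : ProdGe w) (A : V → Matrix ι ι ℚ)
    (hA : ∀ v, IsUnit (A v).det) (c : V → ι → ℝ) :
    ∃ C : ℝ, 1 ≤ C ∧ ∀ Q : ℝ, 0 < Q → ∀ (g : κ → ι → ℤ) (M : ι → ℤ),
        (LinearIndependent ℚ fun j => qv (g j)) →
        (∀ v j i, w v ((A v *ᵥ qv (g j)) i) ≤ Q ^ c v i) →
        Prim M → (∀ j, M ⬝ᵥ g j = 0) → ∀ i₀ : V → ι, (∀ v, co (A v) M (i₀ v) ≠ 0) →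
        Q ^ (∑ v, c v (i₀ v)) ≤
          C * ‖M‖ ^ (Fintype.card V * Fintype.card V) * Q ^ (∑ v, ∑ i, c v i) := by
  choose C hC1 hC using fun v => lower_two w hw v (A v)
  have hd : ∀ v, 0 < w v (A v).det := fun v => (w v).pos (hA v).ne_zero
  set K : V → ℝ := fun v => C v * ((Fintype.card ι).factorial : ℝ) / w v (A v).det with hK
  have hK0 : ∀ v, 0 ≤ K v := fun v =>
    div_nonneg (mul_nonneg (by linarith [hC1 v]) (Nat.cast_nonneg _)) (hd v).le
  refine ⟨max 1 (∏ v, K v), le_max_left _ _, ?_⟩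
  intro Q hQ g M hg hb hM ho i₀ hi₀
  obtain ⟨t, ht0, ht⟩ := cof_eq e g M hg hM ho
  have hone : ∀ v, Q ^ c v (i₀ v) * w v (t : ℚ) ≤
      K v * ‖M‖ ^ (Fintype.card V) * ∏ l, Q ^ c v l := by
    intro v
    have h1 := upper_one e (w v) (A v) (hA v) (c v) Q hQ g M t (hb v) ht (i₀ v)
    have h2 := hC v M (i₀ v) (hi₀ v)
    have hq : 0 < Q ^ c v (i₀ v) := Real.rpow_pos_of_pos hQ _
    have ht1 : 0 ≤ w v (t : ℚ) := (w v).nonneg _
    have hm : 0 ≤ w v (co (A v) M (i₀ v)) := (w v).nonneg _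
    have hC0 : 0 ≤ C v * ‖M‖ ^ (Fintype.card V) :=
      mul_nonneg (by linarith [hC1 v]) (by positivity)
    calc Q ^ c v (i₀ v) * w v (t : ℚ) = 1 * (Q ^ c v (i₀ v) * w v (t : ℚ)) := by ring
      _ ≤ (C v * ‖M‖ ^ (Fintype.card V) * w v (co (A v) M (i₀ v))) *
          (Q ^ c v (i₀ v) * w v (t : ℚ)) :=
          mul_le_mul_of_nonneg_right h2 (mul_nonneg hq.le ht1)
      _ = (C v * ‖M‖ ^ (Fintype.card V)) * (w v (t : ℚ) * w v (co (A v) M (i₀ v)) *
          w v (A v).det * Q ^ c v (i₀ v)) / w v (A v).det := by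
          field_simp [(hd v).ne']
      _ ≤ (C v * ‖M‖ ^ (Fintype.card V)) * (((Fintype.card ι).factorial : ℝ) *
          ∏ l, Q ^ c v l) / w v (A v).det := by
          apply div_le_div_of_nonneg_right _ (hd v).le
          exact mul_le_mul_of_nonneg_left h1 hC0
      _ = _ := by rw [hK]; ring
  have hprod : (∏ v, Q ^ c v (i₀ v)) * ∏ v, w v (t : ℚ) ≤
      (∏ v, K v) * ‖M‖ ^ (Fintype.card V * Fintype.card V) * ∏ v, ∏ l, Q ^ c v l := by
    calc _ = ∏ v, (Q ^ c v (i₀ v) * w v (t : ℚ)) := by rw [Finset.prod_mul_distrib]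
      _ ≤ ∏ v, (K v * ‖M‖ ^ (Fintype.card V) * ∏ l, Q ^ c v l) :=
          Finset.prod_le_prod (fun v _ => mul_nonneg (Real.rpow_pos_of_pos hQ _).le
            ((w v).nonneg _)) (fun v _ => hone v)
      _ = _ := by
          rw [Finset.prod_mul_distrib, Finset.prod_mul_distrib, Finset.prod_const, pow_mul,
            Finset.card_univ]
  have hq1 : ∏ v, Q ^ c v (i₀ v) = Q ^ (∑ v, c v (i₀ v)) :=
    (Real.rpow_sum_of_pos hQ _ _).symm
  have hq2 : ∏ v, ∏ l, Q ^ c v l = Q ^ (∑ v, ∑ l, c v l) := by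
    rw [Real.rpow_sum_of_pos hQ]
    exact Finset.prod_congr rfl fun v _ => (Real.rpow_sum_of_pos hQ _ _).symm
  rw [hq1, hq2] at hprod
  have hw1 := hw t ht0
  have hpos : 0 < Q ^ (∑ v, c v (i₀ v)) := Real.rpow_pos_of_pos hQ _
  calc Q ^ (∑ v, c v (i₀ v)) ≤ Q ^ (∑ v, c v (i₀ v)) * ∏ v, w v (t : ℚ) :=
        le_mul_of_one_le_right hpos.le hw1
    _ ≤ _ := hprod
    _ ≤ _ := by
        apply mul_le_mul_of_nonneg_right _ (Real.rpow_pos_of_pos hQ _).le
        exact mul_le_mul_of_nonneg_right (le_max_right _ _) (by positivity)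

theorem value_small (w : V → AbsoluteValue ℚ ℝ) (hw : ProdGe w) (A : V → Matrix ι ι ℚ)
    (hA : ∀ v, IsUnit (A v).det) (c : V → ι → ℝ) (I : V → Finset ι) (i₀ : V → ι)
    (hi₀ : ∀ v, ∀ i ∈ I v, c v i ≤ c v (i₀ v)) (M : ι → ℤ)
    (hM : ∀ v i, i ∉ I v → co (A v) M i = 0) :
    ∃ C : ℝ, 1 ≤ C ∧ ∀ Q : ℝ, 1 ≤ Q → ∀ g : ι → ℤ,
      (∀ v i, w v ((A v *ᵥ qv g) i) ≤ Q ^ c v i) → M ⬝ᵥ g ≠ 0 →
      1 ≤ C * Q ^ (∑ v, c v (i₀ v)) := by
  set S : V → ℝ := fun v => ∑ i, w v (co (A v) M i) with hS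
  have hS0 : ∀ v, 0 ≤ S v := fun v => Finset.sum_nonneg fun i _ => (w v).nonneg _
  refine ⟨max 1 (∏ v, S v), le_max_left _ _, ?_⟩
  intro Q hQ g hg hne
  have hQ0 : 0 < Q := lt_of_lt_of_le one_pos hQ
  have h1 := hw (M ⬝ᵥ g) hne
  have hv : ∀ v, w v ((M ⬝ᵥ g : ℤ) : ℚ) ≤ S v * Q ^ c v (i₀ v) := by
    intro v
    rw [dot_eq (A v) (hA v) M g]
    calc w v (∑ i, co (A v) M i * (A v *ᵥ qv g) i)
        ≤ ∑ i, w v (co (A v) M i * (A v *ᵥ qv g) i) := abv_sum_le _ _ _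
      _ ≤ ∑ i, w v (co (A v) M i) * Q ^ c v (i₀ v) := by
          apply Finset.sum_le_sum
          intro i _
          rw [map_mul]
          by_cases hi : i ∈ I v
          · apply mul_le_mul_of_nonneg_left _ ((w v).nonneg _)
            exact (hg v i).trans (Real.rpow_le_rpow_of_exponent_le hQ (hi₀ v i hi))
          · rw [hM v i hi]
            simp
      _ = _ := by rw [← Finset.sum_mul]
  calc (1 : ℝ) ≤ ∏ v, w v ((M ⬝ᵥ g : ℤ) : ℚ) := h1
    _ ≤ ∏ v, (S v * Q ^ c v (i₀ v)) :=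
        Finset.prod_le_prod (fun v _ => (w v).nonneg _) (fun v _ => hv v)
    _ = (∏ v, S v) * Q ^ (∑ v, c v (i₀ v)) := by
        rw [Finset.prod_mul_distrib, Real.rpow_sum_of_pos hQ0]
    _ ≤ _ := mul_le_mul_of_nonneg_right (le_max_right _ _) (Real.rpow_pos_of_pos hQ0 _).le

theorem large (s C : ℝ) (hs : 0 < s) : ∃ Q₀ : ℝ, 1 ≤ Q₀ ∧ ∀ Q : ℝ, Q₀ ≤ Q → C < Q ^ s := by
  obtain ⟨a, ha⟩ := Filter.eventually_atTop.1 ((tendsto_rpow_atTop hs).eventually_gt_atTop C)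
  exact ⟨max 1 a, le_max_left _ _, fun Q hQ => ha Q ((le_max_right _ _).trans hQ)⟩

/-- the statement for one pattern -/
theorem pattern (e : Option κ ≃ ι)
    (w : V → AbsoluteValue ℚ ℝ) (hw : ProdGe w) (A : V → Matrix ι ι ℚ)
    (hA : ∀ v, IsUnit (A v).det) (c : V → ι → ℝ) (hc : ∑ v, ∑ i, c v i < 0) (c₀ : ℝ)
    (hc₀ : c₀ * (Fintype.card V * Fintype.card V : ℕ) ≤ -(∑ v, ∑ i, c v i) / 4)
    (I : V → Finset ι) :
    ∃ Q₀ : ℝ, 1 ≤ Q₀ ∧ ∃ W : Set (ι → ℤ), W.Finite ∧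
      ∀ Q : ℝ, Q₀ ≤ Q → ∀ (g : κ → ι → ℤ) (M : ι → ℤ),
        (LinearIndependent ℚ fun j => qv (g j)) →
        (∀ v j i, w v ((A v *ᵥ qv (g j)) i) ≤ Q ^ c v i) →
        Prim M → (∀ j, M ⬝ᵥ g j = 0) → (∀ v i, co (A v) M i ≠ 0 ↔ i ∈ I v) →
        M ∈ W ∨ Q ^ c₀ ≤ ‖M‖ := by
  by_cases hne : ∀ v, (I v).Nonempty
  swap
  · push Not at hne
    obtain ⟨v, hv⟩ := hne
    refine ⟨1, le_rfl, ∅, Set.finite_empty, ?_⟩
    intro Q _ g M _ _ hM _ hI
    obtain ⟨i, hi⟩ := co_ne_zero (A v) (hA v) M (prim_ne_zero hM)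
    rw [hI v i, hv] at hi
    simp at hi
  choose i₀ hi₀I hi₀ using fun v => Finset.exists_max_image (I v) (c v) (hne v)
  set σ := ∑ v, c v (i₀ v) with hσ
  set δ := -(∑ v, ∑ i, c v i) with hδ
  have hδ0 : 0 < δ := by rw [hδ]; linarith
  by_cases hcase : -δ / 2 < σ
  · obtain ⟨C, hC1, hC⟩ := height_ineq e w hw A hA c
    obtain ⟨Q₀, hQ₀, hbig⟩ := large (δ / 4) C (by linarith)
    refine ⟨Q₀, hQ₀, ∅, Set.finite_empty, ?_⟩
    intro Q hQ g M hg hb hM ho hI
    right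
    by_contra hlt
    push Not at hlt
    have hQ1 : 1 ≤ Q := hQ₀.trans hQ
    have hQ0 : 0 < Q := lt_of_lt_of_le one_pos hQ1
    have h1 := hC Q hQ0 g M hg hb hM ho i₀ (fun v => (hI v _).2 (hi₀I v))
    have h2 : ‖M‖ ^ (Fintype.card V * Fintype.card V) ≤
        Q ^ (c₀ * (Fintype.card V * Fintype.card V : ℕ)) := by
      rw [Real.rpow_mul hQ0.le, Real.rpow_natCast]
      exact pow_le_pow_left₀ (norm_nonneg _) hlt.le _
    have h3 : ‖M‖ ^ (Fintype.card V * Fintype.card V) ≤ Q ^ (δ / 4) :=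
      h2.trans (Real.rpow_le_rpow_of_exponent_le hQ1 hc₀)
    have h4 : Q ^ σ ≤ C * Q ^ (δ / 4) * Q ^ (-δ) := by
      refine h1.trans ?_
      have : ∑ v, ∑ i, c v i = -δ := by rw [hδ]; ring
      rw [this]
      apply mul_le_mul_of_nonneg_right _ (Real.rpow_pos_of_pos hQ0 _).le
      exact mul_le_mul_of_nonneg_left h3 (by linarith)
    have h5 : Q ^ (-δ / 2) ≤ Q ^ σ := Real.rpow_le_rpow_of_exponent_le hQ1 hcase.le
    have h6 : Q ^ (-δ / 2) ≤ C * Q ^ (δ / 4) * Q ^ (-δ) := h5.trans h4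
    rw [mul_assoc, ← Real.rpow_add hQ0] at h6
    have h7 : Q ^ (-δ / 2) = Q ^ (δ / 4) * Q ^ (δ / 4 + -δ) := by
      rw [← Real.rpow_add hQ0]
      congr 1
      ring
    rw [h7] at h6
    have h8 : Q ^ (δ / 4) ≤ C := le_of_mul_le_mul_right h6 (Real.rpow_pos_of_pos hQ0 _)
    exact absurd (hbig Q hQ) (not_lt.2 h8)
  · have hσ0 : σ < 0 := by linarith [not_lt.1 hcase]
    by_cases hpair : ∃ M₁ M₂ : ι → ℤ, (∀ v i, i ∉ I v → co (A v) M₁ i = 0) ∧
        (∀ v i, i ∉ I v → co (A v) M₂ i = 0) ∧ ¬ (∀ l l', M₁ l * M₂ l' = M₁ l' * M₂ l)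
    · obtain ⟨M₁, M₂, h1, h2, h12⟩ := hpair
      obtain ⟨C₁, hC₁1, hC₁⟩ := value_small w hw A hA c I i₀ hi₀ M₁ h1
      obtain ⟨C₂, hC₂1, hC₂⟩ := value_small w hw A hA c I i₀ hi₀ M₂ h2
      obtain ⟨Q₁, hQ₁, hbig₁⟩ := large (-σ) C₁ (by linarith)
      obtain ⟨Q₂, hQ₂, hbig₂⟩ := large (-σ) C₂ (by linarith)
      refine ⟨max Q₁ Q₂, hQ₁.trans (le_max_left _ _), ∅, Set.finite_empty, ?_⟩
      intro Q hQ g M hg hb hM ho hI
      exfalso
      have hQa : Q₁ ≤ Q := (le_max_left _ _).trans hQ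
      have hQb : Q₂ ≤ Q := (le_max_right _ _).trans hQ
      have hQ1 : 1 ≤ Q := hQ₁.trans hQa
      have hQ0 : 0 < Q := lt_of_lt_of_le one_pos hQ1
      have key : ∀ C : ℝ, C < Q ^ (-σ) → ¬ (1 ≤ C * Q ^ σ) := by
        intro C hC h
        have hp : 0 < Q ^ σ := Real.rpow_pos_of_pos hQ0 _
        have : C * Q ^ σ < Q ^ (-σ) * Q ^ σ := mul_lt_mul_of_pos_right hC hp
        rw [← Real.rpow_add hQ0] at this
        simp at this
        linarith
      have ho1 : ∀ j, M₁ ⬝ᵥ g j = 0 := by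
        intro j
        by_contra hcon
        exact key C₁ (hbig₁ Q hQa) (hC₁ Q hQ1 (g j) (fun v i => hb v j i) hcon)
      have ho2 : ∀ j, M₂ ⬝ᵥ g j = 0 := by
        intro j
        by_contra hcon
        exact key C₂ (hbig₂ Q hQb) (hC₂ Q hQ1 (g j) (fun v i => hb v j i) hcon)
      exact h12 (orth_prop e g M M₁ M₂ hg (prim_ne_zero hM) ho ho1 ho2)
    · push Not at hpair
      refine ⟨1, le_rfl, {M | Prim M ∧ ∀ v i, i ∉ I v → co (A v) M i = 0}, ?_, ?_⟩
      · rcases Set.eq_empty_or_nonempty {M | Prim M ∧ ∀ v i, i ∉ I v → co (A v) M i = 0} with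
          h | ⟨M₀, hM₀, hM₀'⟩
        · rw [h]
          exact Set.finite_empty
        · apply Set.Finite.subset (Set.toFinite {M₀, -M₀})
          rintro M ⟨hM, hM'⟩
          exact prim_prop hM₀ hM (hpair M₀ M hM₀' hM')
      · intro Q _ g M _ _ hM _ hI
        left
        refine ⟨hM, fun v i hi => ?_⟩
        by_contra hcon
        exact hi ((hI v i).1 hcon)

end glob

end Pool.Agent.SST.Height

namespace Pool.Agent.SST

open MvPolynomial Matrix

theorem height_dichotomy {V ι κ : Type} [Fintype V] [Fintype ι] [DecidableEq ι] [Fintype κ]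
    (hκ : Fintype.card κ + 1 = Fintype.card ι)
    (w : V → AbsoluteValue ℚ ℝ) (hw : ProdGe w) (A : V → Matrix ι ι ℚ)
    (hA : ∀ v, IsUnit (A v).det) (c : V → ι → ℝ) (hc : ∑ v, ∑ i, c v i < 0) :
    ∃ c₀ : ℝ, 0 < c₀ ∧ ∃ Q₀ : ℝ, 1 ≤ Q₀ ∧ ∃ W : Set (ι → ℤ), W.Finite ∧
      ∀ Q : ℝ, Q₀ ≤ Q → ∀ (g : κ → ι → ℤ) (M : ι → ℤ),
        (LinearIndependent ℚ fun j => qv (g j)) →
        (∀ v j i, w v ((A v *ᵥ qv (g j)) i) ≤ Q ^ c v i) →
        Prim M → (∀ j, M ⬝ᵥ g j = 0) → M ∈ W ∨ Q ^ c₀ ≤ ‖M‖ := by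
  have e : Option κ ≃ ι := Fintype.equivOfCardEq (by rw [Fintype.card_option, hκ])
  set δ := -(∑ v, ∑ i, c v i) with hδ
  have hδ0 : 0 < δ := by rw [hδ]; linarith
  set n : ℕ := Fintype.card V * Fintype.card V with hn
  have hc₀ : δ / (4 * (n + 1)) * (n : ℕ) ≤ δ / 4 := by
    have h1 : (0 : ℝ) < n + 1 := by positivity
    rw [div_mul_eq_mul_div, div_le_div_iff₀ (by positivity) (by norm_num)]
    nlinarith
  refine ⟨δ / (4 * (n + 1)), by positivity, ?_⟩
  choose Q₀ hQ₀ W hW hmain using fun I : V → Finset ι =>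
    Height.pattern e w hw A hA c hc (δ / (4 * (n + 1))) hc₀ I
  obtain ⟨B, hB⟩ := (Set.finite_range Q₀).bddAbove
  refine ⟨max 1 B, le_max_left _ _, ⋃ I, W I, Set.finite_iUnion hW, ?_⟩
  intro Q hQ g M hg hb hM ho
  have := hmain (fun v => Finset.univ.filter fun i => Height.co (A v) M i ≠ 0) Q
    ((hB ⟨_, rfl⟩).trans ((le_max_right _ _).trans hQ)) g M hg hb hM ho (by simp)
  rcases this with h | h
  · left
    exact Set.mem_iUnion.2 ⟨_, h⟩
  · right
    exact h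

end Pool.Agent.SST
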