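import Pool.Agent.SST.Defs
import Pool.Agent.SST.BasisA

/-!
Reduction of the parametric subspace theorem to nonpositive exponents at the finite places.
-/

set_option autoImplicit false

namespace Pool.Agent.SST

open Matrix

theorem param_reduce (n : ℕ) (S : Finset ℕ) (hS : ∀ p ∈ S, p.Prime)
    (A : Option S → Matrix (Fin n) (Fin n) ℚ) (hA : ∀ v, IsUnit (A v).det)
    (c : Option S → Fin n → ℝ) (hc : ∑ v, ∑ i, c v i < 0) :
    ∃ (A' : Option S → Matrix (Fin n) (Fin n) ℚ) (c' : Option S → Fin n → ℝ),
      (∀ v, IsUnit (A' v).det) ∧ (∑ v, ∑ i, c' v i < 0) ∧ (∀ (p : S) i, c' (some p) i ≤ 0) ∧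
      ∀ Q : ℝ, 1 ≤ Q → ∀ x : Fin n → ℤ,
        (∀ v i, plc S hS v ((A v *ᵥ qv x) i) ≤ Q ^ c v i) →
        ∀ v i, plc S hS v ((A' v *ᵥ qv x) i) ≤ Q ^ c' v i := by
  classical
  -- a common denominator
  obtain ⟨D, hD, hDA⟩ : ∃ D : ℕ, 0 < D ∧ ∀ v i j, ∃ z : ℤ, (D : ℚ) * A v i j = z := by
    refine ⟨∏ a : Option S × Fin n × Fin n, (A a.1 a.2.1 a.2.2).den,
      Finset.prod_pos fun a _ => (A a.1 a.2.1 a.2.2).den_pos, fun v i j => ?_⟩
    refine ⟨(∏ b ∈ Finset.univ.erase ((v, i, j) : Option S × Fin n × Fin n),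
      ((A b.1 b.2.1 b.2.2).den : ℤ)) * (A v i j).num, ?_⟩
    rw [← Finset.prod_erase_mul Finset.univ _
      (Finset.mem_univ ((v, i, j) : Option S × Fin n × Fin n))]
    push_cast
    rw [mul_assoc]
    congr 1
    have := Rat.mul_den_eq_num (A v i j)
    rw [mul_comm] at this
    exact this
  have hD0 : (D : ℚ) ≠ 0 := by exact_mod_cast hD.ne'
  refine ⟨fun v => match v with
      | none => A none
      | some p => (D : ℚ) • A (some p),
    fun v i => match v with
      | none => c none i
      | some p => min (c (some p) i) 0, ?_, ?_, ?_, ?_⟩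
  · rintro (_ | p)
    · exact hA none
    · show IsUnit ((D : ℚ) • A (some p)).det
      rw [Matrix.det_smul]
      exact (isUnit_iff_ne_zero.2 (pow_ne_zero _ hD0)).mul (hA (some p))
  · rw [Fintype.sum_option] at hc ⊢
    refine lt_of_le_of_lt ?_ hc
    apply add_le_add le_rfl
    apply Finset.sum_le_sum
    intro p _
    apply Finset.sum_le_sum
    intro i _
    exact min_le_left _ _
  · intro p i
    exact min_le_right _ _
  · intro Q hQ x hx v i
    rcases v with _ | p
    · exact hx none i
    · show plc S hS (some p) ((((D : ℚ) • A (some p)) *ᵥ qv x) i) ≤ Q ^ (min (c (some p) i) 0)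
      rw [Matrix.smul_mulVec, Pi.smul_apply, smul_eq_mul]
      have h1 : plc S hS (some p) ((D : ℚ) * (A (some p) *ᵥ qv x) i) ≤ Q ^ c (some p) i := by
        rw [map_mul]
        have h2 : plc S hS (some p) (D : ℚ) ≤ 1 := by
          have := RB.plc_some_int_le_one S hS p (D : ℤ)
          simpa using this
        calc _ ≤ 1 * plc S hS (some p) ((A (some p) *ᵥ qv x) i) := by
              gcongr
          _ ≤ _ := by
              rw [one_mul]
              exact hx (some p) i
      have h3 : plc S hS (some p) ((D : ℚ) * (A (some p) *ᵥ qv x) i) ≤ 1 := by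
        have hz : ∃ z : ℤ, (D : ℚ) * (A (some p) *ᵥ qv x) i = z := by
          choose z hz using fun j => hDA (some p) i j
          refine ⟨∑ j, z j * x j, ?_⟩
          simp only [Matrix.mulVec, dotProduct, qv]
          rw [Finset.mul_sum]
          push_cast
          refine Finset.sum_congr rfl fun j _ => ?_
          rw [← mul_assoc, hz j]
        obtain ⟨z, hz⟩ := hz
        rw [hz]
        exact RB.plc_some_int_le_one S hS p z
      rcases min_choice (c (some p) i) 0 with h | h
      · rw [h]
        exact h1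
      · rw [h, Real.rpow_zero]
        exact h3

end Pool.Agent.SST
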