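import Pool.Agent.SST.ParamD
import Pool.Agent.SST.ParamRed

set_option autoImplicit false

namespace Pool.Agent.SST

open MvPolynomial Matrix

theorem parametric (n : ℕ) (hn : 2 ≤ n) (S : Finset ℕ) (hS : ∀ p ∈ S, p.Prime)
    (A : Option S → Matrix (Fin n) (Fin n) ℚ) (hA : ∀ v, IsUnit (A v).det)
    (c : Option S → Fin n → ℝ) (hc : ∑ v, ∑ i, c v i < 0) :
    ∃ T : Set (Submodule ℚ (Fin n → ℚ)), T.Finite ∧ (∀ U ∈ T, U ≠ ⊤) ∧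
      ∀ Q : ℝ, 1 ≤ Q → ∀ x : Fin n → ℤ,
        (∀ v i, plc S hS v ((A v *ᵥ qv x) i) ≤ Q ^ c v i) → ∃ U ∈ T, qv x ∈ U := by
  obtain ⟨A', c', hA', hc', hneg, hred⟩ := param_reduce n S hS A hA c hc
  obtain ⟨T, h1, h2, h3⟩ := ParamD.param_nonpos n hn S hS A' hA' c' hc' hneg
  exact ⟨T, h1, h2, fun Q hQ x hx => h3 Q hQ x (hred Q hQ x hx)⟩

end Pool.Agent.SST
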