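import Pool.Agent.SST.MainAux
import Pool.Agent.SST.Param

/-!
Block K: the subspace theorem over the rationals with rational forms.
-/

set_option autoImplicit false

namespace Pool.Agent.SST

open MvPolynomial Matrix

/-- The p-adic subspace theorem over the rationals, with rational forms. -/
theorem subspace_theorem {ι : Type} [Fintype ι] [DecidableEq ι] (hι : 2 ≤ Fintype.card ι)
    (S : Finset ℕ) (hS : ∀ p ∈ S, p.Prime) (A : Option S → Matrix ι ι ℚ)
    (hA : ∀ v, IsUnit (A v).det) (δ : ℝ) (hδ : 0 < δ) :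
    ∃ T : Set (Submodule ℚ (ι → ℚ)), T.Finite ∧ (∀ U ∈ T, U ≠ ⊤) ∧
      ∀ x : ι → ℤ, x ≠ 0 →
        ∏ v, ∏ i, plc S hS v ((A v *ᵥ qv x) i) ≤ ‖x‖ ^ (-δ) → ∃ U ∈ T, qv x ∈ U :=
  MainAux.subspace_of_param
    (fun n hn S hS A hA c hc => parametric n hn S hS A hA c hc) hι S hS A hA δ hδ

end Pool.Agent.SST
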