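import Pool.Agent.SST.Defs

/-!
Block K: the subspace theorem over the rationals with rational forms, from its parametric form
(the parametric form is a hypothesis here; the file Main.lean feeds it in).
-/

set_option autoImplicit false

namespace Pool.Agent.SST

open MvPolynomial Matrix

namespace MainAux

/-- Absolute values on the rationals that are at most the usual one on the integers, and at least
its inverse. -/
structure Tame (w : AbsoluteValue ℚ ℝ) : Prop where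
  le : ∀ n : ℤ, w (n : ℚ) ≤ |(n : ℝ)|
  ge : ∀ n : ℤ, n ≠ 0 → |(n : ℝ)|⁻¹ ≤ w (n : ℚ)

theorem tame_real : Tame Rat.AbsoluteValue.real := by
  refine ⟨fun n => ?_, fun n hn => ?_⟩
  · rw [Rat.AbsoluteValue.real_eq_abs]
    simp
  · rw [Rat.AbsoluteValue.real_eq_abs]
    have h1 : (1 : ℝ) ≤ |(n : ℝ)| := by
      have := Int.one_le_abs hn
      exact_mod_cast this
    have h2 : |(n : ℝ)|⁻¹ ≤ 1 := inv_le_one_of_one_le₀ h1
    have h3 : ((|(n : ℚ)| : ℚ) : ℝ) = |(n : ℝ)| := by simp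
    rw [h3]
    linarith

theorem tame_padic (p : ℕ) [Fact p.Prime] : Tame (Rat.AbsoluteValue.padic p) := by
  have hp : (1 : ℝ) < p := by exact_mod_cast (Fact.out : p.Prime).one_lt
  refine ⟨fun n => ?_, fun n hn => ?_⟩
  · rw [Rat.AbsoluteValue.padic_eq_padicNorm]
    rcases eq_or_ne n 0 with rfl | hn
    · simp
    · have h1 : (1 : ℝ) ≤ |(n : ℝ)| := by
        have := Int.one_le_abs hn
        exact_mod_cast this
      have h2 : ((padicNorm p (n : ℚ) : ℚ) : ℝ) ≤ 1 := by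
        exact_mod_cast padicNorm.of_int (p := p) n
      linarith
  · rw [Rat.AbsoluteValue.padic_eq_padicNorm]
    have hn' : (n : ℚ) ≠ 0 := by exact_mod_cast hn
    rw [padicNorm.eq_zpow_of_nonzero hn']
    have h1 : (padicValRat p (n : ℚ)) = (padicValInt p n : ℤ) := padicValRat.of_int
    rw [h1]
    have h2 : ((p : ℤ) ^ padicValInt p n) ∣ n := padicValInt_dvd n
    have h3 : ((p : ℤ) ^ padicValInt p n) ≤ |n| := by
      rcases abs_choice n with h | h
      · rw [h]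
        exact Int.le_of_dvd (by rcases lt_or_gt_of_ne hn with h' | h'
                                · rw [abs_of_neg h'] at h; omega
                                · exact h') h2
      · rw [h]
        have h4 : 0 < |n| := abs_pos.mpr hn
        exact Int.le_of_dvd (by omega) ((dvd_neg).mpr h2)
    have h5 : ((p : ℝ) ^ padicValInt p n) ≤ |(n : ℝ)| := by exact_mod_cast h3
    have h6 : (0 : ℝ) < (p : ℝ) ^ padicValInt p n := by positivity
    have h7 : (((p : ℚ) ^ (-(padicValInt p n : ℤ)) : ℚ) : ℝ) = ((p : ℝ) ^ padicValInt p n)⁻¹ := by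
      push_cast
      rw [_root_.zpow_neg, zpow_natCast]
    rw [h7]
    exact inv_anti₀ h6 h5

theorem tame_plc (S : Finset ℕ) (hS : ∀ p ∈ S, p.Prime) (v : Option S) : Tame (plc S hS v) := by
  cases v with
  | none => exact tame_real
  | some p =>
    have := Fact.mk (hS p p.2)
    exact tame_padic (p : ℕ)

theorem norm_coord {ι : Type} [Fintype ι] (x : ι → ℤ) (i : ι) : |((x i : ℤ) : ℝ)| ≤ ‖x‖ := by
  have h := norm_le_pi_norm x i
  rwa [Int.norm_eq_abs] at h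

theorem one_le_norm {ι : Type} [Fintype ι] {x : ι → ℤ} (hx : x ≠ 0) : 1 ≤ ‖x‖ := by
  obtain ⟨i, hi⟩ := Function.ne_iff.mp hx
  have h1 : (1 : ℝ) ≤ |((x i : ℤ) : ℝ)| := by
    have := Int.one_le_abs hi
    exact_mod_cast this
  exact h1.trans (norm_coord x i)

/-- Upper bound of a linear form. -/
theorem form_le {ι : Type} [Fintype ι] {w : AbsoluteValue ℚ ℝ} (hw : Tame w)
    (a : ι → ℚ) (x : ι → ℤ) : w (∑ j, a j * (x j : ℚ)) ≤ (∑ j, w (a j)) * ‖x‖ := by
  calc w (∑ j, a j * (x j : ℚ)) ≤ ∑ j, w (a j * (x j : ℚ)) := w.sum_le _ _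
    _ = ∑ j, w (a j) * w (x j : ℚ) := by simp
    _ ≤ ∑ j, w (a j) * ‖x‖ := by
        refine Finset.sum_le_sum fun j _ => ?_
        exact mul_le_mul_of_nonneg_left ((hw.le _).trans (norm_coord x j)) (w.nonneg _)
    _ = (∑ j, w (a j)) * ‖x‖ := by rw [Finset.sum_mul]

/-- Lower bound of a linear form. -/
theorem form_ge {ι : Type} [Fintype ι] {w : AbsoluteValue ℚ ℝ} (hw : Tame w)
    (a : ι → ℚ) : ∃ C : ℝ, 0 < C ∧ ∀ x : ι → ℤ, (∑ j, a j * (x j : ℚ)) ≠ 0 →
      1 ≤ C * ‖x‖ * w (∑ j, a j * (x j : ℚ)) := by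
  classical
  -- common denominator
  let D : ℕ := ∏ j, (a j).den
  have hD : D ≠ 0 := Finset.prod_ne_zero_iff.mpr fun j _ => (a j).den_nz
  have hz : ∀ j, ∃ z : ℤ, (D : ℚ) * a j = (z : ℚ) := by
    intro j
    obtain ⟨k, hk⟩ : (a j).den ∣ D := Finset.dvd_prod_of_mem _ (Finset.mem_univ j)
    refine ⟨k * (a j).num, ?_⟩
    have h1 : ((a j).den : ℚ) * a j = (a j).num := by
      rw [mul_comm]; exact Rat.mul_den_eq_num (a j)
    rw [hk]
    push_cast
    linear_combination (k : ℚ) * h1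
  choose z hz using hz
  refine ⟨(D : ℝ) * ((∑ j, |(z j : ℝ)|) + 1), by positivity, ?_⟩
  intro x hx
  set y := ∑ j, a j * (x j : ℚ) with hy
  have h1 : (D : ℚ) * y = ((∑ j, z j * x j : ℤ) : ℚ) := by
    rw [hy, Finset.mul_sum]
    push_cast
    refine Finset.sum_congr rfl fun j _ => ?_
    rw [← mul_assoc, hz j]
  have hne : (∑ j, z j * x j : ℤ) ≠ 0 := by
    intro h0
    rw [h0] at h1
    have : (D : ℚ) ≠ 0 := by exact_mod_cast hD
    simp at h1
    exact h1.elim hD hx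
  have h2 := hw.ge _ hne
  have h3 : w ((D : ℤ) : ℚ) ≤ |((D : ℤ) : ℝ)| := hw.le (D : ℤ)
  have h4 : w ((∑ j, z j * x j : ℤ) : ℚ) = w ((D : ℤ) : ℚ) * w y := by
    rw [← h1, map_mul]
    simp
  have h5 : |((∑ j, z j * x j : ℤ) : ℝ)| ≤ ((∑ j, |(z j : ℝ)|) + 1) * ‖x‖ := by
    push_cast
    calc |∑ j, (z j : ℝ) * (x j : ℝ)| ≤ ∑ j, |(z j : ℝ) * (x j : ℝ)| :=
          Finset.abs_sum_le_sum_abs _ _
      _ = ∑ j, |(z j : ℝ)| * |(x j : ℝ)| := by simp [abs_mul]
      _ ≤ ∑ j, |(z j : ℝ)| * ‖x‖ := by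
          refine Finset.sum_le_sum fun j _ => ?_
          exact mul_le_mul_of_nonneg_left (norm_coord x j) (abs_nonneg _)
      _ = (∑ j, |(z j : ℝ)|) * ‖x‖ := by rw [Finset.sum_mul]
      _ ≤ ((∑ j, |(z j : ℝ)|) + 1) * ‖x‖ := by
          refine mul_le_mul_of_nonneg_right (by linarith) (norm_nonneg _)
  have h6 : (0 : ℝ) < |((∑ j, z j * x j : ℤ) : ℝ)| := by
    rw [abs_pos]
    exact_mod_cast hne
  have h7 : (1 : ℝ) ≤ |((∑ j, z j * x j : ℤ) : ℝ)| * w ((∑ j, z j * x j : ℤ) : ℚ) := by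
    have := mul_le_mul_of_nonneg_left h2 h6.le
    rwa [mul_inv_cancel₀ h6.ne'] at this
  have h8 : |((D : ℤ) : ℝ)| = (D : ℝ) := by simp
  rw [h4] at h7
  rw [h8] at h3
  have hwy : 0 ≤ w y := w.nonneg _
  calc (1 : ℝ) ≤ |((∑ j, z j * x j : ℤ) : ℝ)| * (w ((D : ℤ) : ℚ) * w y) := h7
    _ ≤ (((∑ j, |(z j : ℝ)|) + 1) * ‖x‖) * ((D : ℝ) * w y) := by
        refine mul_le_mul h5 (mul_le_mul_of_nonneg_right h3 hwy) ?_ ?_
        · exact mul_nonneg (w.nonneg _) hwy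
        · positivity
    _ = (D : ℝ) * ((∑ j, |(z j : ℝ)|) + 1) * ‖x‖ * w y := by ring

/-- The kernel of the form number i of an invertible matrix is a proper subspace. -/
theorem ker_ne_top {ι : Type} [Fintype ι] [DecidableEq ι] (A : Matrix ι ι ℚ)
    (hA : IsUnit A.det) (i : ι) :
    LinearMap.ker ((LinearMap.proj i : (ι → ℚ) →ₗ[ℚ] ℚ) ∘ₗ A.mulVecLin) ≠ ⊤ := by
  intro h
  have h1 : (A⁻¹ *ᵥ Pi.single i 1) ∈
      LinearMap.ker ((LinearMap.proj i : (ι → ℚ) →ₗ[ℚ] ℚ) ∘ₗ A.mulVecLin) := by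
    rw [h]; trivial
  rw [LinearMap.mem_ker] at h1
  simp only [LinearMap.comp_apply, LinearMap.proj_apply, Matrix.mulVecLin_apply] at h1
  rw [Matrix.mulVec_mulVec, Matrix.mul_nonsing_inv A hA, Matrix.one_mulVec] at h1
  simp at h1

theorem span_ne_top {ι : Type} [Fintype ι] (hι : 2 ≤ Fintype.card ι) (y : ι → ℚ) :
    Submodule.span ℚ {y} ≠ ⊤ := by
  intro h
  have h1 : Module.finrank ℚ (Submodule.span ℚ {y}) ≤ 1 := (finrank_span_le_card ({y} : Set (ι → ℚ))).trans (by simp)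
  rw [h, finrank_top, Module.finrank_fintype_fun_eq_card] at h1
  omega

/-- The statement of the parametric subspace theorem (block J). -/
def ParamStmt : Prop :=
  ∀ (n : ℕ), 2 ≤ n → ∀ (S : Finset ℕ) (hS : ∀ p ∈ S, p.Prime)
    (A : Option S → Matrix (Fin n) (Fin n) ℚ), (∀ v, IsUnit (A v).det) →
    ∀ (c : Option S → Fin n → ℝ), ∑ v, ∑ i, c v i < 0 →
    ∃ T : Set (Submodule ℚ (Fin n → ℚ)), T.Finite ∧ (∀ U ∈ T, U ≠ ⊤) ∧
      ∀ Q : ℝ, 1 ≤ Q → ∀ x : Fin n → ℤ,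
        (∀ v i, plc S hS v ((A v *ᵥ qv x) i) ≤ Q ^ c v i) → ∃ U ∈ T, qv x ∈ U

/-- The parametric theorem for an arbitrary index type. -/
theorem parametric' (hparam : ParamStmt) {ι : Type} [Fintype ι] [DecidableEq ι] (hι : 2 ≤ Fintype.card ι)
    (S : Finset ℕ) (hS : ∀ p ∈ S, p.Prime)
    (A : Option S → Matrix ι ι ℚ) (hA : ∀ v, IsUnit (A v).det)
    (c : Option S → ι → ℝ) (hc : ∑ v, ∑ i, c v i < 0) :
    ∃ T : Set (Submodule ℚ (ι → ℚ)), T.Finite ∧ (∀ U ∈ T, U ≠ ⊤) ∧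
      ∀ Q : ℝ, 1 ≤ Q → ∀ x : ι → ℤ,
        (∀ v i, plc S hS v ((A v *ᵥ qv x) i) ≤ Q ^ c v i) → ∃ U ∈ T, qv x ∈ U := by
  obtain e := Fintype.equivFin ι
  obtain ⟨T, hTf, hTt, hT⟩ := hparam (Fintype.card ι) hι S hS
    (fun v => (A v).submatrix e.symm e.symm)
    (fun v => by rw [Matrix.det_submatrix_equiv_self]; exact hA v)
    (fun v i => c v (e.symm i)) (by
      have : ∀ v, ∑ i, c v (e.symm i) = ∑ i, c v i := fun v =>
        Equiv.sum_comp e.symm (fun i => c v i)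
      simp only [this]
      exact hc)
  let E : (ι → ℚ) ≃ₗ[ℚ] (Fin (Fintype.card ι) → ℚ) := LinearEquiv.funCongrLeft ℚ ℚ e.symm
  refine ⟨(fun U : Submodule ℚ (Fin (Fintype.card ι) → ℚ) => U.comap E.toLinearMap) '' T,
    hTf.image _, ?_, ?_⟩
  · rintro _ ⟨U, hU, rfl⟩ h
    apply hTt U hU
    rw [Submodule.eq_top_iff']
    intro y
    have h1 : E.symm y ∈ U.comap E.toLinearMap := by
      have h' : U.comap E.toLinearMap = ⊤ := h
      rw [h']; trivial
    rw [Submodule.mem_comap] at h1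
    simpa using h1
  · intro Q hQ x hx
    obtain ⟨U, hU, hxU⟩ := hT Q hQ (fun i => x (e.symm i)) (by
      intro v i
      have h1 : ((A v).submatrix e.symm e.symm *ᵥ qv fun i => x (e.symm i)) i
          = (A v *ᵥ qv x) (e.symm i) := by
        simp only [Matrix.mulVec, dotProduct, Matrix.submatrix_apply, qv]
        exact Equiv.sum_comp e.symm (fun j => A v (e.symm i) j * (x j : ℚ))
      rw [h1]
      exact hx v (e.symm i))
    refine ⟨_, ⟨U, hU, rfl⟩, ?_⟩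
    show E.toLinearMap (qv x) ∈ U
    have h2 : E.toLinearMap (qv x) = qv fun i => x (e.symm i) := by
      ext i
      simp [E, LinearEquiv.funCongrLeft, qv, LinearMap.funLeft_apply]
    rw [h2]
    exact hxU

/-- The subspace theorem from its parametric form. -/
theorem subspace_of_param (hparam : ParamStmt) {ι : Type} [Fintype ι] [DecidableEq ι] (hι : 2 ≤ Fintype.card ι)
    (S : Finset ℕ) (hS : ∀ p ∈ S, p.Prime) (A : Option S → Matrix ι ι ℚ)
    (hA : ∀ v, IsUnit (A v).det) (δ : ℝ) (hδ : 0 < δ) :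
    ∃ T : Set (Submodule ℚ (ι → ℚ)), T.Finite ∧ (∀ U ∈ T, U ≠ ⊤) ∧
      ∀ x : ι → ℤ, x ≠ 0 →
        ∏ v, ∏ i, plc S hS v ((A v *ᵥ qv x) i) ≤ ‖x‖ ^ (-δ) → ∃ U ∈ T, qv x ∈ U := by
  classical
  have : Nonempty ι := Fintype.card_pos_iff.mp (by omega)
  -- the constants
  have hup : ∀ v i, ∀ x : ι → ℤ, plc S hS v ((A v *ᵥ qv x) i) ≤
      (∑ j, plc S hS v (A v i j)) * ‖x‖ := by
    intro v i x
    exact form_le (tame_plc S hS v) (A v i) x
  have hlo : ∀ v i, ∃ C : ℝ, 0 < C ∧ ∀ x : ι → ℤ, (A v *ᵥ qv x) i ≠ 0 →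
      1 ≤ C * ‖x‖ * plc S hS v ((A v *ᵥ qv x) i) := by
    intro v i
    exact form_ge (tame_plc S hS v) (A v i)
  choose Cl hClpos hlo using hlo
  let C₁ : Option S → ι → ℝ := fun v i => (∑ j, plc S hS v (A v i j)) + Cl v i
  have hsn : ∀ v i, 0 ≤ ∑ j, plc S hS v (A v i j) := fun v i =>
    Finset.sum_nonneg fun j _ => (plc S hS v).nonneg _
  have hC₁ : ∀ v i, 0 ≤ C₁ v i := fun v i => add_nonneg (hsn v i) (hClpos v i).le
  let Q₀ : ℝ := 2 + ∑ v, ∑ i, C₁ v i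
  have hQ₀ : ∀ v i, C₁ v i ≤ Q₀ := by
    intro v i
    have h1 : C₁ v i ≤ ∑ i, C₁ v i :=
      Finset.single_le_sum (f := fun i => C₁ v i) (fun i _ => hC₁ v i) (Finset.mem_univ i)
    have h2 : ∑ i, C₁ v i ≤ ∑ v, ∑ i, C₁ v i :=
      Finset.single_le_sum (f := fun v => ∑ i, C₁ v i)
        (fun v _ => Finset.sum_nonneg fun i _ => hC₁ v i) (Finset.mem_univ v)
    show C₁ v i ≤ 2 + ∑ v, ∑ i, C₁ v i
    linarith
  have hQ₀2 : 2 ≤ Q₀ := by
    have : 0 ≤ ∑ v, ∑ i, C₁ v i :=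
      Finset.sum_nonneg fun v _ => Finset.sum_nonneg fun i _ => hC₁ v i
    show 2 ≤ 2 + ∑ v, ∑ i, C₁ v i
    linarith
  -- the grid
  let N : ℝ := (Fintype.card (Option S) : ℝ) * Fintype.card ι
  have hN : 0 < N := by
    have h1 : 0 < Fintype.card (Option S) := Fintype.card_pos_iff.mpr ⟨none⟩
    have h2 : 0 < Fintype.card ι := by omega
    show 0 < (Fintype.card (Option S) : ℝ) * Fintype.card ι
    positivity
  let ε : ℝ := δ / (2 * N)
  have hε : 0 < ε := by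
    show 0 < δ / (2 * N)
    positivity
  have hεN : N * ε = δ / 2 := by
    show N * (δ / (2 * N)) = δ / 2
    field_simp
  let K : ℤ := ⌈2 / ε⌉
  let F : Set (Option S → ι → ℤ) :=
    {f | (∀ v i, f v i ∈ Set.Icc (-K) K) ∧ ∑ v, ∑ i, ε * f v i < 0}
  have hF : F.Finite := by
    refine Set.Finite.subset (Set.finite_Icc (fun _ _ => -K) (fun _ _ => K)) ?_
    intro f hf
    refine ⟨fun v i => (hf.1 v i).1, fun v i => (hf.1 v i).2⟩
  have hpar : ∀ f : Option S → ι → ℤ, ∃ T : Set (Submodule ℚ (ι → ℚ)), T.Finite ∧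
      (∀ U ∈ T, U ≠ ⊤) ∧ (f ∈ F → ∀ Q : ℝ, 1 ≤ Q → ∀ x : ι → ℤ,
        (∀ v i, plc S hS v ((A v *ᵥ qv x) i) ≤ Q ^ (ε * f v i)) → ∃ U ∈ T, qv x ∈ U) := by
    intro f
    by_cases hf : f ∈ F
    · obtain ⟨T, h1, h2, h3⟩ := parametric' hparam hι S hS A hA (fun v i => ε * f v i) hf.2
      exact ⟨T, h1, h2, fun _ => h3⟩
    · exact ⟨∅, Set.finite_empty, by simp, fun h => absurd h hf⟩
  choose T hTfin hTtop hT using hpar
  -- the three families of subspaces
  let T₁ : Set (Submodule ℚ (ι → ℚ)) := Set.range fun vi : Option S × ι =>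
    LinearMap.ker ((LinearMap.proj vi.2 : (ι → ℚ) →ₗ[ℚ] ℚ) ∘ₗ (A vi.1).mulVecLin)
  let T₂ : Set (Submodule ℚ (ι → ℚ)) := ⋃ f ∈ F, T f
  let B : Set (ι → ℤ) := {x | ‖x‖ ≤ Q₀}
  let T₃ : Set (Submodule ℚ (ι → ℚ)) := (fun x : ι → ℤ => Submodule.span ℚ {qv x}) '' B
  have hB : B.Finite := by
    refine Set.Finite.subset (Set.finite_Icc (fun _ => -⌈Q₀⌉) (fun _ => ⌈Q₀⌉)) ?_
    intro x hx
    have h1 : ∀ i, |((x i : ℤ) : ℝ)| ≤ (⌈Q₀⌉ : ℝ) := fun i =>
      ((norm_coord x i).trans hx).trans (Int.le_ceil Q₀)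
    have h2 : ∀ i, |x i| ≤ ⌈Q₀⌉ := fun i => by exact_mod_cast h1 i
    exact ⟨fun i => (abs_le.mp (h2 i)).1, fun i => (abs_le.mp (h2 i)).2⟩
  refine ⟨T₁ ∪ T₂ ∪ T₃, ((Set.finite_range _).union (hF.biUnion fun f _ => hTfin f)).union
    (hB.image _), ?_, ?_⟩
  · rintro U ((⟨vi, rfl⟩ | hU) | ⟨x, -, rfl⟩)
    · exact ker_ne_top (A vi.1) (hA vi.1) vi.2
    · obtain ⟨f, hf, hU⟩ := Set.mem_iUnion₂.mp hU
      exact hTtop f U hU
    · exact span_ne_top hι _
  · intro x hx0 hx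
    by_cases hxQ : ‖x‖ ≤ Q₀
    · exact ⟨Submodule.span ℚ {qv x}, Or.inr ⟨x, hxQ, rfl⟩, Submodule.mem_span_singleton_self _⟩
    push Not at hxQ
    by_cases hz : ∃ v i, (A v *ᵥ qv x) i = 0
    · obtain ⟨v, i, hvi⟩ := hz
      exact ⟨_, Or.inl (Or.inl ⟨(v, i), rfl⟩), hvi⟩
    push Not at hz
    have hQ1 : 1 < ‖x‖ := by linarith
    have hQ0 : 0 < ‖x‖ := by linarith
    set Q : ℝ := ‖x‖ with hQ
    have hwpos : ∀ v i, 0 < plc S hS v ((A v *ᵥ qv x) i) := fun v i =>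
      (plc S hS v).pos (hz v i)
    let γ : Option S → ι → ℝ := fun v i => Real.logb Q (plc S hS v ((A v *ᵥ qv x) i))
    have hγ : ∀ v i, Q ^ γ v i = plc S hS v ((A v *ᵥ qv x) i) := fun v i =>
      Real.rpow_logb hQ0 hQ1.ne' (hwpos v i)
    have hγle : ∀ v i, γ v i ≤ 2 := by
      intro v i
      rw [← Real.rpow_le_rpow_left_iff hQ1, hγ v i]
      have h1 := hup v i x
      have h2 : (∑ j, plc S hS v (A v i j)) ≤ Q := by
        have := hQ₀ v i
        have h3 := (hClpos v i).le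
        have h4 : C₁ v i = (∑ j, plc S hS v (A v i j)) + Cl v i := rfl
        linarith
      calc plc S hS v ((A v *ᵥ qv x) i) ≤ (∑ j, plc S hS v (A v i j)) * Q := h1
        _ ≤ Q * Q := mul_le_mul_of_nonneg_right h2 hQ0.le
        _ = Q ^ (2 : ℝ) := by
            rw [show (2 : ℝ) = ((2 : ℕ) : ℝ) by norm_num, Real.rpow_natCast, sq]
    have hγge : ∀ v i, -2 ≤ γ v i := by
      intro v i
      rw [← Real.rpow_le_rpow_left_iff hQ1, hγ v i]
      have h1 := hlo v i x (hz v i)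
      have h2 : Cl v i ≤ Q := by
        have := hQ₀ v i
        have h3 := hsn v i
        have h4 : C₁ v i = (∑ j, plc S hS v (A v i j)) + Cl v i := rfl
        linarith
      have h3 : Cl v i * Q * plc S hS v ((A v *ᵥ qv x) i) ≤
          Q * Q * plc S hS v ((A v *ᵥ qv x) i) := by
        have := (hwpos v i).le
        gcongr
      have h4 : 1 ≤ Q * Q * plc S hS v ((A v *ᵥ qv x) i) := h1.trans h3
      rw [Real.rpow_neg hQ0.le, show (2 : ℝ) = ((2 : ℕ) : ℝ) by norm_num, Real.rpow_natCast, sq,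
        inv_le_iff_one_le_mul₀' (by positivity)]
      exact h4
    -- the sum of the exponents
    have hsum : ∑ v, ∑ i, γ v i ≤ -δ := by
      rw [← Real.rpow_le_rpow_left_iff hQ1]
      have h1 : Q ^ (∑ v, ∑ i, γ v i) = ∏ v, ∏ i, plc S hS v ((A v *ᵥ qv x) i) := by
        rw [Real.rpow_sum_of_pos hQ0]
        refine Finset.prod_congr rfl fun v _ => ?_
        rw [Real.rpow_sum_of_pos hQ0]
        exact Finset.prod_congr rfl fun i _ => hγ v i
      rw [h1]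
      exact hx
    let f : Option S → ι → ℤ := fun v i => ⌈γ v i / ε⌉
    have hfge : ∀ v i, γ v i ≤ ε * f v i := by
      intro v i
      have h1 : γ v i / ε ≤ (f v i : ℝ) := Int.le_ceil _
      rw [div_le_iff₀ hε] at h1
      linarith
    have hflt : ∀ v i, ε * f v i < γ v i + ε := by
      intro v i
      have h1 : (f v i : ℝ) < γ v i / ε + 1 := Int.ceil_lt_add_one _
      have h2 := mul_lt_mul_of_pos_left h1 hε
      have h3 : ε * (γ v i / ε + 1) = γ v i + ε := by field_simp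
      linarith
    have hfF : f ∈ F := by
      refine ⟨fun v i => ⟨?_, ?_⟩, ?_⟩
      · -- -K ≤ f
        have h1 : (-(K : ℝ)) ≤ (f v i : ℝ) := by
          have h2 : -(K : ℝ) ≤ -(2 / ε) := neg_le_neg (Int.le_ceil _)
          have h3 : -(2 / ε) ≤ γ v i / ε := by
            rw [← neg_div]
            exact div_le_div_of_nonneg_right (hγge v i) hε.le
          have h4 : γ v i / ε ≤ (f v i : ℝ) := Int.le_ceil _
          linarith
        exact_mod_cast h1
      · exact Int.ceil_le_ceil (div_le_div_of_nonneg_right (hγle v i) hε.le)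
      · have h1 : ∑ v, ∑ i, ε * (f v i : ℝ) ≤ ∑ v, ∑ i, (γ v i + ε) :=
          Finset.sum_le_sum fun v _ => Finset.sum_le_sum fun i _ => (hflt v i).le
        have h2 : ∑ v : Option S, ∑ i : ι, (γ v i + ε) = (∑ v, ∑ i, γ v i) + N * ε := by
          simp only [Finset.sum_add_distrib, Finset.sum_const, Finset.card_univ, nsmul_eq_mul]
          show _ = _ + (Fintype.card (Option S) : ℝ) * Fintype.card ι * ε
          ring
        rw [h2, hεN] at h1
        linarith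
    obtain ⟨U, hU, hxU⟩ := hT f hfF Q hQ1.le x (by
      intro v i
      rw [← hγ v i]
      exact Real.rpow_le_rpow_of_exponent_le hQ1.le (hfge v i))
    exact ⟨U, Or.inl (Or.inr (Set.mem_iUnion₂.mpr ⟨f, hfF, hU⟩)), hxU⟩

end MainAux

end Pool.Agent.SST
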