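import Pool.Agent.SST.Defs

/-!
# Block A: the weighted l1 norm of polynomials over the rationals
-/

set_option autoImplicit false

namespace Pool.Agent.SST

open MvPolynomial Matrix

namespace NrmA

/-- the weight of a monomial -/
private noncomputable def mu {σ : Type} (τ : σ → ℝ) (b : σ →₀ ℕ) : ℝ := b.prod fun x e => τ x ^ e

private lemma mu_nonneg {σ : Type} {τ : σ → ℝ} (hτ : ∀ x, 0 ≤ τ x) (b : σ →₀ ℕ) : 0 ≤ mu τ b :=
  Finset.prod_nonneg fun x _ => pow_nonneg (hτ x) _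

private lemma mu_add {σ : Type} (τ : σ → ℝ) (b c : σ →₀ ℕ) : mu τ (b + c) = mu τ b * mu τ c := by
  classical
  exact Finsupp.prod_add_index' (fun x => pow_zero _) (fun x i j => pow_add _ _ _)

private lemma nrm_def {σ : Type} (w : AbsoluteValue ℚ ℝ) (τ : σ → ℝ) (P : MvPolynomial σ ℚ) :
    nrm w τ P = ∑ b ∈ P.support, w (P.coeff b) * mu τ b := rfl

private lemma nrm_eq_sum {σ : Type} (w : AbsoluteValue ℚ ℝ) (τ : σ → ℝ) (P : MvPolynomial σ ℚ)
    {s : Finset (σ →₀ ℕ)} (hs : P.support ⊆ s) :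
    nrm w τ P = ∑ b ∈ s, w (P.coeff b) * mu τ b := by
  rw [nrm_def]
  refine Finset.sum_subset hs fun b _ hb => ?_
  rw [MvPolynomial.notMem_support_iff.mp hb, map_zero, zero_mul]

theorem nrm_zero {σ : Type} (w : AbsoluteValue ℚ ℝ) (τ : σ → ℝ) :
    nrm w τ (0 : MvPolynomial σ ℚ) = 0 := by
  rw [nrm_def, MvPolynomial.support_zero, Finset.sum_empty]

theorem nrm_monomial {σ : Type} (w : AbsoluteValue ℚ ℝ) (τ : σ → ℝ) (b : σ →₀ ℕ) (a : ℚ) :
    nrm w τ (monomial b a) = w a * b.prod fun x e => τ x ^ e := by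
  classical
  rw [nrm_eq_sum w τ (monomial b a) MvPolynomial.support_monomial_subset, Finset.sum_singleton,
    MvPolynomial.coeff_monomial, if_pos rfl]
  rfl

end NrmA

open NrmA

theorem nrm_nonneg {σ : Type} (w : AbsoluteValue ℚ ℝ) {τ : σ → ℝ} (hτ : ∀ x, 0 ≤ τ x)
    (P : MvPolynomial σ ℚ) : 0 ≤ nrm w τ P := by
  rw [nrm_def]
  exact Finset.sum_nonneg fun b _ => mul_nonneg (w.nonneg _) (mu_nonneg hτ b)

theorem nrm_C {σ : Type} (w : AbsoluteValue ℚ ℝ) (τ : σ → ℝ) (a : ℚ) :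
    nrm w τ (C a : MvPolynomial σ ℚ) = w a := by
  rw [← MvPolynomial.monomial_zero', nrm_monomial, Finsupp.prod_zero_index, mul_one]

theorem nrm_X {σ : Type} (w : AbsoluteValue ℚ ℝ) (τ : σ → ℝ) (x : σ) :
    nrm w τ (X x : MvPolynomial σ ℚ) = τ x := by
  unfold MvPolynomial.X
  rw [nrm_monomial, map_one, one_mul,
    Finsupp.prod_single_index (h := fun x e => τ x ^ e) (pow_zero (τ x)), pow_one]

theorem nrm_add_le {σ : Type} (w : AbsoluteValue ℚ ℝ) {τ : σ → ℝ} (hτ : ∀ x, 0 ≤ τ x)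
    (P Q : MvPolynomial σ ℚ) : nrm w τ (P + Q) ≤ nrm w τ P + nrm w τ Q := by
  classical
  rw [nrm_eq_sum w τ (P + Q) (s := P.support ∪ Q.support) MvPolynomial.support_add,
    nrm_eq_sum w τ P (s := P.support ∪ Q.support) Finset.subset_union_left,
    nrm_eq_sum w τ Q (s := P.support ∪ Q.support) Finset.subset_union_right,
    ← Finset.sum_add_distrib]
  refine Finset.sum_le_sum fun b _ => ?_
  rw [← add_mul, MvPolynomial.coeff_add]
  exact mul_le_mul_of_nonneg_right (w.add_le _ _) (mu_nonneg hτ b)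

theorem nrm_sum_le {σ α : Type} (w : AbsoluteValue ℚ ℝ) {τ : σ → ℝ} (hτ : ∀ x, 0 ≤ τ x)
    (s : Finset α) (f : α → MvPolynomial σ ℚ) :
    nrm w τ (∑ a ∈ s, f a) ≤ ∑ a ∈ s, nrm w τ (f a) := by
  classical
  induction s using Finset.induction_on with
  | empty => rw [Finset.sum_empty, Finset.sum_empty, nrm_zero]
  | insert a s ha ih =>
    rw [Finset.sum_insert ha, Finset.sum_insert ha]
    exact (nrm_add_le w hτ _ _).trans (by linarith)

theorem nrm_mul_le {σ : Type} (w : AbsoluteValue ℚ ℝ) {τ : σ → ℝ} (hτ : ∀ x, 0 ≤ τ x)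
    (P Q : MvPolynomial σ ℚ) : nrm w τ (P * Q) ≤ nrm w τ P * nrm w τ Q := by
  have h : P * Q = ∑ b ∈ P.support, ∑ c ∈ Q.support,
      monomial (b + c) (P.coeff b * Q.coeff c) := by
    rw [MvPolynomial.mul_def]
    rfl
  rw [h]
  refine (nrm_sum_le w hτ _ _).trans ?_
  rw [nrm_def w τ P, Finset.sum_mul]
  refine Finset.sum_le_sum fun b _ => ?_
  refine (nrm_sum_le w hτ _ _).trans (le_of_eq ?_)
  rw [nrm_def w τ Q, Finset.mul_sum]
  refine Finset.sum_congr rfl fun c _ => ?_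
  rw [nrm_monomial, map_mul]
  change _ * mu τ (b + c) = _
  rw [mu_add]
  ring

theorem nrm_prod_le {σ α : Type} (w : AbsoluteValue ℚ ℝ) {τ : σ → ℝ} (hτ : ∀ x, 0 ≤ τ x)
    (s : Finset α) (f : α → MvPolynomial σ ℚ) :
    nrm w τ (∏ a ∈ s, f a) ≤ ∏ a ∈ s, nrm w τ (f a) := by
  classical
  induction s using Finset.induction_on with
  | empty => rw [Finset.prod_empty, Finset.prod_empty, ← MvPolynomial.C_1, nrm_C, map_one]
  | insert a s ha ih =>
    rw [Finset.prod_insert ha, Finset.prod_insert ha]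
    exact (nrm_mul_le w hτ _ _).trans (mul_le_mul_of_nonneg_left ih (nrm_nonneg w hτ _))

theorem nrm_pow_le {σ : Type} (w : AbsoluteValue ℚ ℝ) {τ : σ → ℝ} (hτ : ∀ x, 0 ≤ τ x)
    (P : MvPolynomial σ ℚ) (n : ℕ) : nrm w τ (P ^ n) ≤ nrm w τ P ^ n := by
  induction n with
  | zero => rw [pow_zero, pow_zero, ← MvPolynomial.C_1, nrm_C, map_one]
  | succ n ih =>
    rw [pow_succ, pow_succ]
    exact (nrm_mul_le w hτ _ _).trans (mul_le_mul_of_nonneg_right ih (nrm_nonneg w hτ _))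

theorem coeff_le_nrm {σ : Type} (w : AbsoluteValue ℚ ℝ) {τ : σ → ℝ} (hτ : ∀ x, 0 ≤ τ x)
    (P : MvPolynomial σ ℚ) (b : σ →₀ ℕ) :
    w (P.coeff b) * (b.prod fun x e => τ x ^ e) ≤ nrm w τ P := by
  by_cases hb : b ∈ P.support
  · exact Finset.single_le_sum (f := fun b => w (P.coeff b) * mu τ b)
      (fun c _ => mul_nonneg (w.nonneg _) (mu_nonneg hτ c)) hb
  · rw [MvPolynomial.notMem_support_iff.mp hb, map_zero, zero_mul]
    exact nrm_nonneg w hτ P

/-- substitution -/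
theorem nrm_aeval_le {σ ρ : Type} (w : AbsoluteValue ℚ ℝ) {τ : ρ → ℝ} (hτ : ∀ x, 0 ≤ τ x)
    (Y : σ → MvPolynomial ρ ℚ) (r : σ → ℝ) (hr : ∀ x, nrm w τ (Y x) ≤ r x)
    (P : MvPolynomial σ ℚ) : nrm w τ (aeval Y P) ≤ nrm w r P := by
  rw [MvPolynomial.aeval_def, MvPolynomial.eval₂_eq]
  refine (nrm_sum_le w hτ _ _).trans ?_
  rw [nrm_def]
  refine Finset.sum_le_sum fun b _ => ?_
  refine (nrm_mul_le w hτ _ _).trans ?_
  rw [MvPolynomial.algebraMap_eq, nrm_C]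
  refine mul_le_mul_of_nonneg_left ?_ (w.nonneg _)
  refine (nrm_prod_le w hτ _ _).trans ?_
  refine Finset.prod_le_prod (fun x _ => nrm_nonneg w hτ _) fun x _ => ?_
  exact (nrm_pow_le w hτ _ _).trans (pow_le_pow_left₀ (nrm_nonneg w hτ _) (hr x) _)

end Pool.Agent.SST
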