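import Pool.Agent.SST.Compound

set_option autoImplicit false

namespace Pool.Agent.SST.ParamA

open Matrix Pool.Agent.SST

/-- every nonzero rational vector has a primitive integral multiple -/
theorem exists_prim {ι : Type} [Fintype ι] (y : ι → ℚ) (hy : y ≠ 0) :
    ∃ (M : ι → ℤ) (lam : ℚ), lam ≠ 0 ∧ Prim M ∧ qv M = lam • y := by
  classical
  obtain ⟨D, hD⟩ := IsLocalization.exist_integer_multiples_of_finite (nonZeroDivisors ℤ) y
  have hD0 : (D : ℤ) ≠ 0 := nonZeroDivisors.coe_ne_zero D
  choose z hz using hD
  have hz' : ∀ i, (z i : ℚ) = (D : ℤ) * y i := by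
    intro i
    have := hz i
    simpa [Algebra.smul_def] using this
  have hzne : ∃ i, z i ≠ 0 := by
    by_contra h
    push Not at h
    apply hy
    funext i
    have h1 := hz' i
    rw [h i] at h1
    have h2 : ((D : ℤ) : ℚ) ≠ 0 := by exact_mod_cast hD0
    simpa [h2] using h1.symm
  have hne : (Finset.univ : Finset ι).Nonempty := by
    obtain ⟨i, _⟩ := hzne
    exact ⟨i, Finset.mem_univ i⟩
  obtain ⟨g, hg1, hg2⟩ := Finset.extract_gcd z hne
  set G := Finset.univ.gcd z with hG
  have hG0 : G ≠ 0 := by
    intro h0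
    obtain ⟨i, hi⟩ := hzne
    rw [hG, Finset.gcd_eq_zero_iff] at h0
    exact hi (h0 i (Finset.mem_univ i))
  have hGq : (G : ℚ) ≠ 0 := by exact_mod_cast hG0
  have hDq : ((D : ℤ) : ℚ) ≠ 0 := by exact_mod_cast hD0
  refine ⟨g, (D : ℤ) / G, div_ne_zero hDq hGq, ?_, ?_⟩
  · intro k hk
    have : k ∣ Finset.univ.gcd g := Finset.dvd_gcd fun i _ => hk i
    rw [hg2] at this
    exact isUnit_of_dvd_one this
  · funext i
    have h1 : (z i : ℚ) = G * g i := by
      have := hg1 i (Finset.mem_univ i)
      rw [this]; push_cast; ring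
    simp only [qv, Pi.smul_apply, smul_eq_mul]
    rw [hz' i] at h1
    field_simp
    linarith

/-- trivial bound for determinants -/
theorem abs_det_le {r : Type} [Fintype r] [DecidableEq r] (w : AbsoluteValue ℚ ℝ)
    (D : Matrix r r ℚ) (B : ℝ) (h : ∀ σ : Equiv.Perm r, ∏ i, w (D (σ i) i) ≤ B) :
    w D.det ≤ (Fintype.card r).factorial * B := by
  rw [Matrix.det_apply]
  refine le_trans (w.sum_le _ _) ?_
  calc ∑ σ : Equiv.Perm r, w (Equiv.Perm.sign σ • ∏ i, D (σ i) i)
      ≤ ∑ _σ : Equiv.Perm r, B := by
        refine Finset.sum_le_sum fun σ _ => ?_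
        have h1 : w (Equiv.Perm.sign σ • ∏ i, D (σ i) i) = ∏ i, w (D (σ i) i) := by
          rcases Int.units_eq_one_or (Equiv.Perm.sign σ) with h2 | h2
          · rw [h2, one_smul, map_prod]
          · rw [h2]
            simp [map_prod]
        rw [h1]
        exact h σ
    _ = (Fintype.card r).factorial * B := by
        simp [Fintype.card_perm]

/-- The kernel space attached to a linear form on the exterior power. -/
noncomputable def ker {n r : ℕ} (M : Sub n r → ℚ) (i0 : Fin r) : Submodule ℚ (Fin n → ℚ) where
  carrier := {x | ∀ Y : Matrix (Fin n) (Fin r) ℚ,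
    ∑ I : Sub n r, M I * ((Y.updateCol i0 x).submatrix I.emb id).det = 0}
  zero_mem' := by
    intro Y
    refine Finset.sum_eq_zero fun I _ => ?_
    rw [Matrix.det_eq_zero_of_column_eq_zero i0, mul_zero]
    intro i
    simp
  add_mem' := by
    intro x y hx hy Y
    have h : ∀ I : Sub n r, ((Y.updateCol i0 (x + y)).submatrix I.emb id).det =
        ((Y.updateCol i0 x).submatrix I.emb id).det + ((Y.updateCol i0 y).submatrix I.emb id).det := by
      intro I
      have e : ∀ z : Fin n → ℚ, (Y.updateCol i0 z).submatrix I.emb id =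
          (Y.submatrix I.emb id).updateCol i0 (z ∘ I.emb) := by
        intro z
        ext a b
        by_cases hb : b = i0
        · subst hb; simp
        · simp [Matrix.updateCol_ne hb]
      rw [e, e, e, ← Matrix.det_updateCol_add]
      rfl
    simp only [h, mul_add, Finset.sum_add_distrib]
    rw [hx Y, hy Y, add_zero]
  smul_mem' := by
    intro a x hx Y
    have h : ∀ I : Sub n r, ((Y.updateCol i0 (a • x)).submatrix I.emb id).det =
        a * ((Y.updateCol i0 x).submatrix I.emb id).det := by
      intro I
      have e : ∀ z : Fin n → ℚ, (Y.updateCol i0 z).submatrix I.emb id =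
          (Y.submatrix I.emb id).updateCol i0 (z ∘ I.emb) := by
        intro z
        ext a b
        by_cases hb : b = i0
        · subst hb; simp
        · simp [Matrix.updateCol_ne hb]
      rw [e, e, ← Matrix.det_updateCol_smul]
      rfl
    simp only [h]
    have := hx Y
    calc ∑ I : Sub n r, M I * (a * ((Y.updateCol i0 x).submatrix I.emb id).det)
        = a * ∑ I : Sub n r, M I * ((Y.updateCol i0 x).submatrix I.emb id).det := by
          rw [Finset.mul_sum]; refine Finset.sum_congr rfl fun I _ => by ring
      _ = 0 := by rw [this, mul_zero]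

theorem ker_ne_top {n r : ℕ} (M : Sub n r → ℚ) (hM : M ≠ 0) (i0 : Fin r) : ker M i0 ≠ ⊤ := by
  classical
  intro htop
  obtain ⟨I, hI⟩ := Function.ne_iff.mp hM
  obtain ⟨Y, hY⟩ : ∃ Y : Matrix (Fin n) (Fin r) ℚ, ∀ i l, Y i l = if i = I.emb l then 1 else 0 :=
    ⟨Matrix.of fun i l => if i = I.emb l then 1 else 0, fun i l => rfl⟩
  have hmem : (fun i => Y i i0) ∈ ker M i0 := by rw [htop]; trivial
  have h := hmem Y
  have hupd : Y.updateCol i0 (fun i => Y i i0) = Y := by
    ext a b
    by_cases hb : b = i0
    · subst hb; simp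
    · simp [Matrix.updateCol_ne hb]
  rw [hupd, Finset.sum_eq_single I] at h
  · have hdet : (Y.submatrix I.emb id) = 1 := by
      ext a b
      rw [Matrix.submatrix_apply, hY, Matrix.one_apply]
      have : I.emb a = I.emb b ↔ a = b := by
        unfold Sub.emb
        exact (I.1.orderEmbOfFin I.2).injective.eq_iff
      simp only [id]
      simp [this]
    rw [hdet, Matrix.det_one, mul_one] at h
    exact hI (by simpa using h)
  · intro J _ hJ
    have hex : ∃ l : Fin r, I.emb l ∉ J.1 := by
      by_contra hall
      push Not at hall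
      apply hJ
      have hsub : I.1 ⊆ J.1 := by
        intro i hi
        have : i ∈ Set.range (I.1.orderEmbOfFin I.2) := by
          rw [Finset.range_orderEmbOfFin]; exact hi
        obtain ⟨l, rfl⟩ := this
        exact hall l
      have := Finset.eq_of_subset_of_card_le hsub (by rw [I.2, J.2])
      exact Subtype.ext this.symm
    obtain ⟨l, hl⟩ := hex
    rw [Matrix.det_eq_zero_of_column_eq_zero l, mul_zero]
    intro i
    rw [Matrix.submatrix_apply, hY, if_neg]
    intro h1
    apply hl
    have h2 : J.emb i = I.emb l := h1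
    rw [← h2]
    exact Finset.orderEmbOfFin_mem J.1 J.2 i
  · intro h1
    exact absurd (Finset.mem_univ I) h1

/-- each element lies in the same number of r-subsets -/
theorem sum_sub (n r : ℕ) :
    ∃ N : ℕ, ∀ f : Fin n → ℝ, ∑ I : Sub n r, ∑ i ∈ I.1, f i = N * ∑ i, f i := by
  classical
  rcases Nat.eq_zero_or_pos n with hn | hn
  · subst hn
    refine ⟨0, fun f => ?_⟩
    simp only [Finset.univ_eq_empty, Finset.sum_empty, mul_zero]
    refine Finset.sum_eq_zero fun I _ => ?_
    refine Finset.sum_eq_zero fun i _ => ?_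
    exact i.elim0
  · let i1 : Fin n := ⟨0, hn⟩
    refine ⟨(Finset.univ.filter fun I : Sub n r => i1 ∈ I.1).card, fun f => ?_⟩
    have h1 : ∑ I : Sub n r, ∑ i ∈ I.1, f i =
        ∑ i, ∑ I : Sub n r, if i ∈ I.1 then f i else 0 := by
      rw [Finset.sum_comm]
      refine Finset.sum_congr rfl fun I _ => ?_
      rw [← Finset.sum_filter]
      congr 1
      ext i; simp
    rw [h1, Finset.mul_sum]
    refine Finset.sum_congr rfl fun i _ => ?_
    rw [← Finset.sum_filter, Finset.sum_const, nsmul_eq_mul]
    congr 2
    -- bijection by the transposition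
    let τ : Equiv.Perm (Fin n) := Equiv.swap i i1
    refine Finset.card_bij (fun I _ => ⟨I.1.map τ.toEmbedding, by rw [Finset.card_map]; exact I.2⟩)
      ?_ ?_ ?_
    · intro I hI
      simp only [Finset.mem_filter, Finset.mem_univ, true_and] at hI ⊢
      rw [Finset.mem_map]
      exact ⟨i, hI, by simp [τ]⟩
    · intro I _ J _ h
      have h' := congrArg Subtype.val h
      simp only at h'
      exact Subtype.ext (Finset.map_injective _ h')
    · intro J hJ
      simp only [Finset.mem_filter, Finset.mem_univ, true_and] at hJ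
      refine ⟨⟨J.1.map τ.toEmbedding, by rw [Finset.card_map]; exact J.2⟩, ?_, ?_⟩
      · simp only [Finset.mem_filter, Finset.mem_univ, true_and]
        rw [Finset.mem_map]
        exact ⟨i1, hJ, by simp [τ]⟩
      · apply Subtype.ext
        simp only
        rw [Finset.map_map]
        convert Finset.map_refl using 1
        ext x
        simp [τ]

end Pool.Agent.SST.ParamA
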