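import Pool.Agent.SST.ParamA

set_option autoImplicit false

namespace Pool.Agent.SST.ParamB

open Matrix Pool.Agent.SST Pool.Agent.SST.ParamA

theorem prod_emb {n r : ℕ} (I : Sub n r) (f : Fin n → ℝ) :
    ∏ l : Fin r, f (I.emb l) = ∏ i ∈ I.1, f i := by
  classical
  have h : I.1 = Finset.univ.image I.emb := by
    unfold Sub.emb
    rw [Finset.image_orderEmbOfFin_univ]
  conv_rhs => rw [h]
  rw [Finset.prod_image]
  intro a _ b _ hab
  exact (I.1.orderEmbOfFin I.2).injective hab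

/-- bound of the minors, generic place -/
theorem sizes_fin {n r : ℕ} (w : AbsoluteValue ℚ ℝ) (D : Matrix (Fin n) (Fin n) ℚ)
    (ρ : Fin n → ℝ) (h : ∀ i j, w (D i j) ≤ ρ i) (I J : Sub n r) :
    w (cmp r D I J) ≤ r.factorial * ∏ i ∈ I.1, ρ i := by
  have h1 := abs_det_le w (D.submatrix I.emb J.emb) (∏ i ∈ I.1, ρ i) ?_
  · simpa [cmp] using h1
  · intro σ
    calc ∏ l, w ((D.submatrix I.emb J.emb) (σ l) l) ≤ ∏ l, ρ (I.emb (σ l)) :=
          Finset.prod_le_prod (fun _ _ => w.nonneg _) fun l _ => h _ _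
      _ = ∏ l, ρ (I.emb l) := Equiv.prod_comp σ (fun l => ρ (I.emb l))
      _ = ∏ i ∈ I.1, ρ i := prod_emb I ρ

/-- bound of the minors, archimedean place -/
theorem sizes_inf {n r : ℕ} (w : AbsoluteValue ℚ ℝ) (D : Matrix (Fin n) (Fin n) ℚ)
    (π : Equiv.Perm (Fin n)) (ρ μ : Fin n → ℝ) (C : ℝ) (hC : 0 ≤ C) (hρ : ∀ i, 0 ≤ ρ i)
    (hμ : ∀ i, 0 ≤ μ i) (h : ∀ i j, w (D (π i) j) ≤ C * ρ (π i) * min (μ i) (μ j))
    (I J : Sub n r) :
    w (cmp r D I J) ≤ r.factorial * (C ^ r * (∏ i ∈ I.1, ρ i) *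
      min (∏ i ∈ I.1, μ (π.symm i)) (∏ j ∈ J.1, μ j)) := by
  have h' : ∀ i j, w (D i j) ≤ C * ρ i * min (μ (π.symm i)) (μ j) := by
    intro i j
    have := h (π.symm i) j
    simpa using this
  have h1 := abs_det_le w (D.submatrix I.emb J.emb) (C ^ r * (∏ i ∈ I.1, ρ i) *
      min (∏ i ∈ I.1, μ (π.symm i)) (∏ j ∈ J.1, μ j)) ?_
  · simpa [cmp] using h1
  · intro σ
    calc ∏ l, w ((D.submatrix I.emb J.emb) (σ l) l)
        ≤ ∏ l, (C * ρ (I.emb (σ l)) * min (μ (π.symm (I.emb (σ l)))) (μ (J.emb l))) :=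
          Finset.prod_le_prod (fun _ _ => w.nonneg _) fun l _ => h' _ _
      _ = C ^ r * (∏ l, ρ (I.emb (σ l))) *
            ∏ l, min (μ (π.symm (I.emb (σ l)))) (μ (J.emb l)) := by
          rw [Finset.prod_mul_distrib, Finset.prod_mul_distrib]
          simp
      _ = C ^ r * (∏ i ∈ I.1, ρ i) *
            ∏ l, min (μ (π.symm (I.emb (σ l)))) (μ (J.emb l)) := by
          rw [Equiv.prod_comp σ (fun l => ρ (I.emb l)), prod_emb I ρ]
      _ ≤ C ^ r * (∏ i ∈ I.1, ρ i) *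
            min (∏ i ∈ I.1, μ (π.symm i)) (∏ j ∈ J.1, μ j) := by
          apply mul_le_mul_of_nonneg_left
          · apply le_min
            · calc ∏ l, min (μ (π.symm (I.emb (σ l)))) (μ (J.emb l))
                  ≤ ∏ l, μ (π.symm (I.emb (σ l))) :=
                    Finset.prod_le_prod (fun _ _ => le_min (hμ _) (hμ _))
                      fun _ _ => min_le_left _ _
                _ = ∏ l, μ (π.symm (I.emb l)) :=
                    Equiv.prod_comp σ (fun l => μ (π.symm (I.emb l)))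
                _ = ∏ i ∈ I.1, μ (π.symm i) := prod_emb I (fun i => μ (π.symm i))
            · calc ∏ l, min (μ (π.symm (I.emb (σ l)))) (μ (J.emb l))
                  ≤ ∏ l, μ (J.emb l) :=
                    Finset.prod_le_prod (fun _ _ => le_min (hμ _) (hμ _))
                      fun _ _ => min_le_right _ _
                _ = ∏ j ∈ J.1, μ j := prod_emb J μ
          · exact mul_nonneg (pow_nonneg hC _) (Finset.prod_nonneg fun i _ => hρ i)

/-- The top r-subset {k, k+1, ..., n-1}. -/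
def top0 {n : ℕ} (k : Fin n) : Sub n (n - k) := ⟨Finset.Ici k, Fin.card_Ici k⟩

/-- products over a subset different from the top one -/
theorem prod_ne_top {n : ℕ} (k : Fin n) (μ : Fin n → ℝ) (hμ : ∀ i, 0 < μ i)
    (hmono : Monotone μ) (t : ℝ) (ht : 0 ≤ t) (ht1 : t ≤ 1)
    (hgap : ∀ j : Fin n, j < k → μ j ≤ t * μ k) (J : Sub n (n - k)) (hJ : J ≠ top0 k) :
    ∏ j ∈ J.1, μ j ≤ t * ∏ j ∈ Finset.Ici k, μ j := by
  classical
  set K : Finset (Fin n) := Finset.Ici k with hK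
  have hcard : J.1.card = K.card := by rw [J.2, hK, Fin.card_Ici]
  have hne : J.1 ≠ K := fun h => hJ (Subtype.ext h)
  have hd : (J.1 \ K).card = (K \ J.1).card := by
    have h1 := Finset.card_sdiff_add_card_inter J.1 K
    have h2 := Finset.card_sdiff_add_card_inter K J.1
    rw [Finset.inter_comm] at h2
    omega
  have hpos : 0 < (J.1 \ K).card := by
    rw [Finset.card_pos]
    by_contra hempty
    rw [Finset.not_nonempty_iff_eq_empty, Finset.sdiff_eq_empty_iff_subset] at hempty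
    exact hne (Finset.eq_of_subset_of_card_le hempty hcard.ge)
  have h1 : ∏ j ∈ J.1, μ j = (∏ j ∈ J.1 ∩ K, μ j) * ∏ j ∈ J.1 \ K, μ j := by
    rw [← Finset.prod_inter_mul_prod_sdiff]
  have h2 : ∏ j ∈ K, μ j = (∏ j ∈ J.1 ∩ K, μ j) * ∏ j ∈ K \ J.1, μ j := by
    rw [Finset.inter_comm, ← Finset.prod_inter_mul_prod_sdiff]
  rw [h1, h2]
  have h3 : ∏ j ∈ J.1 \ K, μ j ≤ (t * μ k) ^ (J.1 \ K).card := by
    rw [← Finset.prod_const]
    refine Finset.prod_le_prod (fun j _ => (hμ j).le) fun j hj => hgap j ?_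
    rw [Finset.mem_sdiff, hK, Finset.mem_Ici, not_le] at hj
    exact hj.2
  have h4 : (μ k) ^ (K \ J.1).card ≤ ∏ j ∈ K \ J.1, μ j := by
    rw [← Finset.prod_const]
    refine Finset.prod_le_prod (fun j _ => (hμ k).le) fun j hj => hmono ?_
    rw [Finset.mem_sdiff, hK, Finset.mem_Ici] at hj
    exact hj.1
  have h5 : (t * μ k) ^ (J.1 \ K).card ≤ t * (μ k) ^ (K \ J.1).card := by
    rw [hd, mul_pow]
    apply mul_le_mul_of_nonneg_right _ (pow_nonneg (hμ k).le _)
    rw [← hd]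
    exact pow_le_of_le_one ht ht1 hpos.ne'
  have h6 : 0 ≤ ∏ j ∈ J.1 ∩ K, μ j := Finset.prod_nonneg fun j _ => (hμ j).le
  calc (∏ j ∈ J.1 ∩ K, μ j) * ∏ j ∈ J.1 \ K, μ j
      ≤ (∏ j ∈ J.1 ∩ K, μ j) * (t * ∏ j ∈ K \ J.1, μ j) := by
        apply mul_le_mul_of_nonneg_left _ h6
        refine le_trans h3 (le_trans h5 ?_)
        exact mul_le_mul_of_nonneg_left h4 ht
    _ = t * ((∏ j ∈ J.1 ∩ K, μ j) * ∏ j ∈ K \ J.1, μ j) := by ring

/-- span inside the kernel -/
theorem span_le_ker {n : ℕ} (k : Fin n) (G : Matrix (Fin n) (Fin n) ℚ) (hG : IsUnit G.det)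
    (lam : ℚ) (M : Sub n (n - k) → ℚ)
    (hM : M = lam • fun I => cmp (n - k) (G⁻¹) (top0 k) I) (i0 : Fin (n - k)) :
    Submodule.span ℚ ((fun j => fun i => G i j) '' {j | j < k}) ≤ ker M i0 := by
  classical
  rw [Submodule.span_le]
  rintro _ ⟨j, hj, rfl⟩
  intro Y
  simp only
  set Y' := Y.updateCol i0 (fun i => G i j) with hY'
  have h1 : ∑ I : Sub n (n - k), M I * (Y'.submatrix I.emb id).det =
      lam * (((G⁻¹).submatrix (top0 k).emb id) * Y').det := by
    rw [cauchy_binet, Finset.mul_sum]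
    refine Finset.sum_congr rfl fun I _ => ?_
    rw [hM]
    simp only [Pi.smul_apply, smul_eq_mul, cmp, Matrix.submatrix_submatrix]
    rw [mul_assoc]
    rfl
  rw [h1, Matrix.det_eq_zero_of_column_eq_zero i0, mul_zero]
  intro i
  rw [Matrix.mul_apply]
  have h2 : ∀ x, Y' x i0 = G x j := by
    intro x; rw [hY', Matrix.updateCol_self]
  simp only [h2, Matrix.submatrix_apply, id]
  have h3 : ∑ x, (G⁻¹) ((top0 k).emb i) x * G x j = (G⁻¹ * G) ((top0 k).emb i) j := by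
    rw [Matrix.mul_apply]
  rw [h3, Matrix.nonsing_inv_mul _ hG, Matrix.one_apply, if_neg]
  intro h4
  have h5 : (top0 k).emb i ∈ (top0 k).1 := Finset.orderEmbOfFin_mem _ _ _
  rw [h4] at h5
  have h6 : k ≤ j := by simpa [top0] using h5
  exact absurd (lt_of_le_of_lt h6 hj) (lt_irrefl _)

end Pool.Agent.SST.ParamB
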