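import Pool.Agent.SST.Defs

set_option autoImplicit false

namespace Pool.Agent.SST

open MvPolynomial Matrix

namespace RothGen

theorem prim_dvd {ι : Type} [Fintype ι] (M : ι → ℤ) (hM : Prim M) (n k : ℤ)
    (h : ∀ i, n ∣ k * M i) : n ∣ k := by
  classical
  have h1 : n ∣ Finset.univ.gcd fun i => k * M i := Finset.dvd_gcd fun i _ => h i
  rw [Finset.gcd_mul_left] at h1
  have h2 : IsUnit (Finset.univ.gcd M) := hM _ fun i => Finset.gcd_dvd (Finset.mem_univ i)
  rw [h2.dvd_mul_right] at h1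
  exact (dvd_normalize_iff).1 h1

theorem exists_good {ι : Type} [Fintype ι] [DecidableEq ι] (M : ι → ℤ) (hM : Prim M) (a : ι)
    (ha : M a ≠ 0) (hlog : 0 < Real.log ‖M‖) :
    ∃ (b : ι) (p q : ℤ), b ≠ a ∧ q ≠ 0 ∧ IsCoprime p q ∧ p * M a = - M b * q ∧
      Real.log ‖M‖ ≤ Fintype.card ι * Real.log (max |(p : ℝ)| |(q : ℝ)|) := by
  classical
  have hkey : ∀ b : ι, ∃ p q : ℤ, q ≠ 0 ∧ IsCoprime p q ∧ p * M a = - M b * q ∧
      (b = a → max |(p : ℝ)| |(q : ℝ)| = 1) := by
    intro b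
    refine ⟨(-(M b : ℚ) / M a).num, (-(M b : ℚ) / M a).den, ?_, ?_, ?_, ?_⟩
    · exact_mod_cast (-(M b : ℚ) / M a).den_ne_zero
    · rw [Int.isCoprime_iff_gcd_eq_one]
      exact (-(M b : ℚ) / M a).reduced
    · have h1 : ((-(M b : ℚ) / M a).num : ℚ) = (-(M b : ℚ) / M a) * (-(M b : ℚ) / M a).den :=
        (Rat.mul_den_eq_num _).symm
      have h2 : (M a : ℚ) ≠ 0 := by exact_mod_cast ha
      have h3 : ((-(M b : ℚ) / M a).num : ℚ) * M a = - M b * (-(M b : ℚ) / M a).den := by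
        rw [h1]
        generalize ((-(M b : ℚ) / M a).den : ℚ) = D
        field_simp
      exact_mod_cast h3
    · rintro rfl
      have h2 : (M b : ℚ) ≠ 0 := by exact_mod_cast ha
      have h3 : -(M b : ℚ) / M b = -1 := by field_simp
      rw [h3]
      simp
  choose p q hq hcop hpq hone using hkey
  set mx : ι → ℝ := fun b => max |(p b : ℝ)| |(q b : ℝ)| with hmx
  have hmx1 : ∀ b, 1 ≤ mx b := by
    intro b
    refine le_trans ?_ (le_max_right _ _)
    have : 1 ≤ |q b| := Int.one_le_abs (hq b)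
    exact_mod_cast this
  have hmx0 : ∀ b, 0 ≤ mx b := fun b => le_trans zero_le_one (hmx1 b)
  have hk : M a ∣ ∏ b, q b := by
    refine prim_dvd M hM _ _ fun b => ?_
    have h1 : M a ∣ q b * M b := ⟨- p b, by linear_combination hpq b⟩
    exact h1.trans (mul_dvd_mul_right (Finset.dvd_prod_of_mem q (Finset.mem_univ b)) _)
  have hk0 : ∏ b, q b ≠ 0 := Finset.prod_ne_zero_iff.2 fun b _ => hq b
  have hMa : |(M a : ℝ)| ≤ ∏ b, |(q b : ℝ)| := by
    have h1 : |M a| ≤ |∏ b, q b| :=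
      Int.le_of_dvd (abs_pos.2 hk0) ((abs_dvd_abs _ _).2 hk)
    have h2 : ((|M a| : ℤ) : ℝ) ≤ ((|∏ b, q b| : ℤ) : ℝ) := by exact_mod_cast h1
    rw [Int.cast_abs, Int.cast_abs, Int.cast_prod, Finset.abs_prod] at h2
    exact h2
  have hnorm : ‖M‖ ≤ ∏ b, mx b := by
    rw [pi_norm_le_iff_of_nonneg (Finset.prod_nonneg fun b _ => hmx0 b)]
    intro b0
    rw [Int.norm_eq_abs]
    have h1 : |(M b0 : ℝ)| * |(q b0 : ℝ)| = |(M a : ℝ)| * |(p b0 : ℝ)| := by
      have h2 := hpq b0
      have h3 : (p b0 : ℝ) * M a = - M b0 * q b0 := by exact_mod_cast h2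
      rw [← abs_mul, ← abs_mul, mul_comm (M a : ℝ), h3, neg_mul, abs_neg]
    have hq0 : 0 < |(q b0 : ℝ)| := abs_pos.2 (by exact_mod_cast hq b0)
    have h4 : |(M b0 : ℝ)| * |(q b0 : ℝ)| ≤
        (|(p b0 : ℝ)| * ∏ b ∈ Finset.univ.erase b0, |(q b : ℝ)|) * |(q b0 : ℝ)| := by
      rw [h1]
      calc |(M a : ℝ)| * |(p b0 : ℝ)| ≤ (∏ b, |(q b : ℝ)|) * |(p b0 : ℝ)| :=
            mul_le_mul_of_nonneg_right hMa (abs_nonneg _)
        _ = (|(p b0 : ℝ)| * ∏ b ∈ Finset.univ.erase b0, |(q b : ℝ)|) * |(q b0 : ℝ)| := by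
            rw [← Finset.mul_prod_erase Finset.univ (fun b => |(q b : ℝ)|) (Finset.mem_univ b0)]
            ring
    have h5 := le_of_mul_le_mul_right h4 hq0
    refine h5.trans ?_
    rw [← Finset.mul_prod_erase Finset.univ mx (Finset.mem_univ b0)]
    refine mul_le_mul (le_max_left _ _) ?_ (Finset.prod_nonneg fun b _ => abs_nonneg _) (hmx0 _)
    exact Finset.prod_le_prod (fun b _ => abs_nonneg _) fun b _ => le_max_right _ _
  have hpos : 0 < ‖M‖ := by
    rcases (norm_nonneg M).lt_or_eq with h | h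
    · exact h
    · rw [← h, Real.log_zero] at hlog
      exact absurd hlog (lt_irrefl _)
  have hsum : Real.log ‖M‖ ≤ ∑ b, Real.log (mx b) := by
    rw [← Real.log_prod (fun b _ => (lt_of_lt_of_le one_pos (hmx1 b)).ne')]
    exact Real.log_le_log hpos hnorm
  by_contra hcon
  push Not at hcon
  have hall : ∀ b, (Fintype.card ι : ℝ) * Real.log (mx b) < Real.log ‖M‖ := by
    intro b
    by_cases hb : b = a
    · have : mx b = 1 := hone b hb
      rw [this, Real.log_one, mul_zero]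
      exact hlog
    · exact hcon b (p b) (q b) hb (hq b) (hcop b) (hpq b)
  have hlt : ∑ b, (Fintype.card ι : ℝ) * Real.log (mx b) < ∑ _b : ι, Real.log ‖M‖ :=
    Finset.sum_lt_sum_of_nonempty ⟨a, Finset.mem_univ a⟩ fun b _ => hall b
  rw [← Finset.mul_sum, Finset.sum_const, Finset.card_univ, nsmul_eq_mul] at hlt
  have hcard : (0 : ℝ) ≤ Fintype.card ι := Nat.cast_nonneg _
  have := mul_le_mul_of_nonneg_left hsum hcard
  exact absurd hlt (not_lt.2 this)

theorem exists_dual {ι κ : Type} [Fintype ι] [DecidableEq ι] [Fintype κ]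
    (hκ : Fintype.card κ + 1 = Fintype.card ι) (M : ι → ℤ) (g : κ → ι → ℤ) (a : ι)
    (ha : M a ≠ 0) (hg : ∀ j, M ⬝ᵥ g j = 0) (hli : LinearIndependent ℚ fun j => qv (g j)) :
    ∃ G : κ → ι → ℚ, ∀ i i', ∑ j, (g j i : ℚ) * G j i' +
      ((Pi.single a 1 : ι → ℤ) i : ℚ) * ((M i' : ℚ) / M a) = if i = i' then 1 else 0 := by
  classical
  have haQ : (M a : ℚ) ≠ 0 := by exact_mod_cast ha
  let v : Option κ → (ι → ℚ) := fun o => o.elim (qv (Pi.single a 1)) fun j => qv (g j)
  let φ : (ι → ℚ) →ₗ[ℚ] ℚ :=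
    { toFun := fun x => ∑ i, (M i : ℚ) * x i
      map_add' := fun x y => by
        simp only [Pi.add_apply, mul_add, Finset.sum_add_distrib]
      map_smul' := fun r x => by
        simp only [Pi.smul_apply, smul_eq_mul, RingHom.id_apply, Finset.mul_sum]
        exact Finset.sum_congr rfl fun i _ => by ring }
  have hφ : ∀ x, φ x = ∑ i, (M i : ℚ) * x i := fun x => rfl
  have hφg : ∀ j, φ (qv (g j)) = 0 := by
    intro j
    rw [hφ]
    have h1 := hg j
    unfold dotProduct at h1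
    have h2 : ((∑ i, M i * g j i : ℤ) : ℚ) = 0 := by rw [h1]; simp
    rw [Int.cast_sum] at h2
    rw [← h2]
    exact Finset.sum_congr rfl fun i _ => by simp [qv]
  have hφa : φ (qv (Pi.single a 1)) = M a := by
    rw [hφ, Finset.sum_eq_single a]
    · simp [qv]
    · intro i _ hi
      simp [qv, Pi.single_eq_of_ne hi]
    · intro h
      exact absurd (Finset.mem_univ a) h
  have hv : LinearIndependent ℚ v := by
    rw [linearIndependent_option]
    refine ⟨hli, fun hmem => ?_⟩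
    have hker : Submodule.span ℚ (Set.range (v ∘ (fun j : κ => (j : Option κ)))) ≤
        LinearMap.ker φ := by
      rw [Submodule.span_le]
      rintro _ ⟨j, rfl⟩
      exact hφg j
    have h1 : φ (v none) = 0 := hker hmem
    exact haQ (hφa.symm.trans h1)
  have hspan : Submodule.span ℚ (Set.range v) = ⊤ := by
    apply hv.span_eq_top_of_card_eq_finrank'
    rw [Fintype.card_option, hκ, Module.finrank_fintype_fun_eq_card]
  have hex : ∀ i' : ι, ∃ c : Option κ → ℚ, ∑ o, c o • v o = Pi.single i' 1 := by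
    intro i'
    have : (Pi.single i' 1 : ι → ℚ) ∈ Submodule.span ℚ (Set.range v) := by
      rw [hspan]; exact Submodule.mem_top
    exact (Submodule.mem_span_range_iff_exists_fun ℚ).1 this
  choose c hc using hex
  refine ⟨fun j i' => c i' (some j), fun i i' => ?_⟩
  have h1 := hc i'
  rw [Fintype.sum_option] at h1
  have hnone : c i' none = (M i' : ℚ) / M a := by
    have h2 := congrArg φ h1
    rw [map_add, map_smul, map_sum] at h2
    have h3 : ∑ x : κ, φ (c i' (some x) • v (some x)) = 0 := by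
      refine Finset.sum_eq_zero fun x _ => ?_
      rw [map_smul]
      have : φ (v (some x)) = 0 := hφg x
      rw [this, smul_zero]
    have h4 : φ (v none) = M a := hφa
    have h5 : φ (Pi.single i' 1) = M i' := by
      rw [hφ, Finset.sum_eq_single i']
      · simp
      · intro i _ hi
        simp [Pi.single_eq_of_ne hi]
      · intro h
        exact absurd (Finset.mem_univ i') h
    rw [h3, h4, h5, add_zero, smul_eq_mul] at h2
    rw [eq_div_iff haQ, h2]
  have h2 := congrFun h1 i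
  rw [hnone] at h2
  simp only [Pi.add_apply, Finset.sum_apply, Pi.smul_apply, smul_eq_mul] at h2
  have h3 : (Pi.single i' (1 : ℚ) : ι → ℚ) i = if i = i' then 1 else 0 := by
    rw [Pi.single_apply]
  rw [h3] at h2
  rw [← h2, add_comm]
  congr 1
  · simp only [v, Option.elim, qv]
    ring
  · refine Finset.sum_congr rfl fun j _ => ?_
    simp only [v, Option.elim, qv]
    ring


/-- the polynomial ring in the remaining variables over the ring in the variables tau -/
abbrev BR (m : ℕ) (ι : Type) : Type := MvPolynomial (Fin m × ι) (MvPolynomial (Fin m) ℚ)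

/-- restriction of an exponent to the remaining variables -/
noncomputable def zr {m : ℕ} {ι : Type} [DecidableEq ι] (a b : Fin m → ι)
    (c : Fin m × ι →₀ ℕ) : Fin m × ι →₀ ℕ :=
  c.filter fun x => ¬ (x.2 = a x.1 ∨ x.2 = b x.1)

theorem zr_pos {m : ℕ} {ι : Type} [DecidableEq ι] (a b : Fin m → ι)
    (c : Fin m × ι →₀ ℕ) (x : Fin m × ι) (hx : ¬ (x.2 = a x.1 ∨ x.2 = b x.1)) :
    zr a b c x = c x :=
  Finsupp.filter_apply_pos (fun x : Fin m × ι => ¬ (x.2 = a x.1 ∨ x.2 = b x.1)) c hx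

theorem zr_neg {m : ℕ} {ι : Type} [DecidableEq ι] (a b : Fin m → ι)
    (c : Fin m × ι →₀ ℕ) (x : Fin m × ι) (hx : x.2 = a x.1 ∨ x.2 = b x.1) :
    zr a b c x = 0 :=
  Finsupp.filter_apply_neg (fun x : Fin m × ι => ¬ (x.2 = a x.1 ∨ x.2 = b x.1)) c
    (not_not.2 hx)

/-- restriction of an exponent to the first variables -/
noncomputable def ar {m : ℕ} {ι : Type} (a : Fin m → ι) (c : Fin m × ι →₀ ℕ) : Fin m →₀ ℕ :=
  Finsupp.equivFunOnFinite.symm fun h => c (h, a h)

theorem ar_apply {m : ℕ} {ι : Type} (a : Fin m → ι) (c : Fin m × ι →₀ ℕ) (h : Fin m) :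
    ar a c h = c (h, a h) := rfl

/-- the substitution -/
noncomputable def Yp {m : ℕ} {ι : Type} [DecidableEq ι] (a : Fin m → ι)
    (β : Fin m → ℚ) (L : Fin m → BR m ι) (x : Fin m × ι) : BR m ι :=
  if x.2 = a x.1 then C (C (β x.1) + X x.1) + L x.1 else 1

noncomputable def Yz {m : ℕ} {ι : Type} [DecidableEq ι] (a b : Fin m → ι)
    (x : Fin m × ι) : BR m ι :=
  if x.2 = a x.1 ∨ x.2 = b x.1 then 1 else X x

theorem prod_Yz {m : ℕ} {ι : Type} [Fintype ι] [DecidableEq ι] (a b : Fin m → ι)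
    (c : Fin m × ι →₀ ℕ) : ∏ x, Yz a b x ^ c x = monomial (zr a b c) 1 := by
  classical
  rw [monomial_eq, C_1, one_mul, Finsupp.prod_fintype _ _ (fun i => pow_zero _)]
  refine Finset.prod_congr rfl fun x _ => ?_
  unfold Yz
  by_cases hx : x.2 = a x.1 ∨ x.2 = b x.1
  · rw [if_pos hx, zr_neg a b c x hx, one_pow, pow_zero]
  · rw [if_neg hx, zr_pos a b c x hx]

theorem constantCoeff_prod_Yp {m : ℕ} {ι : Type} [Fintype ι] [DecidableEq ι] (a : Fin m → ι)
    (β : Fin m → ℚ) (L : Fin m → BR m ι) (hL : ∀ h, constantCoeff (L h) = 0)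
    (c : Fin m × ι →₀ ℕ) :
    constantCoeff (∏ x, Yp a β L x ^ c x) = ∏ h, (C (β h) + X h) ^ c (h, a h) := by
  classical
  rw [map_prod, Fintype.prod_prod_type]
  refine Finset.prod_congr rfl fun h _ => ?_
  rw [Finset.prod_eq_single (a h)]
  · rw [map_pow]
    unfold Yp
    rw [if_pos rfl, map_add, constantCoeff_C, hL, add_zero]
  · intro i _ hi
    unfold Yp
    rw [if_neg hi, one_pow, map_one]
  · intro h'
    exact absurd (Finset.mem_univ _) h'

/-- the coefficient polynomial -/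
noncomputable def fz {m : ℕ} {ι : Type} [DecidableEq ι] (a b : Fin m → ι)
    (P : MvPolynomial (Fin m × ι) ℤ) (ζ : Fin m × ι →₀ ℕ) : MvPolynomial (Fin m) ℤ :=
  open Classical in
  ∑ c ∈ P.support.filter (fun c => zr a b c = ζ), monomial (ar a c) (P.coeff c)

theorem coeff_psi {m : ℕ} {ι : Type} [Fintype ι] [DecidableEq ι] (a b : Fin m → ι)
    (β : Fin m → ℚ) (L : Fin m → BR m ι) (hL : ∀ h, constantCoeff (L h) = 0)
    (P : MvPolynomial (Fin m × ι) ℤ) (ζ : Fin m × ι →₀ ℕ)
    (hmin : ∀ c ∈ P.support, zr a b c ≤ ζ → zr a b c = ζ) :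
    coeff ζ (aeval (fun x => Yp a β L x * Yz a b x) P : BR m ι) =
      aeval (fun h => C (β h) + X h) (fz a b P ζ) := by
  classical
  rw [aeval_def, eval₂_eq', coeff_sum]
  unfold fz
  rw [map_sum, Finset.sum_filter]
  refine Finset.sum_congr rfl fun c hc => ?_
  have h1 : ∏ x, (Yp a β L x * Yz a b x) ^ c x =
      (∏ x, Yp a β L x ^ c x) * monomial (zr a b c) 1 := by
    rw [← prod_Yz, ← Finset.prod_mul_distrib]
    exact Finset.prod_congr rfl fun x _ => mul_pow _ _ _
  rw [h1, ← mul_assoc, coeff_mul_monomial', mul_one]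
  by_cases hz : zr a b c = ζ
  · rw [if_pos hz, if_pos (le_of_eq hz), hz, tsub_self, ← constantCoeff_eq, map_mul,
      constantCoeff_prod_Yp a β L hL, aeval_monomial,
      Finsupp.prod_fintype _ _ (fun i => pow_zero _)]
    congr 1
    simp
  · rw [if_neg hz, if_neg (fun h => hz (hmin c hc h))]

theorem ar_injOn {m : ℕ} {ι : Type} [Fintype ι] [DecidableEq ι] (a b : Fin m → ι)
    (d : Fin m → ℕ) (c c' : Fin m × ι →₀ ℕ)
    (hc : ∀ h, ∑ i, c (h, i) = d h) (hc' : ∀ h, ∑ i, c' (h, i) = d h)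
    (hz : zr a b c = zr a b c') (ha : ar a c = ar a c') : c = c' := by
  classical
  have h1 : ∀ h i, i ≠ b h → c (h, i) = c' (h, i) := by
    intro h i hib
    by_cases hia : i = a h
    · subst hia
      have := DFunLike.congr_fun ha h
      rw [ar_apply, ar_apply] at this
      exact this
    · have := DFunLike.congr_fun hz (h, i)
      rwa [zr_pos a b c (h, i) (not_or.2 ⟨hia, hib⟩), zr_pos a b c' (h, i) (not_or.2 ⟨hia, hib⟩)]
        at this
  ext ⟨h, i⟩
  by_cases hib : i = b h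
  · subst hib
    have h2 : ∑ i, c (h, i) = ∑ i, c' (h, i) := (hc h).trans (hc' h).symm
    rw [← Finset.add_sum_erase _ _ (Finset.mem_univ (b h)),
      ← Finset.add_sum_erase _ (fun i => c' (h, i)) (Finset.mem_univ (b h))] at h2
    have h3 : ∑ i ∈ Finset.univ.erase (b h), c (h, i) =
        ∑ i ∈ Finset.univ.erase (b h), c' (h, i) :=
      Finset.sum_congr rfl fun i hi => h1 h i (Finset.ne_of_mem_erase hi)
    omega
  · exact h1 h i hib

theorem coeff_fz {m : ℕ} {ι : Type} [Fintype ι] [DecidableEq ι] (a b : Fin m → ι)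
    (d : Fin m → ℕ) (P : MvPolynomial (Fin m × ι) ℤ) (hP : MHom d P) (c0 : Fin m × ι →₀ ℕ)
    (hc0 : c0 ∈ P.support) :
    (fz a b P (zr a b c0)).coeff (ar a c0) = P.coeff c0 := by
  classical
  unfold fz
  rw [coeff_sum, Finset.sum_eq_single c0]
  · rw [coeff_monomial, if_pos rfl]
  · intro c hc hne
    rw [coeff_monomial, if_neg]
    intro har
    rw [Finset.mem_filter] at hc
    exact hne (ar_injOn a b d c c0 (hP c hc.1) (hP c0 hc0) hc.2 har)
  · intro h
    exact absurd (Finset.mem_filter.2 ⟨hc0, rfl⟩ :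
      c0 ∈ P.support.filter (fun c => zr a b c = zr a b c0)) h

theorem coeff_fz_cases {m : ℕ} {ι : Type} [Fintype ι] [DecidableEq ι] (a b : Fin m → ι)
    (d : Fin m → ℕ) (P : MvPolynomial (Fin m × ι) ℤ) (hP : MHom d P) (ζ : Fin m × ι →₀ ℕ)
    (j : Fin m →₀ ℕ) : (fz a b P ζ).coeff j = 0 ∨
      ∃ c ∈ P.support, ar a c = j ∧ (fz a b P ζ).coeff j = P.coeff c := by
  classical
  by_cases hex : ∃ c ∈ P.support, zr a b c = ζ ∧ ar a c = j
  · obtain ⟨c, hc, rfl, rfl⟩ := hex
    exact Or.inr ⟨c, hc, rfl, coeff_fz a b d P hP c hc⟩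
  · left
    unfold fz
    rw [coeff_sum]
    refine Finset.sum_eq_zero fun c hc => ?_
    rw [Finset.mem_filter] at hc
    rw [coeff_monomial, if_neg]
    intro h
    exact hex ⟨c, hc.1, hc.2, h⟩

/-- the order along the product of the hyperplanes -/
theorem coeff_phi {m : ℕ} {ι κ : Type} [Fintype ι] [Fintype κ] (S : Fin m → κ → BR m ι)
    (d : Fin m → ℕ) (θ : ℝ) (R : MvPolynomial (Fin m × Option κ) ℤ)
    (hR : ∀ b : Fin m × Option κ →₀ ℕ, ∑ h, (b (h, none) : ℝ) / d h < θ → R.coeff b = 0)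
    (ζ : Fin m × ι →₀ ℕ) (j : Fin m →₀ ℕ) (hj : ∑ h, (j h : ℝ) / d h < θ) :
    coeff j (coeff ζ (aeval (fun y : Fin m × Option κ =>
      y.2.elim (C (X y.1) : BR m ι) (fun k => S y.1 k)) R)) = 0 := by
  classical
  rw [aeval_def, eval₂_eq', coeff_sum, coeff_sum]
  refine Finset.sum_eq_zero fun b hb => ?_
  have hb0 : R.coeff b ≠ 0 := mem_support_iff.1 hb
  have hwt : θ ≤ ∑ h, (b (h, none) : ℝ) / d h := not_lt.1 fun h => hb0 (hR b h)
  have h1 : ∏ y : Fin m × Option κ, (y.2.elim (C (X y.1) : BR m ι) (fun k => S y.1 k)) ^ b y =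
      C (monomial (Finsupp.equivFunOnFinite.symm fun h => b (h, none)) 1) *
        ∏ h, ∏ k, S h k ^ b (h, some k) := by
    rw [Fintype.prod_prod_type, monomial_eq, C_1, one_mul,
      Finsupp.prod_fintype _ _ (fun i => pow_zero _), map_prod, ← Finset.prod_mul_distrib]
    refine Finset.prod_congr rfl fun h _ => ?_
    rw [Fintype.prod_option, map_pow]
    rfl
  rw [h1, mul_left_comm, coeff_C_mul, coeff_monomial_mul', if_neg]
  intro hle
  refine absurd hj (not_lt.2 (hwt.trans (Finset.sum_le_sum fun h _ => ?_)))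
  have h2 : b (h, none) ≤ j h := hle h
  have h3 : (b (h, none) : ℝ) ≤ j h := by exact_mod_cast h2
  exact div_le_div_of_nonneg_right h3 (Nat.cast_nonneg _)

/-- if the polynomial vanishes along the hyperplanes then so does the coefficient polynomial -/
theorem transfer {ι κ : Type} [Fintype ι] [DecidableEq ι] [Fintype κ]
    (hκ : Fintype.card κ + 1 = Fintype.card ι) (m : ℕ) (θ : ℝ)
    (d : Fin m → ℕ) (P : MvPolynomial (Fin m × ι) ℤ) (M : Fin m → ι → ℤ)
    (g : Fin m → κ → ι → ℤ) (a b : Fin m → ι) (hab : ∀ h, b h ≠ a h) (p q : Fin m → ℤ)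
    (hq : ∀ h, q h ≠ 0) (hpq : ∀ h, p h * M h (a h) = - M h (b h) * q h)
    (hM : ∀ h, M h (a h) ≠ 0) (hg : ∀ h j, M h ⬝ᵥ g h j = 0)
    (hli : ∀ h, LinearIndependent ℚ fun j => qv (g h j))
    (hR : ∀ b' : Fin m × Option κ →₀ ℕ, ∑ h, (b' (h, none) : ℝ) / d h < θ →
      (bsub g (fun h => Pi.single (a h) 1) P).coeff b' = 0)
    (ζ : Fin m × ι →₀ ℕ) (hmin : ∀ c ∈ P.support, zr a b c ≤ ζ → zr a b c = ζ)
    (j : Fin m →₀ ℕ) (hj : ∑ h, (j h : ℝ) / d h < θ) :
    (aeval (fun h => C ((p h : ℚ) / q h) + X h) (fz a b P ζ) : MvPolynomial (Fin m) ℚ).coeff j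
      = 0 := by
  classical
  have hMQ : ∀ h, (M h (a h) : ℚ) ≠ 0 := fun h => by exact_mod_cast hM h
  have hqQ : ∀ h, (q h : ℚ) ≠ 0 := fun h => by exact_mod_cast hq h
  set β : Fin m → ℚ := fun h => (p h : ℚ) / q h with hβ
  have hβ2 : ∀ h, β h + (M h (b h) : ℚ) / M h (a h) = 0 := by
    intro h
    have h1 : (p h : ℚ) * M h (a h) = - M h (b h) * q h := by exact_mod_cast hpq h
    rw [hβ]
    have h2 := hqQ h
    have h3 := hMQ h
    field_simp
    linear_combination h1
  set L : Fin m → BR m ι := fun h =>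
    - ∑ i ∈ (Finset.univ.erase (a h)).erase (b h),
      C (C ((M h i : ℚ) / M h (a h))) * X (h, i) with hLdef
  have hL : ∀ h, constantCoeff (L h) = 0 := by
    intro h
    rw [hLdef]
    simp only [map_neg, map_sum, map_mul, constantCoeff_X, mul_zero, Finset.sum_const_zero,
      neg_zero]
  set Y : Fin m × ι → BR m ι := fun x => Yp a β L x * Yz a b x with hY
  have hMY : ∀ h, ∑ i, (C (C ((M h i : ℚ) / M h (a h))) : BR m ι) * Y (h, i) = C (X h) := by
    intro h
    rw [← Finset.add_sum_erase _ _ (Finset.mem_univ (a h)),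
      ← Finset.add_sum_erase (Finset.univ.erase (a h)) _
        (Finset.mem_erase.2 ⟨hab h, Finset.mem_univ (b h)⟩)]
    have hYa : Y (h, a h) = C (C (β h) + X h) + L h := by
      rw [hY]
      simp [Yp, Yz]
    have hYb : Y (h, b h) = 1 := by
      rw [hY]
      simp [Yp, Yz, hab h]
    have hYi : ∀ i ∈ (Finset.univ.erase (a h)).erase (b h), Y (h, i) = X (h, i) := by
      intro i hi
      rw [Finset.mem_erase, Finset.mem_erase] at hi
      rw [hY]
      simp [Yp, Yz, hi.1, hi.2.1]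
    rw [Finset.sum_congr rfl fun i hi => by rw [hYi i hi]]
    rw [hYa, hYb, div_self (hMQ h)]
    have h1 : (C (C (β h) + X h) : BR m ι) = C (C (β h)) + C (X h) := by rw [map_add]
    have h2 : (C (C (β h)) : BR m ι) + C (C ((M h (b h) : ℚ) / M h (a h))) = 0 := by
      rw [← map_add, ← map_add, hβ2, map_zero, map_zero]
    rw [h1, hLdef]
    simp only [C_1, one_mul, mul_one]
    linear_combination h2
  have hG := fun h => exists_dual hκ (M h) (g h) (a h) (hM h) (hg h) (hli h)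
  choose G hG using hG
  set S : Fin m → κ → BR m ι := fun h j => ∑ i', C (C (G h j i')) * Y (h, i') with hS
  have hcomp : aeval (fun y : Fin m × Option κ =>
      y.2.elim (C (X y.1) : BR m ι) (fun k => S y.1 k))
        (bsub g (fun h => Pi.single (a h) 1) P) = (aeval Y P : BR m ι) := by
    have h1 : (aeval (fun y : Fin m × Option κ =>
      y.2.elim (C (X y.1) : BR m ι) (fun k => S y.1 k))).comp
        (bsub g (fun h => Pi.single (a h) 1)) = (aeval Y : _ →ₐ[ℤ] BR m ι) := by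
      apply algHom_ext
      rintro ⟨h, i⟩
      rw [AlgHom.comp_apply]
      unfold bsub
      rw [aeval_X, aeval_X, map_add, map_sum]
      simp only [map_mul, aeval_C, aeval_X, Option.elim]
      have h2 : ∀ n : ℤ, (algebraMap ℤ (BR m ι)) n = C (C (n : ℚ)) := by
        intro n
        simp
      simp only [h2]
      rw [← hMY h, hS, Finset.mul_sum]
      simp only [Finset.mul_sum]
      rw [Finset.sum_comm, ← Finset.sum_add_distrib]
      rw [Finset.sum_eq_single i]
      · have h3 := hG h i i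
        rw [if_pos rfl] at h3
        have h4 : (∑ j, (C (C (g h j i : ℚ)) : BR m ι) * C (C (G h j i))) +
            C (C ((((Pi.single (a h) 1 : ι → ℤ) i : ℤ) : ℚ))) * C (C ((M h i : ℚ) / M h (a h)))
            = 1 := by
          rw [← C_1, ← C_1, ← h3]
          simp only [map_add, map_sum, map_mul]
        calc _ = ((∑ j, (C (C (g h j i : ℚ)) : BR m ι) * C (C (G h j i))) +
            C (C ((((Pi.single (a h) 1 : ι → ℤ) i : ℤ) : ℚ))) * C (C ((M h i : ℚ) / M h (a h))))
              * Y (h, i) := by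
              rw [add_mul, Finset.sum_mul]
              simp only [mul_assoc]
          _ = Y (h, i) := by rw [h4, one_mul]
      · intro i' _ hne
        have h3 := hG h i i'
        rw [if_neg (Ne.symm hne)] at h3
        have h4 : (∑ j, (C (C (g h j i : ℚ)) : BR m ι) * C (C (G h j i'))) +
            C (C ((((Pi.single (a h) 1 : ι → ℤ) i : ℤ) : ℚ))) * C (C ((M h i' : ℚ) / M h (a h)))
            = 0 := by
          rw [← C_0, ← C_0, ← h3]
          simp only [map_add, map_sum, map_mul]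
        calc _ = ((∑ j, (C (C (g h j i : ℚ)) : BR m ι) * C (C (G h j i'))) +
            C (C ((((Pi.single (a h) 1 : ι → ℤ) i : ℤ) : ℚ))) * C (C ((M h i' : ℚ) / M h (a h))))
              * Y (h, i') := by
              rw [add_mul, Finset.sum_mul]
              simp only [mul_assoc]
          _ = 0 := by rw [h4, zero_mul]
      · intro h'
        exact absurd (Finset.mem_univ i) h'
    exact DFunLike.congr_fun h1 P
  have hpsi := coeff_psi a b β L hL P ζ hmin
  rw [← hpsi, ← hcomp]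
  exact coeff_phi S d θ _ hR ζ j hj

end RothGen

/-- Roth lemma for hyperplanes, given the statement of the Roth lemma. -/
theorem roth_gen_of_roth
    (hroth : ∀ (m : ℕ) (ε : ℝ), 0 < ε → ∃ ω : ℝ, 0 < ω ∧ ∃ K : ℝ, 1 ≤ K ∧
      ∀ (d : Fin m → ℕ) (P : MvPolynomial (Fin m) ℤ) (p q : Fin m → ℤ) (H : ℝ),
        (∀ h, 0 < d h) → (∀ h h', h < h' → (d h' : ℝ) ≤ ω * d h) →
        P ≠ 0 → (∀ h, P.degreeOf h ≤ d h) → 1 ≤ H → CLe P H →
        (∀ h, q h ≠ 0) → (∀ h, IsCoprime (p h) (q h)) →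
        (∀ h, Real.log H + K * (∑ h', d h' : ℕ) ≤
          ω * d h * Real.log (max |(p h : ℝ)| |(q h : ℝ)|)) →
        ∃ j : Fin m →₀ ℕ, ∑ h, (j h : ℝ) / d h ≤ ε ∧
          (aeval (fun h => C ((p h : ℚ) / q h) + X h) P : MvPolynomial (Fin m) ℚ).coeff j ≠ 0)
    {ι κ : Type} [Fintype ι] [DecidableEq ι] [Fintype κ]
    (hκ : Fintype.card κ + 1 = Fintype.card ι) (m : ℕ) (θ : ℝ) (hθ : 0 < θ) :
    ∃ ω : ℝ, 0 < ω ∧ ∃ K : ℝ, 1 ≤ K ∧
    ∀ (d : Fin m → ℕ) (P : MvPolynomial (Fin m × ι) ℤ) (M : Fin m → ι → ℤ)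
      (g : Fin m → κ → ι → ℤ) (a : Fin m → ι) (H : ℝ),
      (∀ h, 0 < d h) → (∀ h h', h < h' → (d h' : ℝ) ≤ ω * d h) →
      P ≠ 0 → MHom d P → 1 ≤ H → CLe P H →
      (∀ h, Prim (M h)) → (∀ h, M h (a h) ≠ 0) → (∀ h j, M h ⬝ᵥ g h j = 0) →
      (∀ h, LinearIndependent ℚ fun j => qv (g h j)) →
      (∀ h, Real.log H + K * (∑ h', d h' : ℕ) ≤ ω * d h * Real.log ‖M h‖) →
      ∃ b : Fin m × Option κ →₀ ℕ, ∑ h, (b (h, none) : ℝ) / d h < θ ∧
        (bsub g (fun h => Pi.single (a h) 1) P).coeff b ≠ 0 := by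
  classical
  obtain ⟨ω, hω, K, hK, hr⟩ := hroth m (θ / 2) (half_pos hθ)
  have hN1 : (1 : ℝ) ≤ Fintype.card ι := by
    have : 1 ≤ Fintype.card ι := by omega
    exact_mod_cast this
  have hN0 : (0 : ℝ) < Fintype.card ι := lt_of_lt_of_le one_pos hN1
  refine ⟨ω / Fintype.card ι, div_pos hω hN0, K, hK, ?_⟩
  intro d P M g a H hd hdd hP hPh hH hPH hprim hMa hMg hli hheight
  have hωle : ω / Fintype.card ι ≤ ω := div_le_self hω.le hN1
  have hlogH : 0 ≤ Real.log H := Real.log_nonneg hH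
  have hlogM : ∀ h, 0 < Real.log ‖M h‖ := by
    intro h
    have h1 := hheight h
    have h2 : (0 : ℝ) < (∑ h', d h' : ℕ) := by
      have : 0 < ∑ h', d h' := lt_of_lt_of_le (hd h)
        (Finset.single_le_sum (fun _ _ => Nat.zero_le _) (Finset.mem_univ h))
      exact_mod_cast this
    have h3 : 0 < Real.log H + K * (∑ h', d h' : ℕ) :=
      add_pos_of_nonneg_of_pos hlogH (mul_pos (lt_of_lt_of_le one_pos hK) h2)
    have h4 : 0 < ω / Fintype.card ι * d h * Real.log ‖M h‖ := lt_of_lt_of_le h3 h1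
    have h5 : 0 < ω / Fintype.card ι * d h :=
      mul_pos (div_pos hω hN0) (by exact_mod_cast hd h)
    exact (mul_pos_iff_of_pos_left h5).1 h4
  have hgood := fun h => RothGen.exists_good (M h) (hprim h) (a h) (hMa h) (hlogM h)
  choose b p q hab hq hcop hpq hlog using hgood
  -- the minimal exponent
  have hne : (P.support.image (RothGen.zr a b)).Nonempty :=
    (Finset.image_nonempty).2 (support_nonempty.2 hP)
  obtain ⟨ζ, hζ⟩ := Finset.exists_minimal hne
  obtain ⟨c0, hc0, hc0ζ⟩ := Finset.mem_image.1 hζ.prop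
  have hmin : ∀ c ∈ P.support, RothGen.zr a b c ≤ ζ → RothGen.zr a b c = ζ := by
    intro c hc hle
    exact le_antisymm hle (hζ.le_of_le (Finset.mem_image_of_mem _ hc) hle)
  set f := RothGen.fz a b P ζ with hf
  have hf0 : f ≠ 0 := by
    intro h0
    have h1 := RothGen.coeff_fz a b d P hPh c0 hc0
    rw [hc0ζ, ← hf, h0, coeff_zero] at h1
    exact (mem_support_iff.1 hc0) h1.symm
  have hfdeg : ∀ h, f.degreeOf h ≤ d h := by
    intro h
    rw [degreeOf_le_iff]
    intro j hj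
    rcases RothGen.coeff_fz_cases a b d P hPh ζ j with h1 | ⟨c, hc, hcj, _⟩
    · exact absurd h1 (mem_support_iff.1 hj)
    · rw [← hcj, RothGen.ar_apply, ← hPh c hc h]
      exact Finset.single_le_sum (f := fun i => c (h, i)) (fun _ _ => Nat.zero_le _)
        (Finset.mem_univ (a h))
  have hfH : CLe f H := by
    intro j
    rcases RothGen.coeff_fz_cases a b d P hPh ζ j with h1 | ⟨c, hc, hcj, hcc⟩
    · rw [hf, h1]
      simp only [Int.cast_zero, abs_zero]
      exact le_trans zero_le_one hH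
    · rw [hf, hcc]
      exact hPH c
  have hhe : ∀ h, Real.log H + K * (∑ h', d h' : ℕ) ≤
      ω * d h * Real.log (max |(p h : ℝ)| |(q h : ℝ)|) := by
    intro h
    refine (hheight h).trans ?_
    have h1 := hlog h
    have h2 : 0 ≤ ω / Fintype.card ι * d h :=
      mul_nonneg (div_nonneg hω.le hN0.le) (Nat.cast_nonneg _)
    refine (mul_le_mul_of_nonneg_left h1 h2).trans (le_of_eq ?_)
    field_simp
  obtain ⟨j, hj, hjne⟩ := hr d f p q H hd
    (fun h h' hh => (hdd h h' hh).trans (mul_le_mul_of_nonneg_right hωle (Nat.cast_nonneg _)))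
    hf0 hfdeg hH hfH hq hcop hhe
  by_contra hcon
  push Not at hcon
  exact hjne (RothGen.transfer hκ m θ d P M g a b hab p q hq hpq hMa hMg hli hcon ζ hmin j
    (lt_of_le_of_lt hj (half_lt_self hθ)))

end Pool.Agent.SST
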