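import Pool.Agent.SST.Roth
import Pool.Agent.SST.RothGenAux

set_option autoImplicit false

namespace Pool.Agent.SST

open MvPolynomial Matrix

theorem roth_gen {ι κ : Type} [Fintype ι] [DecidableEq ι] [Fintype κ]
    (hκ : Fintype.card κ + 1 = Fintype.card ι) (m : ℕ) (θ : ℝ) (hθ : 0 < θ) :
    ∃ ω : ℝ, 0 < ω ∧ ∃ K : ℝ, 1 ≤ K ∧
    ∀ (d : Fin m → ℕ) (P : MvPolynomial (Fin m × ι) ℤ) (M : Fin m → ι → ℤ)
      (g : Fin m → κ → ι → ℤ) (a : Fin m → ι) (H : ℝ),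
      (∀ h, 0 < d h) → (∀ h h', h < h' → (d h' : ℝ) ≤ ω * d h) →
      P ≠ 0 → MHom d P → 1 ≤ H → CLe P H →
      (∀ h, Prim (M h)) → (∀ h, M h (a h) ≠ 0) → (∀ h j, M h ⬝ᵥ g h j = 0) →
      (∀ h, LinearIndependent ℚ fun j => qv (g h j)) →
      (∀ h, Real.log H + K * (∑ h', d h' : ℕ) ≤ ω * d h * Real.log ‖M h‖) →
      ∃ b : Fin m × Option κ →₀ ℕ, ∑ h, (b (h, none) : ℝ) / d h < θ ∧
        (bsub g (fun h => Pi.single (a h) 1) P).coeff b ≠ 0 :=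
  roth_gen_of_roth roth hκ m θ hθ

end Pool.Agent.SST
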