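import Pool.Agent.SST.NrmA

/-!
# Block C: vanishing along the product of the hyperplanes
-/

set_option autoImplicit false

namespace Pool.Agent.SST

open MvPolynomial Matrix

namespace Vanish

theorem nat_le (w : AbsoluteValue ℚ ℝ) (n : ℕ) : w (n : ℚ) ≤ n := by
  induction n with
  | zero => simp
  | succ n ih =>
    push_cast
    refine (w.add_le _ _).trans ?_
    rw [map_one]
    linarith

theorem int_le (w : AbsoluteValue ℚ ℝ) (n : ℤ) : w (n : ℚ) ≤ |(n : ℝ)| := by
  have h := nat_le w n.natAbs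
  rcases Int.natAbs_eq n with h1 | h1
  · have h2 : (n : ℚ) = (n.natAbs : ℚ) := by
      rw [h1]
      simp
    rw [h2]
    refine h.trans (le_of_eq ?_)
    rw [Nat.cast_natAbs, Int.cast_abs]
  · have h2 : (n : ℚ) = -(n.natAbs : ℚ) := by
      rw [h1]
      simp
    rw [h2, w.map_neg]
    refine h.trans (le_of_eq ?_)
    rw [Nat.cast_natAbs, Int.cast_abs]

theorem mhom_iff {R : Type} [CommSemiring R] {m : ℕ} {ι : Type} [Fintype ι] (d : Fin m → ℕ)
    (P : MvPolynomial (Fin m × ι) R) :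
    MHom d P ↔ IsWeightedHomogeneous (fun x : Fin m × ι => (Pi.single x.1 1 : Fin m → ℕ)) P d := by
  classical
  have key : ∀ a : Fin m × ι →₀ ℕ,
      Finsupp.weight (fun x : Fin m × ι => (Pi.single x.1 1 : Fin m → ℕ)) a =
        fun h => ∑ i, a (h, i) := by
    intro a
    rw [Finsupp.weight_apply, Finsupp.sum_fintype _ _ (by simp)]
    funext h
    rw [Finset.sum_apply, Fintype.sum_prod_type]
    rw [Finset.sum_eq_single h]
    · refine Finset.sum_congr rfl fun i _ => ?_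
      simp
    · intro h' _ hne
      refine Finset.sum_eq_zero fun i _ => ?_
      simp [hne.symm]
    · simp
  constructor
  · intro hP a ha
    rw [key]
    funext h
    exact hP a (mem_support_iff.2 ha) h
  · intro hP a ha h
    have := hP (mem_support_iff.1 ha)
    rw [key] at this
    exact congrFun this h

theorem mhom_lsub {m : ℕ} {ι : Type} [Fintype ι] (d : Fin m → ℕ)
    (B : Matrix ι ι ℚ) (P : MvPolynomial (Fin m × ι) ℚ) (hP : MHom d P) :
    MHom d (lsub B P) := by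
  classical
  rw [mhom_iff] at hP ⊢
  unfold lsub
  rw [aeval_def, eval₂_eq]
  refine IsWeightedHomogeneous.sum _ _ _ fun a ha => ?_
  have h0 := hP (mem_support_iff.1 ha)
  have h1 : IsWeightedHomogeneous (fun x : Fin m × ι => (Pi.single x.1 1 : Fin m → ℕ))
      (∏ i ∈ a.support, (∑ j, C (B i.2 j) * X (i.1, j)) ^ a i : MvPolynomial (Fin m × ι) ℚ) d := by
    rw [← h0, Finsupp.weight_apply, Finsupp.sum]
    refine IsWeightedHomogeneous.prod _ _ _ fun x _ => ?_
    refine IsWeightedHomogeneous.pow ?_ _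
    refine IsWeightedHomogeneous.sum _ _ _ fun j _ => ?_
    have h2 := (isWeightedHomogeneous_X ℚ
      (fun x : Fin m × ι => (Pi.single x.1 1 : Fin m → ℕ)) (x.1, j))
    have h3 := (isWeightedHomogeneous_C
      (fun x : Fin m × ι => (Pi.single x.1 1 : Fin m → ℕ)) (B x.2 j)).mul h2
    rw [zero_add] at h3
    exact h3
  have h4 := (isWeightedHomogeneous_C
      (fun x : Fin m × ι => (Pi.single x.1 1 : Fin m → ℕ)) (P.coeff a)).mul h1
  rw [zero_add] at h4
  exact h4

theorem mhom_qp {m : ℕ} {ι : Type} [Fintype ι] (d : Fin m → ℕ)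
    (P : MvPolynomial (Fin m × ι) ℤ) (hP : MHom d P) : MHom d (qp P) := by
  intro a ha h
  refine hP a ?_ h
  unfold qp at ha
  exact support_map_subset _ _ ha

theorem card_supp {R : Type} [CommSemiring R] {m : ℕ} {ι : Type} [Fintype ι] (d : Fin m → ℕ)
    (P : MvPolynomial (Fin m × ι) R) (hP : MHom d P) :
    P.support.card ≤ 2 ^ (Fintype.card ι * ∑ h, d h) := by
  classical
  have h1 : P.support.card ≤
      (Fintype.piFinset fun x : Fin m × ι => Finset.range (d x.1 + 1)).card := by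
    refine Finset.card_le_card_of_injOn (fun a : Fin m × ι →₀ ℕ => (fun x => a x)) ?_ ?_
    · intro a ha
      have ha' : a ∈ P.support := ha
      show (fun x => a x) ∈ (Fintype.piFinset fun x : Fin m × ι => Finset.range (d x.1 + 1))
      rw [Fintype.mem_piFinset]
      intro x
      rw [Finset.mem_range, Nat.lt_succ_iff]
      have h2 := hP a ha' x.1
      rw [← h2]
      exact Finset.single_le_sum (f := fun i => a (x.1, i)) (fun i _ => Nat.zero_le _)
        (Finset.mem_univ x.2)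
    · intro a _ b _ hab
      exact DFunLike.coe_injective hab
  refine h1.trans ?_
  rw [Fintype.card_piFinset]
  simp only [Finset.card_range]
  have h3 : ∏ x : Fin m × ι, (d x.1 + 1) ≤ ∏ x : Fin m × ι, 2 ^ d x.1 :=
    Finset.prod_le_prod' fun x _ => Nat.lt_two_pow_self
  refine h3.trans (le_of_eq ?_)
  rw [Finset.prod_pow_eq_pow_sum, Fintype.sum_prod_type]
  congr 1
  rw [Finset.mul_sum]
  refine Finset.sum_congr rfl fun h _ => ?_
  simp

/-- evaluation of the substitution -/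
theorem aeval_lsub {m : ℕ} {ι κ : Type} [Fintype ι] [DecidableEq ι] [Fintype κ]
    (A : Matrix ι ι ℚ) (hA : IsUnit A.det) (g : Fin m → κ → ι → ℤ) (e : Fin m → ι → ℤ)
    (P : MvPolynomial (Fin m × ι) ℤ) :
    aeval (fun x : Fin m × ι => ((∑ j, C ((A *ᵥ qv (g x.1 j)) x.2) * X (x.1, some j)) +
      C ((A *ᵥ qv (e x.1)) x.2) * X (x.1, none) : MvPolynomial (Fin m × Option κ) ℚ))
      (lsub A⁻¹ (qp P)) = qp (bsub g e P) := by
  set Y : Fin m × ι → MvPolynomial (Fin m × Option κ) ℚ := fun x : Fin m × ι =>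
    ((∑ j, C ((A *ᵥ qv (g x.1 j)) x.2) * X (x.1, some j)) +
      C ((A *ᵥ qv (e x.1)) x.2) * X (x.1, none)) with hY
  have hinv : ∀ z : ι → ℚ, ∀ i, ∑ j, A⁻¹ i j * (A *ᵥ z) j = z i := by
    intro z i
    have h1 : A⁻¹ *ᵥ (A *ᵥ z) = z := by
      rw [Matrix.mulVec_mulVec, Matrix.nonsing_inv_mul _ hA, Matrix.one_mulVec]
    exact congrFun h1 i
  have hXX : ∀ x : Fin m × ι, aeval Y (lsub A⁻¹ (X x)) =
      ((∑ j, C ((g x.1 j x.2 : ℤ) : ℚ) * X (x.1, some j)) +
        C ((e x.1 x.2 : ℤ) : ℚ) * X (x.1, none) : MvPolynomial (Fin m × Option κ) ℚ) := by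
    intro x
    unfold lsub
    rw [aeval_X, map_sum]
    have h1 : ∀ j : ι, aeval Y (C (A⁻¹ x.2 j) * X (x.1, j)) =
        (∑ k, C (A⁻¹ x.2 j * (A *ᵥ qv (g x.1 k)) j) * X (x.1, some k)) +
          C (A⁻¹ x.2 j * (A *ᵥ qv (e x.1)) j) * X (x.1, none) := by
      intro j
      rw [map_mul, aeval_X, aeval_C, hY]
      simp only
      rw [MvPolynomial.algebraMap_eq, mul_add, Finset.mul_sum]
      congr 1
      · refine Finset.sum_congr rfl fun k _ => ?_
        rw [C_mul, mul_assoc]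
      · rw [C_mul, mul_assoc]
    rw [Finset.sum_congr rfl fun j _ => h1 j, Finset.sum_add_distrib, Finset.sum_comm]
    congr 1
    · refine Finset.sum_congr rfl fun k _ => ?_
      rw [← Finset.sum_mul, ← map_sum, hinv]
      rfl
    · rw [← Finset.sum_mul, ← map_sum, hinv]
      rfl
  induction P using MvPolynomial.induction_on with
  | C a =>
    unfold qp bsub
    simp [lsub]
  | add p q hp hq =>
    unfold qp at hp hq ⊢
    rw [map_add, map_add, map_add, map_add, map_add, hp, hq]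
  | mul_X p x hp =>
    have h1 : lsub A⁻¹ (qp (p * X x)) = lsub A⁻¹ (qp p) * lsub A⁻¹ (X x) := by
      unfold qp
      rw [map_mul, map_mul, map_X]
    have h2 : qp (bsub g e (p * X x)) = qp (bsub g e p) * qp (bsub g e (X x)) := by
      unfold qp
      rw [map_mul, map_mul]
    rw [h1, map_mul, hp, h2, hXX]
    congr 1
    unfold bsub qp
    rw [aeval_X, map_add, map_sum, map_mul, map_C, map_X]
    simp

theorem nrm_le_mul {σ : Type} (w : AbsoluteValue ℚ ℝ) (r : σ → ℝ) (M : ℝ)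
    (P : MvPolynomial σ ℚ) (h : ∀ a ∈ P.support, (a.prod fun x e => r x ^ e) ≤ M) :
    nrm w r P ≤ M * nrm w (fun _ => 1) P := by
  unfold nrm
  rw [Finset.mul_sum]
  refine Finset.sum_le_sum fun a ha => ?_
  have h1 : (a.prod fun (_ : σ) (e : ℕ) => (1 : ℝ) ^ e) = 1 := by
    refine Finset.prod_eq_one fun x _ => ?_
    exact one_pow _
  rw [h1, mul_one, mul_comm]
  exact mul_le_mul_of_nonneg_right (h a ha) (w.nonneg _)

theorem prod_pow {m : ℕ} {ι : Type} [Fintype ι] (d : Fin m → ℕ) (a : Fin m × ι →₀ ℕ)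
    (ha : ∀ h, ∑ i, a (h, i) = d h) (r : Fin m × ι → ℝ) (C : ℝ) (s : Fin m → ι → ℝ)
    (hr : ∀ x, r x = C * Real.exp (s x.1 x.2)) :
    (a.prod fun x e => r x ^ e) =
      C ^ (∑ h, d h) * Real.exp (∑ h, ∑ i, s h i * a (h, i)) := by
  classical
  rw [Finsupp.prod_fintype _ _ (fun x => pow_zero _)]
  have h1 : ∀ x : Fin m × ι, r x ^ a x = C ^ a x * Real.exp (s x.1 x.2 * a x) := by
    intro x
    rw [hr, mul_pow, ← Real.exp_nat_mul, mul_comm (a x : ℝ)]
  rw [Finset.prod_congr rfl fun x _ => h1 x, Finset.prod_mul_distrib, Finset.prod_pow_eq_pow_sum,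
    ← Real.exp_sum, Fintype.sum_prod_type, Fintype.sum_prod_type]
  congr 2
  exact Finset.sum_congr rfl fun h _ => ha h

theorem nrm_star {m : ℕ} {ι : Type} [Fintype ι] (w : AbsoluteValue ℚ ℝ)
    (B : Matrix ι ι ℚ) (CB : ℝ) (hCB0 : 0 ≤ CB) (hCB : ∀ i, ∑ j, w (B i j) ≤ CB)
    (K : ℝ) (d : Fin m → ℕ) (P : MvPolynomial (Fin m × ι) ℤ) (hP : MHom d P)
    (hPK : CLe P (K ^ (∑ h, d h))) (hK : 0 ≤ K) :
    nrm w (fun _ => 1) (lsub B (qp P)) ≤
      (2 ^ Fintype.card ι * K * CB) ^ (∑ h, d h) := by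
  classical
  have h1 : nrm w (fun _ => 1) (lsub B (qp P)) ≤ nrm w (fun _ => CB) (qp P) := by
    unfold lsub
    refine nrm_aeval_le w (fun _ => zero_le_one) _ _ (fun x => ?_) _
    refine (nrm_sum_le w (fun _ => zero_le_one) _ _).trans ?_
    refine le_trans (Finset.sum_le_sum fun j _ => ?_) (hCB x.2)
    refine (nrm_mul_le w (fun _ => zero_le_one) _ _).trans ?_
    rw [nrm_C, nrm_X, mul_one]
  refine h1.trans ?_
  unfold nrm
  have h2 : ∀ a ∈ (qp P).support, w ((qp P).coeff a) * (a.prod fun (_ : Fin m × ι) e => CB ^ e) ≤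
      K ^ (∑ h, d h) * CB ^ (∑ h, d h) := by
    intro a ha
    have h3 : (a.prod fun (_ : Fin m × ι) e => CB ^ e) = CB ^ (∑ h, d h) := by
      have h4 := prod_pow d a (mhom_qp d P hP a ha) (fun _ => CB) CB (fun _ _ => 0)
        (fun x => by simp)
      rw [h4]
      simp
    rw [h3]
    refine mul_le_mul_of_nonneg_right ?_ (pow_nonneg hCB0 _)
    have h5 : (qp P).coeff a = ((P.coeff a : ℤ) : ℚ) := by
      unfold qp
      rw [coeff_map]
      rfl
    rw [h5]
    exact (int_le w _).trans (hPK a)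
  refine (Finset.sum_le_sum h2).trans ?_
  rw [Finset.sum_const, nsmul_eq_mul, mul_pow, mul_pow, mul_assoc]
  refine mul_le_mul_of_nonneg_right ?_ (mul_nonneg (pow_nonneg hK _) (pow_nonneg hCB0 _))
  have h6 := card_supp d (qp P) (mhom_qp d P hP)
  rw [← pow_mul]
  exact_mod_cast h6

theorem place_bound {ι κ : Type} [Fintype ι] [DecidableEq ι] [Fintype κ]
    (w : AbsoluteValue ℚ ℝ) (A : Matrix ι ι ℚ) (hA : IsUnit A.det) (c : ι → ℝ) (cb : ℝ)
    (hcb0 : 0 ≤ cb) (hcb : ∀ i, |c i| ≤ cb) (CA CB : ℝ) (hCA1 : 1 ≤ CA)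
    (hCA : ∀ i, ∑ j, w (A i j) ≤ CA) (hCB1 : 1 ≤ CB) (hCB : ∀ i, ∑ j, w (A⁻¹ i j) ≤ CB)
    {m : ℕ} (K : ℝ) (hK : 1 ≤ K) (d : Fin m → ℕ) (hd : ∀ h, 0 < d h) (q : Fin m → ℝ)
    (hq : ∀ h, 0 ≤ q h) (L η θ U : ℝ) (hL : 0 ≤ L) (hη : 0 ≤ η)
    (hq1 : ∀ h, L ≤ d h * q h) (hq2 : ∀ h, d h * q h ≤ (1 + η) * L)
    (g : Fin m → κ → ι → ℤ) (e : Fin m → ι → ℤ) (P : MvPolynomial (Fin m × ι) ℤ)
    (hg : ∀ h j i, w ((A *ᵥ qv (g h j)) i) ≤ Real.exp (q h * c i))
    (he : ∀ h i, |e h i| ≤ 1) (hP : MHom d P) (hPK : CLe P (K ^ (∑ h, d h)))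
    (hind : ∀ a ∈ (lsub A⁻¹ (qp P)).support, ∑ h, ∑ i, c i * a (h, i) / d h ≤ U)
    (b : Fin m × Option κ →₀ ℕ) (hb : ∑ h, (b (h, none) : ℝ) / d h ≤ θ) :
    w (((bsub g e P).coeff b : ℤ) : ℚ) ≤
      (2 ^ Fintype.card ι * K * CB * (Fintype.card κ + CA)) ^ (∑ h, d h) *
        Real.exp (cb * (1 + η) * θ * L + L * U + η * L * cb * m) := by
  classical
  set τ : Fin m × Option κ → ℝ := fun x => match x.2 with
    | none => Real.exp (- (cb * q x.1))
    | some _ => 1 with hτ
  have hτ0 : ∀ x, 0 ≤ τ x := by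
    rintro ⟨h, o⟩
    cases o with
    | none => exact (Real.exp_pos _).le
    | some j => exact zero_le_one
  set Y : Fin m × ι → MvPolynomial (Fin m × Option κ) ℚ := fun x : Fin m × ι =>
    ((∑ j, C ((A *ᵥ qv (g x.1 j)) x.2) * X (x.1, some j)) +
      C ((A *ᵥ qv (e x.1)) x.2) * X (x.1, none)) with hY
  set C1 : ℝ := Fintype.card κ + CA with hC1
  have hC10 : 0 ≤ C1 := by positivity
  set r : Fin m × ι → ℝ := fun x => C1 * Real.exp (q x.1 * c x.2) with hr
  have hYr : ∀ x, nrm w τ (Y x) ≤ r x := by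
    intro x
    rw [hY]
    simp only
    refine (nrm_add_le w hτ0 _ _).trans ?_
    have h1 : nrm w τ (∑ j, C ((A *ᵥ qv (g x.1 j)) x.2) * X (x.1, some j)) ≤
        Fintype.card κ * Real.exp (q x.1 * c x.2) := by
      refine (nrm_sum_le w hτ0 _ _).trans ?_
      have h2 : ∀ j ∈ (Finset.univ : Finset κ),
          nrm w τ (C ((A *ᵥ qv (g x.1 j)) x.2) * X (x.1, some j)) ≤
            Real.exp (q x.1 * c x.2) := by
        intro j _
        refine (nrm_mul_le w hτ0 _ _).trans ?_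
        rw [nrm_C, nrm_X]
        show _ * (1 : ℝ) ≤ _
        rw [mul_one]
        exact hg x.1 j x.2
      refine (Finset.sum_le_sum h2).trans (le_of_eq ?_)
      rw [Finset.sum_const, nsmul_eq_mul, Finset.card_univ]
    have h3 : nrm w τ (C ((A *ᵥ qv (e x.1)) x.2) * X (x.1, none)) ≤
        CA * Real.exp (q x.1 * c x.2) := by
      refine (nrm_mul_le w hτ0 _ _).trans ?_
      rw [nrm_C, nrm_X]
      refine mul_le_mul ?_ ?_ (hτ0 (x.1, none)) (by positivity)
      · refine le_trans ?_ (hCA x.2)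
        show w (∑ j, A x.2 j * qv (e x.1) j) ≤ _
        refine (w.sum_le _ _).trans ?_
        refine Finset.sum_le_sum fun j _ => ?_
        rw [map_mul]
        refine mul_le_of_le_one_right (w.nonneg _) ?_
        refine (int_le w _).trans ?_
        have := he x.1 j
        exact_mod_cast this
      · show Real.exp (- (cb * q x.1)) ≤ _
        rw [Real.exp_le_exp]
        have h4 := (abs_le.1 (hcb x.2)).1
        nlinarith [hq x.1]
    rw [hr]
    simp only
    rw [hC1, add_mul]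
    exact add_le_add h1 h3
  have hcoef : (((bsub g e P).coeff b : ℤ) : ℚ) = (qp (bsub g e P)).coeff b := by
    unfold qp
    rw [coeff_map]
    rfl
  have hmain : w (((bsub g e P).coeff b : ℤ) : ℚ) * (b.prod fun x e => τ x ^ e) ≤
      nrm w r (lsub A⁻¹ (qp P)) := by
    rw [hcoef]
    refine (coeff_le_nrm w hτ0 _ _).trans ?_
    rw [← aeval_lsub A hA g e P]
    exact nrm_aeval_le w hτ0 Y r hYr _
  have hMstar := mhom_lsub d A⁻¹ (qp P) (mhom_qp d P hP)
  have hdpos : ∀ h, (0 : ℝ) < d h := fun h => by exact_mod_cast hd h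
  have hM : ∀ a ∈ (lsub A⁻¹ (qp P)).support, (a.prod fun x e => r x ^ e) ≤
      C1 ^ (∑ h, d h) * Real.exp (L * U + η * L * cb * m) := by
    intro a ha
    rw [prod_pow d a (hMstar a ha) r C1 (fun h i => q h * c i) (fun x => rfl)]
    refine mul_le_mul_of_nonneg_left ?_ (pow_nonneg hC10 _)
    rw [Real.exp_le_exp]
    have h1 : ∀ h, ∑ i, q h * c i * a (h, i) ≤
        L * (∑ i, c i * a (h, i) / d h) + η * L * cb := by
      intro h
      have h2 : ∑ i, q h * c i * a (h, i) = (d h * q h) * ∑ i, c i * a (h, i) / d h := by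
        rw [Finset.mul_sum]
        refine Finset.sum_congr rfl fun i _ => ?_
        field_simp [(hdpos h).ne']
      have h3 : |∑ i, c i * a (h, i) / d h| ≤ cb := by
        refine (Finset.abs_sum_le_sum_abs _ _).trans ?_
        have h4 : ∀ i ∈ (Finset.univ : Finset ι), |c i * a (h, i) / d h| ≤
            cb * (a (h, i) / d h) := by
          intro i _
          rw [mul_div_assoc, abs_mul, abs_of_nonneg (div_nonneg (Nat.cast_nonneg _) (hdpos h).le)]
          exact mul_le_mul_of_nonneg_right (hcb i)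
            (div_nonneg (Nat.cast_nonneg _) (hdpos h).le)
        refine (Finset.sum_le_sum h4).trans (le_of_eq ?_)
        rw [← Finset.mul_sum, ← Finset.sum_div]
        have h5 : ∑ i, (a (h, i) : ℝ) = d h := by
          have := hMstar a ha h
          exact_mod_cast this
        rw [h5, div_self (hdpos h).ne', mul_one]
      rw [h2]
      have h6 : (d h * q h - L) * (∑ i, c i * a (h, i) / d h) ≤ (η * L) * cb := by
        have h7 : 0 ≤ d h * q h - L := by linarith [hq1 h]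
        have h8 : d h * q h - L ≤ η * L := by linarith [hq2 h]
        calc (d h * q h - L) * (∑ i, c i * a (h, i) / d h)
            ≤ (d h * q h - L) * cb := mul_le_mul_of_nonneg_left ((le_abs_self _).trans h3) h7
          _ ≤ (η * L) * cb := mul_le_mul_of_nonneg_right h8 hcb0
      linarith
    refine (Finset.sum_le_sum fun h _ => h1 h).trans ?_
    rw [Finset.sum_add_distrib, ← Finset.mul_sum, Finset.sum_const, nsmul_eq_mul,
      Finset.card_univ, Fintype.card_fin]
    have h9 := mul_le_mul_of_nonneg_left (hind a ha) hL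
    linarith
  have hb2 : Real.exp (-(cb * (1 + η) * θ * L)) ≤ (b.prod fun x e => τ x ^ e) := by
    rw [Finsupp.prod_fintype _ _ (fun x => pow_zero _), Fintype.prod_prod_type]
    have h1 : ∀ h : Fin m, ∏ o : Option κ, τ (h, o) ^ b (h, o) =
        Real.exp (- (cb * q h * b (h, none))) := by
      intro h
      rw [Fintype.prod_option]
      have h2 : ∏ j : κ, τ (h, some j) ^ b (h, some j) = 1 := by
        refine Finset.prod_eq_one fun j _ => ?_
        exact one_pow _
      rw [h2, mul_one]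
      show (Real.exp (- (cb * q h))) ^ b (h, none) = _
      rw [← Real.exp_nat_mul]
      congr 1
      ring
    rw [Finset.prod_congr rfl fun h _ => h1 h, ← Real.exp_sum, Real.exp_le_exp]
    rw [Finset.sum_neg_distrib, neg_le_neg_iff]
    have h3 : ∀ h ∈ (Finset.univ : Finset (Fin m)), cb * q h * b (h, none) ≤
        cb * (1 + η) * L * (b (h, none) / d h) := by
      intro h _
      have h4 : q h ≤ (1 + η) * L / d h := by
        rw [le_div_iff₀ (hdpos h)]
        linarith [hq2 h]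
      have h5 : (0 : ℝ) ≤ b (h, none) := Nat.cast_nonneg _
      calc cb * q h * b (h, none) = cb * b (h, none) * q h := by ring
        _ ≤ cb * b (h, none) * ((1 + η) * L / d h) :=
          mul_le_mul_of_nonneg_left h4 (mul_nonneg hcb0 h5)
        _ = cb * (1 + η) * L * (b (h, none) / d h) := by ring
    refine (Finset.sum_le_sum h3).trans ?_
    rw [← Finset.mul_sum]
    have h6 : 0 ≤ cb * (1 + η) * L := by positivity
    have h7 := mul_le_mul_of_nonneg_left hb h6
    linarith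
  have hfin : w (((bsub g e P).coeff b : ℤ) : ℚ) * Real.exp (-(cb * (1 + η) * θ * L)) ≤
      (C1 ^ (∑ h, d h) * Real.exp (L * U + η * L * cb * m)) *
        (2 ^ Fintype.card ι * K * CB) ^ (∑ h, d h) := by
    refine (mul_le_mul_of_nonneg_left hb2 (w.nonneg _)).trans (hmain.trans ?_)
    refine (nrm_le_mul w r _ _ hM).trans ?_
    refine mul_le_mul_of_nonneg_left ?_ (by positivity)
    exact nrm_star w A⁻¹ CB (by linarith) hCB K d P hP hPK (by linarith)
  have hx : w (((bsub g e P).coeff b : ℤ) : ℚ) =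
      w (((bsub g e P).coeff b : ℤ) : ℚ) * Real.exp (-(cb * (1 + η) * θ * L)) *
        Real.exp (cb * (1 + η) * θ * L) := by
    rw [mul_assoc, ← Real.exp_add]
    simp
  rw [hx]
  refine (mul_le_mul_of_nonneg_right hfin (Real.exp_pos _).le).trans (le_of_eq ?_)
  rw [mul_pow _ C1, add_assoc (cb * (1 + η) * θ * L), Real.exp_add (cb * (1 + η) * θ * L)]
  ring

theorem arith (D lC L δ m N cV nV cb η θ X : ℝ) (hD : 1 ≤ D) (hlC : 0 ≤ lC) (hδ : 0 < δ)
    (hm : 0 < m) (hN : 0 < N) (hcV : 0 ≤ cV) (hnV : nV = cV + 1) (hcb : 0 < cb) (hη0 : 0 ≤ η)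
    (hη1 : η ≤ 1) (hη2 : η ≤ δ / (8 * N * nV * cb)) (hθ : θ = δ * m / (16 * N * nV * cb))
    (hX : X = 2 * N * nV * lC / (δ * m) + 1) (hL : D * X ≤ L) :
    cV * (D * lC + cb * (1 + η) * θ * L + L * (δ / (4 * N * nV)) * m + η * L * cb * m) -
      L * δ / N * m < 0 := by
  have hnV0 : 0 < nV := by linarith
  have hX1 : 1 ≤ X := by
    rw [hX]
    have : 0 ≤ 2 * N * nV * lC / (δ * m) := by positivity
    linarith
  have hL0 : 0 < L := by
    refine lt_of_lt_of_le ?_ hL
    positivity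
  have hθ0 : 0 < θ := by
    rw [hθ]
    positivity
  have hA1 : cb * (1 + η) * θ * L ≤ L * (δ * m / (8 * N * nV)) := by
    have h1 : cb * (1 + η) * θ * L ≤ cb * 2 * θ * L := by
      have h2 : 0 ≤ cb * θ * L := by positivity
      have h3 := mul_le_mul_of_nonneg_left hη1 h2
      linarith
    refine h1.trans (le_of_eq ?_)
    rw [hθ]
    field_simp
    ring
  have hA2 : η * L * cb * m ≤ L * (δ * m / (8 * N * nV)) := by
    have h1 : η * L * cb * m ≤ δ / (8 * N * nV * cb) * L * cb * m := by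
      have h2 : 0 ≤ L * cb * m := by positivity
      have h3 := mul_le_mul_of_nonneg_right hη2 h2
      linarith
    refine h1.trans (le_of_eq ?_)
    field_simp
  have hA3 : L * (δ / (4 * N * nV)) * m = L * (δ * m / (4 * N * nV)) := by ring
  have hA4 : cV * (D * lC + cb * (1 + η) * θ * L +
        L * (δ / (4 * N * nV)) * m + η * L * cb * m) ≤
      nV * (D * lC + L * (δ * m / (8 * N * nV)) +
        L * (δ * m / (4 * N * nV)) + L * (δ * m / (8 * N * nV))) := by
    refine mul_le_mul ?_ ?_ ?_ hnV0.le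
    · rw [hnV]
      linarith
    · rw [hA3]
      linarith
    · positivity
  have hA5 : nV * (D * lC + L * (δ * m / (8 * N * nV)) +
        L * (δ * m / (4 * N * nV)) + L * (δ * m / (8 * N * nV))) =
      D * (nV * lC) + L * (δ * m / (2 * N)) := by
    field_simp
    ring
  have hA6 : D * (nV * lC) < L * (δ * m / (2 * N)) := by
    have h1 : D * X * (δ * m / (2 * N)) ≤ L * (δ * m / (2 * N)) :=
      mul_le_mul_of_nonneg_right hL (by positivity)
    refine lt_of_lt_of_le ?_ h1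
    rw [mul_assoc]
    refine mul_lt_mul_of_pos_left ?_ (by linarith)
    have h2 : X * (δ * m / (2 * N)) = nV * lC + δ * m / (2 * N) := by
      rw [hX]
      field_simp
    rw [h2]
    have : 0 < δ * m / (2 * N) := by positivity
    linarith
  have hA7 : L * δ / N * m = L * (δ * m / (2 * N)) + L * (δ * m / (2 * N)) := by
    field_simp
    ring
  linarith

end Vanish

theorem vanish {V ι κ : Type} [Fintype V] [Fintype ι] [DecidableEq ι] [Nonempty ι] [Fintype κ]
    (w : V → AbsoluteValue ℚ ℝ) (hw : ProdGe w) (A : V → Matrix ι ι ℚ)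
    (hA : ∀ v, IsUnit (A v).det) (c : V → ι → ℝ) (hc : ∑ v, ∑ i, c v i < 0) :
    ∃ ε : ℝ, 0 < ε ∧ ∀ m : ℕ, 0 < m → ∀ K : ℝ, 1 ≤ K → ∃ θ : ℝ, 0 < θ ∧ ∃ η : ℝ, 0 < η ∧
      ∃ Q₀ : ℝ, 1 ≤ Q₀ ∧
      ∀ (d : Fin m → ℕ) (Q : Fin m → ℝ) (E : ℝ) (g : Fin m → κ → ι → ℤ) (e : Fin m → ι → ℤ)
        (P : MvPolynomial (Fin m × ι) ℤ),
        (∀ h, 0 < d h) → (∀ h, 1 ≤ Q h) → Q₀ ^ (∑ h, d h) ≤ E →
        (∀ h, E ≤ Q h ^ d h) → (∀ h, Q h ^ d h ≤ E ^ (1 + η)) →
        (∀ v h j i, w v ((A v *ᵥ qv (g h j)) i) ≤ Q h ^ c v i) →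
        (∀ h i, |e h i| ≤ 1) →
        MHom d P → CLe P (K ^ (∑ h, d h)) →
        (∀ v, ∀ a ∈ (lsub (A v)⁻¹ (qp P)).support,
          ∑ h, ∑ i, c v i * a (h, i) / d h ≤ ((∑ i, c v i) / Fintype.card ι + ε) * m) →
        ∀ b : Fin m × Option κ →₀ ℕ, ∑ h, (b (h, none) : ℝ) / d h < θ →
          (bsub g e P).coeff b = 0 := by
  classical
  set nV : ℝ := (Fintype.card V : ℝ) + 1 with hnV
  set N : ℝ := (Fintype.card ι : ℝ) with hN
  have hNpos : 0 < N := by
    rw [hN]
    exact_mod_cast Fintype.card_pos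
  have hnVpos : 0 < nV := by positivity
  set δ : ℝ := - ∑ v, ∑ i, c v i with hδ
  have hδ0 : 0 < δ := by
    rw [hδ]
    linarith
  set cb : ℝ := 1 + ∑ v, ∑ i, |c v i| with hcbdef
  have hcb1 : 1 ≤ cb := by
    have : 0 ≤ ∑ v, ∑ i, |c v i| :=
      Finset.sum_nonneg fun v _ => Finset.sum_nonneg fun i _ => abs_nonneg _
    linarith
  have hcb : ∀ v i, |c v i| ≤ cb := by
    intro v i
    have h1 : |c v i| ≤ ∑ i, |c v i| :=
      Finset.single_le_sum (f := fun i => |c v i|) (fun i _ => abs_nonneg _) (Finset.mem_univ i)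
    have h2 : ∑ i, |c v i| ≤ ∑ v, ∑ i, |c v i| :=
      Finset.single_le_sum (f := fun v => ∑ i, |c v i|)
        (fun v _ => Finset.sum_nonneg fun i _ => abs_nonneg _) (Finset.mem_univ v)
    linarith
  have hbd : ∀ B : V → Matrix ι ι ℚ, ∃ CA : ℝ, 1 ≤ CA ∧ ∀ v i, ∑ j, w v (B v i j) ≤ CA := by
    intro B
    refine ⟨1 + ∑ v, ∑ i, ∑ j, w v (B v i j), ?_, fun v i => ?_⟩
    · have : 0 ≤ ∑ v, ∑ i, ∑ j, w v (B v i j) :=
        Finset.sum_nonneg fun v _ => Finset.sum_nonneg fun i _ =>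
          Finset.sum_nonneg fun j _ => (w v).nonneg _
      linarith
    · have h1 : ∑ j, w v (B v i j) ≤ ∑ i, ∑ j, w v (B v i j) :=
        Finset.single_le_sum (f := fun i => ∑ j, w v (B v i j))
          (fun i _ => Finset.sum_nonneg fun j _ => (w v).nonneg _) (Finset.mem_univ i)
      have h2 : ∑ i, ∑ j, w v (B v i j) ≤ ∑ v, ∑ i, ∑ j, w v (B v i j) :=
        Finset.single_le_sum (f := fun v => ∑ i, ∑ j, w v (B v i j))
          (fun v _ => Finset.sum_nonneg fun i _ => Finset.sum_nonneg fun j _ => (w v).nonneg _)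
          (Finset.mem_univ v)
      linarith
  obtain ⟨CA, hCA1, hCA⟩ := hbd A
  obtain ⟨CB, hCB1, hCB⟩ := hbd (fun v => (A v)⁻¹)
  refine ⟨δ / (4 * N * nV), by positivity, fun m hm K hK => ?_⟩
  have hm0 : (0 : ℝ) < m := by exact_mod_cast hm
  set C4 : ℝ := 2 ^ Fintype.card ι * K * CB * (Fintype.card κ + CA) with hC4
  have hC41 : 1 ≤ C4 := by
    have h1 : (1 : ℝ) ≤ 2 ^ Fintype.card ι := one_le_pow₀ one_le_two
    have h2 : (1 : ℝ) ≤ Fintype.card κ + CA := by
      have : (0 : ℝ) ≤ Fintype.card κ := Nat.cast_nonneg _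
      linarith
    rw [hC4]
    exact one_le_mul_of_one_le_of_one_le (one_le_mul_of_one_le_of_one_le
      (one_le_mul_of_one_le_of_one_le h1 hK) hCB1) h2
  have hcb0 : 0 < cb := by linarith
  set η : ℝ := min 1 (δ / (8 * N * nV * cb)) with hη
  have hη0 : 0 < η := lt_min one_pos (by positivity)
  set θ : ℝ := δ * m / (16 * N * nV * cb) with hθ
  have hθ0 : 0 < θ := by positivity
  set X₀ : ℝ := 2 * N * nV * Real.log C4 / (δ * m) + 1 with hX₀
  have hlogC4 : 0 ≤ Real.log C4 := Real.log_nonneg hC41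
  have hX₀1 : 1 ≤ X₀ := by
    rw [hX₀]
    have : 0 ≤ 2 * N * nV * Real.log C4 / (δ * m) := by positivity
    linarith
  refine ⟨θ, hθ0, η, hη0, Real.exp X₀, Real.one_le_exp (by linarith), ?_⟩
  intro d Q E g e P hd hQ hE hEQ hQE hg he hP hPK hind b hb
  by_contra hne
  have hD : (1 : ℝ) ≤ (∑ h, d h : ℕ) := by
    have h1 : 1 ≤ ∑ h, d h := by
      have h2 : d ⟨0, hm⟩ ≤ ∑ h, d h := Finset.single_le_sum (fun h _ => Nat.zero_le _)
        (Finset.mem_univ _)
      exact le_trans (hd ⟨0, hm⟩) h2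
    exact_mod_cast h1
  have hE0 : 0 < E := lt_of_lt_of_le (pow_pos (Real.exp_pos _) _) hE
  set L : ℝ := Real.log E with hL
  have hLlow : (∑ h, d h : ℕ) * X₀ ≤ L := by
    rw [hL, Real.le_log_iff_exp_le hE0, Real.exp_nat_mul]
    exact hE
  have hL0 : 0 < L := by
    refine lt_of_lt_of_le ?_ hLlow
    positivity
  set q : Fin m → ℝ := fun h => Real.log (Q h) with hq
  have hQpos : ∀ h, 0 < Q h := fun h => by linarith [hQ h]
  have hq0 : ∀ h, 0 ≤ q h := fun h => Real.log_nonneg (hQ h)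
  have hq1 : ∀ h, L ≤ d h * q h := by
    intro h
    have h1 := Real.log_le_log hE0 (hEQ h)
    rw [Real.log_pow] at h1
    exact h1
  have hq2 : ∀ h, d h * q h ≤ (1 + η) * L := by
    intro h
    have h1 := Real.log_le_log (pow_pos (hQpos h) _) (hQE h)
    rw [Real.log_pow, Real.log_rpow hE0] at h1
    exact h1
  have hplace : ∀ v, w v (((bsub g e P).coeff b : ℤ) : ℚ) ≤ C4 ^ (∑ h, d h) *
      Real.exp (cb * (1 + η) * θ * L + L * (((∑ i, c v i) / N + δ / (4 * N * nV)) * m) +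
        η * L * cb * m) := by
    intro v
    refine Vanish.place_bound (w v) (A v) (hA v) (c v) cb hcb0.le (hcb v) CA CB hCA1 (hCA v)
      hCB1 (hCB v) K hK d hd q hq0 L η θ _ hL0.le hη0.le hq1 hq2 g e P ?_ he hP hPK (hind v) b
      hb.le
    intro h j i
    refine (hg v h j i).trans (le_of_eq ?_)
    rw [Real.rpow_def_of_pos (hQpos h)]
  have hprod := hw _ hne
  have hup : ∏ v, w v (((bsub g e P).coeff b : ℤ) : ℚ) ≤ Real.exp (∑ v,
      ((∑ h, d h : ℕ) * Real.log C4 + (cb * (1 + η) * θ * L +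
        L * (((∑ i, c v i) / N + δ / (4 * N * nV)) * m) + η * L * cb * m))) := by
    rw [Real.exp_sum]
    refine Finset.prod_le_prod (fun v _ => (w v).nonneg _) fun v _ => ?_
    refine (hplace v).trans (le_of_eq ?_)
    rw [Real.exp_add ((∑ h, d h : ℕ) * Real.log C4), Real.exp_nat_mul,
      Real.exp_log (by linarith)]
  have hexp : 0 ≤ ∑ v,
      ((∑ h, d h : ℕ) * Real.log C4 + (cb * (1 + η) * θ * L +
        L * (((∑ i, c v i) / N + δ / (4 * N * nV)) * m) + η * L * cb * m)) := by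
    have h1 := hprod.trans hup
    rwa [Real.one_le_exp_iff] at h1
  have hsum : ∑ v,
      ((∑ h, d h : ℕ) * Real.log C4 + (cb * (1 + η) * θ * L +
        L * (((∑ i, c v i) / N + δ / (4 * N * nV)) * m) + η * L * cb * m)) =
      (Fintype.card V : ℝ) * ((∑ h, d h : ℕ) * Real.log C4 + cb * (1 + η) * θ * L +
        L * (δ / (4 * N * nV)) * m + η * L * cb * m) - L * δ / N * m := by
    have h1 : ∀ v, ((∑ h, d h : ℕ) * Real.log C4 + (cb * (1 + η) * θ * L +
        L * (((∑ i, c v i) / N + δ / (4 * N * nV)) * m) + η * L * cb * m)) =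
        ((∑ h, d h : ℕ) * Real.log C4 + cb * (1 + η) * θ * L +
        L * (δ / (4 * N * nV)) * m + η * L * cb * m) + (L / N * m) * (∑ i, c v i) := by
      intro v
      ring
    rw [Finset.sum_congr rfl fun v _ => h1 v, Finset.sum_add_distrib, Finset.sum_const,
      nsmul_eq_mul, Finset.card_univ, ← Finset.mul_sum]
    have h2 : ∑ v, ∑ i, c v i = - δ := by
      rw [hδ]
      ring
    rw [h2]
    ring
  rw [hsum] at hexp
  have hη1 : η ≤ 1 := min_le_left _ _
  have hη2 : η ≤ δ / (8 * N * nV * cb) := min_le_right _ _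
  have hfinal := Vanish.arith ((∑ h, d h : ℕ) : ℝ) (Real.log C4) L δ m N (Fintype.card V) nV cb η
    θ X₀ hD hlogC4 hδ0 hm0 hNpos (Nat.cast_nonneg _) hnV hcb0 hη0.le hη1 hη2 hθ hX₀ hLlow
  linarith

end Pool.Agent.SST
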