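import Pool.Agent.SST.AuxP
import Pool.Agent.SST.Vanish
import Pool.Agent.SST.RothGen
import Pool.Agent.SST.Height

set_option autoImplicit false

namespace Pool.Agent.SST

open MvPolynomial Matrix

theorem penultimate {V ι κ : Type} [Fintype V] [Fintype ι] [DecidableEq ι] [Fintype κ]
    (hκ : Fintype.card κ + 1 = Fintype.card ι)
    (w : V → AbsoluteValue ℚ ℝ) (hw : ProdGe w) (A : V → Matrix ι ι ℚ)
    (hA : ∀ v, IsUnit (A v).det) (c : V → ι → ℝ) (hc : ∑ v, ∑ i, c v i < 0) :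
    ∃ Q₁ : ℝ, 1 ≤ Q₁ ∧ ∃ W : Set (ι → ℤ), W.Finite ∧
      ∀ Q : ℝ, Q₁ ≤ Q → ∀ (g : κ → ι → ℤ) (M : ι → ℤ),
        (LinearIndependent ℚ fun j => qv (g j)) →
        (∀ v j i, w v ((A v *ᵥ qv (g j)) i) ≤ Q ^ c v i) →
        Prim M → (∀ j, M ⬝ᵥ g j = 0) → M ∈ W := by
  have hne : Nonempty ι := by
    rw [← Fintype.card_pos_iff]; omega
  obtain ⟨ε, hε, hv⟩ := vanish (κ := κ) w hw A hA c hc
  obtain ⟨m, hm, K, hK, haux⟩ := aux_poly (fun v => (A v)⁻¹) c ε hε
  obtain ⟨θ, hθ, η, hη, Q₀, hQ₀, hvan⟩ := hv m hm K hK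
  obtain ⟨ω, hω, K', hK', hroth⟩ := roth_gen (ι := ι) (κ := κ) hκ m θ hθ
  obtain ⟨c₀, hc₀, Q₀', hQ₀', W, hW, hht⟩ := height_dichotomy hκ w hw A hA c hc
  by_contra hcon
  push Not at hcon
  have key : ∀ R : ℝ, ∃ Q : ℝ, R ≤ Q ∧ ∃ (g : κ → ι → ℤ) (M : ι → ℤ),
      (LinearIndependent ℚ fun j => qv (g j)) ∧
      (∀ v j i, w v ((A v *ᵥ qv (g j)) i) ≤ Q ^ c v i) ∧
      Prim M ∧ (∀ j, M ⬝ᵥ g j = 0) ∧ M ∉ W := by
    intro R
    obtain ⟨Q, hQ, g, M, h1, h2, h3, h4, h5⟩ := hcon (max R 1) (le_max_right _ _) W hW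
    exact ⟨Q, le_trans (le_max_left _ _) hQ, g, M, h1, h2, h3, h4, h5⟩
  choose Qf hQf gf Mf hind hsz hprim horth hnot using key
  set ω₁ : ℝ := min ω 1 with hω₁
  have hω₁pos : 0 < ω₁ := lt_min hω one_pos
  have hω₁le : ω₁ ≤ 1 := min_le_right _ _
  have hω₁leω : ω₁ ≤ ω := min_le_left _ _
  set L₀ : ℝ := 2 * m * Real.log Q₀ + 2 * m * (Real.log K + K') / (ω₁ * c₀) + 1 with hL₀
  have hmR : (0 : ℝ) < m := by exact_mod_cast hm
  have hlogK : 0 ≤ Real.log K := Real.log_nonneg hK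
  have hlogQ₀ : 0 ≤ Real.log Q₀ := Real.log_nonneg hQ₀
  have hL₀a : 2 * m * Real.log Q₀ ≤ L₀ := by
    have : 0 ≤ 2 * m * (Real.log K + K') / (ω₁ * c₀) := by positivity
    linarith
  have hL₀b : 2 * m * (Real.log K + K') / (ω₁ * c₀) ≤ L₀ := by
    have : 0 ≤ 2 * m * Real.log Q₀ := by positivity
    linarith
  have hL₀pos : 1 ≤ L₀ := by
    have : 0 ≤ 2 * m * (Real.log K + K') / (ω₁ * c₀) := by positivity
    have : 0 ≤ 2 * m * Real.log Q₀ := by positivity
    linarith
  set R₀ : ℝ := max Q₀' (Real.exp L₀) with hR₀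
  let R : ℕ → ℝ := fun n => Nat.rec R₀ (fun _ x => (Qf x) ^ (2 / ω₁)) n
  have hR0 : R 0 = R₀ := rfl
  have hRs : ∀ n, R (n + 1) = (Qf (R n)) ^ (2 / ω₁) := fun n => rfl
  set Qs : ℕ → ℝ := fun n => Qf (R n) with hQs
  have h2ω : 1 ≤ 2 / ω₁ := by
    rw [le_div_iff₀ hω₁pos]; linarith
  have hge : ∀ n, R₀ ≤ Qs n := by
    intro n
    induction n with
    | zero => exact hQf _
    | succ n ih =>
      have h1 : R (n + 1) ≤ Qs (n + 1) := hQf _
      have h2 : Qs n ≤ R (n + 1) := by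
        rw [hRs]
        have h1' : 1 ≤ Qs n := by
          refine le_trans ?_ ih
          exact le_trans hQ₀' (le_max_left _ _)
        calc Qs n = (Qs n) ^ (1 : ℝ) := (Real.rpow_one _).symm
          _ ≤ (Qs n) ^ (2 / ω₁) := Real.rpow_le_rpow_of_exponent_le h1' h2ω
      linarith
  have hQ1 : ∀ n, 1 ≤ Qs n := fun n => le_trans (le_trans hQ₀' (le_max_left _ _)) (hge n)
  have hQ0 : ∀ n, 0 < Qs n := fun n => lt_of_lt_of_le one_pos (hQ1 n)
  set l : ℕ → ℝ := fun n => Real.log (Qs n) with hl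
  have hlge : ∀ n, L₀ ≤ l n := by
    intro n
    have : Real.exp L₀ ≤ Qs n := le_trans (le_max_right _ _) (hge n)
    rw [hl]
    simp only
    rwa [Real.le_log_iff_exp_le (hQ0 n)]
  have hlpos : ∀ n, 0 < l n := fun n => by have := hlge n; linarith
  have hls : ∀ n, 2 / ω₁ * l n ≤ l (n + 1) := by
    intro n
    have h1 : R (n + 1) ≤ Qs (n + 1) := hQf _
    rw [hRs] at h1
    have h2 : Real.log ((Qs n) ^ (2 / ω₁)) ≤ Real.log (Qs (n + 1)) :=
      Real.log_le_log (Real.rpow_pos_of_pos (hQ0 n) _) h1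
    rwa [Real.log_rpow (hQ0 n)] at h2
  have hlmono : Monotone l := by
    refine monotone_nat_of_le_succ fun n => ?_
    have := hls n
    have h3 := hlpos n
    nlinarith
  have hlt : ∀ a b : ℕ, a < b → 2 / ω₁ * l a ≤ l b := by
    intro a b hab
    obtain ⟨b', rfl⟩ : ∃ b', b = b' + 1 := ⟨b - 1, by omega⟩
    have h1 : l a ≤ l b' := hlmono (by omega)
    have h2 := hls b'
    have h3 : 2 / ω₁ * l a ≤ 2 / ω₁ * l b' := by
      apply mul_le_mul_of_nonneg_left h1; positivity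
    linarith
  -- the degrees
  obtain ⟨D, hD⟩ := exists_nat_gt (max (l m / (η * l 0)) (2 * l m / (ω₁ * l 0)))
  have hD1 : l m / (η * l 0) < D := lt_of_le_of_lt (le_max_left _ _) hD
  have hD2 : 2 * l m / (ω₁ * l 0) < D := lt_of_le_of_lt (le_max_right _ _) hD
  have hl0 := hlpos 0
  have hDη : l m ≤ η * (D * l 0) := by
    rw [div_lt_iff₀ (by positivity)] at hD1
    nlinarith
  have hDω : 2 * l m ≤ ω₁ * (D * l 0) := by
    rw [div_lt_iff₀ (by positivity)] at hD2
    nlinarith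
  have hDpos : (1 : ℝ) ≤ D := by
    have h1 : l 0 ≤ l m := hlmono (Nat.zero_le m)
    have h2 : 2 * l 0 ≤ ω₁ * (D * l 0) := by linarith
    have h3 : ω₁ * (D * l 0) ≤ D * l 0 := by
      have : 0 ≤ (D : ℝ) * l 0 := by positivity
      nlinarith
    by_contra hlt1
    push Not at hlt1
    nlinarith
  let d : Fin m → ℕ := fun h => ⌈(D * l 0) / l h⌉₊
  have hdge : ∀ h : Fin m, (D * l 0) / l h ≤ d h := fun h => Nat.le_ceil _
  have hdlt : ∀ h : Fin m, (d h : ℝ) < (D * l 0) / l h + 1 := fun h =>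
    Nat.ceil_lt_add_one (by have := hlpos h; positivity)
  have hdl : ∀ h : Fin m, D * l 0 ≤ d h * l h := by
    intro h
    have := hdge h
    rwa [div_le_iff₀ (hlpos h)] at this
  have hdu : ∀ h : Fin m, d h * l h ≤ D * l 0 + l h := by
    intro h
    have h1 := hdlt h
    have h2 := hlpos h
    have h3 : (d h : ℝ) * l h < ((D * l 0) / l h + 1) * l h := by
      apply mul_lt_mul_of_pos_right h1 h2
    have h4 : ((D * l 0) / l h + 1) * l h = D * l 0 + l h := by
      field_simp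
    linarith
  have hd0 : ∀ h, 0 < d h := by
    intro h
    have h1 := hdge h
    have h2 : 0 < (D * l 0) / l h := by
      have := hlpos h; positivity
    have : (0 : ℝ) < d h := by linarith
    exact_mod_cast this
  have hlm : ∀ h : Fin m, l h ≤ l m := fun h => hlmono h.2.le
  have hd2 : ∀ h h' : Fin m, h < h' → (d h' : ℝ) ≤ ω * d h := by
    intro h h' hh
    have h1 := hdlt h'
    have h2 := hlt h h' hh
    have h3 := hlpos h
    have h3' := hlpos h'
    have h4 : (D * l 0) / l h' ≤ ω₁ * (D * l 0) / (2 * l h) := by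
      rw [div_le_div_iff₀ h3' (by positivity)]
      have : 2 * l h ≤ ω₁ * l h' := by
        have h5 : 2 / ω₁ * l h * ω₁ ≤ l h' * ω₁ := mul_le_mul_of_nonneg_right h2 hω₁pos.le
        have h6 : 2 / ω₁ * l h * ω₁ = 2 * l h := by field_simp
        linarith
      have h7 : 0 ≤ (D : ℝ) * l 0 := by positivity
      nlinarith
    have h5 : 1 ≤ ω₁ * (D * l 0) / (2 * l h) := by
      rw [le_div_iff₀ (by positivity)]
      have := hlm h
      linarith
    have h6 : ω₁ * ((D * l 0) / l h) ≤ ω * d h := by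
      have := hdge h
      have h7 : 0 ≤ (D * l 0) / l h := by positivity
      calc ω₁ * ((D * l 0) / l h) ≤ ω * ((D * l 0) / l h) :=
            mul_le_mul_of_nonneg_right hω₁leω h7
        _ ≤ ω * d h := mul_le_mul_of_nonneg_left this hω.le
    have h8 : ω₁ * ((D * l 0) / l h) = ω₁ * (D * l 0) / (2 * l h) + ω₁ * (D * l 0) / (2 * l h) := by
      field_simp
      try ring
    linarith
  have hdD : ∀ h : Fin m, (d h : ℝ) ≤ 2 * D := by
    intro h
    have h1 := hdlt h
    have h2 : (D * l 0) / l h ≤ D := by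
      rw [div_le_iff₀ (hlpos h)]
      have : l 0 ≤ l h := hlmono (Nat.zero_le _)
      nlinarith
    linarith
  have hsum : ((∑ h, d h : ℕ) : ℝ) ≤ 2 * m * D := by
    push_cast
    calc (∑ h : Fin m, (d h : ℝ)) ≤ ∑ h : Fin m, (2 * D : ℝ) := Finset.sum_le_sum fun h _ => hdD h
      _ = 2 * m * D := by simp; ring
  set E : ℝ := Real.exp (D * l 0) with hE
  have hEpos : 0 < E := Real.exp_pos _
  have hlogE : Real.log E = D * l 0 := Real.log_exp _
  obtain ⟨P, hP0, hPh, hPc, hPv⟩ := haux d hd0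
  -- choose the coordinates
  have hM0 : ∀ h : Fin m, ∃ a : ι, Mf (R h) a ≠ 0 := by
    intro h
    by_contra hall
    push Not at hall
    have h1 := hprim (R h) 0 (fun i => by rw [hall i])
    exact not_isUnit_zero h1
  choose a ha using hM0
  have hvan' := hvan d (fun h => Qs h) E (fun h => gf (R h)) (fun h => Pi.single (a h) 1) P
    hd0 (fun h => hQ1 h) ?_ ?_ ?_ (fun v h j i => hsz (R h) v j i) ?_ hPh hPc hPv
  · have hH : 1 ≤ K ^ (∑ h, d h) := one_le_pow₀ hK
    have hcond : ∀ h : Fin m, Real.log (K ^ (∑ h, d h)) + K' * (∑ h', d h' : ℕ) ≤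
        ω * d h * Real.log ‖Mf (R h)‖ := by
      intro h
      have h1 : c₀ * l h ≤ Real.log ‖Mf (R h)‖ := by
        have h2 : Qs h ^ c₀ ≤ ‖Mf (R h)‖ := by
          rcases hht (Qs h) (le_trans (le_max_left _ _) (hge h)) (gf (R h)) (Mf (R h))
            (hind _) (fun v j i => hsz (R h) v j i) (hprim _) (horth _) with h3 | h3
          · exact absurd h3 (hnot _)
          · exact h3
        have h3 := Real.log_le_log (Real.rpow_pos_of_pos (hQ0 h) _) h2
        rwa [Real.log_rpow (hQ0 h)] at h3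
      have h2 : Real.log (K ^ (∑ h, d h)) = ((∑ h, d h : ℕ) : ℝ) * Real.log K := by
        rw [Real.log_pow]
      rw [h2]
      have h3 : ((∑ h, d h : ℕ) : ℝ) * Real.log K + K' * (∑ h', d h' : ℕ)
          ≤ (2 * m * D) * (Real.log K + K') := by
        have h0 : 0 ≤ Real.log K + K' := by linarith
        calc ((∑ h, d h : ℕ) : ℝ) * Real.log K + K' * (∑ h', d h' : ℕ)
            = ((∑ h, d h : ℕ) : ℝ) * (Real.log K + K') := by ring
          _ ≤ (2 * m * D) * (Real.log K + K') := mul_le_mul_of_nonneg_right hsum h0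
      have h4 : (2 * m * D) * (Real.log K + K') ≤ ω₁ * c₀ * (D * l 0) := by
        have h5 : 2 * m * (Real.log K + K') ≤ L₀ * (ω₁ * c₀) := by
          rwa [div_le_iff₀ (by positivity)] at hL₀b
        have h6 : L₀ * (ω₁ * c₀) ≤ l 0 * (ω₁ * c₀) :=
          mul_le_mul_of_nonneg_right (hlge 0) (by positivity)
        have h7 : 2 * m * (Real.log K + K') * D ≤ l 0 * (ω₁ * c₀) * D :=
          mul_le_mul_of_nonneg_right (le_trans h5 h6) (by linarith)
        calc (2 * m * D) * (Real.log K + K') = 2 * m * (Real.log K + K') * D := by ring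
          _ ≤ l 0 * (ω₁ * c₀) * D := h7
          _ = ω₁ * c₀ * (D * l 0) := by ring
      have h5 : ω₁ * c₀ * (D * l 0) ≤ ω * d h * Real.log ‖Mf (R h)‖ := by
        have h6 := hdl h
        have h7 := hlpos h
        calc ω₁ * c₀ * (D * l 0) ≤ ω₁ * c₀ * (d h * l h) := by
              apply mul_le_mul_of_nonneg_left h6; positivity
          _ = ω₁ * d h * (c₀ * l h) := by ring
          _ ≤ ω * d h * (c₀ * l h) := by
              apply mul_le_mul_of_nonneg_right _ (by positivity)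
              apply mul_le_mul_of_nonneg_right hω₁leω (by positivity)
          _ ≤ ω * d h * Real.log ‖Mf (R h)‖ := by
              apply mul_le_mul_of_nonneg_left h1; positivity
      linarith
    obtain ⟨b, hb1, hb2⟩ := hroth d P (fun h => Mf (R h)) (fun h => gf (R h)) a
      (K ^ (∑ h, d h)) hd0 hd2 hP0 hPh hH hPc (fun h => hprim _) ha (fun h j => horth _ j)
      (fun h => hind _) hcond
    exact hb2 (hvan' b hb1)
  · -- Q₀ ^ Σ d ≤ E
    have hQ₀pos : 0 < Q₀ := by linarith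
    rw [← Real.log_le_log_iff (pow_pos hQ₀pos _) hEpos, Real.log_pow, hlogE]
    have h1 : 2 * m * Real.log Q₀ * D ≤ l 0 * D := by
      apply mul_le_mul_of_nonneg_right _ (by linarith)
      exact le_trans hL₀a (hlge 0)
    calc ((∑ h, d h : ℕ) : ℝ) * Real.log Q₀ ≤ (2 * m * D) * Real.log Q₀ :=
          mul_le_mul_of_nonneg_right hsum hlogQ₀
      _ = 2 * m * Real.log Q₀ * D := by ring
      _ ≤ l 0 * D := h1
      _ = D * l 0 := by ring
  · intro h
    rw [← Real.log_le_log_iff hEpos (pow_pos (hQ0 h) _), Real.log_pow, hlogE]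
    exact hdl h
  · intro h
    rw [← Real.log_le_log_iff (pow_pos (hQ0 h) _) (Real.rpow_pos_of_pos hEpos _), Real.log_pow,
      Real.log_rpow hEpos, hlogE]
    have h1 := hdu h
    have h2 := hlm h
    nlinarith
  · intro h i
    by_cases hi : i = a h
    · subst hi; simp
    · simp [Pi.single_eq_of_ne hi]

end Pool.Agent.SST
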