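import Pool.Agent.SST.ParamB
import Pool.Agent.SST.Penult
import Pool.Agent.SST.BasisA

set_option autoImplicit false

namespace Pool.Agent.SST.ParamC

open Matrix Pool.Agent.SST Pool.Agent.SST.ParamA Pool.Agent.SST.ParamB

/-- the exponents of the compound system -/
noncomputable def cc {n : ℕ} {S : Finset ℕ} (c : Option S → Fin n → ℝ) (k : Fin n)
    (π : Equiv.Perm (Fin n)) (z : Fin n → ℤ) (e1 γ : ℝ) : Option S → Sub n (n - k) → ℝ
  | some p, I => ∑ i ∈ I.1, c (some p) i + e1
  | none, I => ∑ i ∈ I.1, c none i + e1 + ((∑ i ∈ I.1, e1 * z (π.symm i)) -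
      (if ∀ i ∈ I.1, k ≤ π.symm i then γ else 0))

theorem cmp_isUnit {n r : ℕ} (A : Matrix (Fin n) (Fin n) ℚ) (hA : IsUnit A.det) :
    IsUnit (cmp r A).det := by
  have h : cmp r A * cmp r A⁻¹ = 1 := by
    rw [← cmp_mul, Matrix.mul_nonsing_inv _ hA, cmp_one]
  exact Matrix.isUnit_det_of_right_inverse h

theorem system (n : ℕ) (S : Finset ℕ) (hS : ∀ p ∈ S, p.Prime)
    (A : Option S → Matrix (Fin n) (Fin n) ℚ) (hA : ∀ v, IsUnit (A v).det)
    (c : Option S → Fin n → ℝ) (k : Fin n) (π : Equiv.Perm (Fin n)) (z : Fin n → ℤ) (e1 γ C : ℝ)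
    (hγ : 0 < γ) (hC : 1 ≤ C)
    (hc' : ∑ v, ∑ I, cc c k π z e1 γ v I < 0) :
    ∃ Q₁ : ℝ, 1 ≤ Q₁ ∧ ∃ T : Set (Submodule ℚ (Fin n → ℚ)), T.Finite ∧ (∀ U ∈ T, U ≠ ⊤) ∧
      ∀ (Q : ℝ) (g : Fin n → Fin n → ℤ) (μ : Fin n → ℝ), Q₁ ≤ Q →
        (LinearIndependent ℚ fun j => qv (g j)) →
        (∀ (p : S) j i, plc S hS (some p) ((A (some p) *ᵥ qv (g j)) i) ≤ Q ^ c (some p) i) →
        (∀ i j, plc S hS none ((A none *ᵥ qv (g j)) (π i)) ≤
          C * Q ^ c none (π i) * min (μ i) (μ j)) →
        (∀ j, 0 < μ j) → Monotone μ → (∀ j, μ j ≤ Q ^ (e1 * z j)) →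
        (∀ j : Fin n, j < k → μ j ≤ Q ^ (-γ) * μ k) →
        n.factorial * C ^ n ≤ Q ^ e1 →
        ∃ U ∈ T, Submodule.span ℚ ((fun j => qv (g j)) '' {j | j < k}) ≤ U := by
  classical
  set r := n - (k : ℕ) with hr
  have hrpos : 0 < r := by have := k.2; omega
  let κ' : Type := {J : Sub n r // J ≠ top0 k}
  have hcard : Fintype.card κ' + 1 = Fintype.card (Sub n r) := by
    have h1 := Fintype.card_subtype_compl (fun J : Sub n r => J = top0 k)
    have h2 : Fintype.card {J : Sub n r // J = top0 k} = 1 := Fintype.card_unique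
    have h3 : 0 < Fintype.card (Sub n r) := Fintype.card_pos_iff.mpr ⟨top0 k⟩
    have h4 : Fintype.card κ' = Fintype.card {J : Sub n r // ¬ J = top0 k} := rfl
    omega
  obtain ⟨Q₁, hQ₁, W, hW, hpen⟩ := penultimate (κ := κ') hcard (plc S hS) (RB.prodGe_plc S hS)
    (fun v => cmp r (A v)) (fun v => cmp_isUnit (A v) (hA v)) (cc c k π z e1 γ) hc'
  let i0 : Fin r := ⟨0, hrpos⟩
  refine ⟨Q₁, hQ₁, (fun M => ker (qv M) i0) '' {M ∈ W | qv M ≠ 0}, ?_, ?_, ?_⟩
  · exact (hW.subset (Set.sep_subset _ _)).image _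
  · rintro _ ⟨M, ⟨_, hM⟩, rfl⟩
    exact ker_ne_top _ hM i0
  intro Q g μ hQ hind hfin hinf hμ hmono hμz hgap hCn
  have hQpos : 0 < Q := by linarith
  have hQone : 1 ≤ Q := by linarith
  -- the matrix of the points
  set Gz : Matrix (Fin n) (Fin n) ℤ := Matrix.of fun i j => g j i with hGz
  set G : Matrix (Fin n) (Fin n) ℚ := Matrix.of fun i j => qv (g j) i with hG
  have hGmap : Gz.map (Int.castRingHom ℚ) = G := by
    ext i j; simp [hGz, hG, qv]
  have hGdet : IsUnit G.det := by
    rw [← Matrix.isUnit_iff_isUnit_det, ← Matrix.linearIndependent_cols_iff_isUnit]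
    exact hind
  have hcmpG : ∀ I J : Sub n r, ((cmp r Gz I J : ℤ) : ℚ) = cmp r G I J := by
    intro I J
    have h1 := RingHom.map_det (Int.castRingHom ℚ) (Gz.submatrix I.emb J.emb)
    have h2 : G.submatrix I.emb J.emb =
        (Int.castRingHom ℚ).mapMatrix (Gz.submatrix I.emb J.emb) := by
      rw [← hGmap]; rfl
    simp only [cmp]
    rw [h2, ← h1]
    rfl
  have hAG : ∀ v i j, (A v * G) i j = (A v *ᵥ qv (g j)) i := by
    intro v i j
    simp [Matrix.mul_apply, Matrix.mulVec, dotProduct, hG]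
  -- the form M
  have hrow : (fun I => cmp r (G⁻¹) (top0 k) I) ≠ 0 := by
    intro h0
    have h1 : cmp r G⁻¹ * cmp r G = 1 := by
      rw [← cmp_mul, Matrix.nonsing_inv_mul _ hGdet, cmp_one]
    have h2 := congrFun (congrFun h1 (top0 k)) (top0 k)
    rw [Matrix.mul_apply, Matrix.one_apply_eq] at h2
    have h3 : ∀ I, cmp r (G⁻¹) (top0 k) I = 0 := fun I => congrFun h0 I
    simp [h3] at h2
  obtain ⟨M, lam, hlam, hprim, hM⟩ := exists_prim _ hrow
  have hMne : qv M ≠ 0 := by
    rw [hM]; exact smul_ne_zero hlam hrow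
  have hMW : M ∈ W := by
    refine hpen Q hQ (fun J I => cmp r Gz I J.1) M ?_ ?_ hprim ?_
    · have h1 : LinearIndependent ℚ (cmp r G).col := by
        rw [Matrix.linearIndependent_cols_iff_isUnit, Matrix.isUnit_iff_isUnit_det]
        exact cmp_isUnit G hGdet
      have h2 := h1.comp (fun J : κ' => J.1) Subtype.val_injective
      convert h2 using 1
      funext J I
      simp only [qv, Function.comp, Matrix.col]
      exact hcmpG I J.1
    · intro v J I
      have h1 : (cmp r (A v) *ᵥ qv fun I => cmp r Gz I J.1) I = cmp r (A v * G) I J.1 := by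
        rw [cmp_mul, Matrix.mul_apply, Matrix.mulVec, dotProduct]
        refine Finset.sum_congr rfl fun x _ => ?_
        rw [qv, hcmpG]
      rw [h1]
      have hfac : (r.factorial : ℝ) * C ^ r ≤ Q ^ e1 := by
        refine le_trans ?_ hCn
        have h2 : (r.factorial : ℝ) ≤ n.factorial := by
          exact_mod_cast Nat.factorial_le (by omega)
        have h3 : C ^ r ≤ C ^ n := pow_le_pow_right₀ hC (by omega)
        have h4 : (0 : ℝ) ≤ C ^ r := by positivity
        exact mul_le_mul h2 h3 h4 (by positivity)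
      have hfac1 : (r.factorial : ℝ) ≤ Q ^ e1 := by
        refine le_trans ?_ hfac
        have h3 : 1 ≤ C ^ r := one_le_pow₀ hC
        have h4 : (0 : ℝ) ≤ r.factorial := by positivity
        nlinarith
      rcases v with _ | p
      · -- infinite place
        have h2 := sizes_inf (plc S hS none) (A none * G) π (fun i => Q ^ c none i) μ C
          (by linarith) (fun i => (Real.rpow_pos_of_pos hQpos _).le) (fun i => (hμ i).le)
          (fun i j => by rw [hAG]; exact hinf i j) I J.1
        refine le_trans h2 ?_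
        have hprodc : ∏ i ∈ I.1, Q ^ c none i = Q ^ (∑ i ∈ I.1, c none i) := by
          rw [Real.rpow_sum_of_pos hQpos]
        have hprodz : ∏ i ∈ I.1, μ (π.symm i) ≤ Q ^ (∑ i ∈ I.1, e1 * z (π.symm i)) := by
          rw [Real.rpow_sum_of_pos hQpos]
          exact Finset.prod_le_prod (fun i _ => (hμ _).le) fun i _ => hμz _
        have hmin : min (∏ i ∈ I.1, μ (π.symm i)) (∏ j ∈ J.1.1, μ j) ≤
            Q ^ ((∑ i ∈ I.1, e1 * z (π.symm i)) -
              (if ∀ i ∈ I.1, k ≤ π.symm i then γ else 0)) := by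
          split_ifs with hcase
          · refine le_trans (min_le_right _ _) ?_
            have h3 := prod_ne_top k μ hμ hmono (Q ^ (-γ)) (Real.rpow_pos_of_pos hQpos _).le
              (Real.rpow_le_one_of_one_le_of_nonpos hQone (by linarith)) hgap J.1 J.2
            refine le_trans h3 ?_
            rw [sub_eq_neg_add, Real.rpow_add hQpos]
            apply mul_le_mul_of_nonneg_left _ (Real.rpow_pos_of_pos hQpos _).le
            refine le_trans (le_of_eq ?_) hprodz
            have h4 : Finset.Ici k = I.1.map π.symm.toEmbedding := by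
              symm
              apply Finset.eq_of_subset_of_card_le
              · intro x hx
                rw [Finset.mem_map] at hx
                obtain ⟨y, hy, rfl⟩ := hx
                rw [Finset.mem_Ici]
                exact hcase y hy
              · rw [Finset.card_map, Fin.card_Ici, I.2]
            rw [h4, Finset.prod_map]
            rfl
          · rw [sub_zero]
            exact le_trans (min_le_left _ _) hprodz
        have hexp : Q ^ cc c k π z e1 γ none I = Q ^ (∑ i ∈ I.1, c none i) * Q ^ e1 *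
            Q ^ ((∑ i ∈ I.1, e1 * z (π.symm i)) -
              (if ∀ i ∈ I.1, k ≤ π.symm i then γ else 0)) := by
          rw [← Real.rpow_add hQpos, ← Real.rpow_add hQpos]
          rfl
        rw [hexp, hprodc]
        have h5 : 0 ≤ Q ^ (∑ i ∈ I.1, c none i) := (Real.rpow_pos_of_pos hQpos _).le
        have h6 : 0 ≤ min (∏ i ∈ I.1, μ (π.symm i)) (∏ j ∈ J.1.1, μ j) :=
          le_min (Finset.prod_nonneg fun i _ => (hμ _).le) (Finset.prod_nonneg fun i _ => (hμ _).le)
        calc (r.factorial : ℝ) * (C ^ r * Q ^ (∑ i ∈ I.1, c none i) *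
              min (∏ i ∈ I.1, μ (π.symm i)) (∏ j ∈ J.1.1, μ j))
            = (r.factorial * C ^ r) * (Q ^ (∑ i ∈ I.1, c none i) *
              min (∏ i ∈ I.1, μ (π.symm i)) (∏ j ∈ J.1.1, μ j)) := by ring
          _ ≤ Q ^ e1 * (Q ^ (∑ i ∈ I.1, c none i) *
              min (∏ i ∈ I.1, μ (π.symm i)) (∏ j ∈ J.1.1, μ j)) :=
              mul_le_mul_of_nonneg_right hfac (mul_nonneg h5 h6)
          _ ≤ Q ^ e1 * (Q ^ (∑ i ∈ I.1, c none i) * Q ^ ((∑ i ∈ I.1, e1 * z (π.symm i)) -
              (if ∀ i ∈ I.1, k ≤ π.symm i then γ else 0))) := by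
              apply mul_le_mul_of_nonneg_left _ (Real.rpow_pos_of_pos hQpos _).le
              exact mul_le_mul_of_nonneg_left hmin h5
          _ = _ := by ring
      · -- finite place
        have h2 := sizes_fin (plc S hS (some p)) (A (some p) * G) (fun i => Q ^ c (some p) i)
          (fun i j => by rw [hAG]; exact hfin p j i) I J.1
        refine le_trans h2 ?_
        have hexp : Q ^ cc c k π z e1 γ (some p) I =
            Q ^ e1 * Q ^ (∑ i ∈ I.1, c (some p) i) := by
          rw [← Real.rpow_add hQpos]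
          simp only [cc]
          congr 1
          ring
        rw [hexp, Real.rpow_sum_of_pos hQpos]
        exact mul_le_mul_of_nonneg_right hfac1
          (Finset.prod_nonneg fun i _ => (Real.rpow_pos_of_pos hQpos _).le)
    · intro J
      have h1 : cmp r G⁻¹ * cmp r G = 1 := by
        rw [← cmp_mul, Matrix.nonsing_inv_mul _ hGdet, cmp_one]
      have h2 := congrFun (congrFun h1 (top0 k)) J.1
      rw [Matrix.mul_apply, Matrix.one_apply_ne (fun h => J.2 h.symm)] at h2
      have h3 : ((M ⬝ᵥ fun I => cmp r Gz I J.1 : ℤ) : ℚ) = 0 := by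
        rw [dotProduct]
        push_cast
        have h4 : ∀ I, ((M I : ℤ) : ℚ) = lam * cmp r (G⁻¹) (top0 k) I := by
          intro I
          have := congrFun hM I
          simpa [qv] using this
        have h5 : ∑ I, ((M I : ℤ) : ℚ) * ((cmp r Gz I J.1 : ℤ) : ℚ) =
            lam * ∑ I, cmp r (G⁻¹) (top0 k) I * cmp r G I J.1 := by
          rw [Finset.mul_sum]
          refine Finset.sum_congr rfl fun I _ => ?_
          rw [h4, hcmpG]; ring
        rw [h5, h2, mul_zero]
      exact_mod_cast h3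
  refine ⟨ker (qv M) i0, ⟨M, ⟨hMW, hMne⟩, rfl⟩, ?_⟩
  have h := span_le_ker k G hGdet lam (qv M) hM i0
  exact h

end Pool.Agent.SST.ParamC
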