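import Pool.Agent.SST.BasisA

set_option autoImplicit false

namespace Pool.Agent.SST

theorem finite_small (n : ℕ) (S : Finset ℕ) (hS : ∀ p ∈ S, p.Prime)
    (A : Matrix (Fin n) (Fin n) ℚ) (hA : IsUnit A.det) (B : ℝ) :
    {x : Fin n → ℤ | ∀ i, plc S hS none ((A.mulVec (qv x)) i) ≤ B}.Finite := by
  classical
  have key : ∀ x : Fin n → ℤ, (∀ i, plc S hS none ((A.mulVec (qv x)) i) ≤ B) → ∀ i,
      |(x i : ℝ)| ≤ ∑ j, |((A⁻¹ i j : ℚ) : ℝ)| * |B| := by
    intro x hx i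
    have h1 : qv x = A⁻¹.mulVec (A.mulVec (qv x)) := by
      rw [Matrix.mulVec_mulVec, Matrix.nonsing_inv_mul _ hA, Matrix.one_mulVec]
    have h2 : (x i : ℝ) = ∑ j, ((A⁻¹ i j : ℚ) : ℝ) * (((A.mulVec (qv x)) j : ℚ) : ℝ) := by
      have h3 : (x i : ℚ) = ∑ j, A⁻¹ i j * (A.mulVec (qv x)) j := by
        have := congrFun h1 i
        simpa [qv, Matrix.mulVec, dotProduct] using this
      exact_mod_cast congrArg (fun q : ℚ => (q : ℝ)) h3
    rw [h2]
    refine le_trans (Finset.abs_sum_le_sum_abs _ _) (Finset.sum_le_sum fun j _ => ?_)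
    rw [abs_mul]
    apply mul_le_mul_of_nonneg_left _ (abs_nonneg _)
    have h4 := hx j
    rw [RB.plc_none] at h4
    exact le_trans (by exact_mod_cast h4) (le_abs_self _)
  set K : ℝ := ∑ i, ∑ j, |((A⁻¹ i j : ℚ) : ℝ)| * |B| with hK
  obtain ⟨N, hN⟩ := exists_nat_ge K
  refine Set.Finite.subset (Set.finite_coe_iff.mp (Fintype.finite
    (inferInstance : Fintype {x : Fin n → ℤ // x ∈ Fintype.piFinset fun _ : Fin n =>
      Finset.Icc (-(N : ℤ)) N}))) ?_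
  intro x hx
  rw [Set.mem_ofPred_eq] at hx
  show x ∈ Fintype.piFinset fun _ : Fin n => Finset.Icc (-(N : ℤ)) N
  rw [Fintype.mem_piFinset]
  intro i
  have h1 : |(x i : ℝ)| ≤ N := by
    refine le_trans (key x hx i) (le_trans ?_ hN)
    exact Finset.single_le_sum (f := fun i => ∑ j, |((A⁻¹ i j : ℚ) : ℝ)| * |B|)
      (fun _ _ => Finset.sum_nonneg fun _ _ => by positivity) (Finset.mem_univ i)
  rw [abs_le] at h1
  rw [Finset.mem_Icc]
  exact ⟨by exact_mod_cast h1.1, by exact_mod_cast h1.2⟩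

theorem some_large (n : ℕ) (S : Finset ℕ) (hS : ∀ p ∈ S, p.Prime)
    (A : Matrix (Fin n) (Fin n) ℚ) (hA : IsUnit A.det) :
    ∃ D : ℝ, 1 ≤ D ∧ ∀ x : Fin n → ℤ, x ≠ 0 →
      ∃ i, 1 ≤ D * plc S hS none ((A.mulVec (qv x)) i) := by
  classical
  obtain ⟨b, hb⟩ := IsLocalization.exist_integer_multiples_of_finite (nonZeroDivisors ℤ)
    (fun p : Fin n × Fin n => A p.1 p.2)
  have hb0 : (b : ℤ) ≠ 0 := nonZeroDivisors.coe_ne_zero b
  choose a ha using hb
  have ha' : ∀ i j, (a (i, j) : ℚ) = ((b : ℤ) : ℚ) * A i j := by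
    intro i j
    have := ha (i, j)
    simpa [Algebra.smul_def] using this
  have hbR : (1 : ℝ) ≤ |((b : ℤ) : ℝ)| := by
    have : (1 : ℤ) ≤ |(b : ℤ)| := Int.one_le_abs hb0
    exact_mod_cast this
  refine ⟨|((b : ℤ) : ℝ)|, hbR, fun x hx => ?_⟩
  have hne : A.mulVec (qv x) ≠ 0 := by
    intro h0
    apply hx
    have h1 : qv x = 0 := by
      have : A⁻¹.mulVec (A.mulVec (qv x)) = qv x := by
        rw [Matrix.mulVec_mulVec, Matrix.nonsing_inv_mul _ hA, Matrix.one_mulVec]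
      rw [← this, h0, Matrix.mulVec_zero]
    funext i
    have := congrFun h1 i
    simpa [qv] using this
  obtain ⟨i, hi⟩ := Function.ne_iff.mp hne
  refine ⟨i, ?_⟩
  have h1 : (((∑ j, a (i, j) * x j : ℤ)) : ℚ) = ((b : ℤ) : ℚ) * (A.mulVec (qv x)) i := by
    push_cast
    rw [Matrix.mulVec, dotProduct, Finset.mul_sum]
    refine Finset.sum_congr rfl fun j _ => ?_
    rw [ha', qv]; ring
  have h2 : (∑ j, a (i, j) * x j : ℤ) ≠ 0 := by
    intro h0
    rw [h0] at h1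
    have h3 : ((b : ℤ) : ℚ) ≠ 0 := by exact_mod_cast hb0
    apply hi
    have h4 : ((b : ℤ) : ℚ) * (A.mulVec (qv x)) i = 0 := by rw [← h1]; norm_num
    simpa [h3] using h4
  have h3 : (1 : ℝ) ≤ |(((∑ j, a (i, j) * x j : ℤ)) : ℝ)| := by
    have := Int.one_le_abs h2
    exact_mod_cast this
  rw [RB.plc_none]
  have h4 : (((∑ j, a (i, j) * x j : ℤ)) : ℝ) =
      ((b : ℤ) : ℝ) * (((A.mulVec (qv x)) i : ℚ) : ℝ) := by
    exact_mod_cast congrArg (fun q : ℚ => (q : ℝ)) h1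
  rw [h4, abs_mul] at h3
  simpa using h3

theorem span_ne_top (n : ℕ) (hn : 2 ≤ n) (x : Fin n → ℚ) :
    Submodule.span ℚ {x} ≠ ⊤ := by
  intro h
  have h1 : Module.finrank ℚ (Submodule.span ℚ {x}) ≤ 1 := by
    have := finrank_span_le_card (R := ℚ) ({x} : Set (Fin n → ℚ))
    simpa using this
  rw [h, finrank_top, Module.finrank_fin_fun] at h1
  omega

end Pool.Agent.SST
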