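import Pool.Agent.SST.ParamC
import Pool.Agent.SST.Basis
import Pool.Agent.SST.SmallVec

set_option autoImplicit false

namespace Pool.Agent.SST.ParamD

open Matrix Pool.Agent.SST Pool.Agent.SST.ParamA Pool.Agent.SST.ParamB Pool.Agent.SST.ParamC

/-- the sum of the exponents of the compound system is negative -/
theorem sum_cc_neg {n : ℕ} {S : Finset ℕ} (c : Option S → Fin n → ℝ) (k : Fin n)
    (π : Equiv.Perm (Fin n)) (z : Fin n → ℤ) (e1 γ δ t : ℝ) (N : ℕ)
    (hN : ∀ f : Fin n → ℝ, ∑ I : Sub n (n - k), ∑ i ∈ I.1, f i = N * ∑ i, f i)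
    (hγ : 0 < γ) (hc : ∑ v, ∑ i, c v i = -δ)
    (hz : ∑ i, e1 * (z i : ℝ) ≤ t + δ + n * e1)
    (ht : N * t ≤ γ / 4)
    (he : e1 * (N * n + (S.card + 1) * Fintype.card (Sub n (n - k))) ≤ γ / 4) :
    ∑ v, ∑ I, cc c k π z e1 γ v I < 0 := by
  classical
  have h1 : ∑ v, ∑ I, cc c k π z e1 γ v I =
      (∑ v : Option S, ∑ I : Sub n (n - k), (∑ i ∈ I.1, c v i + e1)) +
      ∑ I : Sub n (n - k), ((∑ i ∈ I.1, e1 * (z (π.symm i) : ℝ)) -
        (if ∀ i ∈ I.1, k ≤ π.symm i then γ else 0)) := by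
    rw [Fintype.sum_option, Fintype.sum_option]
    simp only [cc]
    rw [Finset.sum_add_distrib (f := fun I : Sub n (n - k) => ∑ i ∈ I.1, c none i + e1)]
    ring
  have h2 : (∑ v : Option S, ∑ I : Sub n (n - k), (∑ i ∈ I.1, c v i + e1)) =
      N * (-δ) + (S.card + 1) * Fintype.card (Sub n (n - k)) * e1 := by
    have : ∀ v : Option S, ∑ I : Sub n (n - k), (∑ i ∈ I.1, c v i + e1) =
        N * ∑ i, c v i + Fintype.card (Sub n (n - k)) * e1 := by
      intro v
      rw [Finset.sum_add_distrib, hN]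
      simp
    simp only [this]
    rw [Finset.sum_add_distrib, ← Finset.mul_sum, hc]
    simp
    ring
  have h3 : ∑ I : Sub n (n - k), ((∑ i ∈ I.1, e1 * (z (π.symm i) : ℝ)) -
        (if ∀ i ∈ I.1, k ≤ π.symm i then γ else 0)) ≤ N * (t + δ + n * e1) - γ := by
    rw [Finset.sum_sub_distrib, hN]
    have h4 : ∑ i, e1 * (z (π.symm i) : ℝ) = ∑ i, e1 * (z i : ℝ) :=
      Equiv.sum_comp π.symm (fun i => e1 * (z i : ℝ))
    rw [h4]
    have h5 : (N : ℝ) * ∑ i, e1 * (z i : ℝ) ≤ N * (t + δ + n * e1) :=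
      mul_le_mul_of_nonneg_left hz (by positivity)
    have h6 : γ ≤ ∑ I : Sub n (n - k), (if ∀ i ∈ I.1, k ≤ π.symm i then γ else 0) := by
      let I0 : Sub n (n - k) := ⟨(Finset.Ici k).map π.toEmbedding, by
        rw [Finset.card_map, Fin.card_Ici]⟩
      have h7 : (if ∀ i ∈ I0.1, k ≤ π.symm i then γ else 0) = γ := by
        rw [if_pos]
        intro i hi
        simp only [I0, Finset.mem_map] at hi
        obtain ⟨y, hy, rfl⟩ := hi
        simpa using hy
      calc γ = (if ∀ i ∈ I0.1, k ≤ π.symm i then γ else 0) := h7.symm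
        _ ≤ _ := Finset.single_le_sum
            (f := fun I : Sub n (n - k) => if ∀ i ∈ I.1, k ≤ π.symm i then γ else 0)
            (fun I _ => by split_ifs <;> linarith) (Finset.mem_univ I0)
    linarith
  rw [h1, h2]
  nlinarith

theorem param_nonpos (n : ℕ) (hn : 2 ≤ n) (S : Finset ℕ) (hS : ∀ p ∈ S, p.Prime)
    (A : Option S → Matrix (Fin n) (Fin n) ℚ) (hA : ∀ v, IsUnit (A v).det)
    (c : Option S → Fin n → ℝ) (hc : ∑ v, ∑ i, c v i < 0)
    (hneg : ∀ (p : S) i, c (some p) i ≤ 0) :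
    ∃ T : Set (Submodule ℚ (Fin n → ℚ)), T.Finite ∧ (∀ U ∈ T, U ≠ ⊤) ∧
      ∀ Q : ℝ, 1 ≤ Q → ∀ x : Fin n → ℤ,
        (∀ v i, plc S hS v ((A v *ᵥ qv x) i) ≤ Q ^ c v i) → ∃ U ∈ T, qv x ∈ U := by
  classical
  have hnpos : 0 < n := by omega
  have hnR : (0 : ℝ) < n := by exact_mod_cast hnpos
  obtain ⟨C, hC, hbasis⟩ := reduced_basis n S hS A hA
  obtain ⟨D, hD, hlarge⟩ := some_large n S hS (A none) (hA none)
  obtain ⟨δ, hδdef⟩ : ∃ δ : ℝ, ∑ v, ∑ i, c v i = -δ := ⟨-(∑ v, ∑ i, c v i), by ring⟩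
  have hδ : 0 < δ := by linarith
  choose N hN using fun r => sum_sub n r
  set Ntot : ℝ := ∑ r ∈ Finset.range (n + 1), (N r : ℝ) with hNtot
  set Stot : ℝ := ∑ r ∈ Finset.range (n + 1), (Fintype.card (Sub n r) : ℝ) with hStot
  have hNle : ∀ r, r ≤ n → (N r : ℝ) ≤ Ntot := by
    intro r hr
    exact Finset.single_le_sum (f := fun r => (N r : ℝ)) (fun _ _ => by positivity)
      (Finset.mem_range.mpr (by omega))
  have hSle : ∀ r, r ≤ n → (Fintype.card (Sub n r) : ℝ) ≤ Stot := by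
    intro r hr
    exact Finset.single_le_sum (f := fun r => (Fintype.card (Sub n r) : ℝ))
      (fun _ _ => by positivity) (Finset.mem_range.mpr (by omega))
  have hN0 : 0 ≤ Ntot := Finset.sum_nonneg fun _ _ => by positivity
  have hS0 : 0 ≤ Stot := Finset.sum_nonneg fun _ _ => by positivity
  set γ : ℝ := δ / (2 * n ^ 2) with hγdef
  have hγ : 0 < γ := by positivity
  set e1 : ℝ := γ / (4 * (Ntot * n + (S.card + 1) * Stot + 1)) with he1def
  have hden : 0 < 4 * (Ntot * n + (S.card + 1) * Stot + 1) := by positivity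
  have he1 : 0 < e1 := div_pos hγ hden
  have he1' : e1 * (Ntot * n + (S.card + 1) * Stot) ≤ γ / 4 := by
    have h1 : e1 * (4 * (Ntot * n + (S.card + 1) * Stot + 1)) = γ := div_mul_cancel₀ _ hden.ne'
    nlinarith
  obtain ⟨cb, hcb0, hcb⟩ : ∃ cb : ℝ, 0 ≤ cb ∧ ∀ v i, |c v i| ≤ cb := by
    refine ⟨∑ v, ∑ i, |c v i|, Finset.sum_nonneg fun _ _ => Finset.sum_nonneg fun _ _ =>
      abs_nonneg _, fun v i => ?_⟩
    calc |c v i| ≤ ∑ i, |c v i| := Finset.single_le_sum (f := fun i => |c v i|)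
          (fun _ _ => abs_nonneg _) (Finset.mem_univ i)
      _ ≤ _ := Finset.single_le_sum (f := fun v => ∑ i, |c v i|)
          (fun _ _ => Finset.sum_nonneg fun _ _ => abs_nonneg _) (Finset.mem_univ v)
  set B1 : ℝ := cb + 1 with hB1
  set B : ℝ := 1 + δ + B1 * n with hB
  have hB1pos : 0 < B1 := by linarith
  have hBpos : 0 < B := by positivity
  set Z : ℤ := ⌈(B + B1) / e1⌉ + 1 with hZ
  -- the finitely many systems
  have hsys : ∀ (k : Fin n) (π : Equiv.Perm (Fin n)) (z : Fin n → ℤ),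
      ∃ Q₁ : ℝ, 1 ≤ Q₁ ∧ ∃ T : Set (Submodule ℚ (Fin n → ℚ)), T.Finite ∧ (∀ U ∈ T, U ≠ ⊤) ∧
      (∑ v, ∑ I, cc c k π z e1 γ v I < 0 →
      ∀ (Q : ℝ) (g : Fin n → Fin n → ℤ) (μ : Fin n → ℝ), Q₁ ≤ Q →
        (LinearIndependent ℚ fun j => qv (g j)) →
        (∀ (p : S) j i, plc S hS (some p) ((A (some p) *ᵥ qv (g j)) i) ≤ Q ^ c (some p) i) →
        (∀ i j, plc S hS none ((A none *ᵥ qv (g j)) (π i)) ≤
          C * Q ^ c none (π i) * min (μ i) (μ j)) →
        (∀ j, 0 < μ j) → Monotone μ → (∀ j, μ j ≤ Q ^ (e1 * z j)) →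
        (∀ j : Fin n, j < k → μ j ≤ Q ^ (-γ) * μ k) →
        n.factorial * C ^ n ≤ Q ^ e1 →
        ∃ U ∈ T, Submodule.span ℚ ((fun j => qv (g j)) '' {j | j < k}) ≤ U) := by
    intro k π z
    by_cases hneg' : ∑ v, ∑ I, cc c k π z e1 γ v I < 0
    · obtain ⟨Q₁, h1, T, h2, h3, h4⟩ := system n S hS A hA c k π z e1 γ C hγ hC hneg'
      exact ⟨Q₁, h1, T, h2, h3, fun _ => h4⟩
    · exact ⟨1, le_refl _, ∅, Set.finite_empty, by simp, fun h => absurd h hneg'⟩
  choose Q1 hQ1 T hTfin hTtop hT using hsys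
  let Pset : Finset (Fin n × Equiv.Perm (Fin n) × (Fin n → ℤ)) :=
    Finset.univ ×ˢ (Finset.univ ×ˢ Fintype.piFinset fun _ => Finset.Icc (-Z) Z)
  set Qbig : ℝ := ∑ t ∈ Pset, Q1 t.1 t.2.1 t.2.2 with hQbig
  have hQle : ∀ t ∈ Pset, Q1 t.1 t.2.1 t.2.2 ≤ Qbig := by
    intro t ht
    exact Finset.single_le_sum (f := fun t : Fin n × Equiv.Perm (Fin n) × (Fin n → ℤ) =>
      Q1 t.1 t.2.1 t.2.2) (fun t _ => by linarith [hQ1 t.1 t.2.1 t.2.2]) ht
  -- large Q
  have E1 := (tendsto_rpow_atTop he1).eventually_ge_atTop ((n.factorial : ℝ) * C ^ n)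
  have E2 := (tendsto_rpow_atTop (show (0 : ℝ) < γ / 4 by positivity)).eventually_ge_atTop
    (C ^ Ntot)
  have E3 := (tendsto_rpow_atTop (show (0 : ℝ) < δ / 2 by positivity)).eventually_ge_atTop
    (C ^ (n + 1) + 1)
  have E4 := Filter.eventually_ge_atTop (C * D)
  have E5 := Filter.eventually_ge_atTop (max (max C 2) Qbig)
  obtain ⟨Q₂, hQ₂⟩ := (E1.and (E2.and (E3.and (E4.and E5)))).exists_forall_of_atTop
  set Q₃ : ℝ := max Q₂ 1 with hQ₃
  refine ⟨(⋃ t ∈ Pset, T t.1 t.2.1 t.2.2) ∪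
    (fun x : Fin n → ℤ => Submodule.span ℚ {qv x}) ''
      {x : Fin n → ℤ | ∀ i, plc S hS none ((A none *ᵥ qv x) i) ≤ Q₃ ^ cb}, ?_, ?_, ?_⟩
  · refine Set.Finite.union ?_ ?_
    · exact Set.Finite.biUnion (Finset.finite_toSet Pset) fun t _ => hTfin _ _ _
    · exact (finite_small n S hS (A none) (hA none) _).image _
  · rintro U (hU | hU)
    · simp only [Set.mem_iUnion] at hU
      obtain ⟨t, _, hU⟩ := hU
      exact hTtop _ _ _ U hU
    · obtain ⟨x, _, rfl⟩ := hU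
      exact span_ne_top n hn _
  intro Q hQ x hx
  by_cases hsmall : Q ≤ Q₃ ∨ x = 0
  · -- small parameter
    refine ⟨Submodule.span ℚ {qv x}, Or.inr ⟨x, ?_, rfl⟩, Submodule.mem_span_singleton_self _⟩
    intro i
    rcases hsmall with h | h
    · calc plc S hS none ((A none *ᵥ qv x) i) ≤ Q ^ c none i := hx none i
        _ ≤ Q ^ cb := Real.rpow_le_rpow_of_exponent_le hQ (le_trans (le_abs_self _) (hcb _ _))
        _ ≤ Q₃ ^ cb := Real.rpow_le_rpow (by linarith) h hcb0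
    · have : qv x = 0 := by rw [h]; funext j; simp [qv]
      rw [this, Matrix.mulVec_zero]
      simp only [Pi.zero_apply, map_zero]
      exact Real.rpow_nonneg (le_trans zero_le_one (le_max_right _ _)) _
  push Not at hsmall
  obtain ⟨hQbig3, hx0⟩ := hsmall
  have hQ2 : Q₂ ≤ Q := le_trans (le_max_left _ _) hQbig3.le
  obtain ⟨F1, F2, F3, F4, F5⟩ := hQ₂ Q hQ2
  have hQpos : 0 < Q := by linarith
  have hQ2' : 2 ≤ Q := le_trans (le_trans (le_max_right _ _) (le_max_left _ _)) F5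
  have hQC : C ≤ Q := le_trans (le_trans (le_max_left _ _) (le_max_left _ _)) F5
  have hQB : Qbig ≤ Q := le_trans (le_max_right _ _) F5
  have hQ1' : 1 < Q := by linarith
  have hCpos : 0 < C := by linarith
  obtain ⟨g, π, μ, hμ, hmono, hind, hfin, hinf, hup, hlow, hesc⟩ :=
    hbasis (fun v i => Q ^ c v i) (fun v i => Real.rpow_pos_of_pos hQpos _)
      (fun p i => Real.rpow_le_one_of_one_le_of_nonpos hQ (hneg p i))
  have hprodr : ∏ v, ∏ i, Q ^ c v i = Q ^ (-δ) := by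
    rw [← hδdef, Real.rpow_sum_of_pos hQpos]
    refine Finset.prod_congr rfl fun v _ => ?_
    rw [Real.rpow_sum_of_pos hQpos]
  rw [hprodr] at hup hlow
  have hQδ : 0 < Q ^ (-δ) := Real.rpow_pos_of_pos hQpos _
  -- existence of the gap
  let P : ℕ → Prop := fun k => ∃ h : k < n, C * Q ^ (γ * (k + 1)) < μ ⟨k, h⟩
  have hPlast : P (n - 1) := by
    refine ⟨by omega, ?_⟩
    by_contra hcon
    push Not at hcon
    have h1 : ∀ j, μ j ≤ C * Q ^ (γ * n) := by
      intro j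
      have h2 : μ j ≤ μ ⟨n - 1, by omega⟩ := hmono (by
        rw [Fin.le_def]; have := j.2; simp only; omega)
      have h3 : ((n - 1 : ℕ) : ℝ) + 1 = n := by
        have : n - 1 + 1 = n := by omega
        exact_mod_cast this
      rw [h3] at hcon
      linarith
    have h2 : ∏ j, μ j ≤ (C * Q ^ (γ * n)) ^ n := by
      calc ∏ j, μ j ≤ ∏ _j : Fin n, (C * Q ^ (γ * n)) :=
            Finset.prod_le_prod (fun j _ => (hμ j).le) fun j _ => h1 j
        _ = _ := by simp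
    have h3 : (C * Q ^ (γ * n)) ^ n = C ^ n * Q ^ (δ / 2) := by
      rw [mul_pow, ← Real.rpow_natCast (Q ^ (γ * n)), ← Real.rpow_mul hQpos.le]
      congr 2
      rw [hγdef]; field_simp
    rw [h3] at h2
    have h4 : C * ((∏ j, μ j) * Q ^ (-δ)) ≤ C ^ (n + 1) * Q ^ (-(δ / 2)) := by
      have h5 : (∏ j, μ j) * Q ^ (-δ) ≤ C ^ n * Q ^ (δ / 2) * Q ^ (-δ) :=
        mul_le_mul_of_nonneg_right h2 hQδ.le
      have h6 : C ^ n * Q ^ (δ / 2) * Q ^ (-δ) = C ^ n * Q ^ (-(δ / 2)) := by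
        rw [mul_assoc, ← Real.rpow_add hQpos]
        congr 2
        ring
      rw [h6] at h5
      calc C * ((∏ j, μ j) * Q ^ (-δ)) ≤ C * (C ^ n * Q ^ (-(δ / 2))) :=
            mul_le_mul_of_nonneg_left h5 hCpos.le
        _ = _ := by rw [pow_succ]; ring
    have h7 : 1 ≤ C ^ (n + 1) * Q ^ (-(δ / 2)) := le_trans hlow h4
    rw [Real.rpow_neg hQpos.le, ← div_eq_mul_inv, le_div_iff₀ (Real.rpow_pos_of_pos hQpos _)] at h7
    linarith
  have hex : ∃ k, P k := ⟨n - 1, hPlast⟩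
  set k0 := Nat.find hex with hk0
  obtain ⟨hk0n, hk0P⟩ : P k0 := Nat.find_spec hex
  have hk0min : ∀ j, j < k0 → ¬ P j := fun j hj => Nat.find_min hex hj
  set k : Fin n := ⟨k0, hk0n⟩ with hk
  have hQγ : ∀ a : ℝ, 0 ≤ a → 1 ≤ Q ^ a := fun a ha => Real.one_le_rpow hQ ha
  have hμkC : C < μ k := by
    refine lt_of_le_of_lt ?_ hk0P
    have : 1 ≤ Q ^ (γ * ((k0 : ℝ) + 1)) := hQγ _ (by positivity)
    nlinarith
  have hxspan : qv x ∈ Submodule.span ℚ ((fun j => qv (g j)) '' {j | j < k}) := by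
    by_contra hns
    obtain ⟨i, hi⟩ := hesc k x (fun p i => hx (some p) i) hns
    have h1 : C * plc S hS none ((A none *ᵥ qv x) i) ≤ C * Q ^ c none i :=
      mul_le_mul_of_nonneg_left (hx none i) hCpos.le
    have h2 : 0 < Q ^ c none i := Real.rpow_pos_of_pos hQpos _
    have h3 : μ k * Q ^ c none i ≤ C * Q ^ c none i := le_trans hi h1
    have h4 : μ k ≤ C := le_of_mul_le_mul_right h3 h2
    linarith
  have hgap : ∀ j : Fin n, j < k → μ j ≤ Q ^ (-γ) * μ k := by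
    intro j hj
    have hj' : (j : ℕ) < k0 := hj
    have h1 : μ j ≤ C * Q ^ (γ * ((j : ℕ) + 1)) := by
      by_contra hcon
      push Not at hcon
      exact hk0min j hj' ⟨j.2, hcon⟩
    have h2 : Q ^ (γ * (((j : ℕ) : ℝ) + 1)) ≤ Q ^ (γ * (k0 : ℝ)) := by
      apply Real.rpow_le_rpow_of_exponent_le hQ
      apply mul_le_mul_of_nonneg_left _ hγ.le
      exact_mod_cast hj'
    have h3 : C * Q ^ (γ * (k0 : ℝ)) = Q ^ (-γ) * (C * Q ^ (γ * ((k0 : ℝ) + 1))) := by
      have : Q ^ (γ * (k0 : ℝ)) = Q ^ (-γ) * Q ^ (γ * ((k0 : ℝ) + 1)) := by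
        rw [← Real.rpow_add hQpos]; congr 1; ring
      rw [this]; ring
    calc μ j ≤ C * Q ^ (γ * (((j : ℕ) : ℝ) + 1)) := h1
      _ ≤ C * Q ^ (γ * (k0 : ℝ)) := mul_le_mul_of_nonneg_left h2 hCpos.le
      _ = Q ^ (-γ) * (C * Q ^ (γ * ((k0 : ℝ) + 1))) := h3
      _ ≤ Q ^ (-γ) * μ k := by
          apply mul_le_mul_of_nonneg_left hk0P.le (Real.rpow_pos_of_pos hQpos _).le
  -- bounds of the minima
  have hlowμ : ∀ j, Q ^ (-B1) ≤ μ j := by
    intro j
    let j0 : Fin n := ⟨0, hnpos⟩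
    have hg0 : g j0 ≠ 0 := by
      intro h0
      apply hind.ne_zero j0
      simp only [h0]; funext i; simp [qv]
    obtain ⟨i, hi⟩ := hlarge (g j0) hg0
    have h1 := hinf (π.symm i) j0
    rw [Equiv.apply_symm_apply] at h1
    have h2 : min (μ (π.symm i)) (μ j0) ≤ μ j := le_trans (min_le_right _ _) (hmono (by
      rw [Fin.le_def]; exact Nat.zero_le _))
    have h3 : Q ^ c none i ≤ Q ^ cb :=
      Real.rpow_le_rpow_of_exponent_le hQ (le_trans (le_abs_self _) (hcb _ _))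
    have h4 : 0 ≤ min (μ (π.symm i)) (μ j0) := le_min (hμ _).le (hμ _).le
    have h5 : plc S hS none ((A none *ᵥ qv (g j0)) i) ≤ C * Q ^ cb * μ j := by
      refine le_trans h1 ?_
      have h6 : 0 ≤ C * Q ^ c none i := mul_nonneg hCpos.le (Real.rpow_pos_of_pos hQpos _).le
      calc C * Q ^ c none i * min (μ (π.symm i)) (μ j0) ≤ C * Q ^ c none i * μ j :=
            mul_le_mul_of_nonneg_left h2 h6
        _ ≤ C * Q ^ cb * μ j := by
            apply mul_le_mul_of_nonneg_right _ (hμ j).le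
            exact mul_le_mul_of_nonneg_left h3 hCpos.le
    have h6 : 1 ≤ Q ^ B1 * μ j := by
      calc (1 : ℝ) ≤ D * plc S hS none ((A none *ᵥ qv (g j0)) i) := hi
        _ ≤ D * (C * Q ^ cb * μ j) := mul_le_mul_of_nonneg_left h5 (by linarith)
        _ = (C * D) * (Q ^ cb * μ j) := by ring
        _ ≤ Q * (Q ^ cb * μ j) := by
            apply mul_le_mul_of_nonneg_right F4
            exact mul_nonneg (Real.rpow_pos_of_pos hQpos _).le (hμ j).le
        _ = Q ^ B1 * μ j := by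
            rw [hB1, Real.rpow_add hQpos, Real.rpow_one]; ring
    rw [Real.rpow_neg hQpos.le, inv_le_iff_one_le_mul₀ (Real.rpow_pos_of_pos hQpos _)]
    linarith
  have hupμ : ∀ j, μ j ≤ Q ^ B := by
    intro j
    have h1 : ∏ i, μ i ≤ C * Q ^ δ := by
      rw [Real.rpow_neg hQpos.le, ← div_eq_mul_inv,
        div_le_iff₀ (Real.rpow_pos_of_pos hQpos _)] at hup
      exact hup
    have h2 : μ j * (Q ^ (-B1)) ^ n ≤ ∏ i, μ i := by
      rw [← Finset.mul_prod_erase Finset.univ μ (Finset.mem_univ j)]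
      apply mul_le_mul_of_nonneg_left _ (hμ j).le
      have h3 : Q ^ (-B1) ≤ 1 := Real.rpow_le_one_of_one_le_of_nonpos hQ (by linarith)
      have h4 : 0 ≤ Q ^ (-B1) := (Real.rpow_pos_of_pos hQpos _).le
      calc (Q ^ (-B1)) ^ n ≤ (Q ^ (-B1)) ^ (Finset.univ.erase j).card := by
            apply pow_le_pow_of_le_one h4 h3
            exact le_trans (Finset.card_le_univ _) (by simp)
        _ ≤ ∏ i ∈ Finset.univ.erase j, μ i := by
            rw [← Finset.prod_const]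
            exact Finset.prod_le_prod (fun _ _ => h4) fun i _ => hlowμ i
    have h3 : (Q ^ (-B1)) ^ n = (Q ^ (B1 * n))⁻¹ := by
      rw [← Real.rpow_natCast, ← Real.rpow_mul hQpos.le, ← Real.rpow_neg hQpos.le]
      congr 1; ring
    rw [h3, ← div_eq_mul_inv] at h2
    have h4 : μ j ≤ (C * Q ^ δ) * Q ^ (B1 * n) := by
      rw [div_le_iff₀ (Real.rpow_pos_of_pos hQpos _)] at h2
      refine le_trans h2 ?_
      exact mul_le_mul_of_nonneg_right h1 (Real.rpow_pos_of_pos hQpos _).le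
    refine le_trans h4 ?_
    have h5 : Q ^ B = Q * Q ^ δ * Q ^ (B1 * n) := by
      rw [hB, Real.rpow_add hQpos, Real.rpow_add hQpos, Real.rpow_one]
    rw [h5]
    apply mul_le_mul_of_nonneg_right _ (Real.rpow_pos_of_pos hQpos _).le
    exact mul_le_mul_of_nonneg_right hQC (Real.rpow_pos_of_pos hQpos _).le
  -- logarithms
  set lam : Fin n → ℝ := fun j => Real.logb Q (μ j) with hlam
  have hlamμ : ∀ j, Q ^ lam j = μ j := fun j => Real.rpow_logb hQpos hQ1'.ne' (hμ j)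
  have hlamlow : ∀ j, -B1 ≤ lam j := by
    intro j
    have := hlowμ j
    rw [← hlamμ j] at this
    exact (Real.rpow_le_rpow_left_iff hQ1').mp this
  have hlamup : ∀ j, lam j ≤ B := by
    intro j
    have := hupμ j
    rw [← hlamμ j] at this
    exact (Real.rpow_le_rpow_left_iff hQ1').mp this
  let z : Fin n → ℤ := fun j => ⌈lam j / e1⌉
  have hz1 : ∀ j, lam j ≤ e1 * z j := by
    intro j
    have := Int.le_ceil (lam j / e1)
    rw [div_le_iff₀ he1] at this
    linarith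
  have hz2 : ∀ j, e1 * z j ≤ lam j + e1 := by
    intro j
    have := (Int.ceil_lt_add_one (lam j / e1)).le
    have h2 : e1 * (⌈lam j / e1⌉ : ℝ) ≤ e1 * (lam j / e1 + 1) :=
      mul_le_mul_of_nonneg_left this he1.le
    have h3 : e1 * (lam j / e1 + 1) = lam j + e1 := by field_simp
    linarith
  have hzmem : z ∈ Fintype.piFinset fun _ : Fin n => Finset.Icc (-Z) Z := by
    rw [Fintype.mem_piFinset]
    intro j
    rw [Finset.mem_Icc]
    have hZ1 : (B + B1) / e1 ≤ ((⌈(B + B1) / e1⌉ : ℤ) : ℝ) := Int.le_ceil _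
    have hZR : ((Z : ℤ) : ℝ) = ((⌈(B + B1) / e1⌉ : ℤ) : ℝ) + 1 := by rw [hZ]; push_cast; ring
    constructor
    · have h1 : -((Z : ℤ) : ℝ) ≤ (z j : ℝ) := by
        have h2 : lam j / e1 ≤ z j := Int.le_ceil _
        have h3 : -B1 / e1 ≤ lam j / e1 := div_le_div_of_nonneg_right (hlamlow j) he1.le
        have h4 : -((B + B1) / e1) ≤ -B1 / e1 := by
          rw [neg_div]
          apply neg_le_neg
          exact div_le_div_of_nonneg_right (by linarith) he1.le
        linarith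
      exact_mod_cast h1
    · have h1 : (z j : ℝ) ≤ (Z : ℝ) := by
        have h2 : (z j : ℝ) < lam j / e1 + 1 := Int.ceil_lt_add_one _
        have h3 : lam j / e1 ≤ (B + B1) / e1 := div_le_div_of_nonneg_right
          (by linarith [hlamup j]) he1.le
        linarith
      exact_mod_cast h1
  have hμz : ∀ j, μ j ≤ Q ^ (e1 * z j) := by
    intro j
    rw [← hlamμ j]
    exact Real.rpow_le_rpow_of_exponent_le hQ (hz1 j)
  -- the exponent sum
  have hsumneg : ∑ v, ∑ I, cc c k π z e1 γ v I < 0 := by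
    have hrn : n - (k : ℕ) ≤ n := Nat.sub_le _ _
    refine sum_cc_neg c k π z e1 γ δ (Real.logb Q C) (N (n - k)) (hN _) hγ hδdef ?_ ?_ ?_
    · have h1 : ∑ i, e1 * (z i : ℝ) ≤ ∑ i, (lam i + e1) := Finset.sum_le_sum fun i _ => hz2 i
      have h2 : ∑ i, (lam i + e1) = ∑ i, lam i + n * e1 := by
        rw [Finset.sum_add_distrib]; simp
      have h3 : Q ^ (∑ i, lam i) ≤ C * Q ^ δ := by
        rw [Real.rpow_sum_of_pos hQpos]
        simp only [hlamμ]
        rw [Real.rpow_neg hQpos.le, ← div_eq_mul_inv,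
          div_le_iff₀ (Real.rpow_pos_of_pos hQpos _)] at hup
        exact hup
      have h4 : C * Q ^ δ = Q ^ (Real.logb Q C + δ) := by
        rw [Real.rpow_add hQpos, Real.rpow_logb hQpos hQ1'.ne' hCpos]
      rw [h4] at h3
      have h5 := (Real.rpow_le_rpow_left_iff hQ1').mp h3
      linarith
    · have h1 : Ntot * Real.logb Q C ≤ γ / 4 := by
        have h2 : C ^ Ntot = Q ^ (Real.logb Q C * Ntot) := by
          rw [Real.rpow_mul hQpos.le, Real.rpow_logb hQpos hQ1'.ne' hCpos]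
        rw [h2] at F2
        have := (Real.rpow_le_rpow_left_iff hQ1').mp F2
        linarith
      have h3 : 0 ≤ Real.logb Q C := Real.logb_nonneg hQ1' hC
      have h4 := hNle _ hrn
      nlinarith
    · have h1 := hNle _ hrn
      have h2 := hSle _ hrn
      have h3 : (N (n - k) : ℝ) * n + (S.card + 1) * Fintype.card (Sub n (n - k)) ≤
          Ntot * n + (S.card + 1) * Stot := by
        have h4 : (N (n - k) : ℝ) * n ≤ Ntot * n := mul_le_mul_of_nonneg_right h1 hnR.le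
        have h5 : ((S.card : ℝ) + 1) * Fintype.card (Sub n (n - k)) ≤ (S.card + 1) * Stot :=
          mul_le_mul_of_nonneg_left h2 (by positivity)
        linarith
      exact le_trans (mul_le_mul_of_nonneg_left h3 he1.le) he1'
  have hmemP : (k, π, z) ∈ Pset := by
    simp only [Pset, Finset.mem_product, Finset.mem_univ, true_and]
    exact hzmem
  obtain ⟨U, hU, hle⟩ := hT k π z hsumneg Q g μ (le_trans (hQle _ hmemP) hQB) hind hfin hinf hμ
    hmono hμz hgap F1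
  refine ⟨U, Or.inl ?_, hle hxspan⟩
  simp only [Set.mem_iUnion]
  exact ⟨(k, π, z), hmemP, hU⟩

end Pool.Agent.SST.ParamD
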