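import Pool.Agent.SST.Defs
import Pool.Agent.Helper5.Roth.Main

/-!
# The lemma of Roth, in the form needed for the Subspace theorem
-/

set_option autoImplicit false

namespace Pool.Agent.SST

open MvPolynomial Matrix Pool.Agent.Helper5.Roth

theorem card_support_le {m : ℕ} (P : MvPolynomial (Fin m) ℤ) (d : Fin m → ℕ)
    (hd : ∀ h, P.degreeOf h ≤ d h) : (P.support.card : ℝ) ≤ 2 ^ (∑ h, d h) := by
  classical
  have h1 : P.support.card ≤ (Fintype.piFinset fun h : Fin m => Finset.range (d h + 1)).card := by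
    apply Finset.card_le_card_of_injOn (fun α : Fin m →₀ ℕ => (α : Fin m → ℕ))
    · intro α hα
      simp only [Finset.mem_coe] at hα
      rw [Finset.mem_coe, Fintype.mem_piFinset]
      intro h
      rw [Finset.mem_range, Nat.lt_succ_iff]
      exact (monomial_le_degreeOf h hα).trans (hd h)
    · intro α _ β _ h
      exact DFunLike.coe_injective h
  have h2 : (Fintype.piFinset fun h : Fin m => Finset.range (d h + 1)).card ≤ 2 ^ (∑ h, d h) := by
    rw [Fintype.card_piFinset, ← Finset.prod_pow_eq_pow_sum]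
    refine Finset.prod_le_prod' fun h _ => ?_
    rw [Finset.card_range]
    exact Nat.lt_two_pow_self
  exact_mod_cast h1.trans h2

theorem log_l1_le {m : ℕ} (P : MvPolynomial (Fin m) ℤ) (hP : P ≠ 0) (d : Fin m → ℕ)
    (hd : ∀ h, P.degreeOf h ≤ d h) (H : ℝ) (hH : 1 ≤ H) (hPH : CLe P H) :
    Real.log (l1 P) ≤ Real.log H + Real.log 2 * (∑ h, d h : ℕ) := by
  have h1 : l1 P ≤ 2 ^ (∑ h, d h) * H := by
    rw [l1]
    refine (Finset.sum_le_sum fun α _ => hPH α).trans ?_
    rw [Finset.sum_const, nsmul_eq_mul]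
    exact mul_le_mul_of_nonneg_right (card_support_le P d hd) (by linarith)
  have h2 := Real.log_le_log (by linarith [one_le_l1 hP]) h1
  rw [Real.log_mul (by positivity) (by linarith), Real.log_pow] at h2
  linarith

theorem roth (m : ℕ) (ε : ℝ) (hε : 0 < ε) : ∃ ω : ℝ, 0 < ω ∧ ∃ K : ℝ, 1 ≤ K ∧
    ∀ (d : Fin m → ℕ) (P : MvPolynomial (Fin m) ℤ) (p q : Fin m → ℤ) (H : ℝ),
      (∀ h, 0 < d h) → (∀ h h', h < h' → (d h' : ℝ) ≤ ω * d h) →
      P ≠ 0 → (∀ h, P.degreeOf h ≤ d h) → 1 ≤ H → CLe P H →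
      (∀ h, q h ≠ 0) → (∀ h, IsCoprime (p h) (q h)) →
      (∀ h, Real.log H + K * (∑ h', d h' : ℕ) ≤
        ω * d h * Real.log (max |(p h : ℝ)| |(q h : ℝ)|)) →
      ∃ j : Fin m →₀ ℕ, ∑ h, (j h : ℝ) / d h ≤ ε ∧
        (aeval (fun h => C ((p h : ℚ) / q h) + X h) P : MvPolynomial (Fin m) ℚ).coeff j ≠ 0 := by
  classical
  rcases m with _ | m
  · refine ⟨1, one_pos, 1, le_rfl, fun d P p q H _ _ hP _ _ _ _ _ _ => ⟨0, by simpa using hε.le, ?_⟩⟩
    have h1 : P = C (coeff 0 P) := by
      ext a
      rw [Subsingleton.elim a 0, coeff_C, if_pos rfl]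
    rw [h1, algHom_C]
    have h2 : coeff 0 P ≠ 0 := by
      intro h0
      rw [h0, C_0] at h1
      exact hP h1
    have h3 : (algebraMap ℤ (MvPolynomial (Fin 0) ℚ)) (coeff 0 P) = C ((coeff 0 P : ℤ) : ℚ) := by
      simp
    rw [h3, coeff_C, if_pos rfl]
    exact_mod_cast h2
  · obtain ⟨ω, K, hω, hω1, hK, hroth⟩ := exists_roth m (min ε 1) (lt_min hε one_pos)
      (min_le_right _ _)
    refine ⟨ω, hω, max 1 (Real.log 2 + K), le_max_left _ _,
      fun d P p q H hd hchain hP hdeg hH hPH hq hpq hlog => ?_⟩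
    -- the normalised fractions
    let p' : Fin (m + 1) → ℤ := fun h => (q (Fin.rev h)).sign * p (Fin.rev h)
    let q' : Fin (m + 1) → ℕ := fun h => (q (Fin.rev h)).natAbs
    let P' : MvPolynomial (Fin (m + 1)) ℤ := rename Fin.rev P
    have hrinj : Function.Injective (Fin.rev : Fin (m + 1) → Fin (m + 1)) := Fin.rev_injective
    have hsign : ∀ h, (q (Fin.rev h)).sign = 1 ∨ (q (Fin.rev h)).sign = -1 := by
      intro h
      rcases lt_or_gt_of_ne (hq (Fin.rev h)) with h1 | h1
      · exact Or.inr (Int.sign_eq_neg_one_of_neg h1)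
      · exact Or.inl (Int.sign_eq_one_of_pos h1)
    have hfrac : ∀ h, ((p' h : ℤ) : ℚ) / (q' h : ℕ) = (p (Fin.rev h) : ℚ) / q (Fin.rev h) := by
      intro h
      have h1 : ((q' h : ℕ) : ℚ) = ((q (Fin.rev h)).sign : ℚ) * (q (Fin.rev h) : ℚ) := by
        have h2 : ((q (Fin.rev h)).natAbs : ℤ) = (q (Fin.rev h)).sign * q (Fin.rev h) := by
          rw [Int.natCast_natAbs]
          exact (Int.sign_mul_self_eq_abs _).symm
        have h3 : (((q (Fin.rev h)).natAbs : ℤ) : ℚ) =
            (((q (Fin.rev h)).sign * q (Fin.rev h) : ℤ) : ℚ) := by rw [h2]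
        push_cast at h3
        simpa [q'] using h3
      have h4 : ((q (Fin.rev h)).sign : ℚ) ≠ 0 := by
        rcases hsign h with h5 | h5 <;> rw [h5] <;> norm_num
      rw [h1]
      simp only [p']
      push_cast
      rw [mul_div_mul_left _ _ h4]
    have hPdeg : ∀ h, P'.degreeOf h ≤ d (Fin.rev h) := by
      intro h
      have h1 : P'.degreeOf (Fin.rev (Fin.rev h)) = P.degreeOf (Fin.rev h) :=
        degreeOf_rename_of_injective hrinj _
      rw [Fin.rev_rev] at h1
      rw [h1]
      exact hdeg _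
    have hP'0 : P' ≠ 0 := by
      intro h0
      exact hP ((map_eq_zero_iff _ (rename_injective _ hrinj)).mp h0)
    have hmapc : ∀ α : Fin (m + 1) →₀ ℕ, coeff α P' = coeff (α.mapDomain Fin.rev) P := by
      intro α
      have h1 := coeff_rename_mapDomain Fin.rev hrinj P (α.mapDomain Fin.rev)
      rw [← Finsupp.mapDomain_comp] at h1
      have h2 : (Fin.rev ∘ Fin.rev : Fin (m + 1) → Fin (m + 1)) = id := by
        funext x
        simp
      rw [h2, Finsupp.mapDomain_id] at h1
      exact h1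
    have hP'H : CLe P' H := by
      intro α
      rw [hmapc]
      exact hPH _
    have hsum : ∑ h, d (Fin.rev h) = ∑ h, d h := Equiv.sum_comp Fin.revPerm d
    have hlogl1 := log_l1_le P' hP'0 (fun h => d (Fin.rev h)) hPdeg H hH hP'H
    rw [hsum] at hlogl1
    obtain ⟨i, hi, hi'⟩ := hroth (fun h => d (Fin.rev h)) ((∑ h, d h : ℕ) : ℝ) p' q' P'
      (fun h => hd _) (fun h => by
        rw [← hsum]
        exact_mod_cast Finset.single_le_sum (f := fun h => d (Fin.rev h))
          (fun _ _ => Nat.zero_le _) (Finset.mem_univ h))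
      (fun h => hchain _ _ (by
        rw [Fin.rev_lt_rev]
        exact Fin.castSucc_lt_succ))
      (fun h => Nat.one_le_iff_ne_zero.mpr (Int.natAbs_ne_zero.mpr (hq _)))
      (fun h => by
        have h1 : IsCoprime (p (Fin.rev h)) ((q' h : ℕ) : ℤ) := by
          have h2 : ((q' h : ℕ) : ℤ) = (q (Fin.rev h)).sign * q (Fin.rev h) := by
            show ((q (Fin.rev h)).natAbs : ℤ) = _
            rw [Int.natCast_natAbs]
            exact (Int.sign_mul_self_eq_abs _).symm
          rw [h2]
          rcases hsign h with h5 | h5 <;> rw [h5]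
          · simpa using hpq _
          · simpa using (hpq _).neg_right
        show IsCoprime ((q (Fin.rev h)).sign * p (Fin.rev h)) ((q' h : ℕ) : ℤ)
        rcases hsign h with h5 | h5 <;> rw [h5]
        · simpa using h1
        · simpa using h1.neg_left)
      hP'0 hPdeg
      (fun h => by
        have h1 := hlog (Fin.rev h)
        have h2 : (|((p' h : ℤ) : ℝ)|) = |(p (Fin.rev h) : ℝ)| := by
          simp only [p']
          rcases hsign h with h5 | h5 <;> rw [h5] <;> simp
        have h3 : ((q' h : ℕ) : ℝ) = |(q (Fin.rev h) : ℝ)| := by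
          simp only [q']
          rw [← Int.cast_abs, ← Int.natCast_natAbs]
          simp
        rw [h2, h3]
        refine le_trans ?_ h1
        have h4 : (Real.log 2 + K) * ((∑ h, d h : ℕ) : ℝ) ≤
            max 1 (Real.log 2 + K) * ((∑ h, d h : ℕ) : ℝ) :=
          mul_le_mul_of_nonneg_right (le_max_right _ _) (Nat.cast_nonneg _)
        linarith)
    refine ⟨i.mapDomain Fin.rev, ?_, ?_⟩
    · have h1 : ∑ h, ((i.mapDomain Fin.rev) h : ℝ) / d h = ∑ h, (i h : ℝ) / d (Fin.rev h) := by
        rw [← Equiv.sum_comp Fin.revPerm]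
        refine Finset.sum_congr rfl fun h _ => ?_
        rw [Fin.revPerm_apply, Finsupp.mapDomain_apply hrinj]
      rw [h1]
      exact (hi'.trans_le (min_le_left _ _)).le
    · have h1 : (aeval (fun h => C ((p h : ℚ) / q h) + X h) P : MvPolynomial (Fin (m + 1)) ℚ) =
          rename Fin.rev (shift (fun h => ((p' h : ℤ) : ℚ) / (q' h : ℕ))
            (map (Int.castRingHom ℚ) P')) := by
        have h2 : (aeval (R := ℤ) (fun h => C ((p h : ℚ) / q h) + X h) :
            MvPolynomial (Fin (m + 1)) ℤ →ₐ[ℤ] MvPolynomial (Fin (m + 1)) ℚ).toRingHom =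
            ((rename Fin.rev : MvPolynomial (Fin (m + 1)) ℚ →ₐ[ℚ] _).toRingHom.comp
              (shift (fun h => ((p' h : ℤ) : ℚ) / (q' h : ℕ))).toRingHom).comp
              ((map (Int.castRingHom ℚ)).comp
                (rename Fin.rev : MvPolynomial (Fin (m + 1)) ℤ →ₐ[ℤ] _).toRingHom) := by
          apply MvPolynomial.ringHom_ext
          · intro r
            simp [shift]
          · intro h
            have h3 := hfrac (Fin.rev h)
            rw [Fin.rev_rev] at h3
            simp [shift, h3, add_comm]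
        exact congrArg (fun g : MvPolynomial (Fin (m + 1)) ℤ →+* MvPolynomial (Fin (m + 1)) ℚ =>
          g P) h2
      rw [h1, coeff_rename_mapDomain Fin.rev hrinj]
      exact hi

end Pool.Agent.SST
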